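import Pool.Agent.Landau.Cons

/-!
# Landau, module Baire: mass and energy are conserved

Put `E t = mass (f t) + energy (f t) = ∫ (1 + ‖v‖²) f t v` (finite for every `t < 0`, no uniformity is
assumed).  `E_closed`: `E` is lower semicontinuous on `(-∞, 0)`: it is the supremum over `n : ℕ`, `n ≥ 1`,
of `∫ (1 + ‖v‖²) chi n v f t v`, which are continuous in `t` (`timeDer_lin`).

`E_bdd`: let `K` be the set of all `t < 0` such that `E` is unbounded on every neighbourhood of `t`
(in `(-∞, 0)`).  `K` is closed in `(-∞, 0)`, and `(-∞, 0) \ K` is open.  On a closed interval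
`[t1, t2] ⊂ (-∞, 0)` which does not meet `K`, `E` is bounded (compactness), hence constant by
`cons_local`.  Suppose that `K` is nonempty.  `K` is a Baire space (locally closed subset of `ℝ`) and the
union of the relatively closed sets `{t ∈ K : E t ≤ m}`, `m : ℕ`, so there are `s0 ∈ K`, `δ > 0`, `m` with
`(s0 - δ, s0 + δ) ⊂ (-∞, 0)` and `E ≤ m` on `K ∩ (s0 - δ, s0 + δ)`.  Claim: `E ≤ m` on
`(s0 - δ, s0 + δ)`, a contradiction to `s0 ∈ K`.  Let `t` be in this interval and not in `K`, say `t < s0`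
(the case `t > s0` is symmetric).  Let `b` be the infimum of `K ∩ [t, s0]` (a compact nonempty
set), so `b ∈ K`, `t < b`, `E b ≤ m` and `[t, b)` does not meet `K`.  By `cons_local` on `[t, s]`, `s < b`,
`E` is constant on `[t, b)`, equal to `E t`.  So `E ≤ max (E t) m` on `[t, b]`, and `cons_local` on `[t, b]`
gives `E t = E b ≤ m`.

So every `t < 0` has a neighbourhood on which `E` is bounded, and by compactness `E` is bounded on
every `[t1, t2]`.  `cons_global`: apply `cons_local` (in both orders of `t1`, `t2`).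
-/

set_option autoImplicit false

namespace Pool.Agent.Landau

open MeasureTheory Set Filter Topology

/-- mass plus energy as one integral -/
theorem baire_E_eq {g : V → ℝ} (hg : Cls g) :
    mass g + energy g = ∫ v, (1 + ‖v‖ ^ 2) * g v := by
  unfold mass energy
  rw [← integral_add hg.int_g hg.int_energy]
  congr 1
  funext v
  ring

theorem E_closed (f : ℝ → V → ℝ) (hf : Sol f) (t m : ℝ) (ht : t < 0) (u : ℕ → ℝ)
    (hu : Tendsto u atTop (𝓝 t)) (hu0 : ∀ n, u n < 0)
    (hm : ∀ n, mass (f (u n)) + energy (f (u n)) ≤ m) : mass (f t) + energy (f t) ≤ m := by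
  set φ : ℕ → V → ℝ := fun n v => (1 + ‖v‖ ^ 2) * chi ((n : ℝ) + 1) v with hφ
  have hpos : ∀ n : ℕ, (0 : ℝ) < (n : ℝ) + 1 := fun n => by positivity
  have hφc : ∀ n, Continuous (φ n) := fun n =>
    (continuous_const.add (continuous_norm.pow 2)).mul (chi_smooth _).continuous
  have hφs : ∀ n, HasCompactSupport (φ n) := fun n => (chi_compact (hpos n)).mul_left
  have hφ0 : ∀ n v, 0 ≤ φ n v := fun n v => mul_nonneg (by positivity) (chi_nonneg _ _)
  have hφ1 : ∀ n v, φ n v ≤ 1 + ‖v‖ ^ 2 := fun n v => by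
    have := mul_le_mul_of_nonneg_left (chi_le_one ((n : ℝ) + 1) v)
      (show (0 : ℝ) ≤ 1 + ‖v‖ ^ 2 by positivity)
    simpa [hφ] using this
  -- each truncated integral is at most m
  have h1 : ∀ n, ∫ v, φ n v * f t v ≤ m := by
    intro n
    have hcont : ContinuousAt (fun s => ∫ v, φ n v * f s v) t :=
      (timeDer_lin f hf (φ n) (hφc n) (hφs n) t ht).continuousAt
    have hlim : Tendsto (fun k => ∫ v, φ n v * f (u k) v) atTop (𝓝 (∫ v, φ n v * f t v)) :=
      hcont.tendsto.comp hu
    refine le_of_tendsto' hlim fun k => ?_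
    refine le_trans ?_ (hm k)
    have hc := hf.cls (u k) (hu0 k)
    rw [baire_E_eq hc]
    refine integral_mono_of_nonneg (Eventually.of_forall fun v => mul_nonneg (hφ0 n v) (hc.nonneg v))
      hc.int (Eventually.of_forall fun v => mul_le_mul_of_nonneg_right (hφ1 n v) (hc.nonneg v))
  -- dominated convergence
  have hc := hf.cls t ht
  have h2 : Tendsto (fun n : ℕ => ∫ v, φ n v * f t v) atTop (𝓝 (∫ v, (1 + ‖v‖ ^ 2) * f t v)) := by
    refine tendsto_integral_of_dominated_convergence (fun v => (1 + ‖v‖ ^ 2) * f t v)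
      (fun n => ((hφc n).mul hc.cont).aestronglyMeasurable) hc.int (fun n => ?_) ?_
    · refine Eventually.of_forall fun v => ?_
      rw [Real.norm_eq_abs, abs_of_nonneg (mul_nonneg (hφ0 n v) (hc.nonneg v))]
      exact mul_le_mul_of_nonneg_right (hφ1 n v) (hc.nonneg v)
    · refine Eventually.of_forall fun v => ?_
      refine tendsto_const_nhds.congr' ?_
      obtain ⟨N, hN⟩ := exists_nat_gt ‖v‖
      filter_upwards [eventually_ge_atTop N] with n hn
      have : ‖v‖ ≤ (n : ℝ) + 1 := by
        have : (N : ℝ) ≤ n := by exact_mod_cast hn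
        linarith
      simp only [hφ, chi_one (hpos n) this, mul_one]
  rw [baire_E_eq hc]
  exact le_of_tendsto' h2 h1

/-- Abstract form of the Baire category argument. -/
theorem baire_abstract (E : ℝ → ℝ)
    (hcl : ∀ (t m : ℝ), t < 0 → ∀ u : ℕ → ℝ, Tendsto u atTop (𝓝 t) → (∀ n, u n < 0) →
      (∀ n, E (u n) ≤ m) → E t ≤ m)
    (hloc : ∀ t1 t2 m : ℝ, t1 ≤ t2 → t2 < 0 → (∀ t ∈ Icc t1 t2, E t ≤ m) → E t2 = E t1)
    (t1 t2 : ℝ) (h2 : t2 < 0) : ∃ m : ℝ, ∀ t ∈ Icc t1 t2, E t ≤ m := by
  set U : Set ℝ := {t | ∃ O : Set ℝ, IsOpen O ∧ t ∈ O ∧ ∃ m : ℝ, ∀ s ∈ O, s < 0 → E s ≤ m} with hU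
  have hUo : IsOpen U := by
    rw [isOpen_iff_forall_mem_open]
    rintro t ⟨O, hO, htO, m, hm⟩
    exact ⟨O, fun s hs => ⟨O, hO, hs, m, hm⟩, hO, htO⟩
  -- boundedness on compact intervals inside U
  have hcomp : ∀ a b : ℝ, b < 0 → (∀ s ∈ Icc a b, s ∈ U) → ∃ m : ℝ, ∀ s ∈ Icc a b, E s ≤ m := by
    intro a b hb hab
    have hK : IsCompact (Icc a b) := isCompact_Icc
    have key := hK.induction_on (p := fun A => ∃ m : ℝ, ∀ s ∈ A, s < 0 → E s ≤ m)
      ⟨0, fun s hs => absurd hs (notMem_empty s)⟩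
      (fun A B hAB ⟨m, hm⟩ => ⟨m, fun s hs => hm s (hAB hs)⟩)
      (fun A B ⟨m, hm⟩ ⟨m', hm'⟩ => ⟨max m m', fun s hs h0 => by
        rcases hs with hs | hs
        · exact (hm s hs h0).trans (le_max_left _ _)
        · exact (hm' s hs h0).trans (le_max_right _ _)⟩)
      (fun s hs => by
        obtain ⟨O, hO, hsO, m, hm⟩ := hab s hs
        exact ⟨O, mem_nhdsWithin_of_mem_nhds (hO.mem_nhds hsO), m, hm⟩)
    obtain ⟨m, hm⟩ := key
    exact ⟨m, fun s hs => hm s hs (hs.2.trans_lt hb)⟩
  set K : Set ℝ := Iio 0 ∩ Uᶜ with hKdef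
  have hK0 : K = ∅ := by
    by_contra hne
    have hne' : K.Nonempty := nonempty_iff_ne_empty.2 hne
    have hlc : IsLocallyClosed K := ⟨Iio 0, Uᶜ, isOpen_Iio, hUo.isClosed_compl, rfl⟩
    have : LocallyCompactSpace K := hlc.locallyCompactSpace
    have : Nonempty K := hne'.to_subtype
    have hFc : ∀ m : ℕ, IsClosed {x : K | E x ≤ (m : ℝ)} := by
      intro m
      refine IsSeqClosed.isClosed ?_
      intro u x hu hux
      have h1 : Tendsto (fun n => ((u n : K) : ℝ)) atTop (𝓝 (x : ℝ)) :=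
        (continuous_subtype_val.tendsto x).comp hux
      exact hcl x m x.2.1 _ h1 (fun n => (u n).2.1) hu
    have hFu : ⋃ m : ℕ, {x : K | E x ≤ (m : ℝ)} = univ := by
      rw [eq_univ_iff_forall]
      intro x
      obtain ⟨m, hm⟩ := exists_nat_ge (E x)
      exact mem_iUnion.2 ⟨m, hm⟩
    obtain ⟨m, hm⟩ := nonempty_interior_of_iUnion_of_closed hFc hFu
    obtain ⟨x0, hx0⟩ := hm
    rw [mem_interior_iff_mem_nhds, Metric.mem_nhds_iff] at hx0
    obtain ⟨ε0, hε0, hball⟩ := hx0
    have hx00 : (x0 : ℝ) < 0 := x0.2.1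
    set ε : ℝ := min ε0 (-(x0 : ℝ)) with hε
    have hεpos : 0 < ε := lt_min hε0 (by linarith)
    have hKb : ∀ s ∈ K, |s - x0| < ε → E s ≤ m := by
      intro s hs hsx
      have : (⟨s, hs⟩ : K) ∈ Metric.ball x0 ε0 := by
        rw [Metric.mem_ball, Subtype.dist_eq, Real.dist_eq]
        exact hsx.trans_le (min_le_left _ _)
      exact hball this
    have hneg : ∀ s : ℝ, |s - x0| < ε → s < 0 := by
      intro s hs
      have h1 : ε ≤ -(x0 : ℝ) := min_le_right _ _
      have h2 := (abs_lt.1 hs).2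
      linarith
    -- claim
    have hclaim : ∀ t : ℝ, |t - x0| < ε → E t ≤ m := by
      intro t ht
      by_cases htK : t ∈ K
      · exact hKb t htK ht
      have ht0 := hneg t ht
      have hnotK : ∀ s : ℝ, s < 0 → s ∉ K → s ∈ U := by
        intro s hs hsK
        by_contra hsU
        exact hsK ⟨hs, hsU⟩
      rcases lt_trichotomy t x0 with hlt | heq | hgt
      · -- t < x0
        set S : Set ℝ := Icc t x0 ∩ Uᶜ with hS
        have hSc : IsCompact S := isCompact_Icc.inter_right hUo.isClosed_compl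
        have hSne : S.Nonempty := ⟨x0, ⟨hlt.le, le_refl _⟩, x0.2.2⟩
        have hbS : sInf S ∈ S := hSc.sInf_mem hSne
        set b := sInf S with hb
        have hb0 : b < 0 := hbS.1.2.trans_lt hx00
        have hbK : b ∈ K := ⟨hb0, hbS.2⟩
        have htb : t < b := lt_of_le_of_ne hbS.1.1 (fun h => htK (h ▸ hbK))
        have hEb : E b ≤ m := by
          refine hKb b hbK ?_
          have h1 := (abs_lt.1 ht).1
          rw [abs_lt]
          constructor
          · linarith
          · linarith [hbS.1.2]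
        have hout : ∀ s, t ≤ s → s < b → s ∈ U := by
          intro s hts hsb
          by_contra hsU
          have : s ∈ S := ⟨⟨hts, hsb.le.trans hbS.1.2⟩, hsU⟩
          exact absurd (csInf_le hSc.bddBelow this) (not_le.2 hsb)
        have hconst : ∀ s, t ≤ s → s < b → E s = E t := by
          intro s hts hsb
          obtain ⟨m', hm'⟩ := hcomp t s (hsb.trans hb0)
            (fun r hr => hout r hr.1 (hr.2.trans_lt hsb))
          exact hloc t s m' hts (hsb.trans hb0) hm'
        have hfin := hloc t b (max (E t) m) htb.le hb0 (fun s hs => by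
          rcases hs.2.lt_or_eq with h | h
          · rw [hconst s hs.1 h]; exact le_max_left _ _
          · rw [h]; exact hEb.trans (le_max_right _ _))
        rw [← hfin]
        exact hEb
      · exact absurd (heq ▸ x0.2) htK
      · -- x0 < t
        set S : Set ℝ := Icc (x0 : ℝ) t ∩ Uᶜ with hS
        have hSc : IsCompact S := isCompact_Icc.inter_right hUo.isClosed_compl
        have hSne : S.Nonempty := ⟨x0, ⟨le_refl _, hgt.le⟩, x0.2.2⟩
        have hbS : sSup S ∈ S := hSc.sSup_mem hSne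
        set b := sSup S with hb
        have hb0 : b < 0 := hbS.1.2.trans_lt ht0
        have hbK : b ∈ K := ⟨hb0, hbS.2⟩
        have hbt : b < t := lt_of_le_of_ne hbS.1.2 (fun h => htK (h ▸ hbK))
        have hEb : E b ≤ m := by
          refine hKb b hbK ?_
          have h1 := (abs_lt.1 ht).2
          rw [abs_lt]
          constructor
          · linarith [hbS.1.1]
          · linarith
        have hout : ∀ s, b < s → s ≤ t → s ∈ U := by
          intro s hbs hst
          by_contra hsU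
          have : s ∈ S := ⟨⟨hbS.1.1.trans hbs.le, hst⟩, hsU⟩
          exact absurd (le_csSup hSc.bddAbove this) (not_le.2 hbs)
        have hconst : ∀ s, b < s → s ≤ t → E s = E t := by
          intro s hbs hst
          obtain ⟨m', hm'⟩ := hcomp s t ht0
            (fun r hr => hout r (hbs.trans_le hr.1) hr.2)
          exact (hloc s t m' hst ht0 hm').symm
        have hfin := hloc b t (max (E t) m) hbt.le ht0 (fun s hs => by
          rcases hs.1.lt_or_eq with h | h
          · rw [hconst s h hs.2]; exact le_max_left _ _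
          · rw [← h]; exact hEb.trans (le_max_right _ _))
        rw [hfin]
        exact hEb
    refine x0.2.2 ⟨Metric.ball (x0 : ℝ) ε, Metric.isOpen_ball, Metric.mem_ball_self hεpos, m,
      fun s hs _ => hclaim s ?_⟩
    rwa [Metric.mem_ball, Real.dist_eq] at hs
  refine hcomp t1 t2 h2 fun s hs => ?_
  by_contra hsU
  have : s ∈ K := ⟨hs.2.trans_lt h2, hsU⟩
  rw [hK0] at this
  exact this

theorem E_bdd (f : ℝ → V → ℝ) (hf : Sol f) (t1 t2 : ℝ) (h2 : t2 < 0) :
    ∃ m : ℝ, ∀ t ∈ Icc t1 t2, mass (f t) + energy (f t) ≤ m := by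
  refine baire_abstract (fun t => mass (f t) + energy (f t)) (fun t m ht u hu hu0 hm =>
    E_closed f hf t m ht u hu hu0 hm) (fun s1 s2 m h12 hs2 hm => ?_) t1 t2 h2
  obtain ⟨e1, e2, _⟩ := cons_local f hf s1 s2 m h12 hs2 hm
  simp only [e1, e2]

theorem cons_global (f : ℝ → V → ℝ) (hf : Sol f) (t1 t2 : ℝ) (h1 : t1 < 0) (h2 : t2 < 0) :
    mass (f t2) = mass (f t1) ∧ energy (f t2) = energy (f t1) ∧
      ∀ k : Fin 3, mom k (f t2) = mom k (f t1) := by
  rcases le_total t1 t2 with h | h
  · obtain ⟨m, hm⟩ := E_bdd f hf t1 t2 h2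
    exact cons_local f hf t1 t2 m h h2 hm
  · obtain ⟨m, hm⟩ := E_bdd f hf t2 t1 h1
    obtain ⟨e1, e2, e3⟩ := cons_local f hf t2 t1 m h h1 hm
    exact ⟨e1.symm, e2.symm, fun k => (e3 k).symm⟩

end Pool.Agent.Landau
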