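import Pool.Agent.Landau.Base

/-!
# Landau, module KInt: integrals of `1 / ‖z‖` and `1 / ‖z‖ ^ 2`

In dimension three `∫ over ‖z‖ < r of 1 / ‖z‖ = 2 π r² ≤ 7 r²` and
`∫ over ‖z‖ < r of 1 / ‖z‖² = 4 π r ≤ 13 r` (`MeasureTheory.integral_fun_norm_addHaar` with
`EuclideanSpace.volume_ball_fin_three`, or lintegral versions).  Split `‖v - w‖ < r` (use `g ≤ 1`)
and `‖v - w‖ ≥ r`.
`integrable_prod_inv`: `∫ over v of |F v| / ‖v - w‖ ^ k` is bounded uniformly in `w` (apply the first
part to `|F| / C'`, `C' = max C 1`, with centre `w`), so the integral over `V × V` of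
`|F v| |u w| / ‖v - w‖ ^ k` is finite (Tonelli).
-/

set_option autoImplicit false

namespace Pool.Agent.Landau

open MeasureTheory Set Filter Topology

/-- the truncated kernel -/
noncomputable def kker (k : ℕ) (r : ℝ) (y : ℝ) : ℝ := (Iio r).indicator (fun y => 1 / y ^ k) y

theorem kker_eqOn (k : ℕ) (hk : k ≤ 2) (r : ℝ) :
    EqOn (fun y : ℝ => y ^ 2 * kker k r y)
      ((Ioo 0 r).indicator fun y : ℝ => y ^ (2 - k)) (Ioi 0) := by
  intro y hy
  have hy' : (0 : ℝ) < y := hy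
  by_cases h : y < r
  · simp only [kker]
    rw [indicator_of_mem (show y ∈ Iio r from h), indicator_of_mem (show y ∈ Ioo 0 r from ⟨hy', h⟩),
      pow_sub₀ _ hy'.ne' hk]
    ring
  · simp only [kker]
    rw [indicator_of_notMem (show y ∉ Iio r from h),
      indicator_of_notMem (show y ∉ Ioo 0 r from fun hh => h hh.2), mul_zero]

theorem kker_int (k : ℕ) (hk : k ≤ 2) (r : ℝ) (hr : 0 < r) :
    Integrable (fun z : V => kker k r ‖z‖) ∧
      ∫ z : V, kker k r ‖z‖ = 4 * Real.pi * ∫ y in (0 : ℝ)..r, y ^ (2 - k) := by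
  have hfr : Module.finrank ℝ V = 3 := by simp
  have hcont : Continuous fun y : ℝ => y ^ (2 - k) := continuous_pow _
  constructor
  · rw [integrable_fun_norm_addHaar volume (f := kker k r), hfr]
    simp only [smul_eq_mul]
    rw [show 3 - 1 = 2 from rfl, integrableOn_congr_fun (kker_eqOn k hk r) measurableSet_Ioi]
    refine Integrable.integrableOn ?_
    rw [integrable_indicator_iff measurableSet_Ioo]
    exact (hcont.integrableOn_Icc).mono_set Ioo_subset_Icc_self
  · rw [integral_fun_norm_addHaar volume (kker k r), hfr]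
    simp only [smul_eq_mul, nsmul_eq_mul]
    rw [show 3 - 1 = 2 from rfl, setIntegral_congr_fun measurableSet_Ioi (kker_eqOn k hk r),
      setIntegral_indicator measurableSet_Ioo,
      show Ioi (0 : ℝ) ∩ Ioo 0 r = Ioo 0 r from inter_eq_right.2 Ioo_subset_Ioi_self,
      ← integral_Ioc_eq_integral_Ioo, ← intervalIntegral.integral_of_le hr.le]
    have hvol : (volume : Measure V).real (Metric.ball 0 1) = Real.pi * 4 / 3 := by
      rw [Measure.real, EuclideanSpace.volume_ball_fin_three]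
      rw [ENNReal.toReal_mul, ENNReal.toReal_pow, ENNReal.toReal_ofReal (by norm_num),
        ENNReal.toReal_ofReal (by positivity)]
      ring
    rw [hvol]
    push_cast
    ring

theorem kker_int_le_one (r : ℝ) (hr : 0 < r) : ∫ z : V, kker 1 r ‖z‖ ≤ 7 * r ^ 2 := by
  rw [(kker_int 1 (by norm_num) r hr).2]
  have h : ∫ y in (0 : ℝ)..r, y ^ (2 - 1) = r ^ 2 / 2 := by
    rw [show 2 - 1 = 1 from rfl]
    simp
  rw [h]
  have := Real.pi_lt_d2
  nlinarith [sq_nonneg r, pow_pos hr 2]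

theorem kker_int_le_two (r : ℝ) (hr : 0 < r) : ∫ z : V, kker 2 r ‖z‖ ≤ 13 * r := by
  rw [(kker_int 2 le_rfl r hr).2]
  have h : ∫ y in (0 : ℝ)..r, y ^ (2 - 2) = r := by
    rw [show 2 - 2 = 0 from rfl]
    simp
  rw [h]
  have := Real.pi_lt_d2
  nlinarith

theorem kker_meas (k : ℕ) : Measurable fun z : V => (‖z‖ ^ k)⁻¹ :=
  ((measurable_norm).pow_const k).inv

theorem gen_inv (k : ℕ) (hk : k ≤ 2) (A r : ℝ) (hr : 0 < r)
    (hA : ∫ z : V, kker k r ‖z‖ ≤ A) (g : V → ℝ) (hi : Integrable g) (h0 : ∀ v, 0 ≤ g v)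
    (h1 : ∀ v, g v ≤ 1) (v : V) :
    Integrable (fun w => g w / ‖v - w‖ ^ k) ∧
      ∫ w, g w / ‖v - w‖ ^ k ≤ A + (∫ w, g w) / r ^ k := by
  have hk1 : Integrable fun w : V => kker k r ‖v - w‖ :=
    (kker_int k hk r hr).1.comp_sub_left v
  have hk2 : ∫ w : V, kker k r ‖v - w‖ = ∫ z : V, kker k r ‖z‖ :=
    integral_sub_left_eq_self (fun z : V => kker k r ‖z‖) volume v
  have hsum : Integrable fun w : V => kker k r ‖v - w‖ + g w / r ^ k :=
    hk1.add (hi.div_const _)
  have hle : ∀ w : V, g w / ‖v - w‖ ^ k ≤ kker k r ‖v - w‖ + g w / r ^ k := by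
    intro w
    have hg0 : 0 ≤ g w / r ^ k := div_nonneg (h0 w) (pow_nonneg hr.le k)
    by_cases hw : ‖v - w‖ < r
    · simp only [kker]
      rw [indicator_of_mem (show ‖v - w‖ ∈ Iio r from hw)]
      have h2 : g w / ‖v - w‖ ^ k ≤ 1 / ‖v - w‖ ^ k :=
        div_le_div_of_nonneg_right (h1 w) (pow_nonneg (norm_nonneg _) k)
      linarith
    · simp only [kker]
      rw [indicator_of_notMem (show ‖v - w‖ ∉ Iio r from hw), zero_add]
      push Not at hw
      exact div_le_div_of_nonneg_left (h0 w) (pow_pos hr k) (pow_le_pow_left₀ hr.le hw k)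
  have hint : Integrable (fun w => g w / ‖v - w‖ ^ k) := by
    refine hsum.mono' ?_ (Eventually.of_forall fun w => ?_)
    · have hm : Measurable fun w : V => (‖v - w‖ ^ k)⁻¹ :=
        (kker_meas k).comp (measurable_const.sub measurable_id)
      exact hi.aestronglyMeasurable.mul hm.aestronglyMeasurable
    · rw [Real.norm_eq_abs, abs_of_nonneg (div_nonneg (h0 w) (pow_nonneg (norm_nonneg _) k))]
      exact hle w
  refine ⟨hint, ?_⟩
  calc ∫ w, g w / ‖v - w‖ ^ k ≤ ∫ w, (kker k r ‖v - w‖ + g w / r ^ k) :=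
        integral_mono hint hsum hle
    _ = (∫ w, kker k r ‖v - w‖) + (∫ w, g w) / r ^ k := by
        rw [integral_add hk1 (hi.div_const _), integral_div]
    _ ≤ A + (∫ w, g w) / r ^ k := by
        rw [hk2]
        linarith

theorem gen_bound (k : ℕ) (hk : k ≤ 2) (F : V → ℝ) (hF : Integrable F) (C : ℝ)
    (hC : ∀ v, |F v| ≤ C) :
    ∃ K : ℝ, 0 ≤ K ∧ ∀ w : V, Integrable (fun v => F v / ‖v - w‖ ^ k) ∧
      ∫ v, |F v| / ‖v - w‖ ^ k ≤ K := by
  set C' : ℝ := max C 1 with hC'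
  have hC'pos : 0 < C' := lt_of_lt_of_le one_pos (le_max_right _ _)
  set g : V → ℝ := fun v => |F v| / C' with hg
  have hgi : Integrable g := (hF.abs).div_const _
  have hg0 : ∀ v, 0 ≤ g v := fun v => div_nonneg (abs_nonneg _) hC'pos.le
  have hg1 : ∀ v, g v ≤ 1 := fun v => by
    rw [hg]
    simp only
    rw [div_le_one hC'pos]
    exact (hC v).trans (le_max_left _ _)
  have hkey : ∀ w : V, Integrable (fun v => g v / ‖w - v‖ ^ k) ∧
      ∫ v, g v / ‖w - v‖ ^ k ≤ (∫ z : V, kker k 1 ‖z‖) + (∫ v, g v) / 1 ^ k := fun w =>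
    gen_inv k hk _ 1 one_pos le_rfl g hgi hg0 hg1 w
  have heq : ∀ w v : V, |F v| / ‖v - w‖ ^ k = C' * (g v / ‖w - v‖ ^ k) := by
    intro w v
    rw [hg, norm_sub_rev v w]
    simp only
    field_simp
  refine ⟨C' * ((∫ z : V, kker k 1 ‖z‖) + (∫ v, g v) / 1 ^ k), ?_, fun w => ⟨?_, ?_⟩⟩
  · refine mul_nonneg hC'pos.le (add_nonneg (integral_nonneg fun z => ?_)
      (div_nonneg (integral_nonneg hg0) (by positivity)))
    change 0 ≤ (Iio (1 : ℝ)).indicator (fun y => 1 / y ^ k) ‖z‖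
    by_cases hz : ‖z‖ ∈ Iio (1 : ℝ)
    · rw [indicator_of_mem hz]
      positivity
    · rw [indicator_of_notMem hz]
  · have h1 : Integrable fun v => |F v| / ‖v - w‖ ^ k := by
      simp only [heq w]
      exact (hkey w).1.const_mul _
    refine h1.mono' ?_ (Eventually.of_forall fun v => ?_)
    · have hm : Measurable fun v : V => (‖v - w‖ ^ k)⁻¹ :=
        (kker_meas k).comp (measurable_id.sub measurable_const)
      exact hF.aestronglyMeasurable.mul hm.aestronglyMeasurable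
    · rw [norm_div, Real.norm_eq_abs, norm_pow, norm_norm]
  · simp only [heq w]
    rw [integral_const_mul]
    exact mul_le_mul_of_nonneg_left (hkey w).2 hC'pos.le

theorem gen_prod (k : ℕ) (hk : k ≤ 2) (F u : V → ℝ) (hF : Integrable F) (hu : Integrable u)
    (C : ℝ) (hC : ∀ v, |F v| ≤ C) :
    Integrable (fun p : V × V => F p.1 * u p.2 / ‖p.1 - p.2‖ ^ k) (volume.prod volume) := by
  obtain ⟨K, hK0, hK⟩ := gen_bound k hk F hF C hC
  have hmeas : AEStronglyMeasurable (fun p : V × V => F p.1 * u p.2 / ‖p.1 - p.2‖ ^ k)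
      (volume.prod volume) := by
    have hm : Measurable fun p : V × V => (‖p.1 - p.2‖ ^ k)⁻¹ :=
      (kker_meas k).comp (measurable_fst.sub measurable_snd)
    exact (hF.aestronglyMeasurable.comp_fst.mul hu.aestronglyMeasurable.comp_snd).mul
      hm.aestronglyMeasurable
  have hnorm : ∀ w v : V, ‖F v * u w / ‖v - w‖ ^ k‖ = |u w| * (|F v| / ‖v - w‖ ^ k) := by
    intro w v
    rw [norm_div, norm_mul, norm_pow, norm_norm, Real.norm_eq_abs, Real.norm_eq_abs]
    ring
  rw [integrable_prod_iff' hmeas]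
  constructor
  · refine Eventually.of_forall fun w => ?_
    have h1 : (fun v => F v * u w / ‖v - w‖ ^ k) = fun v => u w * (F v / ‖v - w‖ ^ k) := by
      funext v
      ring
    simp only
    rw [h1]
    exact (hK w).1.const_mul _
  · refine (hu.abs.mul_const K).mono' ?_ (Eventually.of_forall fun w => ?_)
    · exact hmeas.norm.prod_swap.integral_prod_right'
    · simp only [hnorm w]
      rw [integral_const_mul, Real.norm_eq_abs, abs_mul, abs_abs]
      refine mul_le_mul_of_nonneg_left ?_ (abs_nonneg _)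
      rw [abs_of_nonneg]
      · exact (hK w).2
      · exact integral_nonneg fun v => div_nonneg (abs_nonneg _) (pow_nonneg (norm_nonneg _) k)

theorem int_inv (g : V → ℝ) (hi : Integrable g) (h0 : ∀ v, 0 ≤ g v) (h1 : ∀ v, g v ≤ 1)
    (v : V) (r : ℝ) (hr : 0 < r) :
    Integrable (fun w => g w / ‖v - w‖) ∧
      ∫ w, g w / ‖v - w‖ ≤ 7 * r ^ 2 + (∫ w, g w) / r := by
  have h := gen_inv 1 (by norm_num) _ r hr (kker_int_le_one r hr) g hi h0 h1 v
  simpa only [pow_one] using h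

theorem int_inv_sq (g : V → ℝ) (hi : Integrable g) (h0 : ∀ v, 0 ≤ g v) (h1 : ∀ v, g v ≤ 1)
    (v : V) (r : ℝ) (hr : 0 < r) :
    Integrable (fun w => g w / ‖v - w‖ ^ 2) ∧
      ∫ w, g w / ‖v - w‖ ^ 2 ≤ 13 * r + (∫ w, g w) / r ^ 2 := by
  exact gen_inv 2 le_rfl _ r hr (kker_int_le_two r hr) g hi h0 h1 v

theorem integrable_inv (F : V → ℝ) (hF : Integrable F) (C : ℝ) (hC : ∀ v, |F v| ≤ C) (w : V) :
    Integrable (fun v => F v / ‖v - w‖) ∧ Integrable (fun v => F v / ‖v - w‖ ^ 2) := by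
  obtain ⟨K, -, hK⟩ := gen_bound 1 (by norm_num) F hF C hC
  obtain ⟨K2, -, hK2⟩ := gen_bound 2 le_rfl F hF C hC
  refine ⟨?_, (hK2 w).1⟩
  have h := (hK w).1
  simpa only [pow_one] using h

theorem integrable_prod_inv (F u : V → ℝ) (hF : Integrable F) (hu : Integrable u) (C : ℝ)
    (hC : ∀ v, |F v| ≤ C) :
    Integrable (fun p : V × V => F p.1 * u p.2 / ‖p.1 - p.2‖) (volume.prod volume) ∧
      Integrable (fun p : V × V => F p.1 * u p.2 / ‖p.1 - p.2‖ ^ 2) (volume.prod volume) := by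
  refine ⟨?_, gen_prod 2 le_rfl F u hF hu C hC⟩
  have h := gen_prod 1 (by norm_num) F u hF hu C hC
  simpa only [pow_one] using h

end Pool.Agent.Landau
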