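import Pool.Agent.Landau.KBd
import Pool.Agent.Landau.KInt

/-!
# Landau, module KIbp: integration by parts against the singular kernels

Translate so that `w = 0`.  Regularise: `ρ² = ‖v‖² + ε`,
`a^ε_ij = (1 / 8π) (δ_ij / ρ - v_i v_j / ρ³)`, `b^ε_i = -(1 / 4π) v_i / ρ³`; these are smooth and
`∑_j ∂_j a^ε_ij = b^ε_i - (3 ε / 8π) v_i / ρ⁵`, `∑_j ∂_j b^ε_j = -(3 ε / 4π) / ρ⁵`.  Integrate by
parts (`ibp`) and let `ε → 0`: dominated convergence (`|a^ε| ≤ 1 / ‖v‖`, `|b^ε| ≤ 1 / ‖v‖²`,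
`ε ‖v‖ / ρ⁵ ≤ 1 / ‖v‖²`, all integrable against compactly supported continuous functions by
`integrable_inv`), and for the second formula the substitution `v = √ε u`:
`∫ (3 ε / 4π) ρ⁻⁵ G = ∫ (3 / 4π) (1 + ‖u‖²)^(-5/2) G (√ε u) du → G 0`, since
`∫ (3 / 4π) (1 + ‖u‖²)^(-5/2) du = ∫_0^∞ 3 r² (1 + r²)^(-5/2) dr = [r³ (1 + r²)^(-3/2)] = 1`.
(Alternatively polar coordinates, or cut out the ball of radius `ε`.)
-/

set_option autoImplicit false

namespace Pool.Agent.Landau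

open MeasureTheory Set Filter Topology

namespace KIbp

/-- regularised norm -/
noncomputable def rr (s : ℝ) (z : V) : ℝ := Real.sqrt (‖z‖ ^ 2 + s ^ 2)

/-- regularised kernel `a` -/
noncomputable def aE (s : ℝ) (i j : Fin 3) (z : V) : ℝ :=
  (1 / (8 * Real.pi)) * ((if i = j then (1 : ℝ) else 0) * (rr s z)⁻¹ - z i * z j * (rr s z ^ 3)⁻¹)

/-- regularised kernel `b` -/
noncomputable def bE (s : ℝ) (i : Fin 3) (z : V) : ℝ :=
  -(1 / (4 * Real.pi)) * (z i * (rr s z ^ 3)⁻¹)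

theorem rr_sq (s : ℝ) (z : V) : rr s z ^ 2 = ‖z‖ ^ 2 + s ^ 2 :=
  Real.sq_sqrt (by positivity)

theorem rr_pos {s : ℝ} (hs : 0 < s) (z : V) : 0 < rr s z := Real.sqrt_pos.2 (by positivity)

theorem rr_nonneg (s : ℝ) (z : V) : 0 ≤ rr s z := Real.sqrt_nonneg _

theorem norm_le_rr (s : ℝ) (z : V) : ‖z‖ ≤ rr s z :=
  Real.le_sqrt_of_sq_le (by nlinarith [sq_nonneg s])

theorem s_le_rr {s : ℝ} (z : V) : s ≤ rr s z :=
  Real.le_sqrt_of_sq_le (by nlinarith [sq_nonneg ‖z‖])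

theorem contDiff_rr {s : ℝ} (hs : 0 < s) : ContDiff ℝ 1 (rr s) := by
  unfold rr
  refine ContDiff.sqrt ((contDiff_norm_sq ℝ).add contDiff_const) (fun z => ?_)
  positivity

theorem contDiff_coord (i : Fin 3) : ContDiff ℝ 1 (fun z : V => z i) :=
  (EuclideanSpace.proj i : V →L[ℝ] ℝ).contDiff

theorem pd_const_mul {g : V → ℝ} {v : V} (c : ℝ) (hg : DifferentiableAt ℝ g v) (i : Fin 3) :
    pd i (fun x => c * g x) v = c * pd i g v := by
  have h := pd_comp (β := fun x => c * x) hg ((hasDerivAt_id' (g v)).const_mul c) i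
  rw [mul_one] at h
  exact h

theorem contDiff_inv1 {s : ℝ} (hs : 0 < s) : ContDiff ℝ 1 (fun z => (rr s z)⁻¹) :=
  (contDiff_rr hs).inv (fun z => (rr_pos hs z).ne')

theorem contDiff_inv3 {s : ℝ} (hs : 0 < s) : ContDiff ℝ 1 (fun z => (rr s z ^ 3)⁻¹) :=
  ((contDiff_rr hs).pow 3).inv (fun z => (pow_pos (rr_pos hs z) 3).ne')

theorem contDiff_aE {s : ℝ} (hs : 0 < s) (i j : Fin 3) : ContDiff ℝ 1 (aE s i j) := by
  unfold aE
  exact contDiff_const.mul ((contDiff_const.mul (contDiff_inv1 hs)).sub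
    (((contDiff_coord i).mul (contDiff_coord j)).mul (contDiff_inv3 hs)))

theorem contDiff_bE {s : ℝ} (hs : 0 < s) (i : Fin 3) : ContDiff ℝ 1 (bE s i) := by
  unfold bE
  exact contDiff_const.mul ((contDiff_coord i).mul (contDiff_inv3 hs))

theorem norm_sq_eq3 (z : V) : ‖z‖ ^ 2 = z 0 ^ 2 + z 1 ^ 2 + z 2 ^ 2 := by
  rw [EuclideanSpace.real_norm_sq_eq, Fin.sum_univ_three]

theorem pd_coord (i j : Fin 3) (z : V) : pd j (fun z : V => z i) z = if i = j then 1 else 0 := by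
  unfold pd
  have h : HasFDerivAt (fun z : V => z i) (EuclideanSpace.proj i : V →L[ℝ] ℝ) z :=
    (EuclideanSpace.proj i : V →L[ℝ] ℝ).hasFDerivAt
  rw [h.fderiv]
  simp

theorem pd_rr {s : ℝ} (hs : 0 < s) (j : Fin 3) (z : V) : pd j (rr s) z = z j * (rr s z)⁻¹ := by
  have h0 : DifferentiableAt ℝ (fun z : V => ‖z‖ ^ 2 + s ^ 2) z :=
    (((contDiff_norm_sq ℝ).add contDiff_const).differentiable (n := 1) (by norm_num)) z
  have hp : (0 : ℝ) < ‖z‖ ^ 2 + s ^ 2 := by positivity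
  have h1 : pd j (fun z : V => ‖z‖ ^ 2 + s ^ 2) z = 2 * z j := by
    unfold pd
    have h : HasFDerivAt (fun z : V => ‖z‖ ^ 2 + s ^ 2) (2 • (innerSL ℝ z)) z :=
      (hasStrictFDerivAt_norm_sq z).hasFDerivAt.add_const _
    rw [h.fderiv]
    simp [EuclideanSpace.inner_single_right]
  have h2 := pd_comp (g := fun z : V => ‖z‖ ^ 2 + s ^ 2) (v := z) (β := Real.sqrt) h0
    (Real.hasDerivAt_sqrt hp.ne') j
  unfold rr
  rw [h2, h1]
  field_simp

theorem pd_inv1 {s : ℝ} (hs : 0 < s) (j : Fin 3) (z : V) :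
    pd j (fun z => (rr s z)⁻¹) z = - (z j * (rr s z ^ 3)⁻¹) := by
  have hp := rr_pos hs z
  have h0 : DifferentiableAt ℝ (rr s) z := (contDiff_rr hs).differentiable (by norm_num) z
  have h2 := pd_comp (g := rr s) (v := z) (β := fun x => x⁻¹) h0 (hasDerivAt_inv hp.ne') j
  rw [h2, pd_rr hs]
  field_simp

theorem pd_inv3 {s : ℝ} (hs : 0 < s) (j : Fin 3) (z : V) :
    pd j (fun z => (rr s z ^ 3)⁻¹) z = - 3 * (z j * (rr s z ^ 5)⁻¹) := by
  have hp := rr_pos hs z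
  have h0 : DifferentiableAt ℝ (rr s) z := (contDiff_rr hs).differentiable (by norm_num) z
  have h1 : HasDerivAt (fun x : ℝ => (x ^ 3)⁻¹) (-(3 * rr s z ^ 2) / (rr s z ^ 3) ^ 2) (rr s z) := by
    have := HasDerivAt.fun_inv (hasDerivAt_pow 3 (rr s z)) (pow_pos hp 3).ne'
    simpa using this
  have h2 := pd_comp (g := rr s) (v := z) (β := fun x => (x ^ 3)⁻¹) h0 h1 j
  rw [h2, pd_rr hs]
  field_simp

theorem pd_bE {s : ℝ} (hs : 0 < s) (i j : Fin 3) (z : V) :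
    pd j (bE s i) z = -(1 / (4 * Real.pi)) *
      ((if i = j then 1 else 0) * (rr s z ^ 3)⁻¹ - 3 * z i * z j * (rr s z ^ 5)⁻¹) := by
  have d1 : DifferentiableAt ℝ (fun z : V => z i) z :=
    (contDiff_coord i).differentiable (by norm_num) z
  have d2 : DifferentiableAt ℝ (fun z : V => (rr s z ^ 3)⁻¹) z :=
    (contDiff_inv3 hs).differentiable (by norm_num) z
  have h1 : pd j (fun z : V => z i * (rr s z ^ 3)⁻¹) z =
      z i * (-3 * (z j * (rr s z ^ 5)⁻¹)) + (if i = j then 1 else 0) * (rr s z ^ 3)⁻¹ := by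
    rw [pd_mul d1 d2, pd_inv3 hs, pd_coord]
  have h2 : pd j (bE s i) z = -(1 / (4 * Real.pi)) * pd j (fun z : V => z i * (rr s z ^ 3)⁻¹) z :=
    pd_const_mul (g := fun z : V => z i * (rr s z ^ 3)⁻¹) (-(1 / (4 * Real.pi))) (d1.mul d2) j
  rw [h2, h1]
  ring

theorem pd_aE {s : ℝ} (hs : 0 < s) (i j : Fin 3) (z : V) :
    pd j (aE s i j) z = (1 / (8 * Real.pi)) *
      (-(if i = j then 1 else 0) * z j * (rr s z ^ 3)⁻¹ - z i * (rr s z ^ 3)⁻¹
        - (if i = j then 1 else 0) * z j * (rr s z ^ 3)⁻¹ + 3 * z i * z j ^ 2 * (rr s z ^ 5)⁻¹) := by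
  have d1 : DifferentiableAt ℝ (fun z : V => z i) z :=
    (contDiff_coord i).differentiable (by norm_num) z
  have d1' : DifferentiableAt ℝ (fun z : V => z j) z :=
    (contDiff_coord j).differentiable (by norm_num) z
  have d2 : DifferentiableAt ℝ (fun z : V => (rr s z ^ 3)⁻¹) z :=
    (contDiff_inv3 hs).differentiable (by norm_num) z
  have d3 : DifferentiableAt ℝ (fun z : V => (rr s z)⁻¹) z :=
    (contDiff_inv1 hs).differentiable (by norm_num) z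
  have e1 : pd j (fun z : V => z i * z j) z = z i * 1 + (if i = j then 1 else 0) * z j := by
    rw [pd_mul d1 d1', pd_coord, pd_coord]
    simp
  have e2 : pd j (fun z : V => z i * z j * (rr s z ^ 3)⁻¹) z =
      z i * z j * (-3 * (z j * (rr s z ^ 5)⁻¹)) +
        (z i * 1 + (if i = j then 1 else 0) * z j) * (rr s z ^ 3)⁻¹ := by
    rw [pd_mul (f := fun z : V => z i * z j) (d1.mul d1') d2, pd_inv3 hs, e1]
  have e3 : pd j (fun z : V => -(z i * z j * (rr s z ^ 3)⁻¹)) z =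
      -(pd j (fun z : V => z i * z j * (rr s z ^ 3)⁻¹) z) := by
    have := pd_comp (g := fun z : V => z i * z j * (rr s z ^ 3)⁻¹) (v := z)
      (β := fun x => -x) ((d1.mul d1').mul d2) (hasDerivAt_neg _) j
    simpa using this
  have e4 : pd j (fun z : V => (if i = j then (1 : ℝ) else 0) * (rr s z)⁻¹) z =
      (if i = j then (1 : ℝ) else 0) * (-(z j * (rr s z ^ 3)⁻¹)) := by
    rw [pd_const_mul (g := fun z : V => (rr s z)⁻¹) _ d3 j, pd_inv1 hs]
  have e5 : pd j (fun z : V => (if i = j then (1 : ℝ) else 0) * (rr s z)⁻¹ +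
      -(z i * z j * (rr s z ^ 3)⁻¹)) z =
      pd j (fun z : V => (if i = j then (1 : ℝ) else 0) * (rr s z)⁻¹) z +
        pd j (fun z : V => -(z i * z j * (rr s z ^ 3)⁻¹)) z :=
    pd_add ((differentiableAt_const _).mul d3) ((d1.mul d1').mul d2).neg j
  have e6 : pd j (aE s i j) z = (1 / (8 * Real.pi)) *
      pd j (fun z : V => (if i = j then (1 : ℝ) else 0) * (rr s z)⁻¹ +
        -(z i * z j * (rr s z ^ 3)⁻¹)) z := by
    unfold aE
    rw [← pd_const_mul (g := fun z : V => (if i = j then (1 : ℝ) else 0) * (rr s z)⁻¹ +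
        -(z i * z j * (rr s z ^ 3)⁻¹)) (1 / (8 * Real.pi))
      (((differentiableAt_const _).mul d3).add ((d1.mul d1').mul d2).neg) j]
    simp only [sub_eq_add_neg]
  rw [e6, e5, e4, e3, e2]
  ring

theorem inv_rel {s : ℝ} (hs : 0 < s) (z : V) :
    (rr s z ^ 3)⁻¹ = (z 0 ^ 2 + z 1 ^ 2 + z 2 ^ 2 + s ^ 2) * (rr s z ^ 5)⁻¹ := by
  have hp := rr_pos hs z
  have h := rr_sq s z
  rw [norm_sq_eq3] at h
  rw [← h]
  field_simp

theorem div_aE {s : ℝ} (hs : 0 < s) (i : Fin 3) (z : V) :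
    ∑ j : Fin 3, pd j (aE s i j) z =
      bE s i z - (1 / (8 * Real.pi)) * (3 * s ^ 2 * z i * (rr s z ^ 5)⁻¹) := by
  have hr := inv_rel hs z
  have hpi := Real.pi_pos.ne'
  simp only [pd_aE hs, bE, Fin.sum_univ_three]
  rw [hr]
  fin_cases i <;> simp <;> field_simp <;> ring

theorem div_bE {s : ℝ} (hs : 0 < s) (z : V) :
    ∑ j : Fin 3, pd j (bE s j) z = - (3 / (4 * Real.pi) * (s ^ 2 * (rr s z ^ 5)⁻¹)) := by
  have hr := inv_rel hs z
  have hpi := Real.pi_pos.ne'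
  simp only [pd_bE hs, Fin.sum_univ_three]
  rw [hr]
  simp
  field_simp
  ring

theorem lim_s : Tendsto (fun n : ℕ => (1 : ℝ) / ((n : ℝ) + 1)) atTop (𝓝 0) :=
  tendsto_one_div_add_atTop_nhds_zero_nat

theorem s_pos (n : ℕ) : (0 : ℝ) < 1 / ((n : ℝ) + 1) := by positivity

theorem lim_rr (z : V) : Tendsto (fun n : ℕ => rr (1 / ((n : ℝ) + 1)) z) atTop (𝓝 ‖z‖) := by
  have h1 : Tendsto (fun n : ℕ => ‖z‖ ^ 2 + (1 / ((n : ℝ) + 1)) ^ 2) atTop (𝓝 (‖z‖ ^ 2 + 0 ^ 2)) :=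
    tendsto_const_nhds.add (lim_s.pow 2)
  have h2 := (Real.continuous_sqrt.tendsto _).comp h1
  have h3 : Real.sqrt (‖z‖ ^ 2 + 0 ^ 2) = ‖z‖ := by
    rw [zero_pow (by norm_num), add_zero, Real.sqrt_sq (norm_nonneg z)]
  rw [h3] at h2
  exact h2

theorem lim_aE (i j : Fin 3) {z : V} (hz : z ≠ 0) :
    Tendsto (fun n : ℕ => aE (1 / ((n : ℝ) + 1)) i j z) atTop (𝓝 (aK i j z)) := by
  have hn : ‖z‖ ≠ 0 := norm_ne_zero_iff.2 hz
  have h1 := (lim_rr z).inv₀ hn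
  have h3 := ((lim_rr z).pow 3).inv₀ (pow_ne_zero 3 hn)
  have h := ((h1.const_mul (if i = j then (1 : ℝ) else 0)).sub (h3.const_mul (z i * z j))).const_mul
    (1 / (8 * Real.pi))
  unfold aE aK
  simpa only [div_eq_mul_inv] using h

theorem lim_bE (i : Fin 3) {z : V} (hz : z ≠ 0) :
    Tendsto (fun n : ℕ => bE (1 / ((n : ℝ) + 1)) i z) atTop (𝓝 (bK i z)) := by
  have hn : ‖z‖ ≠ 0 := norm_ne_zero_iff.2 hz
  have h3 := ((lim_rr z).pow 3).inv₀ (pow_ne_zero 3 hn)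
  have h := (h3.const_mul (z i)).const_mul (-(1 / (4 * Real.pi)))
  unfold bE bK
  simpa only [div_eq_mul_inv] using h

theorem lim_third (i : Fin 3) {z : V} (hz : z ≠ 0) :
    Tendsto (fun n : ℕ => (1 / (8 * Real.pi)) *
      (3 * (1 / ((n : ℝ) + 1)) ^ 2 * z i * (rr (1 / ((n : ℝ) + 1)) z ^ 5)⁻¹)) atTop (𝓝 0) := by
  have hn : ‖z‖ ≠ 0 := norm_ne_zero_iff.2 hz
  have h5 := ((lim_rr z).pow 5).inv₀ (pow_ne_zero 5 hn)
  have h := ((((lim_s.pow 2).const_mul 3).mul_const (z i)).mul h5).const_mul (1 / (8 * Real.pi))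
  simpa using h

theorem inv_rr_le {s : ℝ} {z : V} (hz : z ≠ 0) : (rr s z)⁻¹ ≤ ‖z‖⁻¹ :=
  inv_anti₀ (norm_pos_iff.2 hz) (norm_le_rr s z)

theorem coord_div_le {s : ℝ} (hs : 0 < s) (z : V) (i : Fin 3) : |z i| * (rr s z)⁻¹ ≤ 1 := by
  have hp := rr_pos hs z
  rw [← div_eq_mul_inv, div_le_one hp]
  exact (Cls.abs_coord z i).trans (norm_le_rr s z)

theorem aE_abs {s : ℝ} (hs : 0 < s) (i j : Fin 3) {z : V} (hz : z ≠ 0) :
    |aE s i j z| ≤ 1 / ‖z‖ ^ 1 := by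
  have hp := rr_pos hs z
  have hpi := Real.pi_gt_three
  have h1 := coord_div_le hs z i
  have h2 := coord_div_le hs z j
  have h3 : |z i * z j * (rr s z ^ 3)⁻¹| ≤ (rr s z)⁻¹ := by
    have e : |z i * z j * (rr s z ^ 3)⁻¹| = (|z i| * (rr s z)⁻¹) * (|z j| * (rr s z)⁻¹) * (rr s z)⁻¹ := by
      rw [abs_mul, abs_mul, abs_of_pos (inv_pos.2 (pow_pos hp 3))]
      field_simp
    rw [e]
    have h4 : (|z i| * (rr s z)⁻¹) * (|z j| * (rr s z)⁻¹) ≤ 1 :=
      mul_le_one₀ h1 (by positivity) h2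
    calc _ ≤ 1 * (rr s z)⁻¹ := mul_le_mul_of_nonneg_right h4 (by positivity)
      _ = _ := one_mul _
  have h5 : |(if i = j then (1 : ℝ) else 0) * (rr s z)⁻¹| ≤ (rr s z)⁻¹ := by
    rw [abs_mul, abs_of_pos (inv_pos.2 hp)]
    have : |(if i = j then (1 : ℝ) else 0)| ≤ 1 := by split_ifs <;> simp
    calc _ ≤ 1 * (rr s z)⁻¹ := mul_le_mul_of_nonneg_right this (by positivity)
      _ = _ := one_mul _
  have h6 := inv_rr_le (s := s) hz
  have h7 : |(if i = j then (1 : ℝ) else 0) * (rr s z)⁻¹ - z i * z j * (rr s z ^ 3)⁻¹|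
      ≤ 2 * ‖z‖⁻¹ := (abs_sub _ _).trans (by linarith)
  have h8 : (1 / (8 * Real.pi)) ≤ 1 / 2 := by
    rw [div_le_div_iff₀ (by positivity) (by norm_num)]
    linarith
  have h9 : (0 : ℝ) ≤ ‖z‖⁻¹ := by positivity
  unfold aE
  rw [abs_mul, abs_of_pos (by positivity : (0 : ℝ) < 1 / (8 * Real.pi)), pow_one, one_div ‖z‖]
  calc _ ≤ (1 / 2) * (2 * ‖z‖⁻¹) := mul_le_mul h8 h7 (abs_nonneg _) (by norm_num)
    _ = ‖z‖⁻¹ := by ring

theorem inv_rr_sq_le (s : ℝ) {z : V} (hz : z ≠ 0) : (rr s z ^ 2)⁻¹ ≤ 1 / ‖z‖ ^ 2 := by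
  rw [one_div]
  exact inv_anti₀ (pow_pos (norm_pos_iff.2 hz) 2) (pow_le_pow_left₀ (norm_nonneg z) (norm_le_rr s z) 2)

theorem bE_abs {s : ℝ} (hs : 0 < s) (i : Fin 3) {z : V} (hz : z ≠ 0) :
    |bE s i z| ≤ 1 / ‖z‖ ^ 2 := by
  have hp := rr_pos hs z
  have hpi := Real.pi_gt_three
  have h1 := coord_div_le hs z i
  have h2 := inv_rr_sq_le s hz
  have h8 : (1 / (4 * Real.pi)) ≤ 1 := by
    rw [div_le_one (by positivity)]
    linarith
  have e : |bE s i z| = (1 / (4 * Real.pi)) * ((|z i| * (rr s z)⁻¹) * (rr s z ^ 2)⁻¹) := by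
    unfold bE
    rw [abs_mul, abs_neg, abs_of_pos (by positivity : (0 : ℝ) < 1 / (4 * Real.pi)), abs_mul,
      abs_of_pos (inv_pos.2 (pow_pos hp 3))]
    field_simp
  rw [e]
  have h3 : (|z i| * (rr s z)⁻¹) * (rr s z ^ 2)⁻¹ ≤ 1 * (1 / ‖z‖ ^ 2) :=
    mul_le_mul h1 h2 (by positivity) (by norm_num)
  calc _ ≤ 1 * (1 * (1 / ‖z‖ ^ 2)) := mul_le_mul h8 h3 (by positivity) (by norm_num)
    _ = _ := by ring

theorem third_abs {s : ℝ} (hs : 0 < s) (i : Fin 3) {z : V} (hz : z ≠ 0) :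
    |(1 / (8 * Real.pi)) * (3 * s ^ 2 * z i * (rr s z ^ 5)⁻¹)| ≤ 1 / ‖z‖ ^ 2 := by
  have hp := rr_pos hs z
  have hpi := Real.pi_gt_three
  have h1 := coord_div_le hs z i
  have h2 := inv_rr_sq_le s hz
  have h8 : (1 / (8 * Real.pi)) * 3 ≤ 1 := by
    rw [div_mul_eq_mul_div, div_le_one (by positivity)]
    linarith
  have h9 : s ^ 2 * (rr s z ^ 2)⁻¹ ≤ 1 := by
    rw [← div_eq_mul_inv, div_le_one (by positivity)]
    exact pow_le_pow_left₀ hs.le (s_le_rr z) 2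
  have e : |(1 / (8 * Real.pi)) * (3 * s ^ 2 * z i * (rr s z ^ 5)⁻¹)| =
      ((1 / (8 * Real.pi)) * 3) * ((s ^ 2 * (rr s z ^ 2)⁻¹) *
        ((|z i| * (rr s z)⁻¹) * (rr s z ^ 2)⁻¹)) := by
    rw [abs_mul, abs_of_pos (by positivity : (0 : ℝ) < 1 / (8 * Real.pi)), abs_mul, abs_mul, abs_mul,
      abs_of_pos (inv_pos.2 (pow_pos hp 5)), abs_of_pos (by positivity : (0 : ℝ) < s ^ 2),
      abs_of_pos (by norm_num : (0 : ℝ) < 3)]
    field_simp
  rw [e]
  have h3 : (|z i| * (rr s z)⁻¹) * (rr s z ^ 2)⁻¹ ≤ 1 * (1 / ‖z‖ ^ 2) :=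
    mul_le_mul h1 h2 (by positivity) (by norm_num)
  have h4 : (s ^ 2 * (rr s z ^ 2)⁻¹) * ((|z i| * (rr s z)⁻¹) * (rr s z ^ 2)⁻¹)
      ≤ 1 * (1 * (1 / ‖z‖ ^ 2)) := mul_le_mul h9 h3 (by positivity) (by norm_num)
  calc _ ≤ 1 * (1 * (1 * (1 / ‖z‖ ^ 2))) := mul_le_mul h8 h4 (by positivity) (by norm_num)
    _ = _ := by ring

/-- dominated convergence -/
theorem dom_lim (k : ℕ → V → ℝ) (K F : V → ℝ) (p : ℕ)
    (hint : Integrable (fun v => F v / ‖v‖ ^ p)) (hm : ∀ n, Continuous (k n)) (hF : Continuous F)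
    (hb : ∀ n z, z ≠ 0 → |k n z| ≤ 1 / ‖z‖ ^ p)
    (hl : ∀ z, z ≠ 0 → Tendsto (fun n => k n z) atTop (𝓝 (K z))) :
    Tendsto (fun n => ∫ z, k n z * F z) atTop (𝓝 (∫ z, K z * F z)) := by
  have hae : ∀ᵐ z : V, z ≠ 0 := compl_mem_ae_iff.2 (measure_singleton (0 : V))
  refine tendsto_integral_of_dominated_convergence (fun v => ‖F v / ‖v‖ ^ p‖)
    (fun n => ((hm n).mul hF).aestronglyMeasurable) hint.norm (fun n => ?_) ?_
  · filter_upwards [hae] with z hz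
    have h := hb n z hz
    rw [norm_mul, Real.norm_eq_abs, norm_div, norm_pow, norm_norm]
    calc |k n z| * ‖F z‖ ≤ (1 / ‖z‖ ^ p) * ‖F z‖ := mul_le_mul_of_nonneg_right h (norm_nonneg _)
      _ = ‖F z‖ / ‖z‖ ^ p := by ring
  · filter_upwards [hae] with z hz
    exact (hl z hz).mul_const _

theorem int_div {F : V → ℝ} (hF : Continuous F) (hc : HasCompactSupport F) :
    Integrable (fun v => F v / ‖v‖ ^ 1) ∧ Integrable (fun v => F v / ‖v‖ ^ 2) := by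
  obtain ⟨C, hC⟩ := hc.exists_bound_of_continuous hF
  have h := integrable_inv F (hF.integrable_of_hasCompactSupport hc) C
    (fun v => by rw [← Real.norm_eq_abs]; exact hC v) 0
  simpa only [sub_zero, pow_one] using h

theorem ibp0_aK (G : V → ℝ) (hG : ContDiff ℝ 1 G) (hc : HasCompactSupport G) (i : Fin 3) :
    ∑ j : Fin 3, ∫ v, aK i j v * pd j G v = - ∫ v, bK i v * G v := by
  have L : Tendsto (fun n : ℕ => ∑ j : Fin 3, ∫ v, aE (1 / ((n : ℝ) + 1)) i j v * pd j G v) atTop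
      (𝓝 (∑ j : Fin 3, ∫ v, aK i j v * pd j G v)) := by
    refine tendsto_finsetSum _ (fun j _ => ?_)
    exact dom_lim (fun n => aE (1 / ((n : ℝ) + 1)) i j) (aK i j) (pd j G) 1
      (int_div (continuous_pd hG j) (compact_pd hc j)).1
      (fun n => (contDiff_aE (s_pos n) i j).continuous) (continuous_pd hG j)
      (fun n z hz => aE_abs (s_pos n) i j hz) (fun z hz => lim_aE i j hz)
  have c3 : ∀ n : ℕ, Continuous (fun z : V => (1 / (8 * Real.pi)) *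
      (3 * (1 / ((n : ℝ) + 1)) ^ 2 * z i * (rr (1 / ((n : ℝ) + 1)) z ^ 5)⁻¹)) := by
    intro n
    have h1 : Continuous (rr (1 / ((n : ℝ) + 1))) := (contDiff_rr (s_pos n)).continuous
    have h2 : Continuous (fun z : V => (rr (1 / ((n : ℝ) + 1)) z ^ 5)⁻¹) :=
      (h1.pow 5).inv₀ (fun z => (pow_pos (rr_pos (s_pos n) z) 5).ne')
    have h3 : Continuous (fun z : V => z i) := (contDiff_coord i).continuous
    exact continuous_const.mul ((continuous_const.mul h3).mul h2)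
  have R1 : Tendsto (fun n : ℕ => ∫ v, bE (1 / ((n : ℝ) + 1)) i v * G v) atTop
      (𝓝 (∫ v, bK i v * G v)) :=
    dom_lim (fun n => bE (1 / ((n : ℝ) + 1)) i) (bK i) G 2 (int_div hG.continuous hc).2
      (fun n => (contDiff_bE (s_pos n) i).continuous) hG.continuous
      (fun n z hz => bE_abs (s_pos n) i hz) (fun z hz => lim_bE i hz)
  have R2 : Tendsto (fun n : ℕ => ∫ v, (1 / (8 * Real.pi)) *
      (3 * (1 / ((n : ℝ) + 1)) ^ 2 * v i * (rr (1 / ((n : ℝ) + 1)) v ^ 5)⁻¹) * G v) atTop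
      (𝓝 (∫ v, (fun _ : V => (0 : ℝ)) v * G v)) :=
    dom_lim (fun n z => (1 / (8 * Real.pi)) *
      (3 * (1 / ((n : ℝ) + 1)) ^ 2 * z i * (rr (1 / ((n : ℝ) + 1)) z ^ 5)⁻¹)) (fun _ => 0) G 2
      (int_div hG.continuous hc).2 c3 hG.continuous
      (fun n z hz => third_abs (s_pos n) i hz) (fun z hz => lim_third i hz)
  have key : ∀ n : ℕ, ∑ j : Fin 3, ∫ v, aE (1 / ((n : ℝ) + 1)) i j v * pd j G v =
      -(∫ v, bE (1 / ((n : ℝ) + 1)) i v * G v) + ∫ v, (1 / (8 * Real.pi)) *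
      (3 * (1 / ((n : ℝ) + 1)) ^ 2 * v i * (rr (1 / ((n : ℝ) + 1)) v ^ 5)⁻¹) * G v := by
    intro n
    have hs := s_pos n
    have i0 : ∀ j, Integrable (fun v => pd j (aE (1 / ((n : ℝ) + 1)) i j) v * G v) := fun j =>
      ((continuous_pd (contDiff_aE hs i j) j).mul hG.continuous).integrable_of_hasCompactSupport
        (hc.mul_left)
    have i1 : Integrable (fun v => bE (1 / ((n : ℝ) + 1)) i v * G v) :=
      ((contDiff_bE hs i).continuous.mul hG.continuous).integrable_of_hasCompactSupport hc.mul_left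
    have i2 : Integrable (fun v : V => (1 / (8 * Real.pi)) *
      (3 * (1 / ((n : ℝ) + 1)) ^ 2 * v i * (rr (1 / ((n : ℝ) + 1)) v ^ 5)⁻¹) * G v) :=
      ((c3 n).mul hG.continuous).integrable_of_hasCompactSupport hc.mul_left
    calc ∑ j : Fin 3, ∫ v, aE (1 / ((n : ℝ) + 1)) i j v * pd j G v
        = ∑ j : Fin 3, -∫ v, pd j (aE (1 / ((n : ℝ) + 1)) i j) v * G v :=
          Finset.sum_congr rfl (fun j _ => ibp (contDiff_aE hs i j) hG hc j)
      _ = -∫ v, ∑ j : Fin 3, pd j (aE (1 / ((n : ℝ) + 1)) i j) v * G v := by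
          rw [Finset.sum_neg_distrib, integral_finsetSum _ (fun j _ => i0 j)]
      _ = -∫ v, (bE (1 / ((n : ℝ) + 1)) i v * G v - (1 / (8 * Real.pi)) *
          (3 * (1 / ((n : ℝ) + 1)) ^ 2 * v i * (rr (1 / ((n : ℝ) + 1)) v ^ 5)⁻¹) * G v) := by
          congr 1
          refine integral_congr_ae (Eventually.of_forall fun v => ?_)
          show ∑ j : Fin 3, pd j (aE (1 / ((n : ℝ) + 1)) i j) v * G v = _
          rw [← Finset.sum_mul, div_aE hs]
          ring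
      _ = _ := by
          rw [integral_sub i1 i2]
          ring
  have R := R1.neg.add R2
  simp only [zero_mul, integral_zero, add_zero] at R
  have L' := L.congr key
  exact tendsto_nhds_unique L' R

/-- the approximate identity -/
noncomputable def ph (z : V) : ℝ := (3 / (4 * Real.pi)) * (Real.sqrt (1 + ‖z‖ ^ 2) ^ 5)⁻¹

theorem ph_nonneg (z : V) : 0 ≤ ph z := by unfold ph; positivity

theorem deriv_cub (r : ℝ) : HasDerivAt (fun r : ℝ => r ^ 3 * (Real.sqrt (1 + r ^ 2) ^ 3)⁻¹)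
    (3 * r ^ 2 * (Real.sqrt (1 + r ^ 2) ^ 5)⁻¹) r := by
  have hp : (0 : ℝ) < 1 + r ^ 2 := by positivity
  have hq := Real.sqrt_pos.2 hp
  have hq2 := Real.sq_sqrt hp.le
  have h1 : HasDerivAt (fun r : ℝ => 1 + r ^ 2) (2 * r) r := by
    simpa using (hasDerivAt_pow 2 r).const_add 1
  have h2 := h1.sqrt hp.ne'
  have h3 := (HasDerivAt.fun_pow h2 3).fun_inv (pow_pos hq 3).ne'
  have h4 := (hasDerivAt_pow 3 r).mul h3
  refine h4.congr_deriv ?_
  simp only [Nat.cast_ofNat]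
  field_simp
  norm_num
  linear_combination (r ^ 2 * Real.sqrt (1 + r ^ 2) ^ 2) * hq2

theorem lim_cub : Tendsto (fun r : ℝ => r ^ 3 * (Real.sqrt (1 + r ^ 2) ^ 3)⁻¹) atTop (𝓝 1) := by
  have h1 : Tendsto (fun r : ℝ => 1 + r ^ 2) atTop atTop :=
    tendsto_atTop_add_const_left _ _ (tendsto_pow_atTop (by norm_num))
  have h2 : Tendsto (fun r : ℝ => 1 - (1 + r ^ 2)⁻¹) atTop (𝓝 (1 - 0)) :=
    tendsto_const_nhds.sub h1.inv_tendsto_atTop
  have h3 := ((Real.continuous_sqrt.tendsto _).comp h2).pow 3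
  have h4 : Real.sqrt (1 - 0) ^ 3 = 1 := by simp
  rw [h4] at h3
  refine h3.congr' ?_
  filter_upwards [eventually_gt_atTop (0 : ℝ)] with r hr
  have hp : (0 : ℝ) < 1 + r ^ 2 := by positivity
  have e : 1 - (1 + r ^ 2)⁻¹ = r ^ 2 / (1 + r ^ 2) := by field_simp; ring
  simp only [Function.comp]
  rw [e, Real.sqrt_div' _ hp.le, Real.sqrt_sq hr.le, div_pow, div_eq_mul_inv]

theorem int_cub : ∫ y in Ioi (0 : ℝ), 3 * y ^ 2 * (Real.sqrt (1 + y ^ 2) ^ 5)⁻¹ = 1 := by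
  rw [integral_Ioi_of_hasDerivAt_of_nonneg' (g := fun r : ℝ => r ^ 3 * (Real.sqrt (1 + r ^ 2) ^ 3)⁻¹)
    (l := 1) (fun x _ => deriv_cub x) (fun x _ => by positivity) lim_cub]
  simp

theorem int_ph : ∫ z, ph z = 1 := by
  have h := integral_fun_norm_addHaar (volume : Measure V)
    (fun y : ℝ => (3 / (4 * Real.pi)) * (Real.sqrt (1 + y ^ 2) ^ 5)⁻¹)
  have hf : Module.finrank ℝ V = 3 := by simp
  have hv : (volume : Measure V).real (Metric.ball 0 1) = Real.pi * 4 / 3 := by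
    rw [Measure.real, EuclideanSpace.volume_ball_fin_three]
    have : (0 : ℝ) ≤ Real.pi * 4 / 3 := by positivity
    simp [this]
  have hpi := Real.pi_pos.ne'
  show ∫ z : V, (3 / (4 * Real.pi)) * (Real.sqrt (1 + ‖z‖ ^ 2) ^ 5)⁻¹ = 1
  rw [h, hf, hv]
  have e : ∀ y : ℝ, y ^ (3 - 1) • ((3 / (4 * Real.pi)) * (Real.sqrt (1 + y ^ 2) ^ 5)⁻¹) =
      (1 / (4 * Real.pi)) * (3 * y ^ 2 * (Real.sqrt (1 + y ^ 2) ^ 5)⁻¹) := by
    intro y
    rw [smul_eq_mul]
    norm_num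
    ring
  simp_rw [e]
  rw [integral_const_mul, int_cub, nsmul_eq_mul, smul_eq_mul]
  push_cast
  field_simp

theorem ph_decay : Tendsto (fun z : V => ‖z‖ ^ Module.finrank ℝ V * ph z)
    (Bornology.cobounded V) (𝓝 0) := by
  have hf : Module.finrank ℝ V = 3 := by simp
  rw [hf]
  have h1 : Tendsto (fun z : V => ‖z‖⁻¹) (Bornology.cobounded V) (𝓝 0) :=
    tendsto_inv_atTop_zero.comp tendsto_norm_cobounded_atTop
  refine squeeze_zero' (Eventually.of_forall fun z => mul_nonneg (by positivity) (ph_nonneg z)) ?_ h1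
  have h2 : ∀ᶠ z : V in Bornology.cobounded V, 0 < ‖z‖ :=
    tendsto_norm_cobounded_atTop.eventually (eventually_gt_atTop 0)
  filter_upwards [h2] with z hz
  set q := Real.sqrt (1 + ‖z‖ ^ 2) with hq
  have hq1 : 1 ≤ q := Real.one_le_sqrt.2 (by nlinarith [sq_nonneg ‖z‖])
  have hqz : ‖z‖ ≤ q := Real.le_sqrt_of_sq_le (by linarith)
  have hpi := Real.pi_gt_three
  have h8 : (3 / (4 * Real.pi)) ≤ 1 := by
    rw [div_le_one (by positivity)]
    linarith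
  have hq0 : 0 < q := by linarith
  have h3 : ‖z‖ ^ 3 * (q ^ 5)⁻¹ ≤ ‖z‖⁻¹ := by
    rw [← div_eq_mul_inv, div_le_iff₀ (by positivity), inv_mul_eq_div, le_div_iff₀ hz]
    calc ‖z‖ ^ 3 * ‖z‖ = ‖z‖ ^ 4 := by ring
      _ ≤ q ^ 4 := pow_le_pow_left₀ hz.le hqz 4
      _ ≤ q ^ 5 := pow_le_pow_right₀ hq1 (by norm_num)
  calc ‖z‖ ^ 3 * ph z = (3 / (4 * Real.pi)) * (‖z‖ ^ 3 * (q ^ 5)⁻¹) := by unfold ph; ring
    _ ≤ 1 * ‖z‖⁻¹ := mul_le_mul h8 h3 (by positivity) (by norm_num)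
    _ = _ := one_mul _

theorem ph_scale (n : ℕ) (z : V) : ((n : ℝ) + 1) ^ Module.finrank ℝ V * ph (((n : ℝ) + 1) • z) =
    3 / (4 * Real.pi) * ((1 / ((n : ℝ) + 1)) ^ 2 * (rr (1 / ((n : ℝ) + 1)) z ^ 5)⁻¹) := by
  have hf : Module.finrank ℝ V = 3 := by simp
  rw [hf]
  have hn : (0 : ℝ) < (n : ℝ) + 1 := by positivity
  have hr := rr_pos (s_pos n) z
  have e : Real.sqrt (1 + ‖((n : ℝ) + 1) • z‖ ^ 2) = ((n : ℝ) + 1) * rr (1 / ((n : ℝ) + 1)) z := by
    rw [Real.sqrt_eq_iff_mul_self_eq (by positivity) (by positivity)]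
    have h := rr_sq (1 / ((n : ℝ) + 1)) z
    rw [norm_smul, Real.norm_eq_abs, abs_of_pos hn]
    have : ((n : ℝ) + 1) * rr (1 / ((n : ℝ) + 1)) z * (((n : ℝ) + 1) * rr (1 / ((n : ℝ) + 1)) z) =
        ((n : ℝ) + 1) ^ 2 * (rr (1 / ((n : ℝ) + 1)) z ^ 2) := by ring
    rw [this, h]
    field_simp
    ring
  unfold ph
  rw [e]
  field_simp

theorem ibp0_bK (G : V → ℝ) (hG : ContDiff ℝ 1 G) (hc : HasCompactSupport G) :
    ∑ j : Fin 3, ∫ v, bK j v * pd j G v = G 0 := by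
  have L : Tendsto (fun n : ℕ => ∑ j : Fin 3, ∫ v, bE (1 / ((n : ℝ) + 1)) j v * pd j G v) atTop
      (𝓝 (∑ j : Fin 3, ∫ v, bK j v * pd j G v)) := by
    refine tendsto_finsetSum _ (fun j _ => ?_)
    exact dom_lim (fun n => bE (1 / ((n : ℝ) + 1)) j) (bK j) (pd j G) 2
      (int_div (continuous_pd hG j) (compact_pd hc j)).2
      (fun n => (contDiff_bE (s_pos n) j).continuous) (continuous_pd hG j)
      (fun n z hz => bE_abs (s_pos n) j hz) (fun z hz => lim_bE j hz)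
  have gi : Integrable G := hG.continuous.integrable_of_hasCompactSupport hc
  have R0 := tendsto_integral_comp_smul_smul_of_integrable (μ := (volume : Measure V)) (φ := ph)
    ph_nonneg int_ph ph_decay gi hG.continuous.continuousAt
  have hn1 : Tendsto (fun n : ℕ => (n : ℝ) + 1) atTop atTop :=
    tendsto_atTop_add_const_right _ _ tendsto_natCast_atTop_atTop
  have R := R0.comp hn1
  have key : ∀ n : ℕ, ∑ j : Fin 3, ∫ v, bE (1 / ((n : ℝ) + 1)) j v * pd j G v =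
      ∫ v, (((n : ℝ) + 1) ^ Module.finrank ℝ V * ph (((n : ℝ) + 1) • v)) • G v := by
    intro n
    have hs := s_pos n
    have i0 : ∀ j, Integrable (fun v => pd j (bE (1 / ((n : ℝ) + 1)) j) v * G v) := fun j =>
      ((continuous_pd (contDiff_bE hs j) j).mul hG.continuous).integrable_of_hasCompactSupport
        (hc.mul_left)
    calc ∑ j : Fin 3, ∫ v, bE (1 / ((n : ℝ) + 1)) j v * pd j G v
        = ∑ j : Fin 3, -∫ v, pd j (bE (1 / ((n : ℝ) + 1)) j) v * G v :=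
          Finset.sum_congr rfl (fun j _ => ibp (contDiff_bE hs j) hG hc j)
      _ = -∫ v, ∑ j : Fin 3, pd j (bE (1 / ((n : ℝ) + 1)) j) v * G v := by
          rw [Finset.sum_neg_distrib, integral_finsetSum _ (fun j _ => i0 j)]
      _ = ∫ v, -∑ j : Fin 3, pd j (bE (1 / ((n : ℝ) + 1)) j) v * G v := by
          rw [integral_neg]
      _ = _ := by
          refine integral_congr_ae (Eventually.of_forall fun v => ?_)
          show -∑ j : Fin 3, pd j (bE (1 / ((n : ℝ) + 1)) j) v * G v =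
            (((n : ℝ) + 1) ^ Module.finrank ℝ V * ph (((n : ℝ) + 1) • v)) • G v
          rw [← Finset.sum_mul, div_bE hs, ph_scale, smul_eq_mul]
          ring
  have L' := L.congr key
  exact tendsto_nhds_unique L' R

/-- translate -/
theorem tr (K G : V → ℝ) (w : V) :
    ∫ v, K (v - w) * G v = ∫ v, K v * G (v + w) := by
  have h := integral_sub_right_eq_self (μ := (volume : Measure V)) (fun z => K z * G (z + w)) w
  simpa only [sub_add_cancel] using h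

theorem pd_tr (G : V → ℝ) (w : V) (j : Fin 3) (z : V) :
    pd j (fun v => G (v + w)) z = pd j G (z + w) := by
  unfold pd
  rw [fderiv_comp_add_right]

end KIbp

open KIbp

theorem ibp_aK (G : V → ℝ) (hG : ContDiff ℝ 1 G) (hc : HasCompactSupport G) (i : Fin 3) (w : V) :
    ∑ j : Fin 3, ∫ v, aK i j (v - w) * pd j G v = - ∫ v, bK i (v - w) * G v := by
  have h := ibp0_aK (fun v => G (v + w)) (hG.comp (contDiff_id.add contDiff_const))
    (hc.comp_homeomorph (Homeomorph.addRight w)) i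
  simp only [pd_tr] at h
  simp only [tr (aK i _) (pd _ G) w, tr (bK i) G w]
  exact h

theorem ibp_bK (G : V → ℝ) (hG : ContDiff ℝ 1 G) (hc : HasCompactSupport G) (w : V) :
    ∑ j : Fin 3, ∫ v, bK j (v - w) * pd j G v = G w := by
  have h := ibp0_bK (fun v => G (v + w)) (hG.comp (contDiff_id.add contDiff_const))
    (hc.comp_homeomorph (Homeomorph.addRight w))
  simp only [pd_tr, zero_add] at h
  simp only [tr (bK _) (pd _ G) w]
  exact h

end Pool.Agent.Landau
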