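import Pool.Agent.Landau.KBd
import Pool.Agent.Landau.KInt
import Pool.Agent.Landau.KIbp

/-!
# Landau, module Bars: the convolutions `abar u`, `bbar u`

`u` is integrable and bounded by `C > 0`.  Measurability: `AEStronglyMeasurable.integral_prod_right'`
(`aK`, `bK` are measurable).  Bounds: `int_inv`, `int_inv_sq` for `|u| / C`, `r = 1`, and `aK_abs`, `bK_abs`.
`bar_ibp_a`, `bar_ibp_b`: Fubini (`integrable_prod_inv`) and `ibp_aK`, `ibp_bK`.
`bar_div`: `ibp_aK` for the function `u`, centre `v`, with `aK (v - w) = aK (w - v)`,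
`bK (v - w) = - bK (w - v)`.
-/

set_option autoImplicit false

namespace Pool.Agent.Landau

open MeasureTheory Set Filter Topology

theorem kernel_int (u : V → ℝ) (hu : Integrable u) (C : ℝ) (hC : ∀ v, |u v| ≤ C) (i j : Fin 3)
    (v : V) : Integrable (fun w => aK i j (v - w) * u w) ∧ Integrable (fun w => bK i (v - w) * u w) := by
  obtain ⟨h1, h2⟩ := integrable_inv u hu C hC v
  constructor
  · refine h1.mono (((aK_measurable i j).comp
      (measurable_const.sub measurable_id)).aestronglyMeasurable.mul hu.aestronglyMeasurable)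
      (Eventually.of_forall fun w => ?_)
    rw [norm_mul, norm_div, Real.norm_eq_abs, norm_norm, norm_sub_rev w v, div_eq_mul_one_div,
      mul_comm]
    exact mul_le_mul_of_nonneg_left (aK_abs i j (v - w)) (norm_nonneg _)
  · refine h2.mono (((bK_measurable i).comp
      (measurable_const.sub measurable_id)).aestronglyMeasurable.mul hu.aestronglyMeasurable)
      (Eventually.of_forall fun w => ?_)
    rw [norm_mul, norm_div, Real.norm_eq_abs, norm_pow, norm_norm, norm_sub_rev w v,
      div_eq_mul_one_div, mul_comm]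
    exact mul_le_mul_of_nonneg_left (bK_abs i (v - w)) (norm_nonneg _)

theorem abar_meas (u : V → ℝ) (hu : Integrable u) (i j : Fin 3) :
    AEStronglyMeasurable (abar u i j) volume := by
  have h : AEStronglyMeasurable (fun p : V × V => aK i j (p.1 - p.2) * u p.2)
      ((volume : Measure V).prod (volume : Measure V)) :=
    ((aK_measurable i j).comp (measurable_fst.sub measurable_snd)).aestronglyMeasurable.mul
      hu.aestronglyMeasurable.comp_snd
  exact h.integral_prod_right'

theorem bbar_meas (u : V → ℝ) (hu : Integrable u) (i : Fin 3) :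
    AEStronglyMeasurable (bbar u i) volume := by
  have h : AEStronglyMeasurable (fun p : V × V => bK i (p.1 - p.2) * u p.2)
      ((volume : Measure V).prod (volume : Measure V)) :=
    ((bK_measurable i).comp (measurable_fst.sub measurable_snd)).aestronglyMeasurable.mul
      hu.aestronglyMeasurable.comp_snd
  exact h.integral_prod_right'

theorem abar_symm (u : V → ℝ) (i j : Fin 3) (v : V) : abar u i j v = abar u j i v := by
  unfold abar
  refine integral_congr_ae (Eventually.of_forall fun w => ?_)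
  simp only []
  rw [aK_symm i j]

theorem abar_add (u u' : V → ℝ) (hu : Integrable u) (hu' : Integrable u') (C : ℝ)
    (hC : ∀ v, |u v| ≤ C) (hC' : ∀ v, |u' v| ≤ C) (i j : Fin 3) (v : V) :
    abar (fun w => u w + u' w) i j v = abar u i j v + abar u' i j v := by
  unfold abar
  rw [← integral_add (kernel_int u hu C hC i j v).1 (kernel_int u' hu' C hC' i j v).1]
  refine integral_congr_ae (Eventually.of_forall fun w => ?_)
  simp only []
  ring

theorem bbar_add (u u' : V → ℝ) (hu : Integrable u) (hu' : Integrable u') (C : ℝ)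
    (hC : ∀ v, |u v| ≤ C) (hC' : ∀ v, |u' v| ≤ C) (i : Fin 3) (v : V) :
    bbar (fun w => u w + u' w) i v = bbar u i v + bbar u' i v := by
  unfold bbar
  rw [← integral_add (kernel_int u hu C hC i i v).2 (kernel_int u' hu' C hC' i i v).2]
  refine integral_congr_ae (Eventually.of_forall fun w => ?_)
  simp only []
  ring

/-- bounds; the factor `c` allows small densities -/
theorem abar_bound (u g : V → ℝ) (hu : Integrable u) (hg : Integrable g) (h0 : ∀ v, 0 ≤ g v)
    (h1 : ∀ v, g v ≤ 1) (c : ℝ) (hc : 0 ≤ c) (h : ∀ v, |u v| ≤ c * g v) (i j : Fin 3) (v : V) :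
    |abar u i j v| ≤ c * (7 + ∫ w, g w) := by
  obtain ⟨k1, k2⟩ := int_inv g hg h0 h1 v 1 one_pos
  have hb : ∀ w, ‖aK i j (v - w) * u w‖ ≤ c * (g w / ‖v - w‖) := by
    intro w
    rw [norm_mul, Real.norm_eq_abs, Real.norm_eq_abs]
    calc |aK i j (v - w)| * |u w| ≤ 1 / ‖v - w‖ * (c * g w) :=
          mul_le_mul (aK_abs i j (v - w)) (h w) (abs_nonneg _) (by positivity)
      _ = c * (g w / ‖v - w‖) := by ring
  have := norm_integral_le_of_norm_le (k1.const_mul c) (Eventually.of_forall hb)
  rw [integral_const_mul, Real.norm_eq_abs] at this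
  refine this.trans (mul_le_mul_of_nonneg_left ?_ hc)
  linarith

theorem bbar_bound (u g : V → ℝ) (hu : Integrable u) (hg : Integrable g) (h0 : ∀ v, 0 ≤ g v)
    (h1 : ∀ v, g v ≤ 1) (c : ℝ) (hc : 0 ≤ c) (h : ∀ v, |u v| ≤ c * g v) (i : Fin 3) (v : V) :
    |bbar u i v| ≤ c * (13 + ∫ w, g w) := by
  obtain ⟨k1, k2⟩ := int_inv_sq g hg h0 h1 v 1 one_pos
  have hb : ∀ w, ‖bK i (v - w) * u w‖ ≤ c * (g w / ‖v - w‖ ^ 2) := by
    intro w
    rw [norm_mul, Real.norm_eq_abs, Real.norm_eq_abs]
    calc |bK i (v - w)| * |u w| ≤ 1 / ‖v - w‖ ^ 2 * (c * g w) :=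
          mul_le_mul (bK_abs i (v - w)) (h w) (abs_nonneg _) (by positivity)
      _ = c * (g w / ‖v - w‖ ^ 2) := by ring
  have := norm_integral_le_of_norm_le (k1.const_mul c) (Eventually.of_forall hb)
  rw [integral_const_mul, Real.norm_eq_abs] at this
  refine this.trans (mul_le_mul_of_nonneg_left ?_ hc)
  linarith

/-- Fubini for a kernel -/
theorem bars_fubini (K F u : V → ℝ)
    (hI : Integrable (fun p : V × V => K (p.1 - p.2) * u p.2 * F p.1)
      ((volume : Measure V).prod (volume : Measure V))) :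
    (∫ v, (∫ w, K (v - w) * u w) * F v = ∫ w, u w * ∫ v, K (v - w) * F v) ∧
      Integrable (fun w => u w * ∫ v, K (v - w) * F v) := by
  have e1 : ∀ v, (∫ w, K (v - w) * u w) * F v = ∫ w, K (v - w) * u w * F v := fun v => by
    rw [integral_mul_const]
  have e2 : ∀ w, u w * (∫ v, K (v - w) * F v) = ∫ v, K (v - w) * u w * F v := fun w => by
    rw [← integral_const_mul]
    refine integral_congr_ae (Eventually.of_forall fun v => ?_)
    simp only []
    ring
  constructor
  · simp only [e1, e2]
    exact integral_integral_swap (f := fun v w => K (v - w) * u w * F v) hI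
  · simp only [e2]
    exact hI.integral_prod_right

theorem bars_int_a (u : V → ℝ) (hu : Integrable u) (F : V → ℝ) (hF : Continuous F)
    (hc : HasCompactSupport F) (i j : Fin 3) :
    Integrable (fun p : V × V => aK i j (p.1 - p.2) * u p.2 * F p.1)
      ((volume : Measure V).prod (volume : Measure V)) := by
  obtain ⟨C, hC⟩ := hF.bounded_above_of_compact_support hc
  have hFi : Integrable F := hF.integrable_of_hasCompactSupport hc
  have h1 := (integrable_prod_inv F u hFi hu C (fun v => by simpa using hC v)).1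
  refine h1.mono ((((aK_measurable i j).comp
    (measurable_fst.sub measurable_snd)).aestronglyMeasurable.mul
      hu.aestronglyMeasurable.comp_snd).mul hFi.aestronglyMeasurable.comp_fst)
      (Eventually.of_forall fun p => ?_)
  rw [norm_mul, norm_mul, norm_div, norm_mul, norm_norm, Real.norm_eq_abs (aK _ _ _)]
  calc |aK i j (p.1 - p.2)| * ‖u p.2‖ * ‖F p.1‖ ≤ 1 / ‖p.1 - p.2‖ * ‖u p.2‖ * ‖F p.1‖ := by
        gcongr
        exact aK_abs i j (p.1 - p.2)
    _ = ‖F p.1‖ * ‖u p.2‖ / ‖p.1 - p.2‖ := by ring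

theorem bars_int_b (u : V → ℝ) (hu : Integrable u) (F : V → ℝ) (hF : Continuous F)
    (hc : HasCompactSupport F) (i : Fin 3) :
    Integrable (fun p : V × V => bK i (p.1 - p.2) * u p.2 * F p.1)
      ((volume : Measure V).prod (volume : Measure V)) := by
  obtain ⟨C, hC⟩ := hF.bounded_above_of_compact_support hc
  have hFi : Integrable F := hF.integrable_of_hasCompactSupport hc
  have h1 := (integrable_prod_inv F u hFi hu C (fun v => by simpa using hC v)).2
  refine h1.mono ((((bK_measurable i).comp
    (measurable_fst.sub measurable_snd)).aestronglyMeasurable.mul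
      hu.aestronglyMeasurable.comp_snd).mul hFi.aestronglyMeasurable.comp_fst)
      (Eventually.of_forall fun p => ?_)
  rw [norm_mul, norm_mul, norm_div, norm_mul, norm_pow, norm_norm, Real.norm_eq_abs (bK _ _)]
  calc |bK i (p.1 - p.2)| * ‖u p.2‖ * ‖F p.1‖ ≤ 1 / ‖p.1 - p.2‖ ^ 2 * ‖u p.2‖ * ‖F p.1‖ := by
        gcongr
        exact bK_abs i (p.1 - p.2)
    _ = ‖F p.1‖ * ‖u p.2‖ / ‖p.1 - p.2‖ ^ 2 := by ring

theorem bar_ibp_a (u : V → ℝ) (hu : Integrable u) (C : ℝ) (hC : ∀ v, |u v| ≤ C) (G : V → ℝ)
    (hG : ContDiff ℝ 1 G) (hc : HasCompactSupport G) (i : Fin 3) :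
    ∑ j : Fin 3, ∫ v, abar u i j v * pd j G v = - ∫ v, bbar u i v * G v := by
  have hj : ∀ j : Fin 3, _ := fun j => bars_fubini (aK i j) (pd j G) u
    (bars_int_a u hu (pd j G) (continuous_pd hG j) (compact_pd hc j) i j)
  obtain ⟨hb1, hb2⟩ := bars_fubini (bK i) G u (bars_int_b u hu G hG.continuous hc i)
  unfold abar bbar
  rw [Finset.sum_congr rfl fun j _ => (hj j).1, hb1,
    ← integral_finsetSum _ fun j _ => (hj j).2, ← integral_neg]
  refine integral_congr_ae (Eventually.of_forall fun w => ?_)
  simp only []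
  rw [← Finset.mul_sum, ibp_aK G hG hc i w]
  ring

theorem bar_ibp_b (u : V → ℝ) (hu : Integrable u) (C : ℝ) (hC : ∀ v, |u v| ≤ C) (G : V → ℝ)
    (hG : ContDiff ℝ 1 G) (hc : HasCompactSupport G) :
    ∑ j : Fin 3, ∫ v, bbar u j v * pd j G v = ∫ v, u v * G v := by
  have hj : ∀ j : Fin 3, _ := fun j => bars_fubini (bK j) (pd j G) u
    (bars_int_b u hu (pd j G) (continuous_pd hG j) (compact_pd hc j) j)
  unfold bbar
  rw [Finset.sum_congr rfl fun j _ => (hj j).1, ← integral_finsetSum _ fun j _ => (hj j).2]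
  refine integral_congr_ae (Eventually.of_forall fun w => ?_)
  simp only []
  rw [← Finset.mul_sum, ibp_bK G hG hc w]

theorem bar_div (u : V → ℝ) (hu : ContDiff ℝ 1 u) (hc : HasCompactSupport u) (i : Fin 3) (v : V) :
    ∑ j : Fin 3, abar (pd j u) i j v = bbar u i v := by
  have h := ibp_aK u hu hc i v
  unfold abar bbar
  have e1 : ∀ j : Fin 3, ∫ w, aK i j (v - w) * pd j u w = ∫ w, aK i j (w - v) * pd j u w :=
    fun j => by
      refine integral_congr_ae (Eventually.of_forall fun w => ?_)
      simp only []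
      rw [← neg_sub w v, aK_neg]
  rw [Finset.sum_congr rfl fun j _ => e1 j, h, ← integral_neg]
  refine integral_congr_ae (Eventually.of_forall fun w => ?_)
  simp only []
  rw [← neg_sub v w, bK_neg]
  ring

end Pool.Agent.Landau
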