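import Pool.Agent.Landau.Defs

/-!
# Landau, module Base: elementary facts
-/

set_option autoImplicit false

namespace Pool.Agent.Landau

open MeasureTheory Set Filter Topology

theorem smooth_pd {g : V → ℝ} (hg : ContDiff ℝ (⊤ : ℕ∞) g) (i : Fin 3) :
    ContDiff ℝ (⊤ : ℕ∞) (pd i g) := by
  unfold pd
  exact (hg.fderiv_right (m := (⊤ : ℕ∞)) (by simp)).clm_apply contDiff_const

theorem contDiff_one_of_smooth {g : V → ℝ} (hg : ContDiff ℝ (⊤ : ℕ∞) g) : ContDiff ℝ 1 g :=
  hg.of_le (by exact_mod_cast le_top)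

theorem differentiable_of_smooth {g : V → ℝ} (hg : ContDiff ℝ (⊤ : ℕ∞) g) : Differentiable ℝ g :=
  hg.differentiable (by simp)

theorem continuous_pd {g : V → ℝ} (hg : ContDiff ℝ 1 g) (i : Fin 3) : Continuous (pd i g) := by
  unfold pd
  exact (hg.continuous_fderiv (by norm_num)).clm_apply continuous_const

theorem compact_pd {g : V → ℝ} (hc : HasCompactSupport g) (i : Fin 3) :
    HasCompactSupport (pd i g) := by
  unfold pd
  exact hc.fderiv_apply (𝕜 := ℝ) _

theorem pd_mul {f g : V → ℝ} {v : V} (hf : DifferentiableAt ℝ f v) (hg : DifferentiableAt ℝ g v)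
    (i : Fin 3) : pd i (fun x => f x * g x) v = f v * pd i g v + pd i f v * g v := by
  unfold pd
  rw [fderiv_fun_mul hf hg]
  simp [mul_comm]

theorem pd_add {f g : V → ℝ} {v : V} (hf : DifferentiableAt ℝ f v) (hg : DifferentiableAt ℝ g v)
    (i : Fin 3) : pd i (fun x => f x + g x) v = pd i f v + pd i g v := by
  unfold pd
  rw [fderiv_fun_add hf hg]
  simp

theorem pd_comp {g : V → ℝ} {v : V} {β : ℝ → ℝ} {β' : ℝ} (hg : DifferentiableAt ℝ g v)
    (hβ : HasDerivAt β β' (g v)) (i : Fin 3) :
    pd i (fun x => β (g x)) v = β' * pd i g v := by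
  unfold pd
  have h := hβ.comp_hasFDerivAt v hg.hasFDerivAt
  have h2 : fderiv ℝ (fun x => β (g x)) v = β' • fderiv ℝ g v := h.fderiv
  rw [h2]
  simp

/-- integration by parts -/
theorem ibp {u G : V → ℝ} (hu : ContDiff ℝ 1 u) (hG : ContDiff ℝ 1 G) (hc : HasCompactSupport G)
    (i : Fin 3) : ∫ v, u v * pd i G v = - ∫ v, pd i u v * G v := by
  have h1 : Continuous fun v => pd i u v := continuous_pd hu i
  have h2 : Continuous fun v => pd i G v := continuous_pd hG i
  have := integral_mul_fderiv_eq_neg_fderiv_mul_of_integrable (μ := (volume : Measure V))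
    (f := u) (g := G) (v := EuclideanSpace.single i (1 : ℝ)) ?_ ?_ ?_
    (fun x _ => hu.differentiable (by norm_num) x) (fun x _ => hG.differentiable (by norm_num) x)
  · exact this
  · exact (h1.mul hG.continuous).integrable_of_hasCompactSupport (hc.mul_left)
  · exact (hu.continuous.mul h2).integrable_of_hasCompactSupport ((compact_pd hc i).mul_left)
  · exact (hu.continuous.mul hG.continuous).integrable_of_hasCompactSupport (hc.mul_left)

namespace Cls

variable {g : V → ℝ}

theorem cont (hg : Cls g) : Continuous g := hg.smooth.continuous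

theorem int_g (hg : Cls g) : Integrable g := by
  refine hg.int.mono' hg.cont.aestronglyMeasurable (Eventually.of_forall fun v => ?_)
  rw [Real.norm_eq_abs, abs_of_nonneg (hg.nonneg v)]
  nlinarith [hg.nonneg v, sq_nonneg ‖v‖, mul_nonneg (sq_nonneg ‖v‖) (hg.nonneg v)]

theorem int_energy (hg : Cls g) : Integrable (fun v => ‖v‖ ^ 2 * g v) := by
  refine hg.int.mono' ((continuous_norm.pow 2).mul hg.cont).aestronglyMeasurable
    (Eventually.of_forall fun v => ?_)
  rw [Real.norm_eq_abs, abs_of_nonneg (mul_nonneg (sq_nonneg ‖v‖) (hg.nonneg v))]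
  nlinarith [hg.nonneg v]

theorem abs_coord (v : V) (i : Fin 3) : |v i| ≤ ‖v‖ := by
  have := EuclideanSpace.norm_eq v
  rw [this, ← Real.sqrt_sq_eq_abs]
  refine Real.sqrt_le_sqrt ?_
  have h := Finset.single_le_sum (f := fun j => ‖v j‖ ^ 2) (fun j _ => sq_nonneg _)
    (Finset.mem_univ i)
  simpa using h

theorem int_mom (hg : Cls g) (i : Fin 3) : Integrable (fun v => v i * g v) := by
  have hc : Continuous fun v : V => v i := by fun_prop
  refine hg.int.mono' (hc.mul hg.cont).aestronglyMeasurable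
    (Eventually.of_forall fun v => ?_)
  rw [Real.norm_eq_abs, abs_mul, abs_of_nonneg (hg.nonneg v)]
  refine mul_le_mul_of_nonneg_right ?_ (hg.nonneg v)
  have := abs_coord v i
  nlinarith [sq_nonneg (‖v‖ - 1)]

theorem mass_nonneg (hg : Cls g) : 0 ≤ mass g := integral_nonneg hg.nonneg

theorem energy_nonneg (hg : Cls g) : 0 ≤ energy g :=
  integral_nonneg fun v => mul_nonneg (sq_nonneg _) (hg.nonneg v)

theorem tail (hg : Cls g) {R : ℝ} (hR : 0 < R) :
    ∫ v in {v : V | R ≤ ‖v‖}, g v ≤ energy g / R ^ 2 := by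
  have hm : MeasurableSet {v : V | R ≤ ‖v‖} := measurableSet_le measurable_const measurable_norm
  rw [le_div_iff₀ (by positivity), ← integral_mul_const]
  calc ∫ v in {v : V | R ≤ ‖v‖}, g v * R ^ 2 ≤ ∫ v in {v : V | R ≤ ‖v‖}, ‖v‖ ^ 2 * g v := by
        refine setIntegral_mono_on (hg.int_g.mul_const _).integrableOn hg.int_energy.integrableOn
          hm (fun v hv => ?_)
        have hv' : R ≤ ‖v‖ := hv
        have : R ^ 2 ≤ ‖v‖ ^ 2 := pow_le_pow_left₀ hR.le hv' 2
        nlinarith [hg.nonneg v]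
    _ ≤ energy g := setIntegral_le_integral hg.int_energy
        (Eventually.of_forall fun v => mul_nonneg (sq_nonneg _) (hg.nonneg v))

theorem pd_zero (hg : Cls g) {v : V} (h : g v = 0) (i : Fin 3) : pd i g v = 0 := by
  have hmin : IsLocalMin g v := Eventually.of_forall fun x => by rw [h]; exact hg.nonneg x
  unfold pd
  rw [hmin.fderiv_eq_zero]
  simp

theorem gam_mul (hg : Cls g) (i : Fin 3) (v : V) : g v * gam i g v = pd i g v := by
  unfold gam
  by_cases h : g v = 0
  · rw [h, hg.pd_zero h i]; simp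
  · field_simp

end Cls

end Pool.Agent.Landau
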