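import Pool.Agent.Landau.Defs3

/-!
# Landau, module CT1: the identity for the energy at intermediate velocities

Let `z = v - w`, `A_ik = δ_ik / ‖z‖ - z_i z_k / ‖z‖³`, `UU i v w = ∑_k A_ik v_k`.  For `z ≠ 0`:
`∑_i ∂_{z_i} A_ik = - 2 z_k / ‖z‖³`, `tr A = 2 / ‖z‖`, so the divergence of `UU` in `v` is
`2 / ‖z‖ - 2 z·v / ‖z‖³` and in `w` it is `2 z·v / ‖z‖³` (`uu_div_v`, `uu_div_w`, with derivatives of
`v ↦ UU i v w`, `w ↦ UU i v w`).

`ct_identity`: for fixed `w` with `ζ w ≠ 0` the function `v ↦ χ v * UU i v w` is `C^1` with compact support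
(`‖v‖ ≤ r1 < r2 ≤ ‖w‖` on the supports, so `z ≠ 0` there), so by parts (`ibp`) in `v`, and in the same way in `w` for
the second term (Fubini: all integrands are continuous with compact support on `V × V`):
`∫∫ χ ζ ∑ U_i (g_* ∂_i g - g ∂_i g_*) = - ∫∫ g g_* ζ ∑ ∂_{v_i}(χ U_i) + ∫∫ g g_* χ ∑ ∂_{w_i}(ζ U_i)`, and
`2 / ‖z‖ - 2 z·v / ‖z‖³ - 2 z·v / ‖z‖³ = 2 (‖w‖² - ‖v‖²) / ‖z‖³` because `‖z‖² = ‖v‖² - 2 v·w + ‖w‖²`,
`z·v = ‖v‖² - v·w`.

`ct_cross`: `g_* ∂_i g - g ∂_i g_* = g g_* (γ_i - γ_i*)` (`Cls.gam_mul`), and with `Δ = γ - γ_*`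
`∑_ab (z_a Δ_b - z_b Δ_a)(z_a v_b - z_b v_a) = 2 (‖z‖² Δ·v - z·v z·Δ)`.
-/

set_option autoImplicit false

namespace Pool.Agent.Landau

open MeasureTheory Set Filter Topology

/-! ### gradients -/

/-- `f` is differentiable at `v` with partial derivatives `d` -/
def HPd (f : V → ℝ) (v : V) (d : Fin 3 → ℝ) : Prop :=
  DifferentiableAt ℝ f v ∧ ∀ i, pd i f v = d i

theorem HPd.const (c : ℝ) (v : V) : HPd (fun _ => c) v (fun _ => 0) := by
  refine ⟨differentiableAt_const c, fun i => ?_⟩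
  unfold pd
  simp

theorem HPd.coord (k : Fin 3) (v : V) :
    HPd (fun x : V => x k) v (fun i => if i = k then 1 else 0) := by
  have h : HasFDerivAt (fun z : V => z k) (EuclideanSpace.proj k : V →L[ℝ] ℝ) v :=
    (EuclideanSpace.proj k : V →L[ℝ] ℝ).hasFDerivAt
  refine ⟨h.differentiableAt, fun i => ?_⟩
  unfold pd
  rw [h.fderiv]
  by_cases hik : i = k
  · subst hik; simp
  · simp [hik, Ne.symm hik]

theorem HPd.mul {f g : V → ℝ} {v : V} {d e : Fin 3 → ℝ} (hf : HPd f v d) (hg : HPd g v e) :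
    HPd (fun x => f x * g x) v (fun i => f v * e i + d i * g v) := by
  refine ⟨hf.1.mul hg.1, fun i => ?_⟩
  rw [pd_mul hf.1 hg.1, hf.2, hg.2]

theorem HPd.add {f g : V → ℝ} {v : V} {d e : Fin 3 → ℝ} (hf : HPd f v d) (hg : HPd g v e) :
    HPd (fun x => f x + g x) v (fun i => d i + e i) := by
  refine ⟨hf.1.add hg.1, fun i => ?_⟩
  rw [pd_add hf.1 hg.1, hf.2, hg.2]

theorem HPd.sub {f g : V → ℝ} {v : V} {d e : Fin 3 → ℝ} (hf : HPd f v d) (hg : HPd g v e) :
    HPd (fun x => f x - g x) v (fun i => d i - e i) := by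
  refine ⟨hf.1.sub hg.1, fun i => ?_⟩
  unfold pd
  rw [fderiv_fun_sub hf.1 hg.1]
  have h1 := hf.2 i
  have h2 := hg.2 i
  unfold pd at h1 h2
  simp [h1, h2]

theorem HPd.comp {f : V → ℝ} {v : V} {d : Fin 3 → ℝ} {β : ℝ → ℝ} {β' : ℝ} (hf : HPd f v d)
    (hβ : HasDerivAt β β' (f v)) : HPd (fun x => β (f x)) v (fun i => β' * d i) := by
  refine ⟨(hβ.comp_hasFDerivAt v hf.1.hasFDerivAt).differentiableAt, fun i => ?_⟩
  rw [pd_comp hf.1 hβ, hf.2]

theorem HPd.congr {f g : V → ℝ} {v : V} {d e : Fin 3 → ℝ} (hf : HPd f v d) (h : f = g)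
    (h' : ∀ i, d i = e i) : HPd g v e := by
  subst h
  exact ⟨hf.1, fun i => (hf.2 i).trans (h' i)⟩

theorem ct1_normsq (z : V) : ‖z‖ ^ 2 = z 0 ^ 2 + z 1 ^ 2 + z 2 ^ 2 := by
  rw [EuclideanSpace.real_norm_sq_eq, Fin.sum_univ_three]

theorem HPd.sqnorm (w v : V) :
    HPd (fun x : V => ‖x - w‖ ^ 2) v (fun i => 2 * (v - w) i) := by
  have hc : ∀ k : Fin 3, HPd (fun x : V => (x k - w k) * (x k - w k)) v _ := fun k =>
    ((HPd.coord k v).sub (HPd.const (w k) v)).mul ((HPd.coord k v).sub (HPd.const (w k) v))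
  refine (((hc 0).add (hc 1)).add (hc 2)).congr ?_ ?_
  · funext x
    rw [ct1_normsq]
    simp only [PiLp.sub_apply]
    ring
  · intro i
    fin_cases i <;> simp <;> ring

theorem HPd.invnorm (w v : V) (h : v ≠ w) :
    HPd (fun x : V => ‖x - w‖⁻¹) v (fun i => -((v - w) i * ‖v - w‖⁻¹ ^ 3)) := by
  have hz : (0 : ℝ) < ‖v - w‖ := norm_pos_iff.2 (sub_ne_zero.2 h)
  have h1 : HasDerivAt (fun x : ℝ => (Real.sqrt x)⁻¹)
      (-(1 / (2 * Real.sqrt (‖v - w‖ ^ 2))) / (Real.sqrt (‖v - w‖ ^ 2)) ^ 2) (‖v - w‖ ^ 2) := by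
    have h2 := Real.hasDerivAt_sqrt (x := ‖v - w‖ ^ 2) (by positivity)
    exact h2.inv (by rw [Real.sqrt_sq hz.le]; exact hz.ne')
  refine ((HPd.sqnorm w v).comp h1).congr ?_ ?_
  · funext x
    rw [Real.sqrt_sq (norm_nonneg _)]
  · intro i
    rw [Real.sqrt_sq hz.le]
    field_simp

theorem HPd.invcube (w v : V) (h : v ≠ w) :
    HPd (fun x : V => ‖x - w‖⁻¹ ^ 3) v (fun i => -(3 * (v - w) i * ‖v - w‖⁻¹ ^ 5)) := by
  have h1 : HasDerivAt (fun x : ℝ => x ^ 3) (((3 : ℕ) : ℝ) * (‖v - w‖⁻¹) ^ (3 - 1)) (‖v - w‖⁻¹) :=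
    hasDerivAt_pow 3 _
  refine ((HPd.invnorm w v h).comp h1).congr rfl ?_
  intro i
  push_cast
  ring

/-- `z·v` -/
noncomputable def zv (v w : V) : ℝ := ∑ k : Fin 3, (v - w) k * v k

theorem uu_eq (i : Fin 3) (v w : V) :
    UU i v w = v i * ‖v - w‖⁻¹ - (v - w) i * zv v w * ‖v - w‖⁻¹ ^ 3 := by
  unfold UU zv
  rw [div_eq_mul_inv, div_eq_mul_inv, inv_pow]

theorem HPd.uu_v (i : Fin 3) (v w : V) (h : v ≠ w) :
    HPd (fun x : V => UU i x w) v (fun j =>
      (v i * -((v - w) j * ‖v - w‖⁻¹ ^ 3) + (if j = i then 1 else 0) * ‖v - w‖⁻¹) -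
      (((v - w) i * zv v w) * -(3 * (v - w) j * ‖v - w‖⁻¹ ^ 5) +
        ((v - w) i * ((v - w) j + v j) + (if j = i then 1 else 0) * zv v w) * ‖v - w‖⁻¹ ^ 3)) := by
  have hz : HPd (fun x : V => zv x w) v (fun j => (v - w) j + v j) := by
    have hc : ∀ k : Fin 3, HPd (fun x : V => (x k - w k) * x k) v _ := fun k =>
      ((HPd.coord k v).sub (HPd.const (w k) v)).mul (HPd.coord k v)
    refine (((hc 0).add (hc 1)).add (hc 2)).congr ?_ ?_
    · funext x
      unfold zv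
      rw [Fin.sum_univ_three]
      simp only [PiLp.sub_apply]
    · intro j
      fin_cases j <;> simp
  have hi : HPd (fun x : V => (x - w) i) v (fun j => if j = i then 1 else 0) :=
    ((HPd.coord i v).sub (HPd.const (w i) v)).congr (by funext x; simp) (by intro j; simp)
  refine (((HPd.coord i v).mul (HPd.invnorm w v h)).sub
    ((hi.mul hz).mul (HPd.invcube w v h))).congr ?_ ?_
  · funext x
    rw [uu_eq]
  · intro j
    rfl

theorem HPd.uu_w (i : Fin 3) (v w : V) (h : v ≠ w) :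
    HPd (fun x : V => UU i v x) w (fun j =>
      (v i * ((v - w) j * ‖v - w‖⁻¹ ^ 3)) -
      (((v - w) i * zv v w) * (3 * (v - w) j * ‖v - w‖⁻¹ ^ 5) +
        ((v - w) i * (- v j) - (if j = i then 1 else 0) * zv v w) * ‖v - w‖⁻¹ ^ 3)) := by
  have hn : HPd (fun x : V => ‖v - x‖⁻¹) w (fun j => (v - w) j * ‖v - w‖⁻¹ ^ 3) := by
    refine (HPd.invnorm v w (Ne.symm h)).congr ?_ ?_
    · funext x
      rw [norm_sub_rev]
    · intro j
      rw [norm_sub_rev]
      simp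
      ring
  have hn3 : HPd (fun x : V => ‖v - x‖⁻¹ ^ 3) w (fun j => 3 * (v - w) j * ‖v - w‖⁻¹ ^ 5) := by
    refine (HPd.invcube v w (Ne.symm h)).congr ?_ ?_
    · funext x
      rw [norm_sub_rev]
    · intro j
      rw [norm_sub_rev]
      simp
      ring
  have hz : HPd (fun x : V => zv v x) w (fun j => - v j) := by
    have hc : ∀ k : Fin 3, HPd (fun x : V => (v k - x k) * v k) w _ := fun k =>
      ((HPd.const (v k) w).sub (HPd.coord k w)).mul (HPd.const (v k) w)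
    refine (((hc 0).add (hc 1)).add (hc 2)).congr ?_ ?_
    · funext x
      unfold zv
      rw [Fin.sum_univ_three]
      simp only [PiLp.sub_apply]
    · intro j
      fin_cases j <;> simp
  have hi : HPd (fun x : V => (v - x) i) w (fun j => - (if j = i then 1 else 0)) :=
    ((HPd.const (v i) w).sub (HPd.coord i w)).congr (by funext x; simp) (by intro j; simp)
  refine (((HPd.const (v i) w).mul hn).sub ((hi.mul hz).mul hn3)).congr ?_ ?_
  · funext x
    rw [uu_eq]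
  · intro j
    simp only
    ring

theorem ct1_rel (v w : V) (h : v ≠ w) :
    ((v - w) 0 ^ 2 + (v - w) 1 ^ 2 + (v - w) 2 ^ 2) * ‖v - w‖⁻¹ ^ 2 = 1 := by
  have hz : (0 : ℝ) < ‖v - w‖ := norm_pos_iff.2 (sub_ne_zero.2 h)
  rw [← ct1_normsq, ← mul_pow, mul_inv_cancel₀ hz.ne', one_pow]

/-- divergence in `v` -/
theorem uu_div_v (v w : V) (h : v ≠ w) :
    ∑ i : Fin 3, pd i (fun x : V => UU i x w) v =
      2 * ‖v - w‖⁻¹ - 2 * zv v w * ‖v - w‖⁻¹ ^ 3 := by
  have hr := ct1_rel v w h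
  simp only [fun i : Fin 3 => (HPd.uu_v i v w h).2 i, if_true, Fin.sum_univ_three]
  have hzv : zv v w = (v - w) 0 * v 0 + (v - w) 1 * v 1 + (v - w) 2 * v 2 := by
    unfold zv
    rw [Fin.sum_univ_three]
  generalize ‖v - w‖⁻¹ = p at *
  generalize (v - w) 0 = z0 at *
  generalize (v - w) 1 = z1 at *
  generalize (v - w) 2 = z2 at *
  generalize zv v w = s at *
  subst hzv
  linear_combination (3 * (z0 * v 0 + z1 * v 1 + z2 * v 2) * p ^ 3 - p) * hr

/-- divergence in `w` -/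
theorem uu_div_w (v w : V) (h : v ≠ w) :
    ∑ i : Fin 3, pd i (fun x : V => UU i v x) w = 2 * zv v w * ‖v - w‖⁻¹ ^ 3 := by
  have hr := ct1_rel v w h
  simp only [fun i : Fin 3 => (HPd.uu_w i v w h).2 i, if_true, Fin.sum_univ_three]
  have hzv : zv v w = (v - w) 0 * v 0 + (v - w) 1 * v 1 + (v - w) 2 * v 2 := by
    unfold zv
    rw [Fin.sum_univ_three]
  generalize ‖v - w‖⁻¹ = p at *
  generalize (v - w) 0 = z0 at *
  generalize (v - w) 1 = z1 at *
  generalize (v - w) 2 = z2 at *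
  generalize zv v w = s at *
  subst hzv
  linear_combination (-3 * (z0 * v 0 + z1 * v 1 + z2 * v 2) * p ^ 3) * hr

/-! ### smoothness off the diagonal -/

theorem ct1_cd_norm (p : V × V) (h : p.1 ≠ p.2) :
    ContDiffAt ℝ 1 (fun p : V × V => ‖p.1 - p.2‖⁻¹) p := by
  have h1 : ContDiffAt ℝ 1 (fun p : V × V => p.1 - p.2) p := contDiffAt_fst.sub contDiffAt_snd
  have h2 := h1.norm ℝ (sub_ne_zero.2 h)
  exact h2.inv (norm_ne_zero_iff.2 (sub_ne_zero.2 h))

theorem ct1_cd_zv (p : V × V) : ContDiffAt ℝ 1 (fun p : V × V => zv p.1 p.2) p := by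
  unfold zv
  apply ContDiffAt.sum
  intro k _
  have h1 : ContDiff ℝ 1 (fun x : V => x k) := (EuclideanSpace.proj k : V →L[ℝ] ℝ).contDiff
  exact (h1.contDiffAt.comp p (contDiffAt_fst.sub contDiffAt_snd)).mul
    (h1.contDiffAt.comp p contDiffAt_fst)

theorem ct1_cd_uu (i : Fin 3) (p : V × V) (h : p.1 ≠ p.2) :
    ContDiffAt ℝ 1 (fun p : V × V => UU i p.1 p.2) p := by
  have h1 : ContDiff ℝ 1 (fun x : V => x i) := (EuclideanSpace.proj i : V →L[ℝ] ℝ).contDiff
  have e : (fun p : V × V => UU i p.1 p.2) = fun p : V × V =>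
      p.1 i * ‖p.1 - p.2‖⁻¹ - (p.1 - p.2) i * zv p.1 p.2 * ‖p.1 - p.2‖⁻¹ ^ 3 := by
    funext p
    exact uu_eq i p.1 p.2
  rw [e]
  exact ((h1.contDiffAt.comp p contDiffAt_fst).mul (ct1_cd_norm p h)).sub
    (((h1.contDiffAt.comp p (contDiffAt_fst.sub contDiffAt_snd)).mul (ct1_cd_zv p)).mul
      ((ct1_cd_norm p h).pow 3))

/-! ### continuity of the products on `V × V` -/

theorem ct1_cont {r1 r2 : ℝ} (h12 : r1 < r2) {φ ψ : V → ℝ} (hφ : Continuous φ) (hψ : Continuous ψ)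
    (h1 : ∀ v, r1 < ‖v‖ → φ v = 0) (h2 : ∀ v, ‖v‖ < r2 → ψ v = 0) {K : V × V → ℝ}
    (hK : ∀ p : V × V, p.1 ≠ p.2 → ContinuousAt K p) :
    Continuous (fun p : V × V => φ p.1 * ψ p.2 * K p) := by
  rw [continuous_iff_continuousAt]
  intro p
  by_cases hp : p.1 = p.2
  · have hev : (fun p : V × V => φ p.1 * ψ p.2 * K p) =ᶠ[𝓝 p] fun _ => (0 : ℝ) := by
      rcases lt_or_ge r1 ‖p.1‖ with hr | hr
      · have hopen : IsOpen {q : V × V | r1 < ‖q.1‖} :=
          isOpen_lt continuous_const (continuous_norm.comp continuous_fst)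
        filter_upwards [hopen.mem_nhds hr] with q hq
        rw [h1 q.1 hq]
        ring
      · have hopen : IsOpen {q : V × V | ‖q.2‖ < r2} :=
          isOpen_lt (continuous_norm.comp continuous_snd) continuous_const
        have hr' : ‖p.2‖ < r2 := by rw [← hp]; exact lt_of_le_of_lt hr h12
        filter_upwards [hopen.mem_nhds hr'] with q hq
        rw [h2 q.2 hq]
        ring
    exact (continuousAt_const (y := (0 : ℝ))).congr hev.symm
  · exact ((hφ.continuousAt.comp continuousAt_fst).mul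
      (hψ.continuousAt.comp continuousAt_snd)).mul (hK p hp)

theorem ct1_int {r1 r2 : ℝ} (h12 : r1 < r2) {φ ψ : V → ℝ} (hφ : Continuous φ) (hψ : Continuous ψ)
    (hφc : HasCompactSupport φ) (hψc : HasCompactSupport ψ)
    (h1 : ∀ v, r1 < ‖v‖ → φ v = 0) (h2 : ∀ v, ‖v‖ < r2 → ψ v = 0) {K : V × V → ℝ}
    (hK : ∀ p : V × V, p.1 ≠ p.2 → ContinuousAt K p) {G : V × V → ℝ} (hG : Continuous G) :
    Integrable (fun p : V × V => φ p.1 * ψ p.2 * K p * G p)
      ((volume : Measure V).prod (volume : Measure V)) := by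
  refine ((ct1_cont h12 hφ hψ h1 h2 hK).mul hG).integrable_of_hasCompactSupport ?_
  refine HasCompactSupport.intro (K := tsupport φ ×ˢ tsupport ψ) (hφc.isCompact.prod hψc.isCompact) ?_
  intro p hp
  show φ p.1 * ψ p.2 * K p * G p = 0
  rw [Set.mem_prod, not_and_or] at hp
  rcases hp with hp | hp
  · rw [image_eq_zero_of_notMem_tsupport hp]
    ring
  · rw [image_eq_zero_of_notMem_tsupport hp]
    ring

theorem ct1_zero_pd {φ : V → ℝ} {U : Set V} (hU : IsOpen U) (h : ∀ v ∈ U, φ v = 0) (i : Fin 3) :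
    ∀ v ∈ U, pd i φ v = 0 := by
  intro v hv
  have hev : φ =ᶠ[𝓝 v] fun _ => (0 : ℝ) := by
    filter_upwards [hU.mem_nhds hv] with x hx
    exact h x hx
  unfold pd
  rw [hev.fderiv_eq]
  simp

theorem ct1_slice_v {χ : V → ℝ} (hχ : ContDiff ℝ 1 χ) {r1 r2 : ℝ} (h12 : r1 < r2)
    (h1 : ∀ v, r1 < ‖v‖ → χ v = 0) (i : Fin 3) (w : V) (hw : r2 ≤ ‖w‖) :
    ContDiff ℝ 1 (fun v => χ v * UU i v w) := by
  refine contDiff_iff_contDiffAt.2 fun v => ?_
  by_cases hv : v = w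
  · have hev : (fun v => χ v * UU i v w) =ᶠ[𝓝 v] fun _ => (0 : ℝ) := by
      have hopen : IsOpen {q : V | r1 < ‖q‖} := isOpen_lt continuous_const continuous_norm
      have hr : r1 < ‖v‖ := by rw [hv]; linarith
      filter_upwards [hopen.mem_nhds hr] with q hq
      rw [h1 q hq, zero_mul]
    exact contDiffAt_const.congr_of_eventuallyEq hev
  · have h3 : ContDiffAt ℝ 1 (fun x : V => UU i x w) v :=
      ContDiffAt.comp v (ct1_cd_uu i (v, w) hv) (contDiffAt_id.prodMk contDiffAt_const)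
    exact hχ.contDiffAt.mul h3

theorem ct1_slice_w {ζ : V → ℝ} (hζ : ContDiff ℝ 1 ζ) {r1 r2 : ℝ} (h12 : r1 < r2)
    (h2 : ∀ v, ‖v‖ < r2 → ζ v = 0) (i : Fin 3) (v : V) (hv : ‖v‖ ≤ r1) :
    ContDiff ℝ 1 (fun w => ζ w * UU i v w) := by
  refine contDiff_iff_contDiffAt.2 fun w => ?_
  by_cases hw : v = w
  · have hev : (fun w => ζ w * UU i v w) =ᶠ[𝓝 w] fun _ => (0 : ℝ) := by
      have hopen : IsOpen {q : V | ‖q‖ < r2} := isOpen_lt continuous_norm continuous_const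
      have hr : ‖w‖ < r2 := by rw [← hw]; linarith
      filter_upwards [hopen.mem_nhds hr] with q hq
      rw [h2 q hq, zero_mul]
    exact contDiffAt_const.congr_of_eventuallyEq hev
  · have h3 : ContDiffAt ℝ 1 (fun x : V => UU i v x) w :=
      ContDiffAt.comp w (ct1_cd_uu i (v, w) hw) (contDiffAt_const.prodMk contDiffAt_id)
    exact hζ.contDiffAt.mul h3

/-- integration by parts in `v` -/
theorem ct1_parts_v (g : V → ℝ) (hg : ContDiff ℝ 1 g) (χ : V → ℝ) (hχ : ContDiff ℝ 1 χ)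
    (hχc : HasCompactSupport χ) {r1 r2 : ℝ} (h12 : r1 < r2) (h1 : ∀ v, r1 < ‖v‖ → χ v = 0)
    (w : V) (hw : r2 ≤ ‖w‖) :
    ∫ v, ∑ i : Fin 3, χ v * UU i v w * pd i g v =
      - ∫ v, g v * ((∑ i : Fin 3, pd i χ v * UU i v w) +
        χ v * (2 * ‖v - w‖⁻¹ - 2 * zv v w * ‖v - w‖⁻¹ ^ 3)) := by
  have hG : ∀ i : Fin 3, ContDiff ℝ 1 (fun v => χ v * UU i v w) :=
    fun i => ct1_slice_v hχ h12 h1 i w hw
  have hGc : ∀ i : Fin 3, HasCompactSupport (fun v => χ v * UU i v w) := fun i => hχc.mul_right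
  have hi1 : ∀ i : Fin 3, Integrable (fun v => pd i g v * (χ v * UU i v w)) := fun i =>
    ((continuous_pd hg i).mul (hG i).continuous).integrable_of_hasCompactSupport ((hGc i).mul_left)
  have hi2 : ∀ i : Fin 3, Integrable (fun v => g v * pd i (fun v => χ v * UU i v w) v) := fun i =>
    (hg.continuous.mul (continuous_pd (hG i) i)).integrable_of_hasCompactSupport
      ((compact_pd (hGc i) i).mul_left)
  have e1 : ∫ v, ∑ i : Fin 3, χ v * UU i v w * pd i g v =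
      ∑ i : Fin 3, ∫ v, pd i g v * (χ v * UU i v w) := by
    rw [← integral_finsetSum _ (fun i _ => hi1 i)]
    refine integral_congr_ae (Eventually.of_forall fun v => ?_)
    exact Finset.sum_congr rfl fun i _ => by ring
  have e2 : ∀ i : Fin 3, ∫ v, pd i g v * (χ v * UU i v w) =
      - ∫ v, g v * pd i (fun v => χ v * UU i v w) v := by
    intro i
    rw [ibp hg (hG i) (hGc i) i, neg_neg]
  rw [e1, Finset.sum_congr rfl (fun i _ => e2 i), Finset.sum_neg_distrib,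
    ← integral_finsetSum _ (fun i _ => hi2 i)]
  congr 1
  refine integral_congr_ae (Eventually.of_forall fun v => ?_)
  simp only
  rw [← Finset.mul_sum]
  congr 1
  rcases lt_or_ge r1 ‖v‖ with hr | hr
  · have hopen : IsOpen {q : V | r1 < ‖q‖} := isOpen_lt continuous_const continuous_norm
    have z1 : ∀ i : Fin 3, pd i (fun v => χ v * UU i v w) v = 0 := fun i =>
      ct1_zero_pd hopen (fun q hq => by rw [h1 q hq, zero_mul]) i v hr
    have z2 : ∀ i : Fin 3, pd i χ v = 0 := fun i =>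
      ct1_zero_pd hopen (fun q hq => h1 q hq) i v hr
    simp [z1, z2, h1 v hr]
  · have hvw : v ≠ w := by
      rintro rfl
      linarith
    rw [← uu_div_v v w hvw, Finset.mul_sum, ← Finset.sum_add_distrib]
    refine Finset.sum_congr rfl fun i _ => ?_
    rw [pd_mul (hχ.differentiable (by norm_num) v) (HPd.uu_v i v w hvw).1]
    ring

/-- integration by parts in `w` -/
theorem ct1_parts_w (g : V → ℝ) (hg : ContDiff ℝ 1 g) (ζ : V → ℝ) (hζ : ContDiff ℝ 1 ζ)
    (hζc : HasCompactSupport ζ) {r1 r2 : ℝ} (h12 : r1 < r2) (h2 : ∀ v, ‖v‖ < r2 → ζ v = 0)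
    (v : V) (hv : ‖v‖ ≤ r1) :
    ∫ w, ∑ i : Fin 3, ζ w * UU i v w * pd i g w =
      - ∫ w, g w * ((∑ i : Fin 3, pd i ζ w * UU i v w) +
        ζ w * (2 * zv v w * ‖v - w‖⁻¹ ^ 3)) := by
  have hG : ∀ i : Fin 3, ContDiff ℝ 1 (fun w => ζ w * UU i v w) :=
    fun i => ct1_slice_w hζ h12 h2 i v hv
  have hGc : ∀ i : Fin 3, HasCompactSupport (fun w => ζ w * UU i v w) := fun i => hζc.mul_right
  have hi1 : ∀ i : Fin 3, Integrable (fun w => pd i g w * (ζ w * UU i v w)) := fun i =>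
    ((continuous_pd hg i).mul (hG i).continuous).integrable_of_hasCompactSupport ((hGc i).mul_left)
  have hi2 : ∀ i : Fin 3, Integrable (fun w => g w * pd i (fun w => ζ w * UU i v w) w) := fun i =>
    (hg.continuous.mul (continuous_pd (hG i) i)).integrable_of_hasCompactSupport
      ((compact_pd (hGc i) i).mul_left)
  have e1 : ∫ w, ∑ i : Fin 3, ζ w * UU i v w * pd i g w =
      ∑ i : Fin 3, ∫ w, pd i g w * (ζ w * UU i v w) := by
    rw [← integral_finsetSum _ (fun i _ => hi1 i)]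
    refine integral_congr_ae (Eventually.of_forall fun w => ?_)
    exact Finset.sum_congr rfl fun i _ => by ring
  have e2 : ∀ i : Fin 3, ∫ w, pd i g w * (ζ w * UU i v w) =
      - ∫ w, g w * pd i (fun w => ζ w * UU i v w) w := by
    intro i
    rw [ibp hg (hG i) (hGc i) i, neg_neg]
  rw [e1, Finset.sum_congr rfl (fun i _ => e2 i), Finset.sum_neg_distrib,
    ← integral_finsetSum _ (fun i _ => hi2 i)]
  congr 1
  refine integral_congr_ae (Eventually.of_forall fun w => ?_)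
  simp only
  rw [← Finset.mul_sum]
  congr 1
  rcases lt_or_ge ‖w‖ r2 with hr | hr
  · have hopen : IsOpen {q : V | ‖q‖ < r2} := isOpen_lt continuous_norm continuous_const
    have z1 : ∀ i : Fin 3, pd i (fun w => ζ w * UU i v w) w = 0 := fun i =>
      ct1_zero_pd hopen (fun q hq => by rw [h2 q hq, zero_mul]) i w hr
    have z2 : ∀ i : Fin 3, pd i ζ w = 0 := fun i =>
      ct1_zero_pd hopen (fun q hq => h2 q hq) i w hr
    simp [z1, z2, h2 w hr]
  · have hvw : v ≠ w := by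
      rintro rfl
      linarith
    rw [← uu_div_w v w hvw, Finset.mul_sum, ← Finset.sum_add_distrib]
    refine Finset.sum_congr rfl fun i _ => ?_
    rw [pd_mul (hζ.differentiable (by norm_num) w) (HPd.uu_w i v w hvw).1]
    ring

theorem ct_identity (g : V → ℝ) (hg : Cls g) (χ ζ : V → ℝ) (hχ : ContDiff ℝ (⊤ : ℕ∞) χ)
    (hχc : HasCompactSupport χ) (hζ : ContDiff ℝ (⊤ : ℕ∞) ζ) (hζc : HasCompactSupport ζ)
    (r1 r2 : ℝ) (h12 : r1 < r2) (h1 : ∀ v, r1 < ‖v‖ → χ v = 0) (h2 : ∀ v, ‖v‖ < r2 → ζ v = 0) :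
    ∫ v, ∫ w, χ v * ζ w * ∑ i : Fin 3, UU i v w * (g w * pd i g v - g v * pd i g w) =
      - ∫ v, ∫ w, g v * g w * (ζ w * (∑ i : Fin 3, pd i χ v * UU i v w) -
        χ v * (∑ i : Fin 3, pd i ζ w * UU i v w) +
        2 * χ v * ζ w * (‖w‖ ^ 2 - ‖v‖ ^ 2) / ‖v - w‖ ^ 3) := by
  have hg1 := contDiff_one_of_smooth hg.smooth
  have hχ1 := contDiff_one_of_smooth hχ
  have hζ1 := contDiff_one_of_smooth hζ
  have o1 : IsOpen {q : V | r1 < ‖q‖} := isOpen_lt continuous_const continuous_norm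
  have o2 : IsOpen {q : V | ‖q‖ < r2} := isOpen_lt continuous_norm continuous_const
  have h1p : ∀ i : Fin 3, ∀ v, r1 < ‖v‖ → pd i χ v = 0 := fun i v hv =>
    ct1_zero_pd o1 (fun q hq => h1 q hq) i v hv
  have h2p : ∀ i : Fin 3, ∀ v, ‖v‖ < r2 → pd i ζ v = 0 := fun i v hv =>
    ct1_zero_pd o2 (fun q hq => h2 q hq) i v hv
  have kU : ∀ i : Fin 3, ∀ p : V × V, p.1 ≠ p.2 →
      ContinuousAt (fun p : V × V => UU i p.1 p.2) p := fun i p hp => (ct1_cd_uu i p hp).continuousAt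
  have kN : ∀ p : V × V, p.1 ≠ p.2 → ContinuousAt (fun p : V × V => ‖p.1 - p.2‖⁻¹) p :=
    fun p hp => (ct1_cd_norm p hp).continuousAt
  have kZ : ∀ p : V × V, p.1 ≠ p.2 →
      ContinuousAt (fun p : V × V => zv p.1 p.2 * ‖p.1 - p.2‖⁻¹ ^ 3) p :=
    fun p hp => ((ct1_cd_zv p).mul ((ct1_cd_norm p hp).pow 3)).continuousAt
  have cg1 : Continuous (fun p : V × V => g p.1) := hg.cont.comp continuous_fst
  have cg2 : Continuous (fun p : V × V => g p.2) := hg.cont.comp continuous_snd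
  have cd1 : ∀ i : Fin 3, Continuous (fun p : V × V => pd i g p.1) :=
    fun i => (continuous_pd hg1 i).comp continuous_fst
  have cd2 : ∀ i : Fin 3, Continuous (fun p : V × V => pd i g p.2) :=
    fun i => (continuous_pd hg1 i).comp continuous_snd
  -- the four functions
  have iA : Integrable (fun p : V × V => ∑ i : Fin 3,
      χ p.1 * ζ p.2 * UU i p.1 p.2 * (g p.2 * pd i g p.1))
      ((volume : Measure V).prod (volume : Measure V)) :=
    integrable_finsetSum _ fun i _ => ct1_int h12 hχ1.continuous hζ1.continuous hχc hζc h1 h2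
      (kU i) (cg2.mul (cd1 i))
  have iB : Integrable (fun p : V × V => ∑ i : Fin 3,
      χ p.1 * ζ p.2 * UU i p.1 p.2 * (g p.1 * pd i g p.2))
      ((volume : Measure V).prod (volume : Measure V)) :=
    integrable_finsetSum _ fun i _ => ct1_int h12 hχ1.continuous hζ1.continuous hχc hζc h1 h2
      (kU i) (cg1.mul (cd2 i))
  have iA' : Integrable (fun p : V × V => (ζ p.2 * g p.2) * (g p.1 *
      ((∑ i : Fin 3, pd i χ p.1 * UU i p.1 p.2) +
        χ p.1 * (2 * ‖p.1 - p.2‖⁻¹ - 2 * zv p.1 p.2 * ‖p.1 - p.2‖⁻¹ ^ 3))))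
      ((volume : Measure V).prod (volume : Measure V)) := by
    have j1 : Integrable (fun p : V × V => ∑ i : Fin 3,
        pd i χ p.1 * ζ p.2 * UU i p.1 p.2 * (g p.1 * g p.2))
        ((volume : Measure V).prod (volume : Measure V)) :=
      integrable_finsetSum _ fun i _ => ct1_int h12 (continuous_pd hχ1 i) hζ1.continuous
        (compact_pd hχc i) hζc (h1p i) h2 (kU i) (cg1.mul cg2)
    have j2 := ct1_int h12 hχ1.continuous hζ1.continuous hχc hζc h1 h2 kN (cg1.mul cg2)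
    have j3 := ct1_int h12 hχ1.continuous hζ1.continuous hχc hζc h1 h2 kZ (cg1.mul cg2)
    refine (j1.add ((j2.const_mul 2).sub (j3.const_mul 2))).congr
      (Eventually.of_forall fun p => ?_)
    simp only [Pi.add_apply, Pi.sub_apply, Pi.mul_apply, Fin.sum_univ_three]
    ring
  have iB' : Integrable (fun p : V × V => (χ p.1 * g p.1) * (g p.2 *
      ((∑ i : Fin 3, pd i ζ p.2 * UU i p.1 p.2) +
        ζ p.2 * (2 * zv p.1 p.2 * ‖p.1 - p.2‖⁻¹ ^ 3))))
      ((volume : Measure V).prod (volume : Measure V)) := by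
    have j1 : Integrable (fun p : V × V => ∑ i : Fin 3,
        χ p.1 * pd i ζ p.2 * UU i p.1 p.2 * (g p.1 * g p.2))
        ((volume : Measure V).prod (volume : Measure V)) :=
      integrable_finsetSum _ fun i _ => ct1_int h12 hχ1.continuous (continuous_pd hζ1 i)
        hχc (compact_pd hζc i) h1 (h2p i) (kU i) (cg1.mul cg2)
    have j3 := ct1_int h12 hχ1.continuous hζ1.continuous hχc hζc h1 h2 kZ (cg1.mul cg2)
    refine (j1.add (j3.const_mul 2)).congr (Eventually.of_forall fun p => ?_)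
    simp only [Pi.add_apply, Pi.mul_apply, Fin.sum_univ_three]
    ring
  -- left hand side
  have eL : ∫ v, ∫ w, χ v * ζ w * ∑ i : Fin 3, UU i v w * (g w * pd i g v - g v * pd i g w) =
      (∫ v, ∫ w, ∑ i : Fin 3, χ v * ζ w * UU i v w * (g w * pd i g v)) -
      ∫ v, ∫ w, ∑ i : Fin 3, χ v * ζ w * UU i v w * (g v * pd i g w) := by
    rw [← integral_integral_sub iA iB]
    refine integral_congr_ae (Eventually.of_forall fun v => ?_)
    refine integral_congr_ae (Eventually.of_forall fun w => ?_)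
    simp only [Fin.sum_univ_three]
    ring
  have eR : ∫ v, ∫ w, g v * g w * (ζ w * (∑ i : Fin 3, pd i χ v * UU i v w) -
        χ v * (∑ i : Fin 3, pd i ζ w * UU i v w) +
        2 * χ v * ζ w * (‖w‖ ^ 2 - ‖v‖ ^ 2) / ‖v - w‖ ^ 3) =
      (∫ v, ∫ w, (ζ w * g w) * (g v * ((∑ i : Fin 3, pd i χ v * UU i v w) +
        χ v * (2 * ‖v - w‖⁻¹ - 2 * zv v w * ‖v - w‖⁻¹ ^ 3)))) -
      ∫ v, ∫ w, (χ v * g v) * (g w * ((∑ i : Fin 3, pd i ζ w * UU i v w) +
        ζ w * (2 * zv v w * ‖v - w‖⁻¹ ^ 3))) := by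
    rw [← integral_integral_sub iA' iB']
    refine integral_congr_ae (Eventually.of_forall fun v => ?_)
    refine integral_congr_ae (Eventually.of_forall fun w => ?_)
    have key : χ v * ζ w * (‖w‖ ^ 2 - ‖v‖ ^ 2) / ‖v - w‖ ^ 3 =
        χ v * ζ w * (‖v - w‖⁻¹ - 2 * zv v w * ‖v - w‖⁻¹ ^ 3) := by
      rcases lt_or_ge r1 ‖v‖ with hr | hr
      · rw [h1 v hr]; ring
      rcases lt_or_ge ‖w‖ r2 with hr2 | hr2
      · rw [h2 w hr2]; ring
      have hvw : v ≠ w := by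
        rintro rfl
        linarith
      have hrel := ct1_rel v w hvw
      have hzv : zv v w = (v - w) 0 * v 0 + (v - w) 1 * v 1 + (v - w) 2 * v 2 := by
        unfold zv
        rw [Fin.sum_univ_three]
      rw [div_eq_mul_inv, ← inv_pow, ct1_normsq v, ct1_normsq w, hzv]
      simp only [PiLp.sub_apply] at hrel ⊢
      generalize ‖v - w‖⁻¹ = p at *
      linear_combination (χ v * ζ w * p) * hrel
    have key2 : 2 * χ v * ζ w * (‖w‖ ^ 2 - ‖v‖ ^ 2) / ‖v - w‖ ^ 3 =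
        2 * (χ v * ζ w * (‖v - w‖⁻¹ - 2 * zv v w * ‖v - w‖⁻¹ ^ 3)) := by
      rw [← key]
      ring
    simp only [key2, Fin.sum_univ_three]
    ring
  rw [eL, eR]
  -- first term
  have eA : ∫ v, ∫ w, ∑ i : Fin 3, χ v * ζ w * UU i v w * (g w * pd i g v) =
      - ∫ v, ∫ w, (ζ w * g w) * (g v * ((∑ i : Fin 3, pd i χ v * UU i v w) +
        χ v * (2 * ‖v - w‖⁻¹ - 2 * zv v w * ‖v - w‖⁻¹ ^ 3))) := by
    have s1 : ∫ v, ∫ w, ∑ i : Fin 3, χ v * ζ w * UU i v w * (g w * pd i g v) =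
        ∫ w, ∫ v, ∑ i : Fin 3, χ v * ζ w * UU i v w * (g w * pd i g v) :=
      integral_integral_swap (f := fun v w => ∑ i : Fin 3, χ v * ζ w * UU i v w *
        (g w * pd i g v)) iA
    have s2 : ∫ v, ∫ w, (ζ w * g w) * (g v * ((∑ i : Fin 3, pd i χ v * UU i v w) +
        χ v * (2 * ‖v - w‖⁻¹ - 2 * zv v w * ‖v - w‖⁻¹ ^ 3))) =
        ∫ w, ∫ v, (ζ w * g w) * (g v * ((∑ i : Fin 3, pd i χ v * UU i v w) +
        χ v * (2 * ‖v - w‖⁻¹ - 2 * zv v w * ‖v - w‖⁻¹ ^ 3))) :=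
      integral_integral_swap (f := fun v w => (ζ w * g w) * (g v *
        ((∑ i : Fin 3, pd i χ v * UU i v w) +
        χ v * (2 * ‖v - w‖⁻¹ - 2 * zv v w * ‖v - w‖⁻¹ ^ 3)))) iA'
    rw [s1, s2, ← integral_neg]
    refine integral_congr_ae (Eventually.of_forall fun w => ?_)
    simp only
    rcases lt_or_ge ‖w‖ r2 with hr | hr
    · simp [h2 w hr]
    · have h := ct1_parts_v g hg1 χ hχ1 hχc h12 h1 w hr
      calc ∫ v, ∑ i : Fin 3, χ v * ζ w * UU i v w * (g w * pd i g v)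
          = (ζ w * g w) * ∫ v, ∑ i : Fin 3, χ v * UU i v w * pd i g v := by
            rw [← integral_const_mul]
            refine integral_congr_ae (Eventually.of_forall fun v => ?_)
            simp only [Fin.sum_univ_three]
            ring
        _ = _ := by
            rw [h, integral_const_mul]
            ring
  have eB : ∫ v, ∫ w, ∑ i : Fin 3, χ v * ζ w * UU i v w * (g v * pd i g w) =
      - ∫ v, ∫ w, (χ v * g v) * (g w * ((∑ i : Fin 3, pd i ζ w * UU i v w) +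
        ζ w * (2 * zv v w * ‖v - w‖⁻¹ ^ 3))) := by
    rw [← integral_neg]
    refine integral_congr_ae (Eventually.of_forall fun v => ?_)
    simp only
    rcases lt_or_ge r1 ‖v‖ with hr | hr
    · simp [h1 v hr]
    · have h := ct1_parts_w g hg1 ζ hζ1 hζc h12 h2 v hr
      calc ∫ w, ∑ i : Fin 3, χ v * ζ w * UU i v w * (g v * pd i g w)
          = (χ v * g v) * ∫ w, ∑ i : Fin 3, ζ w * UU i v w * pd i g w := by
            rw [← integral_const_mul]
            refine integral_congr_ae (Eventually.of_forall fun w => ?_)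
            simp only [Fin.sum_univ_three]
            ring
        _ = _ := by
            rw [h, integral_const_mul]
            ring
  rw [eA, eB]
  ring

theorem ct_cross (g : V → ℝ) (hg : Cls g) (v w : V) :
    ∑ i : Fin 3, UU i v w * (g w * pd i g v - g v * pd i g w) =
      (1 / 2) * (g v * g w * (∑ a : Fin 3, ∑ b : Fin 3, XX g a b v w *
        ((v - w) a * v b - (v - w) b * v a)) / ‖v - w‖ ^ 3) := by
  have hm : ∀ i : Fin 3, g w * pd i g v - g v * pd i g w =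
      g v * g w * (gam i g v - gam i g w) := by
    intro i
    rw [← hg.gam_mul i v, ← hg.gam_mul i w]
    ring
  by_cases hvw : v = w
  · subst hvw
    simp
  · have hrel := ct1_rel v w hvw
    have hzv : zv v w = (v - w) 0 * v 0 + (v - w) 1 * v 1 + (v - w) 2 * v 2 := by
      unfold zv
      rw [Fin.sum_univ_three]
    simp only [hm, uu_eq, XX, Fin.sum_univ_three, div_eq_mul_inv, ← inv_pow, hzv]
    simp only [PiLp.sub_apply] at hrel ⊢
    generalize ‖v - w‖⁻¹ = p at *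
    generalize gam 0 g v - gam 0 g w = d0
    generalize gam 1 g v - gam 1 g w = d1
    generalize gam 2 g v - gam 2 g w = d2
    linear_combination (- g v * g w * p * (v 0 * d0 + v 1 * d1 + v 2 * d2)) * hrel

theorem uu_bound (i : Fin 3) (v w : V) : |UU i v w| ≤ 2 * ‖v‖ / ‖v - w‖ := by
  by_cases hvw : v = w
  · subst hvw
    simp [UU]
  have hz : (0 : ℝ) < ‖v - w‖ := norm_pos_iff.2 (sub_ne_zero.2 hvw)
  have h1 := Cls.abs_coord v i
  have h2 := Cls.abs_coord (v - w) i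
  have h3 : |∑ k : Fin 3, (v - w) k * v k| ≤ ‖v - w‖ * ‖v‖ := by
    have h := abs_real_inner_le_norm (v - w) v
    have e : inner ℝ (v - w) v = ∑ k : Fin 3, (v - w) k * v k := by
      simp only [PiLp.inner_apply]
      exact Finset.sum_congr rfl fun k _ => by simp [mul_comm]
    rwa [e] at h
  unfold UU
  have h4 : |v i / ‖v - w‖| ≤ ‖v‖ / ‖v - w‖ := by
    rw [abs_div, abs_of_pos hz]
    exact div_le_div_of_nonneg_right h1 hz.le
  have h5 : |(v - w) i * (∑ k : Fin 3, (v - w) k * v k) / ‖v - w‖ ^ 3| ≤ ‖v‖ / ‖v - w‖ := by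
    rw [abs_div, abs_mul, abs_of_pos (pow_pos hz 3), div_le_div_iff₀ (pow_pos hz 3) hz]
    calc |(v - w) i| * |∑ k : Fin 3, (v - w) k * v k| * ‖v - w‖
        ≤ ‖v - w‖ * (‖v - w‖ * ‖v‖) * ‖v - w‖ := by gcongr
      _ = ‖v‖ * ‖v - w‖ ^ 3 := by ring
  calc |v i / ‖v - w‖ - (v - w) i * (∑ k : Fin 3, (v - w) k * v k) / ‖v - w‖ ^ 3|
      ≤ |v i / ‖v - w‖| + |(v - w) i * (∑ k : Fin 3, (v - w) k * v k) / ‖v - w‖ ^ 3| := abs_sub _ _
    _ ≤ ‖v‖ / ‖v - w‖ + ‖v‖ / ‖v - w‖ := add_le_add h4 h5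
    _ = 2 * ‖v‖ / ‖v - w‖ := by ring

end Pool.Agent.Landau
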