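import Pool.Agent.Landau.Defs2

/-!
# Landau: definitions for the second part

`quad μ ℓ v = μ ‖v‖² / 2 + ℓ·v`; `pab` the quadratic polynomials which come out of the moment identities;
`UU i v w` the components of `Π(z) v / ‖z‖`, `z = v - w`, `Π(z)` the projection orthogonal to `z`.
-/

set_option autoImplicit false

namespace Pool.Agent.Landau

open MeasureTheory Set Filter Topology

/-- exponent of a Gaussian -/
noncomputable def quad (μ : ℝ) (ℓ : Fin 3 → ℝ) (v : V) : ℝ := μ / 2 * ‖v‖ ^ 2 + ∑ i : Fin 3, ℓ i * v i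

/-- the quadratic polynomial of the moment identity with `∇ log g` replaced by `L v + ℓ` -/
noncomputable def pab (α : ℝ) (β c : Fin 3 → ℝ) (d L : Fin 3 → Fin 3 → ℝ) (ℓ : Fin 3 → ℝ)
    (a b : Fin 3) (v : V) : ℝ :=
  (α * v a - β a) * ((∑ j : Fin 3, L b j * v j) + ℓ b) -
    (α * v b - β b) * ((∑ j : Fin 3, L a j * v j) + ℓ a) + v a * c b - v b * c a - d a b

/-- the vector field used in the estimate of the energy at intermediate velocities -/
noncomputable def UU (i : Fin 3) (v w : V) : ℝ :=
  v i / ‖v - w‖ - (v - w) i * (∑ k : Fin 3, (v - w) k * v k) / ‖v - w‖ ^ 3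

end Pool.Agent.Landau
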