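import Pool.Agent.Landau.Chi
import Pool.Agent.Landau.Defs3

/-!
# Landau, module CTz: the outer weight

`ζ w = ‖w‖³ (1 - chi R' w) chi B w`, `R' ≥ 1`, `B ≥ 2 R'`.  It vanishes for `‖w‖ ≤ R'` and `‖w‖ ≥ 2 B`, is smooth
(`‖w‖³ = (‖w‖²)^(3/2)` is smooth away from `0`), equals `‖w‖³` for `2 R' ≤ ‖w‖ ≤ B`, and
`|∂_i ζ| ≤ 3 ‖w‖² + ‖w‖³ (C / R') 1_{R' ≤ ‖w‖ ≤ 2 R'} + ‖w‖³ (C / B) 1_{B ≤ ‖w‖ ≤ 2 B} ≤ (3 + 4 C) ‖w‖²`.
-/

set_option autoImplicit false

namespace Pool.Agent.Landau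

open MeasureTheory Set Filter Topology

/-- the outer weight -/
noncomputable def zet (R' B : ℝ) (w : V) : ℝ := ‖w‖ ^ 3 * ((1 - chi R' w) * chi B w)

theorem zet_inner (R' B : ℝ) (hR : 1 ≤ R') (w : V) (h : ‖w‖ ≤ R') : zet R' B w = 0 := by
  unfold zet
  rw [chi_one (by linarith) h]
  ring

theorem zet_ev (R' B : ℝ) (hR : 1 ≤ R') (w : V) (h : ‖w‖ < R') :
    zet R' B =ᶠ[𝓝 w] fun _ => (0 : ℝ) := by
  have hopen : IsOpen {u : V | ‖u‖ < R'} := isOpen_lt continuous_norm continuous_const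
  filter_upwards [hopen.mem_nhds h] with u hu
  exact zet_inner R' B hR u (le_of_lt hu)

theorem zet_smooth (R' B : ℝ) (hR : 1 ≤ R') (hB : 2 * R' ≤ B) :
    ContDiff ℝ (⊤ : ℕ∞) (zet R' B) ∧ HasCompactSupport (zet R' B) := by
  constructor
  · rw [contDiff_iff_contDiffAt]
    intro w
    by_cases h : ‖w‖ < R'
    · exact contDiffAt_const.congr_of_eventuallyEq (zet_ev R' B hR w h)
    · have hw : w ≠ 0 := by
        intro h0
        apply h
        rw [h0, norm_zero]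
        linarith
      have h1 : ContDiffAt ℝ (⊤ : ℕ∞) (fun u : V => ‖u‖ ^ 3) w := (contDiffAt_norm ℝ hw).pow 3
      exact h1.mul (((contDiff_const.sub (chi_smooth R')).mul (chi_smooth B)).contDiffAt)
  · exact ((chi_compact (R := B) (by linarith)).mul_left).mul_left

theorem zet_outer (R' B : ℝ) (hR : 1 ≤ R') (hB : 2 * R' ≤ B) (w : V) (h : 2 * B ≤ ‖w‖) :
    zet R' B w = 0 := by
  unfold zet
  rw [chi_zero (R := B) (by linarith) h]
  ring

theorem zet_mid (R' B : ℝ) (hR : 1 ≤ R') (hB : 2 * R' ≤ B) (w : V) (h1 : 2 * R' ≤ ‖w‖)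
    (h2 : ‖w‖ ≤ B) : zet R' B w = ‖w‖ ^ 3 := by
  unfold zet
  rw [chi_zero (R := R') (by linarith) h1, chi_one (R := B) (by linarith) h2]
  ring

theorem zet_fac (R' B : ℝ) (w : V) : 0 ≤ (1 - chi R' w) * chi B w ∧
    (1 - chi R' w) * chi B w ≤ 1 := by
  have h1 := chi_nonneg R' w
  have h2 := chi_le_one R' w
  have h3 := chi_nonneg B w
  have h4 := chi_le_one B w
  constructor
  · exact mul_nonneg (by linarith) h3
  · calc (1 - chi R' w) * chi B w ≤ 1 * 1 := mul_le_mul (by linarith) h4 h3 (by norm_num)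
      _ = 1 := one_mul 1

theorem zet_nonneg (R' B : ℝ) (w : V) : 0 ≤ zet R' B w :=
  mul_nonneg (by positivity) (zet_fac R' B w).1

theorem zet_le (R' B : ℝ) (hR : 1 ≤ R') (hB : 2 * R' ≤ B) (w : V) :
    zet R' B w ≤ ‖w‖ ^ 3 ∧ zet R' B w ≤ 8 * B ^ 3 := by
  have h1 : zet R' B w ≤ ‖w‖ ^ 3 := by
    have := mul_le_mul_of_nonneg_left (zet_fac R' B w).2 (show (0 : ℝ) ≤ ‖w‖ ^ 3 by positivity)
    rw [mul_one] at this
    exact this
  refine ⟨h1, ?_⟩
  have hB0 : 0 < B := by linarith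
  by_cases h : 2 * B ≤ ‖w‖
  · rw [zet_outer R' B hR hB w h]
    positivity
  · push Not at h
    have h2 : ‖w‖ ^ 3 ≤ (2 * B) ^ 3 := pow_le_pow_left₀ (norm_nonneg _) h.le 3
    have h3 : (2 * B) ^ 3 = 8 * B ^ 3 := by ring
    linarith

theorem pd_norm_le (i : Fin 3) (w : V) : |pd i (fun u : V => ‖u‖) w| ≤ 1 := by
  unfold pd
  have h1 : ‖fderiv ℝ (fun u : V => ‖u‖) w‖ ≤ 1 := by
    have := norm_fderiv_le_of_lipschitz (𝕜 := ℝ) (f := fun u : V => ‖u‖) (x₀ := w)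
      (C := 1) lipschitzWith_one_norm
    simpa using this
  have h2 := (fderiv ℝ (fun u : V => ‖u‖) w).le_opNorm (EuclideanSpace.single i 1)
  rw [Real.norm_eq_abs] at h2
  have h3 : ‖(EuclideanSpace.single i (1 : ℝ) : V)‖ = 1 := by simp
  rw [h3, mul_one] at h2
  exact h2.trans h1

theorem pd_norm_cube (i : Fin 3) (w : V) (hw : w ≠ 0) :
    |pd i (fun u : V => ‖u‖ ^ 3) w| ≤ 3 * ‖w‖ ^ 2 := by
  have h1 : DifferentiableAt ℝ (fun u : V => ‖u‖) w :=
    (contDiffAt_norm (n := 1) ℝ hw).differentiableAt (by norm_num)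
  have h2 : HasDerivAt (fun x : ℝ => x ^ 3) (3 * ‖w‖ ^ 2) ‖w‖ := by
    have := hasDerivAt_pow 3 (‖w‖)
    simpa using this
  have h3 := pd_comp (β := fun x : ℝ => x ^ 3) h1 h2 i
  rw [h3, abs_mul, abs_of_nonneg (by positivity)]
  have := mul_le_mul_of_nonneg_left (pd_norm_le i w) (show (0 : ℝ) ≤ 3 * ‖w‖ ^ 2 by positivity)
  rw [mul_one] at this
  exact this

theorem pd_zet : ∃ C : ℝ, 0 < C ∧ ∀ R' B : ℝ, 1 ≤ R' → 2 * R' ≤ B → ∀ (i : Fin 3) (w : V),
    |pd i (zet R' B) w| ≤ C * ‖w‖ ^ 2 ∧ (‖w‖ < R' → pd i (zet R' B) w = 0) := by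
  obtain ⟨C, hC, hb⟩ := chi_bounds
  refine ⟨3 + 4 * C, by linarith, fun R' B hR hB i w => ?_⟩
  have hin : ‖w‖ < R' → pd i (zet R' B) w = 0 := by
    intro h
    unfold pd
    rw [(zet_ev R' B hR w h).fderiv_eq]
    simp
  refine ⟨?_, hin⟩
  by_cases h : ‖w‖ < R'
  · rw [hin h, abs_zero]
    positivity
  · push Not at h
    have hR0 : 0 < R' := by linarith
    have hB0 : 0 < B := by linarith
    have hw : w ≠ 0 := by
      intro h0
      rw [h0, norm_zero] at h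
      linarith
    have hN : DifferentiableAt ℝ (fun u : V => ‖u‖ ^ 3) w :=
      ((contDiffAt_norm (n := 1) ℝ hw).pow 3).differentiableAt (by norm_num)
    have hc1 : DifferentiableAt ℝ (chi R') w := differentiable_of_smooth (chi_smooth R') w
    have hc2 : DifferentiableAt ℝ (chi B) w := differentiable_of_smooth (chi_smooth B) w
    have hc3 : DifferentiableAt ℝ (fun u => 1 - chi R' u) w := hc1.const_sub 1
    have e1 : pd i (fun u => 1 - chi R' u) w = -pd i (chi R') w := by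
      unfold pd
      rw [fderiv_const_sub]
      simp
    have e2 : pd i (fun u => (1 - chi R' u) * chi B u) w =
        (1 - chi R' w) * pd i (chi B) w + -pd i (chi R') w * chi B w := by
      rw [pd_mul hc3 hc2 i, e1]
    have e3 : pd i (zet R' B) w =
        ‖w‖ ^ 3 * ((1 - chi R' w) * pd i (chi B) w + -pd i (chi R') w * chi B w) +
          pd i (fun u : V => ‖u‖ ^ 3) w * ((1 - chi R' w) * chi B w) := by
      have hc4 : DifferentiableAt ℝ (fun u => (1 - chi R' u) * chi B u) w := hc3.mul hc2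
      have := pd_mul hN hc4 i
      rw [e2] at this
      exact this
    have k1 := chi_nonneg R' w
    have k2 := chi_le_one R' w
    have k3 := chi_nonneg B w
    have k4 := chi_le_one B w
    have key : ∀ R : ℝ, 1 ≤ R → ‖w‖ ^ 3 * |pd i (chi R) w| ≤ 2 * C * ‖w‖ ^ 2 := by
      intro R hR1
      have hRp : 0 < R := by linarith
      by_cases h2 : 2 * R < ‖w‖
      · rw [pd_chi_outer hRp h2 i, abs_zero, mul_zero]
        positivity
      · push Not at h2
        have h3 := (hb R hR1).1 i w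
        calc ‖w‖ ^ 3 * |pd i (chi R) w| ≤ ‖w‖ ^ 3 * (C / R) :=
              mul_le_mul_of_nonneg_left h3 (by positivity)
          _ = ‖w‖ ^ 2 * (C / R) * ‖w‖ := by ring
          _ ≤ ‖w‖ ^ 2 * (C / R) * (2 * R) := mul_le_mul_of_nonneg_left h2 (by positivity)
          _ = 2 * C * ‖w‖ ^ 2 := by field_simp
    have t1 : ‖w‖ ^ 3 * |(1 - chi R' w) * pd i (chi B) w| ≤ 2 * C * ‖w‖ ^ 2 := by
      rw [abs_mul, abs_of_nonneg (show 0 ≤ 1 - chi R' w by linarith)]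
      have h4 : (1 - chi R' w) * |pd i (chi B) w| ≤ |pd i (chi B) w| := by
        nlinarith [abs_nonneg (pd i (chi B) w)]
      exact (mul_le_mul_of_nonneg_left h4 (by positivity)).trans (key B (by linarith))
    have t2 : ‖w‖ ^ 3 * |(-pd i (chi R') w) * chi B w| ≤ 2 * C * ‖w‖ ^ 2 := by
      rw [abs_mul, abs_neg, abs_of_nonneg k3]
      have h4 : |pd i (chi R') w| * chi B w ≤ |pd i (chi R') w| := by
        nlinarith [abs_nonneg (pd i (chi R') w)]
      exact (mul_le_mul_of_nonneg_left h4 (by positivity)).trans (key R' hR)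
    have t3 : |pd i (fun u : V => ‖u‖ ^ 3) w * ((1 - chi R' w) * chi B w)| ≤ 3 * ‖w‖ ^ 2 := by
      obtain ⟨f1, f2⟩ := zet_fac R' B w
      rw [abs_mul, abs_of_nonneg f1]
      have h5 := pd_norm_cube i w hw
      calc |pd i (fun u : V => ‖u‖ ^ 3) w| * ((1 - chi R' w) * chi B w) ≤ 3 * ‖w‖ ^ 2 * 1 :=
            mul_le_mul h5 f2 f1 (by positivity)
        _ = 3 * ‖w‖ ^ 2 := mul_one _
    rw [e3]
    refine (abs_add_le _ _).trans ?_
    have t4 : |‖w‖ ^ 3 * ((1 - chi R' w) * pd i (chi B) w + -pd i (chi R') w * chi B w)| ≤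
        4 * C * ‖w‖ ^ 2 := by
      rw [abs_mul, abs_of_nonneg (show (0 : ℝ) ≤ ‖w‖ ^ 3 by positivity)]
      have h6 := mul_le_mul_of_nonneg_left (abs_add_le ((1 - chi R' w) * pd i (chi B) w)
        (-pd i (chi R') w * chi B w)) (show (0 : ℝ) ≤ ‖w‖ ^ 3 by positivity)
      rw [mul_add] at h6
      linarith
    have h7 : (3 + 4 * C) * ‖w‖ ^ 2 = 3 * ‖w‖ ^ 2 + 4 * C * ‖w‖ ^ 2 := by ring
    rw [h7]
    linarith

end Pool.Agent.Landau
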