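import Pool.Agent.Landau.Joint

/-!
# Landau, module DDMeas: measurability of the entropy production

`dd_integrand_meas`: `g`, `pd i g`, `θ` are continuous, `gam i g = pd i g / g` is measurable.
`dd_prod`: Tonelli.  `dd_meas`: on `Icc t1 t2 ×ˢ univ` (a measurable set) the functions
`(t, v) ↦ f t v`, `(t, v) ↦ pd i (f t) v` are continuous, so the integrand is, as function of `(t, (v, w))`,
a.e. measurable for the product of the restricted Lebesgue measure with `volume.prod volume`; then
`AEMeasurable.lintegral_prod_right'`.  (For instance replace `f t v` by the function which is `f t v` for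
`t ∈ Icc t1 t2` and `0` otherwise, and use that a function which is continuous on a measurable set and
constant on the complement is measurable.)
-/

set_option autoImplicit false

namespace Pool.Agent.Landau

open MeasureTheory Set Filter Topology

theorem measurable_coord (i : Fin 3) : Measurable (fun v : V => v i) :=
  (by fun_prop : Continuous fun v : V => v i).measurable

/-- the integrand in terms of abstract measurable functions of a parameter -/
theorem dd_gen_meas {α : Type*} [MeasurableSpace α] (v w : α → V) (a b a' b' : α → ℝ)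
    (c c' : Fin 3 → α → ℝ) (hv : Measurable v) (hw : Measurable w) (ha : Measurable a)
    (hb : Measurable b) (ha' : Measurable a') (hb' : Measurable b') (hc : ∀ i, Measurable (c i))
    (hc' : ∀ i, Measurable (c' i)) :
    Measurable (fun x : α => ENNReal.ofReal (a x * a' x * b x * b' x *
      (∑ i : Fin 3, ∑ j : Fin 3, ((v x i - w x i) * (c j x / b x - c' j x / b' x) -
        (v x j - w x j) * (c i x / b x - c' i x / b' x)) ^ 2) / ‖v x - w x‖ ^ 3)) := by
  refine ENNReal.measurable_ofReal.comp ?_
  refine Measurable.div (Measurable.mul (((ha.mul ha').mul hb).mul hb') ?_)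
    ((hv.sub hw).norm.pow_const 3)
  refine Finset.measurable_fun_sum _ fun i _ => Finset.measurable_fun_sum _ fun j _ => ?_
  have h1 : ∀ k : Fin 3, Measurable fun x => v x k - w x k := fun k =>
    ((measurable_coord k).comp hv).sub ((measurable_coord k).comp hw)
  have h2 : ∀ k : Fin 3, Measurable fun x => c k x / b x - c' k x / b' x := fun k =>
    ((hc k).div hb).sub ((hc' k).div hb')
  exact ((((h1 i).mul (h2 j)).sub ((h1 j).mul (h2 i)))).pow_const 2

theorem dd_integrand_meas (g : V → ℝ) (hg : Cls g) (θ : V → ℝ) (hθ : Continuous θ) :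
    Measurable (fun p : V × V =>
      ENNReal.ofReal (θ p.1 * θ p.2 * g p.1 * g p.2 * XS g p.1 p.2 / ‖p.1 - p.2‖ ^ 3)) := by
  have hp : ∀ i, Measurable (pd i g) := fun i =>
    (continuous_pd (contDiff_one_of_smooth hg.smooth) i).measurable
  exact dd_gen_meas (fun p : V × V => p.1) (fun p : V × V => p.2) (fun p => θ p.1)
    (fun p => g p.1) (fun p => θ p.2) (fun p => g p.2) (fun i p => pd i g p.1)
    (fun i p => pd i g p.2) measurable_fst measurable_snd (hθ.measurable.comp measurable_fst)
    (hg.cont.measurable.comp measurable_fst) (hθ.measurable.comp measurable_snd)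
    (hg.cont.measurable.comp measurable_snd) (fun i => (hp i).comp measurable_fst)
    (fun i => (hp i).comp measurable_snd)

theorem ddc_prod (g : V → ℝ) (hg : Cls g) (θ : V → ℝ) (hθ : Continuous θ) :
    DDc θ g = ∫⁻ p : V × V,
      ENNReal.ofReal (θ p.1 * θ p.2 * g p.1 * g p.2 * XS g p.1 p.2 / ‖p.1 - p.2‖ ^ 3)
        ∂(volume.prod volume) := by
  rw [lintegral_prod _ (dd_integrand_meas g hg θ hθ).aemeasurable]
  rfl

theorem dd_prod (g : V → ℝ) (hg : Cls g) :
    DD g = ∫⁻ p : V × V, ENNReal.ofReal (g p.1 * g p.2 * XS g p.1 p.2 / ‖p.1 - p.2‖ ^ 3)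
        ∂(volume.prod volume) := by
  have h := dd_integrand_meas g hg (fun _ => (1 : ℝ)) continuous_const
  simp only [one_mul] at h
  rw [lintegral_prod _ h.aemeasurable]
  rfl

/-- truncation in time of a function which is continuous for negative times -/
theorem trunc_meas (F : ℝ × V → ℝ) (hF : ContinuousOn F (Iio (0 : ℝ) ×ˢ univ)) :
    Measurable ((Iio (0 : ℝ) ×ˢ (univ : Set V)).indicator F) := by
  classical
  have hS : MeasurableSet (Iio (0 : ℝ) ×ˢ (univ : Set V)) := joint_open.measurableSet
  have h := ContinuousOn.measurable_piecewise (f := F) (g := fun _ => (0 : ℝ)) hF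
    continuousOn_const hS
  convert h using 1
  exact (Set.piecewise_eq_indicator (s := Iio (0 : ℝ) ×ˢ (univ : Set V)) (f := F)).symm

theorem dd_meas (f : ℝ → V → ℝ) (hf : Sol f) (θ : V → ℝ) (hθ : Continuous θ) (t1 t2 : ℝ)
    (h2 : t2 < 0) : AEMeasurable (fun t => DDc θ (f t)) (volume.restrict (Icc t1 t2)) := by
  set S : Set (ℝ × V) := Iio (0 : ℝ) ×ˢ (univ : Set V) with hS
  set F : ℝ × V → ℝ := S.indicator (fun p => f p.1 p.2) with hF
  set P : Fin 3 → ℝ × V → ℝ := fun i => S.indicator (fun p => pd i (f p.1) p.2) with hP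
  have mF : Measurable F := trunc_meas _ (joint_f f hf)
  have mP : ∀ i, Measurable (P i) := fun i => trunc_meas _ (joint_pd f hf i)
  have m1 : Measurable fun x : ℝ × (V × V) => (x.1, x.2.1) :=
    measurable_fst.prodMk (measurable_fst.comp measurable_snd)
  have m2 : Measurable fun x : ℝ × (V × V) => (x.1, x.2.2) :=
    measurable_fst.prodMk (measurable_snd.comp measurable_snd)
  have key := dd_gen_meas (fun x : ℝ × (V × V) => x.2.1) (fun x : ℝ × (V × V) => x.2.2)
    (fun x => θ x.2.1) (fun x => F (x.1, x.2.1)) (fun x => θ x.2.2) (fun x => F (x.1, x.2.2))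
    (fun i x => P i (x.1, x.2.1)) (fun i x => P i (x.1, x.2.2))
    (measurable_fst.comp measurable_snd) (measurable_snd.comp measurable_snd)
    (hθ.measurable.comp (measurable_fst.comp measurable_snd)) (mF.comp m1)
    (hθ.measurable.comp (measurable_snd.comp measurable_snd)) (mF.comp m2)
    (fun i => (mP i).comp m1) (fun i => (mP i).comp m2)
  have key2 := key.lintegral_prod_right' (ν := (volume : Measure V).prod volume)
  refine key2.aemeasurable.congr ?_
  rw [Filter.EventuallyEq, ae_restrict_iff' measurableSet_Icc]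
  refine Eventually.of_forall fun t ht => ?_
  have ht0 : t < 0 := lt_of_le_of_lt ht.2 h2
  have hmem : ∀ v : V, (t, v) ∈ S := fun v => ⟨ht0, mem_univ _⟩
  have hFv : ∀ v : V, F (t, v) = f t v := fun v => indicator_of_mem (hmem v) _
  have hPv : ∀ i (v : V), P i (t, v) = pd i (f t) v := fun i v => indicator_of_mem (hmem v) _
  rw [ddc_prod (f t) (hf.cls t ht0) θ hθ]
  refine lintegral_congr fun p => ?_
  simp only [hFv, hPv]
  rfl

end Pool.Agent.Landau
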