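import Pool.Agent.Landau.CT1
import Pool.Agent.Landau.CTz
import Pool.Agent.Landau.DDMeas

set_option autoImplicit false

/-!
# Landau, module CT2: no energy at intermediate velocities

Apply `ct_identity` to `χ = chi R` (`r1 = 2 R`), `ζ = zet R' B` (`r2 = R' ≥ 8 R`).  On the supports
`‖v‖ ≤ 2 R ≤ ‖w‖ / 4`, so `3/4 ‖w‖ ≤ ‖z‖ ≤ 5/4 ‖w‖`, `z = v - w`.  Put `X = ∫ (ζ w / ‖w‖) g w dw`, which is at most
`energy g ≤ m` and at least the left hand side of the claim (`zet_mid`), and `α = ∫ χ g ≥ M - m / R² ≥ M / 2`.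
(1) Main term: `(‖w‖² - ‖v‖²) / ‖z‖³ ≥ (15/16) (64/125) / ‖w‖ ≥ 0.4 / ‖w‖`, so
`∫∫ g g_* 2 χ ζ (‖w‖² - ‖v‖²) / ‖z‖³ ≥ 0.8 α X ≥ 0.4 M X`.
(2) `∫∫ g g_* ζ |∑ ∂_i χ U_i| ≤ 3 (C0 / R) ∫_{R ≤ ‖v‖ ≤ 2R} g * 2 ‖v‖ * (4/3) ∫ ζ / ‖w‖ g_* ≤ C (m / R²) X ≤ C m² / R²`
(`chi_bounds`, `uu_bound`, `pd_chi_inner`, `Cls.tail`).
(3) `∫∫ g g_* χ |∑ ∂_i ζ U_i| ≤ C ∫ χ ‖v‖ g * ∫_{‖w‖ ≥ R'} ‖w‖ g_* ≤ C (2 R m) (m / R')` (`pd_zet`).
(4) The left side of `ct_identity` is by `ct_cross` and Cauchy-Schwarz at most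
`(1/2) (∫∫ χ ζ g g_* XS / ‖z‖³)^(1/2) (∫∫ χ ζ g g_* ∑ Y² / ‖z‖³)^(1/2)`, `Y_ab = z_a v_b - z_b v_a = w_b v_a - w_a v_b`,
`∑ Y² ≤ 2 ‖v‖² ‖w‖²`, `ζ ≤ 8 B³`, `1 / ‖z‖³ ≤ 3 / ‖w‖³`: at most
`(1/2) (8 B³ DD)^(1/2) (6 m X)^(1/2) ≤ 0.1 M X + C B³ DD` (weighted arithmetic-geometric mean).
(Instead of Cauchy-Schwarz for integrals one may use the pointwise inequality
`|χ ζ g g_* XX Y / ‖z‖³| ≤ χ ζ g g_* (XX² / (2 λ ‖z‖³) + λ Y² / (2 ‖z‖³))` with a constant `λ`, so that only the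
finiteness of `DD` is needed.)
Together `0.3 M X ≤ C (1 / R² + R / R') + C B³ DD`.
-/

namespace Pool.Agent.Landau

open MeasureTheory Set Filter Topology

namespace CT2Aux

/-- norms on the supports -/
theorem norm_bds {v w : V} (h : 4 * ‖v‖ ≤ ‖w‖) :
    3 / 4 * ‖w‖ ≤ ‖v - w‖ ∧ ‖v - w‖ ≤ 5 / 4 * ‖w‖ := by
  have h1 := norm_sub_norm_le w v
  have h2 := norm_sub_le v w
  rw [norm_sub_rev] at h1
  constructor <;> linarith

/-- the main term -/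
theorem main_term {a b z x : ℝ} (hb : 0 < b) (ha : 0 ≤ a) (hab : 4 * a ≤ b) (hz0 : 0 < z)
    (hz : z ≤ 5 / 4 * b) (hx : 0 ≤ x) : 4 / 5 * (x / b) ≤ 2 * x * (b ^ 2 - a ^ 2) / z ^ 3 := by
  rw [show 4 / 5 * (x / b) = (4 / 5 * x) / b by ring, div_le_div_iff₀ hb (pow_pos hz0 3)]
  have h1 : z ^ 3 ≤ (5 / 4 * b) ^ 3 := pow_le_pow_left₀ hz0.le hz 3
  have h2 : 15 / 16 * b ^ 2 ≤ b ^ 2 - a ^ 2 := by nlinarith
  have h3 : 4 / 5 * x * z ^ 3 ≤ 4 / 5 * x * (5 / 4 * b) ^ 3 :=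
    mul_le_mul_of_nonneg_left h1 (by positivity)
  have h4 : 2 * x * (15 / 16 * b ^ 2) * b ≤ 2 * x * (b ^ 2 - a ^ 2) * b := by gcongr
  have h5 : 0 ≤ x * b ^ 3 := by positivity
  nlinarith

theorem sum3_abs {f : Fin 3 → ℝ} {K : ℝ} (h : ∀ i, |f i| ≤ K) : |∑ i, f i| ≤ 3 * K := by
  rw [Fin.sum_univ_three]
  have h0 := h 0
  have h1 := h 1
  have h2 := h 2
  rw [abs_le] at *
  constructor <;> linarith

theorem uu_le {v w : V} {R : ℝ} (hv : ‖v‖ ≤ 2 * R) (hw : 0 < ‖w‖) (h : 4 * ‖v‖ ≤ ‖w‖) (i : Fin 3) :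
    |UU i v w| ≤ 16 / 3 * (R / ‖w‖) := by
  refine (uu_bound i v w).trans ?_
  have h1 := (norm_bds h).1
  have h0 : 0 < 3 / 4 * ‖w‖ := by positivity
  have hR : 0 ≤ R := by nlinarith [norm_nonneg v]
  calc 2 * ‖v‖ / ‖v - w‖ ≤ 2 * (2 * R) / (3 / 4 * ‖w‖) := by gcongr
    _ = 16 / 3 * (R / ‖w‖) := by field_simp; ring

theorem t2 {v w : V} {R C0 : ℝ} (hR : 1 ≤ R) (hC0 : 0 ≤ C0)
    (hb : ∀ i v, |pd i (chi R) v| ≤ C0 / R) (hv : ‖v‖ ≤ 2 * R) (hw : 0 < ‖w‖)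
    (h : 4 * ‖v‖ ≤ ‖w‖) :
    |∑ i : Fin 3, pd i (chi R) v * UU i v w| ≤ 16 * C0 / R ^ 2 * ‖v‖ ^ 2 / ‖w‖ := by
  have hR0 : 0 < R := by linarith
  have hi : ∀ i : Fin 3, |pd i (chi R) v * UU i v w| ≤
      (C0 / R * (‖v‖ ^ 2 / R ^ 2)) * (16 / 3 * (R / ‖w‖)) := by
    intro i
    rw [abs_mul]
    have hu := uu_le hv hw h i
    have hp : |pd i (chi R) v| ≤ C0 / R * (‖v‖ ^ 2 / R ^ 2) := by
      rcases lt_or_ge ‖v‖ R with hr | hr
      · rw [pd_chi_inner hR0 hr i, abs_zero]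
        positivity
      · have h1 : 1 ≤ ‖v‖ ^ 2 / R ^ 2 := by
          rw [le_div_iff₀ (by positivity), one_mul]
          exact pow_le_pow_left₀ hR0.le hr 2
        calc |pd i (chi R) v| ≤ C0 / R * 1 := by rw [mul_one]; exact hb i v
          _ ≤ _ := mul_le_mul_of_nonneg_left h1 (by positivity)
    exact mul_le_mul hp hu (abs_nonneg _) (by positivity)
  refine (sum3_abs hi).trans (le_of_eq ?_)
  field_simp

theorem t3 {v w : V} {R R' B C1 : ℝ} (hR : 1 ≤ R) (hR' : 8 * R ≤ R') (hC1 : 0 ≤ C1)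
    (hb : ∀ i v, |pd i (zet R' B) v| ≤ C1 * ‖v‖ ^ 2) (hv : ‖v‖ ≤ 2 * R) (hw : R' ≤ ‖w‖)
    (h : 4 * ‖v‖ ≤ ‖w‖) :
    |∑ i : Fin 3, pd i (zet R' B) w * UU i v w| ≤ 16 * C1 * (R / R') * ‖w‖ ^ 2 := by
  have hR0 : 0 < R := by linarith
  have hR0' : 0 < R' := by linarith
  have hw0 : 0 < ‖w‖ := by linarith
  have hi : ∀ i : Fin 3, |pd i (zet R' B) w * UU i v w| ≤
      (C1 * ‖w‖ ^ 2) * (16 / 3 * (R / R')) := by
    intro i
    rw [abs_mul]
    have hu := uu_le hv hw0 h i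
    have hu2 : 16 / 3 * (R / ‖w‖) ≤ 16 / 3 * (R / R') := by gcongr
    exact mul_le_mul (hb i w) (hu.trans hu2) (abs_nonneg _) (by positivity)
  refine (sum3_abs hi).trans (le_of_eq ?_)
  ring

theorem amgm {l x y : ℝ} (hl : 0 < l) : |x * y| ≤ x ^ 2 / (2 * l) + l / 2 * y ^ 2 := by
  have key : ∀ a b : ℝ, a * b ≤ a ^ 2 / (2 * l) + l / 2 * b ^ 2 := by
    intro a b
    have h : a ^ 2 / (2 * l) + l / 2 * b ^ 2 - a * b = (a - l * b) ^ 2 / (2 * l) := by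
      field_simp
      ring
    have h2 : 0 ≤ (a - l * b) ^ 2 / (2 * l) := by positivity
    linarith
  rw [abs_le]
  constructor
  · have := key (-x) y
    rw [neg_sq] at this
    linarith
  · exact key x y

theorem ysum (v w : V) : ∑ a : Fin 3, ∑ b : Fin 3, ((v - w) a * v b - (v - w) b * v a) ^ 2 ≤
    2 * (‖v‖ ^ 2 * ‖w‖ ^ 2) := by
  rw [ct1_normsq v, ct1_normsq w]
  simp only [Fin.sum_univ_three, PiLp.sub_apply]
  nlinarith [sq_nonneg (v 0 * w 0 + v 1 * w 1 + v 2 * w 2)]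

theorem xy_le (g : V → ℝ) {l : ℝ} (hl : 0 < l) (v w : V) :
    |∑ a : Fin 3, ∑ b : Fin 3, XX g a b v w * ((v - w) a * v b - (v - w) b * v a)| ≤
      XS g v w / (2 * l) + l * (‖v‖ ^ 2 * ‖w‖ ^ 2) := by
  have h1 : |∑ a : Fin 3, ∑ b : Fin 3, XX g a b v w * ((v - w) a * v b - (v - w) b * v a)| ≤
      ∑ a : Fin 3, ∑ b : Fin 3, (XX g a b v w ^ 2 / (2 * l) +
        l / 2 * ((v - w) a * v b - (v - w) b * v a) ^ 2) := by
    refine (Finset.abs_sum_le_sum_abs _ _).trans (Finset.sum_le_sum fun a _ => ?_)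
    refine (Finset.abs_sum_le_sum_abs _ _).trans (Finset.sum_le_sum fun b _ => ?_)
    exact amgm hl
  have h2 : ∑ a : Fin 3, ∑ b : Fin 3, (XX g a b v w ^ 2 / (2 * l) +
        l / 2 * ((v - w) a * v b - (v - w) b * v a) ^ 2) =
      XS g v w / (2 * l) + l / 2 *
        ∑ a : Fin 3, ∑ b : Fin 3, ((v - w) a * v b - (v - w) b * v a) ^ 2 := by
    unfold XS
    simp only [Finset.sum_add_distrib, Finset.mul_sum, Finset.sum_div]
  rw [h2] at h1
  have h3 := mul_le_mul_of_nonneg_left (ysum v w) (show 0 ≤ l / 2 by positivity)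
  linarith

theorem xs_nonneg (g : V → ℝ) (v w : V) : 0 ≤ XS g v w :=
  Finset.sum_nonneg fun _ _ => Finset.sum_nonneg fun _ _ => sq_nonneg _

/-- the left side of the identity, pointwise -/
theorem lhs_le (g : V → ℝ) (hg : Cls g) {v w : V} {l R R' B : ℝ} (hl : 0 < l) (hR' : 1 ≤ R')
    (hB : 2 * R' ≤ B) (hw : 0 < ‖w‖) (h : 4 * ‖v‖ ≤ ‖w‖) :
    |chi R v * zet R' B w * ∑ i : Fin 3, UU i v w * (g w * pd i g v - g v * pd i g w)| ≤
      2 * B ^ 3 / l * (g v * g w * XS g v w / ‖v - w‖ ^ 3) +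
        3 / 2 * l * ((‖v‖ ^ 2 * g v) * (zet R' B w / ‖w‖ * g w)) := by
  rw [ct_cross g hg]
  obtain ⟨hz1, -⟩ := norm_bds h
  have hz0 : 0 < ‖v - w‖ := by linarith
  have hxy := xy_le g hl v w
  have hXS := xs_nonneg g v w
  have hgv := hg.nonneg v
  have hgw := hg.nonneg w
  have hc0 := chi_nonneg R v
  have hc1 := chi_le_one R v
  have hz := zet_nonneg R' B w
  have hzl := (zet_le R' B hR' hB w).2
  obtain ⟨S, hS⟩ : ∃ S, S = ∑ a : Fin 3, ∑ b : Fin 3, XX g a b v w *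
    ((v - w) a * v b - (v - w) b * v a) := ⟨_, rfl⟩
  rw [← hS] at hxy ⊢
  generalize XS g v w = Q at *
  generalize zet R' B w = z at *
  generalize chi R v = c at *
  generalize g v = p at *
  generalize g w = q at *
  have hB0 : 0 < B := by linarith
  have e1 : |c * z * (1 / 2 * (p * q * S / ‖v - w‖ ^ 3))| =
      (c * z * (1 / 2) * (p * q)) * (|S| / ‖v - w‖ ^ 3) := by
    rw [show c * z * (1 / 2 * (p * q * S / ‖v - w‖ ^ 3)) =
      (c * z * (1 / 2) * (p * q)) * (S / ‖v - w‖ ^ 3) by ring, abs_mul, abs_div,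
      abs_of_nonneg (show 0 ≤ c * z * (1 / 2) * (p * q) by positivity),
      abs_of_pos (pow_pos hz0 3)]
  rw [e1]
  have s1 : (c * z * (1 / 2) * (p * q)) * (|S| / ‖v - w‖ ^ 3) ≤
      (c * z * (1 / 2) * (p * q)) * ((Q / (2 * l) + l * (‖v‖ ^ 2 * ‖w‖ ^ 2)) / ‖v - w‖ ^ 3) := by
    gcongr
  refine s1.trans ?_
  have s2 : (c * z * (1 / 2) * (p * q)) * ((Q / (2 * l) + l * (‖v‖ ^ 2 * ‖w‖ ^ 2)) /
      ‖v - w‖ ^ 3) = (c * z) * (1 / (4 * l) * (p * q * Q / ‖v - w‖ ^ 3)) +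
      (c * z) * (l / 2 * (p * q * ‖v‖ ^ 2 * (‖w‖ ^ 2 / ‖v - w‖ ^ 3))) := by
    field_simp
    ring
  rw [s2]
  have hcz : c * z ≤ 8 * B ^ 3 := by nlinarith
  have hcz2 : c * z ≤ z := by nlinarith
  have hcz0 : 0 ≤ c * z := by positivity
  have s3 : (c * z) * (1 / (4 * l) * (p * q * Q / ‖v - w‖ ^ 3)) ≤
      8 * B ^ 3 * (1 / (4 * l) * (p * q * Q / ‖v - w‖ ^ 3)) := by
    gcongr
  have s4 : ‖w‖ ^ 2 / ‖v - w‖ ^ 3 ≤ 3 / ‖w‖ := by
    rw [div_le_div_iff₀ (by positivity) hw]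
    have h1 : (3 / 4 * ‖w‖) ^ 3 ≤ ‖v - w‖ ^ 3 := pow_le_pow_left₀ (by positivity) hz1 3
    have h2 : 0 < ‖w‖ ^ 3 := by positivity
    nlinarith
  have s5 : (c * z) * (l / 2 * (p * q * ‖v‖ ^ 2 * (‖w‖ ^ 2 / ‖v - w‖ ^ 3))) ≤
      z * (l / 2 * (p * q * ‖v‖ ^ 2 * (3 / ‖w‖))) := by
    gcongr
  refine (add_le_add s3 s5).trans (le_of_eq ?_)
  field_simp
  ring

/-- the pointwise inequality -/
theorem pointwise (g : V → ℝ) (hg : Cls g) {l R R' B C0 C1 : ℝ} (hl : 0 < l) (hR : 1 ≤ R)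
    (hR' : 8 * R ≤ R') (hB : 2 * R' ≤ B) (hC0 : 0 ≤ C0) (hC1 : 0 ≤ C1)
    (hb : ∀ i v, |pd i (chi R) v| ≤ C0 / R)
    (hb1 : ∀ i v, |pd i (zet R' B) v| ≤ C1 * ‖v‖ ^ 2)
    (hb2 : ∀ i v, ‖v‖ < R' → pd i (zet R' B) v = 0) (v w : V) :
    4 / 5 * ((chi R v * g v) * (zet R' B w / ‖w‖ * g w)) ≤
      (chi R v * zet R' B w * ∑ i : Fin 3, UU i v w * (g w * pd i g v - g v * pd i g w) +
      g v * g w * (zet R' B w * (∑ i : Fin 3, pd i (chi R) v * UU i v w) -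
        chi R v * (∑ i : Fin 3, pd i (zet R' B) w * UU i v w) +
        2 * chi R v * zet R' B w * (‖w‖ ^ 2 - ‖v‖ ^ 2) / ‖v - w‖ ^ 3)) +
      (16 * C0 / R ^ 2 * ((‖v‖ ^ 2 * g v) * (‖w‖ ^ 2 * g w)) +
        16 * C1 * (R / R') * (g v * (‖w‖ ^ 2 * g w)) +
        3 / 2 * l * ((‖v‖ ^ 2 * g v) * (zet R' B w / ‖w‖ * g w)) +
        2 * B ^ 3 / l * (g v * g w * XS g v w / ‖v - w‖ ^ 3)) := by
  have hR0 : 0 < R := by linarith
  have hR0' : 0 < R' := by linarith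
  have hB0 : 0 < B := by linarith
  have hXS := xs_nonneg g v w
  have hgv := hg.nonneg v
  have hgw := hg.nonneg w
  have hc0 := chi_nonneg R v
  have hc1 := chi_le_one R v
  have hz := zet_nonneg R' B w
  have hzl := (zet_le R' B (by linarith) hB w).1
  have hE : 0 ≤ 16 * C0 / R ^ 2 * ((‖v‖ ^ 2 * g v) * (‖w‖ ^ 2 * g w)) +
        16 * C1 * (R / R') * (g v * (‖w‖ ^ 2 * g w)) +
        3 / 2 * l * ((‖v‖ ^ 2 * g v) * (zet R' B w / ‖w‖ * g w)) +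
        2 * B ^ 3 / l * (g v * g w * XS g v w / ‖v - w‖ ^ 3) := by positivity
  rcases lt_or_ge ‖w‖ R' with hw | hw
  · have z1 : zet R' B w = 0 := zet_inner R' B (by linarith) w hw.le
    have z2 : ∀ i, pd i (zet R' B) w = 0 := fun i => hb2 i w hw
    rw [z1] at hE ⊢
    simp only [z2, zero_mul, mul_zero, Finset.sum_const_zero, zero_div, sub_zero, add_zero,
      zero_add] at hE ⊢
    exact hE
  rcases lt_or_ge (2 * R) ‖v‖ with hv | hv
  · have z1 : chi R v = 0 := chi_zero hR0 hv.le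
    have z2 : ∀ i, pd i (chi R) v = 0 := fun i => pd_chi_outer hR0 hv i
    simp only [z1, z2, zero_mul, mul_zero, Finset.sum_const_zero, zero_div, sub_zero, add_zero,
      zero_add]
    exact hE
  have hw0 : 0 < ‖w‖ := by linarith
  have hvw : 4 * ‖v‖ ≤ ‖w‖ := by linarith
  obtain ⟨hz1, hz2⟩ := norm_bds hvw
  have hz0 : 0 < ‖v - w‖ := by linarith
  have a1 := main_term (x := chi R v * zet R' B w) hw0 (norm_nonneg v) hvw hz0 hz2 (by positivity)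
  have a2 := t2 (w := w) hR hC0 hb hv hw0 hvw
  have a3 := t3 (v := v) hR hR' hC1 hb1 hv hw hvw
  have a4 := lhs_le g hg (R := R) hl (show 1 ≤ R' by linarith) hB hw0 hvw
  obtain ⟨L, hL⟩ : ∃ L, L = chi R v * zet R' B w * ∑ i : Fin 3, UU i v w *
    (g w * pd i g v - g v * pd i g w) := ⟨_, rfl⟩
  obtain ⟨S2, hS2⟩ : ∃ S2, S2 = ∑ i : Fin 3, pd i (chi R) v * UU i v w := ⟨_, rfl⟩
  obtain ⟨S3, hS3⟩ : ∃ S3, S3 = ∑ i : Fin 3, pd i (zet R' B) w * UU i v w := ⟨_, rfl⟩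
  rw [← hL] at a4 ⊢
  rw [← hS2] at a2 ⊢
  rw [← hS3] at a3 ⊢
  have b2 : g v * g w * (zet R' B w * S2) ≥
      -(16 * C0 / R ^ 2 * ((‖v‖ ^ 2 * g v) * (‖w‖ ^ 2 * g w))) := by
    have h1 : |g v * g w * (zet R' B w * S2)| ≤
        g v * g w * (‖w‖ ^ 3 * (16 * C0 / R ^ 2 * ‖v‖ ^ 2 / ‖w‖)) := by
      rw [abs_mul, abs_mul (zet R' B w), abs_of_nonneg (mul_nonneg hgv hgw), abs_of_nonneg hz]
      gcongr
    have h2 : g v * g w * (‖w‖ ^ 3 * (16 * C0 / R ^ 2 * ‖v‖ ^ 2 / ‖w‖)) =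
        16 * C0 / R ^ 2 * ((‖v‖ ^ 2 * g v) * (‖w‖ ^ 2 * g w)) := by
      field_simp
    rw [h2] at h1
    exact (abs_le.1 h1).1
  have b3 : g v * g w * (chi R v * S3) ≤ 16 * C1 * (R / R') * (g v * (‖w‖ ^ 2 * g w)) := by
    have h1 : |g v * g w * (chi R v * S3)| ≤
        g v * g w * (1 * (16 * C1 * (R / R') * ‖w‖ ^ 2)) := by
      rw [abs_mul, abs_mul (chi R v), abs_of_nonneg (mul_nonneg hgv hgw), abs_of_nonneg hc0]
      gcongr
    have h2 : g v * g w * (1 * (16 * C1 * (R / R') * ‖w‖ ^ 2)) =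
        16 * C1 * (R / R') * (g v * (‖w‖ ^ 2 * g w)) := by ring
    rw [h2] at h1
    exact (abs_le.1 h1).2
  have b1 : 4 / 5 * ((chi R v * g v) * (zet R' B w / ‖w‖ * g w)) ≤
      g v * g w * (2 * chi R v * zet R' B w * (‖w‖ ^ 2 - ‖v‖ ^ 2) / ‖v - w‖ ^ 3) := by
    have h1 := mul_le_mul_of_nonneg_left a1 (mul_nonneg hgv hgw)
    have h2 : g v * g w * (4 / 5 * (chi R v * zet R' B w / ‖w‖)) =
        4 / 5 * ((chi R v * g v) * (zet R' B w / ‖w‖ * g w)) := by ring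
    have h3 : g v * g w * (2 * (chi R v * zet R' B w) * (‖w‖ ^ 2 - ‖v‖ ^ 2) / ‖v - w‖ ^ 3) =
        g v * g w * (2 * chi R v * zet R' B w * (‖w‖ ^ 2 - ‖v‖ ^ 2) / ‖v - w‖ ^ 3) := by ring
    rw [h2, h3] at h1
    exact h1
  have b4 := (abs_le.1 a4).1
  linarith

/-- integrability of the entropy production density -/
theorem dd_int (g : V → ℝ) (hg : Cls g) (hD : DD g ≠ ⊤) :
    Integrable (fun p : V × V => g p.1 * g p.2 * XS g p.1 p.2 / ‖p.1 - p.2‖ ^ 3)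
      ((volume : Measure V).prod (volume : Measure V)) ∧
    ∫ p : V × V, g p.1 * g p.2 * XS g p.1 p.2 / ‖p.1 - p.2‖ ^ 3
      ∂((volume : Measure V).prod (volume : Measure V)) = (DD g).toReal := by
  have hm := dd_integrand_meas g hg (fun _ => (1 : ℝ)) continuous_const
  simp only [one_mul] at hm
  have hd := dd_prod g hg
  have hnn : ∀ p : V × V, 0 ≤ g p.1 * g p.2 * XS g p.1 p.2 / ‖p.1 - p.2‖ ^ 3 := fun p =>
    div_nonneg (mul_nonneg (mul_nonneg (hg.nonneg _) (hg.nonneg _)) (xs_nonneg g _ _))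
      (by positivity)
  have e : (fun p : V × V => g p.1 * g p.2 * XS g p.1 p.2 / ‖p.1 - p.2‖ ^ 3) = fun p : V × V =>
      (ENNReal.ofReal (g p.1 * g p.2 * XS g p.1 p.2 / ‖p.1 - p.2‖ ^ 3)).toReal := by
    funext p
    rw [ENNReal.toReal_ofReal (hnn p)]
  have hD' : ∫⁻ p : V × V, ENNReal.ofReal (g p.1 * g p.2 * XS g p.1 p.2 / ‖p.1 - p.2‖ ^ 3)
        ∂((volume : Measure V).prod (volume : Measure V)) ≠ ⊤ := by
    rw [← hd]
    exact hD
  rw [e]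
  refine ⟨integrable_toReal_of_lintegral_ne_top hm.aemeasurable hD', ?_⟩
  rw [hd, integral_toReal hm.aemeasurable (ae_lt_top hm hD')]

/-- the function whose integral vanishes -/
noncomputable def FF (g χ ζ : V → ℝ) (v w : V) : ℝ :=
  χ v * ζ w * ∑ i : Fin 3, UU i v w * (g w * pd i g v - g v * pd i g w) +
      g v * g w * (ζ w * (∑ i : Fin 3, pd i χ v * UU i v w) -
        χ v * (∑ i : Fin 3, pd i ζ w * UU i v w) +
        2 * χ v * ζ w * (‖w‖ ^ 2 - ‖v‖ ^ 2) / ‖v - w‖ ^ 3)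

theorem ff_int (g : V → ℝ) (hg : Cls g) (χ ζ : V → ℝ) (hχ : ContDiff ℝ (⊤ : ℕ∞) χ)
    (hχc : HasCompactSupport χ) (hζ : ContDiff ℝ (⊤ : ℕ∞) ζ) (hζc : HasCompactSupport ζ)
    (r1 r2 : ℝ) (h12 : r1 < r2) (h1 : ∀ v, r1 < ‖v‖ → χ v = 0) (h2 : ∀ v, ‖v‖ < r2 → ζ v = 0) :
    Integrable (fun p : V × V => FF g χ ζ p.1 p.2)
      ((volume : Measure V).prod (volume : Measure V)) ∧
    ∫ p : V × V, FF g χ ζ p.1 p.2 ∂((volume : Measure V).prod (volume : Measure V)) = 0 := by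
  have hg1 := contDiff_one_of_smooth hg.smooth
  have hχ1 := contDiff_one_of_smooth hχ
  have hζ1 := contDiff_one_of_smooth hζ
  have o1 : IsOpen {q : V | r1 < ‖q‖} := isOpen_lt continuous_const continuous_norm
  have o2 : IsOpen {q : V | ‖q‖ < r2} := isOpen_lt continuous_norm continuous_const
  have h1p : ∀ i : Fin 3, ∀ v, r1 < ‖v‖ → pd i χ v = 0 := fun i v hv =>
    ct1_zero_pd o1 (fun q hq => h1 q hq) i v hv
  have h2p : ∀ i : Fin 3, ∀ v, ‖v‖ < r2 → pd i ζ v = 0 := fun i v hv =>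
    ct1_zero_pd o2 (fun q hq => h2 q hq) i v hv
  have kU : ∀ i : Fin 3, ∀ p : V × V, p.1 ≠ p.2 →
      ContinuousAt (fun p : V × V => UU i p.1 p.2) p := fun i p hp => (ct1_cd_uu i p hp).continuousAt
  have kN : ∀ p : V × V, p.1 ≠ p.2 → ContinuousAt (fun p : V × V => ‖p.1 - p.2‖⁻¹ ^ 3) p :=
    fun p hp => ((ct1_cd_norm p hp).pow 3).continuousAt
  have cg1 : Continuous (fun p : V × V => g p.1) := hg.cont.comp continuous_fst
  have cg2 : Continuous (fun p : V × V => g p.2) := hg.cont.comp continuous_snd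
  have cd1 : ∀ i : Fin 3, Continuous (fun p : V × V => pd i g p.1) :=
    fun i => (continuous_pd hg1 i).comp continuous_fst
  have cd2 : ∀ i : Fin 3, Continuous (fun p : V × V => pd i g p.2) :=
    fun i => (continuous_pd hg1 i).comp continuous_snd
  have cn : Continuous (fun p : V × V => g p.1 * g p.2 * (2 * (‖p.2‖ ^ 2 - ‖p.1‖ ^ 2))) := by
    fun_prop
  have iA : Integrable (fun p : V × V =>
      χ p.1 * ζ p.2 * ∑ i : Fin 3, UU i p.1 p.2 * (g p.2 * pd i g p.1 - g p.1 * pd i g p.2))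
      ((volume : Measure V).prod (volume : Measure V)) := by
    have h : Integrable (fun p : V × V => ∑ i : Fin 3,
        χ p.1 * ζ p.2 * UU i p.1 p.2 * (g p.2 * pd i g p.1 - g p.1 * pd i g p.2))
        ((volume : Measure V).prod (volume : Measure V)) :=
      integrable_finsetSum _ fun i _ => ct1_int h12 hχ1.continuous hζ1.continuous hχc hζc h1 h2
        (kU i) ((cg2.mul (cd1 i)).sub (cg1.mul (cd2 i)))
    refine h.congr (Eventually.of_forall fun p => ?_)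
    simp only [Finset.mul_sum]
    exact Finset.sum_congr rfl fun i _ => by ring
  have iB : Integrable (fun p : V × V =>
      g p.1 * g p.2 * (ζ p.2 * (∑ i : Fin 3, pd i χ p.1 * UU i p.1 p.2) -
        χ p.1 * (∑ i : Fin 3, pd i ζ p.2 * UU i p.1 p.2) +
        2 * χ p.1 * ζ p.2 * (‖p.2‖ ^ 2 - ‖p.1‖ ^ 2) / ‖p.1 - p.2‖ ^ 3))
      ((volume : Measure V).prod (volume : Measure V)) := by
    have j1 : Integrable (fun p : V × V => ∑ i : Fin 3,
        pd i χ p.1 * ζ p.2 * UU i p.1 p.2 * (g p.1 * g p.2))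
        ((volume : Measure V).prod (volume : Measure V)) :=
      integrable_finsetSum _ fun i _ => ct1_int h12 (continuous_pd hχ1 i) hζ1.continuous
        (compact_pd hχc i) hζc (h1p i) h2 (kU i) (cg1.mul cg2)
    have j2 : Integrable (fun p : V × V => ∑ i : Fin 3,
        χ p.1 * pd i ζ p.2 * UU i p.1 p.2 * (g p.1 * g p.2))
        ((volume : Measure V).prod (volume : Measure V)) :=
      integrable_finsetSum _ fun i _ => ct1_int h12 hχ1.continuous (continuous_pd hζ1 i)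
        hχc (compact_pd hζc i) h1 (h2p i) (kU i) (cg1.mul cg2)
    have j3 := ct1_int h12 hχ1.continuous hζ1.continuous hχc hζc h1 h2 kN cn
    refine ((j1.sub j2).add j3).congr (Eventually.of_forall fun p => ?_)
    simp only [Pi.add_apply, Pi.sub_apply, Fin.sum_univ_three, div_eq_mul_inv, inv_pow]
    ring
  refine ⟨iA.add iB, ?_⟩
  have e : ∫ p : V × V, FF g χ ζ p.1 p.2 ∂((volume : Measure V).prod (volume : Measure V)) =
      (∫ p : V × V, χ p.1 * ζ p.2 *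
        ∑ i : Fin 3, UU i p.1 p.2 * (g p.2 * pd i g p.1 - g p.1 * pd i g p.2)
        ∂((volume : Measure V).prod (volume : Measure V))) +
      ∫ p : V × V, g p.1 * g p.2 * (ζ p.2 * (∑ i : Fin 3, pd i χ p.1 * UU i p.1 p.2) -
        χ p.1 * (∑ i : Fin 3, pd i ζ p.2 * UU i p.1 p.2) +
        2 * χ p.1 * ζ p.2 * (‖p.2‖ ^ 2 - ‖p.1‖ ^ 2) / ‖p.1 - p.2‖ ^ 3)
        ∂((volume : Measure V).prod (volume : Measure V)) := integral_add iA iB
  rw [e, integral_prod _ iA, integral_prod _ iB]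
  have hid := ct_identity g hg χ ζ hχ hχc hζ hζc r1 r2 h12 h1 h2
  simp only
  rw [hid]
  ring

theorem X_int (g : V → ℝ) (hg : Cls g) {R' B : ℝ} (hR' : 1 ≤ R') (hB : 2 * R' ≤ B) :
    Integrable (fun w => zet R' B w / ‖w‖ * g w) ∧
      ∫ w, zet R' B w / ‖w‖ * g w ≤ energy g ∧ 0 ≤ ∫ w, zet R' B w / ‖w‖ * g w := by
  have hb : ∀ w : V, zet R' B w / ‖w‖ * g w ≤ ‖w‖ ^ 2 * g w := by
    intro w
    refine mul_le_mul_of_nonneg_right ?_ (hg.nonneg w)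
    rcases (norm_nonneg w).eq_or_lt with h | h
    · rw [← h]; simp
    · rw [div_le_iff₀ h]
      have := (zet_le R' B hR' hB w).1
      calc zet R' B w ≤ ‖w‖ ^ 3 := this
        _ = ‖w‖ ^ 2 * ‖w‖ := by ring
  have h0 : ∀ w : V, 0 ≤ zet R' B w / ‖w‖ * g w := fun w =>
    mul_nonneg (div_nonneg (zet_nonneg R' B w) (norm_nonneg w)) (hg.nonneg w)
  have hm : AEStronglyMeasurable (fun w => zet R' B w / ‖w‖ * g w) := by
    have h1 : Measurable (zet R' B) := (zet_smooth R' B hR' hB).1.continuous.measurable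
    exact ((h1.div measurable_norm).mul hg.cont.measurable).aestronglyMeasurable
  have hi : Integrable (fun w => zet R' B w / ‖w‖ * g w) := by
    refine hg.int_energy.mono' hm (Eventually.of_forall fun w => ?_)
    rw [Real.norm_eq_abs, abs_of_nonneg (h0 w)]
    exact hb w
  exact ⟨hi, integral_mono hi hg.int_energy hb, integral_nonneg h0⟩

theorem X_low (g : V → ℝ) (hg : Cls g) {R' B : ℝ} (hR' : 1 ≤ R') (hB : 2 * R' ≤ B) :
    ∫ v in {v : V | 2 * R' ≤ ‖v‖ ∧ ‖v‖ ≤ B}, ‖v‖ ^ 2 * g v ≤ ∫ w, zet R' B w / ‖w‖ * g w := by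
  have hms : MeasurableSet {v : V | 2 * R' ≤ ‖v‖ ∧ ‖v‖ ≤ B} :=
    (measurableSet_le measurable_const measurable_norm).inter
      (measurableSet_le measurable_norm measurable_const)
  have e : ∫ v in {v : V | 2 * R' ≤ ‖v‖ ∧ ‖v‖ ≤ B}, ‖v‖ ^ 2 * g v =
      ∫ v in {v : V | 2 * R' ≤ ‖v‖ ∧ ‖v‖ ≤ B}, zet R' B v / ‖v‖ * g v := by
    refine setIntegral_congr_fun hms fun v hv => ?_
    have h1 : 2 * R' ≤ ‖v‖ := hv.1
    have h2 : ‖v‖ ≤ B := hv.2
    have h3 : 0 < ‖v‖ := by linarith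
    change ‖v‖ ^ 2 * g v = zet R' B v / ‖v‖ * g v
    rw [zet_mid R' B hR' hB v h1 h2]
    field_simp
  rw [e]
  refine setIntegral_le_integral (X_int g hg hR' hB).1 (Eventually.of_forall fun w => ?_)
  exact mul_nonneg (div_nonneg (zet_nonneg R' B w) (norm_nonneg w)) (hg.nonneg w)

theorem al_int (g : V → ℝ) (hg : Cls g) {R : ℝ} (hR : 0 < R) :
    Integrable (fun v => chi R v * g v) :=
  ((chi_smooth R).continuous.mul hg.cont).integrable_of_hasCompactSupport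
    (chi_compact hR).mul_right

theorem al_low (g : V → ℝ) (hg : Cls g) {R M m : ℝ} (hR : 0 < R) (hMg : M ≤ mass g)
    (hen : energy g ≤ m) (hmr : m / R ^ 2 ≤ M / 2) : M / 2 ≤ ∫ v, chi R v * g v := by
  have hmeas : MeasurableSet {v : V | R ≤ ‖v‖} := measurableSet_le measurable_const measurable_norm
  have hsplit := integral_add_compl hmeas hg.int_g
  have htail := hg.tail hR
  have h1 : energy g / R ^ 2 ≤ M / 2 := by
    refine le_trans ?_ hmr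
    gcongr
  have h3 : ∫ v in {v : V | R ≤ ‖v‖}ᶜ, g v = ∫ v in {v : V | R ≤ ‖v‖}ᶜ, chi R v * g v := by
    refine setIntegral_congr_fun hmeas.compl fun v hv => ?_
    have hv' : ¬ R ≤ ‖v‖ := hv
    change g v = chi R v * g v
    rw [chi_one hR (not_le.1 hv').le, one_mul]
  have h4 : ∫ v in {v : V | R ≤ ‖v‖}ᶜ, chi R v * g v ≤ ∫ v, chi R v * g v :=
    setIntegral_le_integral (al_int g hg hR)
      (Eventually.of_forall fun v => mul_nonneg (chi_nonneg R v) (hg.nonneg v))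
  have h2 : (∫ v in {v : V | R ≤ ‖v‖}, g v) + ∫ v in {v : V | R ≤ ‖v‖}ᶜ, g v = mass g := hsplit
  linarith

/-- the integrated inequality -/
theorem integrated (g : V → ℝ) (hg : Cls g) {l R R' B C0 C1 : ℝ} (hl : 0 < l) (hR : 1 ≤ R)
    (hR' : 8 * R ≤ R') (hB : 2 * R' ≤ B) (hC0 : 0 ≤ C0) (hC1 : 0 ≤ C1)
    (hb : ∀ i v, |pd i (chi R) v| ≤ C0 / R)
    (hb1 : ∀ i v, |pd i (zet R' B) v| ≤ C1 * ‖v‖ ^ 2)
    (hb2 : ∀ i v, ‖v‖ < R' → pd i (zet R' B) v = 0) (hD : DD g ≠ ⊤) :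
    4 / 5 * ((∫ v, chi R v * g v) * ∫ w, zet R' B w / ‖w‖ * g w) ≤
      16 * C0 / R ^ 2 * (energy g * energy g) + 16 * C1 * (R / R') * (mass g * energy g) +
        3 / 2 * l * (energy g * ∫ w, zet R' B w / ‖w‖ * g w) +
        2 * B ^ 3 / l * (DD g).toReal := by
  have hR0 : 0 < R := by linarith
  have hR1' : 1 ≤ R' := by linarith
  obtain ⟨i5, e5⟩ := dd_int g hg hD
  obtain ⟨i0, e0⟩ := ff_int g hg (chi R) (zet R' B) (chi_smooth R) (chi_compact hR0)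
    (zet_smooth R' B hR1' hB).1 (zet_smooth R' B hR1' hB).2 (2 * R) R' (by linarith)
    (fun v hv => chi_zero hR0 hv.le) (fun v hv => zet_inner R' B hR1' v hv.le)
  obtain ⟨iX, -, -⟩ := X_int g hg hR1' hB
  have iα := al_int g hg hR0
  have i1 := (iα.mul_prod iX).const_mul (4 / 5)
  have i2 := (hg.int_energy.mul_prod hg.int_energy).const_mul (16 * C0 / R ^ 2)
  have i3 := (hg.int_g.mul_prod hg.int_energy).const_mul (16 * C1 * (R / R'))
  have i4 := (hg.int_energy.mul_prod iX).const_mul (3 / 2 * l)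
  have i5' := i5.const_mul (2 * B ^ 3 / l)
  have key := integral_mono i1 (i0.add (((i2.add i3).add i4).add i5')) (fun p => by
    have := pointwise g hg (l := l) hl hR hR' hB hC0 hC1 hb hb1 hb2 p.1 p.2
    exact this)
  rw [integral_add' i0 (((i2.add i3).add i4).add i5'), integral_add' ((i2.add i3).add i4) i5',
    integral_add' (i2.add i3) i4, integral_add' i2 i3] at key
  simp only [integral_const_mul] at key
  have p1 := integral_prod_mul (μ := (volume : Measure V)) (ν := (volume : Measure V))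
    (fun v : V => chi R v * g v) (fun w : V => zet R' B w / ‖w‖ * g w)
  have p2 := integral_prod_mul (μ := (volume : Measure V)) (ν := (volume : Measure V))
    (fun v : V => ‖v‖ ^ 2 * g v) (fun w : V => ‖w‖ ^ 2 * g w)
  have p3 := integral_prod_mul (μ := (volume : Measure V)) (ν := (volume : Measure V))
    (fun v : V => g v) (fun w : V => ‖w‖ ^ 2 * g w)
  have p4 := integral_prod_mul (μ := (volume : Measure V)) (ν := (volume : Measure V))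
    (fun v : V => ‖v‖ ^ 2 * g v) (fun w : V => zet R' B w / ‖w‖ * g w)
  have e6 : ∫ v, g v = mass g := rfl
  have e7 : ∫ v : V, ‖v‖ ^ 2 * g v = energy g := rfl
  rw [e7] at p2 p3 p4
  rw [e6] at p3
  rw [p1, p2, p3, p4, e0, e5] at key
  linarith

end CT2Aux

theorem core_tail (M m : ℝ) (hM : 0 < M) : ∃ C : ℝ, 0 < C ∧ ∀ g : V → ℝ, Cls g →
    M ≤ mass g → mass g + energy g ≤ m → DD g ≠ ⊤ → ∀ R R' B : ℝ, 1 ≤ R → m / R ^ 2 ≤ M / 2 →
    8 * R ≤ R' → 2 * R' ≤ B →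
    ∫ v in {v : V | 2 * R' ≤ ‖v‖ ∧ ‖v‖ ≤ B}, ‖v‖ ^ 2 * g v ≤
      C * (1 / R ^ 2 + R / R') + C * B ^ 3 * (DD g).toReal := by
  obtain ⟨C0, hC0, hb0⟩ := chi_bounds
  obtain ⟨C1, hC1, hb1⟩ := pd_zet
  rcases le_or_gt m 0 with hm | hm
  · refine ⟨1, one_pos, fun g hg h1 h2 => ?_⟩
    exfalso
    have := hg.energy_nonneg
    linarith
  refine ⟨(16 * (C0 + C1) * m ^ 2 + 30 * m / M) / (3 / 10 * M), by positivity,
    fun g hg hMg hmg hD R R' B hR hmR hR' hB => ?_⟩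
  have hR0 : 0 < R := by linarith
  have hR1' : 1 ≤ R' := by linarith
  have hR0' : 0 < R' := by linarith
  have hB0 : 0 < B := by linarith
  have hen := hg.energy_nonneg
  have hma := hg.mass_nonneg
  have hem : energy g ≤ m := by linarith
  have hmm : mass g ≤ m := by linarith
  have hα := CT2Aux.al_low g hg hR0 hMg hem hmR
  obtain ⟨-, hX1, hX0⟩ := CT2Aux.X_int g hg hR1' hB
  have hlow := CT2Aux.X_low g hg hR1' hB
  have hl : 0 < M / (15 * m) := by positivity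
  have hint := CT2Aux.integrated g hg hl hR hR' hB hC0.le hC1.le (hb0 R hR).1
    (fun i v => (hb1 R' B hR1' hB i v).1) (fun i v => (hb1 R' B hR1' hB i v).2) hD
  obtain ⟨X, hX⟩ : ∃ X, X = ∫ w, zet R' B w / ‖w‖ * g w := ⟨_, rfl⟩
  rw [← hX] at hint hlow hX1 hX0
  obtain ⟨D, hDD⟩ : ∃ D, D = (DD g).toReal := ⟨_, rfl⟩
  have hD0 : 0 ≤ D := by rw [hDD]; exact ENNReal.toReal_nonneg
  rw [← hDD] at hint ⊢
  refine hlow.trans ?_
  have k1 : 4 / 5 * (M / 2 * X) ≤ 4 / 5 * ((∫ v, chi R v * g v) * X) := by gcongr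
  have k2 : 16 * C0 / R ^ 2 * (energy g * energy g) ≤ 16 * C0 / R ^ 2 * (m * m) := by gcongr
  have k3 : 16 * C1 * (R / R') * (mass g * energy g) ≤ 16 * C1 * (R / R') * (m * m) := by gcongr
  have k4 : 3 / 2 * (M / (15 * m)) * (energy g * X) ≤ 3 / 2 * (M / (15 * m)) * (m * X) := by
    gcongr
  have k5 : 3 / 2 * (M / (15 * m)) * (m * X) = M / 10 * X := by
    field_simp
    ring
  have k6 : 2 * B ^ 3 / (M / (15 * m)) * D = 30 * m / M * B ^ 3 * D := by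
    field_simp
    ring
  rw [k6] at hint
  have hA : 0 ≤ 1 / R ^ 2 := by positivity
  have hBn : 0 ≤ R / R' := by positivity
  have k7 : 3 / 10 * M * X ≤ 16 * C0 * m ^ 2 * (1 / R ^ 2) + 16 * C1 * m ^ 2 * (R / R') +
      30 * m / M * (B ^ 3 * D) := by
    have : 16 * C0 / R ^ 2 * (m * m) = 16 * C0 * m ^ 2 * (1 / R ^ 2) := by ring
    nlinarith
  have hBD : 0 ≤ B ^ 3 * D := by positivity
  have q1 : 0 ≤ 16 * C0 * m ^ 2 := by positivity
  have q2 : 0 ≤ 16 * C1 * m ^ 2 := by positivity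
  have q3 : 0 ≤ 30 * m / M := by positivity
  have k8 : 3 / 10 * M * X ≤ (16 * (C0 + C1) * m ^ 2 + 30 * m / M) * (1 / R ^ 2 + R / R') +
      (16 * (C0 + C1) * m ^ 2 + 30 * m / M) * (B ^ 3 * D) := by
    refine k7.trans ?_
    have e : (16 * (C0 + C1) * m ^ 2 + 30 * m / M) =
        16 * C0 * m ^ 2 + 16 * C1 * m ^ 2 + 30 * m / M := by ring
    rw [e]
    generalize 16 * C0 * m ^ 2 = a at *
    generalize 16 * C1 * m ^ 2 = b at *
    generalize 30 * m / M = c at *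
    generalize 1 / R ^ 2 = x at *
    generalize R / R' = y at *
    generalize B ^ 3 * D = t at *
    nlinarith [mul_nonneg q1 hBn, mul_nonneg q2 hA, mul_nonneg q3 hA, mul_nonneg q3 hBn,
      mul_nonneg q1 hBD, mul_nonneg q2 hBD]
  have hM0 : 0 < 3 / 10 * M := by positivity
  rw [show (16 * (C0 + C1) * m ^ 2 + 30 * m / M) / (3 / 10 * M) * (1 / R ^ 2 + R / R') +
    (16 * (C0 + C1) * m ^ 2 + 30 * m / M) / (3 / 10 * M) * B ^ 3 * D =
    ((16 * (C0 + C1) * m ^ 2 + 30 * m / M) * (1 / R ^ 2 + R / R') +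
      (16 * (C0 + C1) * m ^ 2 + 30 * m / M) * (B ^ 3 * D)) / (3 / 10 * M) by ring,
    le_div_iff₀ hM0]
  linarith

end Pool.Agent.Landau
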