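import Pool.Agent.Landau.Base

/-!
# Landau, module Chi: the cutoff functions

`chiB` is Mathlib's bump function with radii `1` and `2`, `chi R v = chiB (R⁻¹ • v)`.

`chi_bounds`: scaling.  If `Φ` is smooth with compact support and `φ v = R ^ k * Φ (R⁻¹ • v)` then
`pd i φ v = R ^ (k - 1) * (pd i Φ) (R⁻¹ • v)` and
`pd i (pd j φ) v = R ^ (k - 2) * (pd i (pd j Φ)) (R⁻¹ • v)`; the (continuous, compactly supported)
functions `pd i Φ`, `pd i (pd j Φ)` are bounded.  Apply this to `Φ = chiB` (`k = 0`), `Φ u = u k * chiB u`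
(`k = 1`, as `v k * chi R v = R * Φ (R⁻¹ • v)`) and `Φ u = ‖u‖ ^ 2 * chiB u` (`k = 2`).
-/

set_option autoImplicit false

namespace Pool.Agent.Landau

open MeasureTheory Set Filter Topology

private theorem chiB_smooth : ContDiff ℝ (⊤ : ℕ∞) (fun v : V => chiB v) := chiB.contDiff

private theorem chiB_compact : HasCompactSupport (fun v : V => chiB v) := chiB.hasCompactSupport

private theorem chiB_rIn : chiB.rIn = 1 := rfl

private theorem chiB_rOut : chiB.rOut = 2 := rfl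

theorem chi_smooth (R : ℝ) : ContDiff ℝ (⊤ : ℕ∞) (chi R) := by
  unfold chi
  exact chiB_smooth.comp (contDiff_const_smul _)

theorem chi_nonneg (R : ℝ) (v : V) : 0 ≤ chi R v := chiB.nonneg

theorem chi_le_one (R : ℝ) (v : V) : chi R v ≤ 1 := chiB.le_one

theorem chi_one {R : ℝ} (hR : 0 < R) {v : V} (h : ‖v‖ ≤ R) : chi R v = 1 := by
  unfold chi
  apply chiB.one_of_mem_closedBall
  rw [mem_closedBall_zero_iff, chiB_rIn, norm_smul, norm_inv, Real.norm_of_nonneg hR.le,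
    inv_mul_le_iff₀ hR]
  linarith

theorem chi_zero {R : ℝ} (hR : 0 < R) {v : V} (h : 2 * R ≤ ‖v‖) : chi R v = 0 := by
  unfold chi
  apply chiB.zero_of_le_dist
  rw [chiB_rOut, dist_zero_right, norm_smul, norm_inv, Real.norm_of_nonneg hR.le,
    le_inv_mul_iff₀ hR]
  linarith

theorem chi_compact {R : ℝ} (hR : 0 < R) : HasCompactSupport (chi R) := by
  refine HasCompactSupport.intro (isCompact_closedBall (0 : V) (2 * R)) fun v hv => ?_
  rw [mem_closedBall_zero_iff, not_le] at hv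
  exact chi_zero hR hv.le

theorem chi_mono {R R' : ℝ} (hR : 0 < R) (h : 2 * R ≤ R') (v : V) : chi R v ≤ chi R' v := by
  rcases le_or_gt (‖v‖) (2 * R) with hv | hv
  · rw [chi_one (R := R') (by linarith) (hv.trans h)]
    exact chi_le_one R v
  · rw [chi_zero hR hv.le]
    exact chi_nonneg R' v

private theorem pd_of_eventuallyEq_const {g : V → ℝ} {v : V} {c : ℝ}
    (h : g =ᶠ[𝓝 v] fun _ => c) (i : Fin 3) : pd i g v = 0 := by
  unfold pd
  rw [h.fderiv_eq]
  simp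

theorem pd_chi_inner {R : ℝ} (hR : 0 < R) {v : V} (h : ‖v‖ < R) (i : Fin 3) :
    pd i (chi R) v = 0 := by
  refine pd_of_eventuallyEq_const (c := 1) ?_ i
  have hopen : IsOpen {u : V | ‖u‖ < R} := isOpen_lt continuous_norm continuous_const
  filter_upwards [hopen.mem_nhds h] with u hu
  exact chi_one hR (le_of_lt hu)

theorem pd_chi_outer {R : ℝ} (hR : 0 < R) {v : V} (h : 2 * R < ‖v‖) (i : Fin 3) :
    pd i (chi R) v = 0 := by
  refine pd_of_eventuallyEq_const (c := 0) ?_ i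
  have hopen : IsOpen {u : V | 2 * R < ‖u‖} := isOpen_lt continuous_const continuous_norm
  filter_upwards [hopen.mem_nhds h] with u hu
  exact chi_zero hR (le_of_lt hu)

private theorem pd_scale {Φ : V → ℝ} (hΦ : Differentiable ℝ Φ) (c a : ℝ) (i : Fin 3) :
    pd i (fun v : V => c * Φ (a • v)) = fun v => (c * a) * pd i Φ (a • v) := by
  funext v
  unfold pd
  have h1 : HasFDerivAt (fun v : V => a • v) (a • ContinuousLinearMap.id ℝ V) v :=
    (hasFDerivAt_id v).const_smul a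
  have h2 : HasFDerivAt Φ (fderiv ℝ Φ (a • v)) (a • v) := (hΦ (a • v)).hasFDerivAt
  have h3 : HasFDerivAt (fun v : V => Φ (a • v))
      ((fderiv ℝ Φ (a • v)).comp (a • ContinuousLinearMap.id ℝ V)) v := h2.comp v h1
  have h4 := h3.const_mul c
  rw [h4.fderiv]
  simp
  ring

private theorem exists_bd {g : V → ℝ} (hg : Continuous g) (hc : HasCompactSupport g) :
    ∃ C : ℝ, 0 ≤ C ∧ ∀ v, |g v| ≤ C := by
  obtain ⟨C, hC⟩ := hc.exists_bound_of_continuous hg
  exact ⟨max C 0, le_max_right _ _, fun v => (hC v).trans (le_max_left _ _)⟩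

private theorem scale_bd {Φ : V → ℝ} (hΦ : ContDiff ℝ (⊤ : ℕ∞) Φ) (hc : HasCompactSupport Φ) :
    ∃ C : ℝ, 0 ≤ C ∧ ∀ (c a : ℝ) (i j : Fin 3) (v : V),
      |pd i (fun v : V => c * Φ (a • v)) v| ≤ |c * a| * C ∧
      |pd i (pd j (fun v : V => c * Φ (a • v))) v| ≤ |c * a * a| * C := by
  have h1 : ∀ i, ∃ C : ℝ, 0 ≤ C ∧ ∀ v, |pd i Φ v| ≤ C := fun i =>
    exists_bd (smooth_pd hΦ i).continuous (compact_pd hc i)
  have h2 : ∀ i j, ∃ C : ℝ, 0 ≤ C ∧ ∀ v, |pd i (pd j Φ) v| ≤ C := fun i j =>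
    exists_bd (smooth_pd (smooth_pd hΦ j) i).continuous (compact_pd (compact_pd hc j) i)
  choose C1 hC1 hC1' using h1
  choose C2 hC2 hC2' using h2
  have s1 : 0 ≤ ∑ i, C1 i := Finset.sum_nonneg fun i _ => hC1 i
  have s2 : 0 ≤ ∑ i, ∑ j, C2 i j := Finset.sum_nonneg fun i _ => Finset.sum_nonneg fun j _ => hC2 i j
  refine ⟨(∑ i, C1 i) + ∑ i, ∑ j, C2 i j, by linarith, fun c a i j v => ⟨?_, ?_⟩⟩
  · rw [pd_scale (differentiable_of_smooth hΦ) c a i]
    rw [abs_mul (c * a)]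
    refine mul_le_mul_of_nonneg_left ?_ (abs_nonneg _)
    have := Finset.single_le_sum (f := C1) (fun i _ => hC1 i) (Finset.mem_univ i)
    linarith [hC1' i (a • v)]
  · rw [pd_scale (differentiable_of_smooth hΦ) c a j,
      pd_scale (differentiable_of_smooth (smooth_pd hΦ j)) (c * a) a i]
    rw [abs_mul (c * a * a)]
    refine mul_le_mul_of_nonneg_left ?_ (abs_nonneg _)
    have e1 := Finset.single_le_sum (f := C2 i) (fun j _ => hC2 i j) (Finset.mem_univ j)
    have e2 := Finset.single_le_sum (f := fun i => ∑ j, C2 i j)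
      (fun i _ => Finset.sum_nonneg fun j _ => hC2 i j) (Finset.mem_univ i)
    linarith [hC2' i j (a • v)]

theorem chi_bounds : ∃ C : ℝ, 0 < C ∧ ∀ R : ℝ, 1 ≤ R →
    (∀ i v, |pd i (chi R) v| ≤ C / R) ∧
    (∀ i j v, |pd i (pd j (chi R)) v| ≤ C / R ^ 2) ∧
    (∀ k i j v, |pd i (pd j (fun u : V => u k * chi R u)) v| ≤ C / R) ∧
    (∀ i j v, |pd i (pd j (fun u : V => ‖u‖ ^ 2 * chi R u)) v| ≤ C) := by
  obtain ⟨C0, p0, h0⟩ := scale_bd chiB_smooth chiB_compact
  have hk : ∀ k : Fin 3, ∃ C : ℝ, 0 ≤ C ∧ ∀ (c a : ℝ) (i j : Fin 3) (v : V),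
      |pd i (fun v : V => c * ((a • v) k * chiB (a • v))) v| ≤ |c * a| * C ∧
      |pd i (pd j (fun v : V => c * ((a • v) k * chiB (a • v)))) v| ≤ |c * a * a| * C := by
    intro k
    have hc : ContDiff ℝ (⊤ : ℕ∞) (fun v : V => v k) := by fun_prop
    exact scale_bd (Φ := fun v : V => v k * chiB v) (hc.mul chiB_smooth) (chiB_compact.mul_left)
  choose C1 p1 h1 using hk
  obtain ⟨C2, p2, h2⟩ := scale_bd (Φ := fun v : V => ‖v‖ ^ 2 * chiB v)
    ((contDiff_norm_sq ℝ).mul chiB_smooth) (chiB_compact.mul_left)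
  have s1 : 0 ≤ ∑ k, C1 k := Finset.sum_nonneg fun k _ => p1 k
  refine ⟨C0 + (∑ k, C1 k) + C2 + 1, by linarith, fun R hR => ?_⟩
  have hR0 : 0 < R := by linarith
  have e0 : chi R = fun v : V => 1 * chiB (R⁻¹ • v) := by
    funext v
    simp [chi]
  have e1 : ∀ k : Fin 3, (fun u : V => u k * chi R u)
      = fun v : V => R * ((R⁻¹ • v) k * chiB (R⁻¹ • v)) := by
    intro k
    funext v
    simp only [chi, PiLp.smul_apply, smul_eq_mul]
    field_simp
  have e2 : (fun u : V => ‖u‖ ^ 2 * chi R u)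
      = fun v : V => R ^ 2 * (‖R⁻¹ • v‖ ^ 2 * chiB (R⁻¹ • v)) := by
    funext v
    simp only [chi]
    rw [norm_smul, norm_inv, Real.norm_of_nonneg hR0.le]
    field_simp
  refine ⟨fun i v => ?_, fun i j v => ?_, fun k i j v => ?_, fun i j v => ?_⟩
  · rw [e0]
    refine ((h0 1 R⁻¹ i i v).1).trans ?_
    rw [one_mul, abs_of_pos (inv_pos.mpr hR0), inv_mul_eq_div]
    gcongr
    linarith
  · rw [e0]
    refine ((h0 1 R⁻¹ i j v).2).trans ?_
    rw [one_mul, abs_of_pos (by positivity)]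
    have : R⁻¹ * R⁻¹ * C0 = C0 / R ^ 2 := by field_simp
    rw [this]
    gcongr
    linarith
  · rw [e1 k]
    refine ((h1 k R R⁻¹ i j v).2).trans ?_
    have e3 : R * R⁻¹ * R⁻¹ = R⁻¹ := by field_simp
    rw [e3, abs_of_pos (inv_pos.mpr hR0), inv_mul_eq_div]
    gcongr
    have := Finset.single_le_sum (f := C1) (fun k _ => p1 k) (Finset.mem_univ k)
    linarith
  · rw [e2]
    refine ((h2 (R ^ 2) R⁻¹ i j v).2).trans ?_
    have e3 : R ^ 2 * R⁻¹ * R⁻¹ = 1 := by field_simp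
    rw [e3, abs_one, one_mul]
    linarith

end Pool.Agent.Landau
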