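import Pool.Agent.Landau.PairLip

/-!
# Landau, module Cons: conservation laws where mass and energy are bounded

Let `R → ∞` in `trunc_lip`: by dominated convergence `∫ chi R f → mass`, `∫ v_k chi R f → mom k`,
`∫ ‖v‖² chi R f → energy` (`chi R v = 1` for `R ≥ ‖v‖`, `0 ≤ chi R ≤ 1`, `Cls.int_g`, `Cls.int_mom`,
`Cls.int_energy`), while the right hand sides tend to `0`.
-/

set_option autoImplicit false

namespace Pool.Agent.Landau

open MeasureTheory Set Filter Topology

namespace Cons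

theorem lim (h : V → ℝ) (hh : Integrable h) :
    Tendsto (fun R : ℝ => ∫ v, chi R v * h v) atTop (𝓝 (∫ v, h v)) := by
  refine tendsto_integral_filter_of_dominated_convergence (fun v => ‖h v‖) ?_ ?_ hh.norm ?_
  · exact Eventually.of_forall fun R =>
      ((chi_smooth R).continuous.aestronglyMeasurable).mul hh.aestronglyMeasurable
  · refine Eventually.of_forall fun R => Eventually.of_forall fun v => ?_
    rw [norm_mul, Real.norm_eq_abs, abs_of_nonneg (chi_nonneg R v)]
    exact mul_le_of_le_one_left (norm_nonneg _) (chi_le_one R v)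
  · refine Eventually.of_forall fun v => ?_
    refine tendsto_const_nhds.congr' ?_
    filter_upwards [eventually_ge_atTop (max 1 ‖v‖)] with R hR
    rw [chi_one (lt_of_lt_of_le one_pos ((le_max_left _ _).trans hR))
      ((le_max_right _ _).trans hR), one_mul]

theorem eq_of_lip (h1 h2 : V → ℝ) (hh1 : Integrable h1) (hh2 : Integrable h2) (c : ℝ)
    (h : ∀ R : ℝ, 1 ≤ R → |(∫ v, chi R v * h2 v) - ∫ v, chi R v * h1 v| ≤ c / R ^ 3) :
    ∫ v, h2 v = ∫ v, h1 v := by
  have e1 := ((lim h2 hh2).sub (lim h1 hh1)).abs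
  have e2 : Tendsto (fun R : ℝ => c / R ^ 3) atTop (𝓝 0) :=
    tendsto_const_nhds.div_atTop (tendsto_pow_atTop (by norm_num))
  have e3 : |(∫ v, h2 v) - ∫ v, h1 v| ≤ 0 := by
    refine le_of_tendsto_of_tendsto e1 e2 ?_
    filter_upwards [eventually_ge_atTop 1] with R hR
    exact h R hR
  have e4 := abs_nonpos_iff.1 e3
  linarith

end Cons

theorem cons_local (f : ℝ → V → ℝ) (hf : Sol f) (t1 t2 m : ℝ) (h12 : t1 ≤ t2) (h2 : t2 < 0)
    (hm : ∀ t ∈ Icc t1 t2, mass (f t) + energy (f t) ≤ m) :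
    mass (f t2) = mass (f t1) ∧ energy (f t2) = energy (f t1) ∧
      ∀ k : Fin 3, mom k (f t2) = mom k (f t1) := by
  obtain ⟨C, _, hC⟩ := trunc_lip
  have c1 := hf.cls t1 (lt_of_le_of_lt h12 h2)
  have c2 := hf.cls t2 h2
  refine ⟨?_, ?_, fun k => ?_⟩
  · exact Cons.eq_of_lip (f t1) (f t2) c1.int_g c2.int_g (C * (1 + m) ^ 2 * (t2 - t1))
      (fun R hR => (hC f hf t1 t2 m R h12 h2 hR hm).1)
  · refine Cons.eq_of_lip (fun v => ‖v‖ ^ 2 * f t1 v) (fun v => ‖v‖ ^ 2 * f t2 v) c1.int_energy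
      c2.int_energy (C * (1 + m) ^ 2 * (t2 - t1)) (fun R hR => ?_)
    have h := (hC f hf t1 t2 m R h12 h2 hR hm).2.2
    have e : ∀ g : V → ℝ, (∫ v, ‖v‖ ^ 2 * chi R v * g v) = ∫ v, chi R v * (‖v‖ ^ 2 * g v) :=
      fun g => integral_congr_ae (Eventually.of_forall fun v => by ring)
    rw [e, e] at h
    exact h
  · refine Cons.eq_of_lip (fun v => v k * f t1 v) (fun v => v k * f t2 v) (c1.int_mom k)
      (c2.int_mom k) (C * (1 + m) ^ 2 * (t2 - t1)) (fun R hR => ?_)
    have h := (hC f hf t1 t2 m R h12 h2 hR hm).2.1 k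
    have e : ∀ g : V → ℝ, (∫ v, v k * chi R v * g v) = ∫ v, chi R v * (v k * g v) :=
      fun g => integral_congr_ae (Eventually.of_forall fun v => by ring)
    rw [e, e] at h
    exact h

end Pool.Agent.Landau
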