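import Pool.Agent.Landau.Base

/-!
# Landau, module Cov: covariance matrices are bounded below

`cov_lower`: by homogeneity `‖x‖ = 1` (`x = 0` is trivial), so some `|x i| ≥ 1/2`.  For `δ > 0` the set of all
`v` with `‖v‖ ≤ r`, `|⟪x, v⟫ - s| < δ` has volume at most `(2 r)² * 4 δ` (Fubini: if the two other
coordinates are fixed then `v i` is in an interval of length `2 δ / |x i| ≤ 4 δ`; or use that it is contained in
the image of a box under a linear map).  Take `δ = M / (32 r²)`: the integral of `g` over the rest of the ball is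
at least `M / 2`, and there `(⟪x, v⟫ - s)² ≥ δ²`, so `c = δ² M / 2`.

`mat_inv`: `A` is injective, hence invertible, `S = A⁻¹`.  For the row `y = S l` we have
`∑ k, y k * A k b = δ_lb`, so `c ‖y‖² ≤ ∑ A k b y k y b = y l ≤ ‖y‖`, so `|y k| ≤ ‖y‖ ≤ 1 / c`.
-/

set_option autoImplicit false

namespace Pool.Agent.Landau

open MeasureTheory Set Filter Topology

theorem cov_slab_pi (x : Fin 3 → ℝ) (i : Fin 3) (s r δ n : ℝ) (hr : 0 < r) (hδ : 0 < δ) (hn : 0 < n)
    (hx : n ≤ 2 * |x i|) :
    volume {w : Fin 3 → ℝ | (∀ j, |w j| ≤ r) ∧ |(∑ j, x j * w j) - s| < δ * n} ≤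
      ENNReal.ofReal (16 * δ * r ^ 2) := by
  classical
  have hxi : 0 < |x i| := by linarith
  have hxi0 : x i ≠ 0 := abs_pos.mp hxi
  set T' : Set (ℝ × (Fin 2 → ℝ)) :=
    {p | (∀ j, |p.2 j| ≤ r) ∧ |(x i * p.1 + ∑ j, x (i.succAbove j) * p.2 j) - s| < δ * n} with hT'
  have hmT' : MeasurableSet T' := by
    have e0 : T' = {p : ℝ × (Fin 2 → ℝ) | ∀ j, |p.2 j| ≤ r} ∩
        {p : ℝ × (Fin 2 → ℝ) | |(x i * p.1 + ∑ j, x (i.succAbove j) * p.2 j) - s| < δ * n} := rfl
    rw [e0]
    refine MeasurableSet.inter ?_ ?_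
    · have : {p : ℝ × (Fin 2 → ℝ) | ∀ j, |p.2 j| ≤ r} = ⋂ j, {p | |p.2 j| ≤ r} := by
        ext p; simp
      rw [this]
      refine MeasurableSet.iInter fun j => ?_
      refine measurableSet_le ?_ measurable_const
      exact (continuous_abs.comp ((continuous_apply j).comp continuous_snd)).measurable
    · refine measurableSet_lt ?_ measurable_const
      refine Continuous.measurable ?_
      fun_prop
  have hmp := volume_preserving_piFinSuccAbove (fun _ : Fin 3 => ℝ) i
  have hsub : {w : Fin 3 → ℝ | (∀ j, |w j| ≤ r) ∧ |(∑ j, x j * w j) - s| < δ * n} ⊆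
      (MeasurableEquiv.piFinSuccAbove (fun _ : Fin 3 => ℝ) i) ⁻¹' T' := by
    rintro w ⟨hw1, hw2⟩
    refine ⟨fun j => ?_, ?_⟩
    · exact hw1 (i.succAbove j)
    · rw [Fin.sum_univ_succAbove _ i] at hw2
      exact hw2
  refine (measure_mono hsub).trans ?_
  rw [hmp.measure_preimage hmT'.nullMeasurableSet]
  have hprod : volume T' = ∫⁻ y : Fin 2 → ℝ, volume ((fun t : ℝ => (t, y)) ⁻¹' T') := by
    have := Measure.prod_apply_symm (μ := (volume : Measure ℝ))
      (ν := (volume : Measure (Fin 2 → ℝ))) hmT'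
    exact this
  rw [hprod]
  set Bx : Set (Fin 2 → ℝ) := Set.pi Set.univ fun _ => Set.Icc (-r) r with hBx
  have hmB : MeasurableSet Bx := MeasurableSet.univ_pi fun _ => measurableSet_Icc
  calc ∫⁻ y : Fin 2 → ℝ, volume ((fun t : ℝ => (t, y)) ⁻¹' T')
      ≤ ∫⁻ y : Fin 2 → ℝ, Bx.indicator (fun _ => ENNReal.ofReal (4 * δ)) y := by
        refine lintegral_mono fun y => ?_
        by_cases hy : y ∈ Bx
        · rw [indicator_of_mem hy]
          set b : ℝ := (∑ j, x (i.succAbove j) * y j) - s with hb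
          have hsub2 : ((fun t : ℝ => (t, y)) ⁻¹' T') ⊆ Metric.ball (-b / x i) (2 * δ) := by
            rintro t ⟨-, ht⟩
            rw [Metric.mem_ball, Real.dist_eq]
            have e1 : t - -b / x i = (x i * t + b) / x i := by field_simp; ring
            rw [e1, abs_div, div_lt_iff₀ hxi]
            have e2 : (x i * t + ∑ j, x (i.succAbove j) * y j) - s = x i * t + b := by
              rw [hb]; ring
            have ht2 : |x i * t + b| < δ * n := by rw [← e2]; exact ht
            nlinarith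
          refine (measure_mono hsub2).trans ?_
          rw [Real.volume_ball]
          exact le_of_eq (by ring_nf)
        · rw [indicator_of_notMem hy]
          have : ((fun t : ℝ => (t, y)) ⁻¹' T') = ∅ := by
            ext t
            simp only [mem_empty_iff_false, iff_false]
            rintro ⟨h1, -⟩
            apply hy
            rw [hBx, Set.mem_univ_pi]
            intro j
            exact abs_le.mp (h1 j)
          rw [this, measure_empty]
    _ = ENNReal.ofReal (4 * δ) * volume Bx := by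
        rw [lintegral_indicator hmB, setLIntegral_const]
    _ = ENNReal.ofReal (4 * δ) * (ENNReal.ofReal (2 * r)) ^ 2 := by
        congr 1
        rw [hBx, volume_pi_pi]
        simp only [Real.volume_Icc, Finset.prod_const, Finset.card_univ, Fintype.card_fin]
        congr 2
        ring
    _ = ENNReal.ofReal (16 * δ * r ^ 2) := by
        rw [← ENNReal.ofReal_pow (by positivity), ← ENNReal.ofReal_mul (by positivity)]
        congr 1
        ring
    _ ≤ _ := le_refl _

theorem cov_slab (x : Fin 3 → ℝ) (i : Fin 3) (s r δ n : ℝ) (hr : 0 < r) (hδ : 0 < δ) (hn : 0 < n)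
    (hx : n ≤ 2 * |x i|) :
    volume {v : V | ‖v‖ ≤ r ∧ |(∑ j, x j * v j) - s| < δ * n} ≤
      ENNReal.ofReal (16 * δ * r ^ 2) := by
  have hmp := PiLp.volume_preserving_ofLp (Fin 3)
  set T : Set (Fin 3 → ℝ) := {w | (∀ j, |w j| ≤ r) ∧ |(∑ j, x j * w j) - s| < δ * n} with hT
  have hmT : MeasurableSet T := by
    have e0 : T = {w : Fin 3 → ℝ | ∀ j, |w j| ≤ r} ∩
        {w : Fin 3 → ℝ | |(∑ j, x j * w j) - s| < δ * n} := rfl
    rw [e0]
    refine MeasurableSet.inter ?_ ?_
    · have : {p : Fin 3 → ℝ | ∀ j, |p j| ≤ r} = ⋂ j, {p | |p j| ≤ r} := by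
        ext p; simp
      rw [this]
      refine MeasurableSet.iInter fun j => ?_
      refine measurableSet_le ?_ measurable_const
      exact (continuous_abs.comp (continuous_apply j)).measurable
    · refine measurableSet_lt ?_ measurable_const
      refine Continuous.measurable ?_
      fun_prop
  have hsub : {v : V | ‖v‖ ≤ r ∧ |(∑ j, x j * v j) - s| < δ * n} ⊆
      (WithLp.ofLp : V → (Fin 3 → ℝ)) ⁻¹' T := by
    rintro v ⟨hv1, hv2⟩
    exact ⟨fun j => (Cls.abs_coord v j).trans hv1, hv2⟩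
  refine (measure_mono hsub).trans ?_
  rw [hmp.measure_preimage hmT.nullMeasurableSet]
  exact cov_slab_pi x i s r δ n hr hδ hn hx

theorem cov_coord (x : Fin 3 → ℝ) : ∃ i, Real.sqrt (∑ i, x i ^ 2) ≤ 2 * |x i| := by
  by_contra hcon
  push Not at hcon
  have h : ∀ i, 4 * x i ^ 2 < ∑ i, x i ^ 2 := by
    intro i
    have h1 := hcon i
    have h0 : 0 ≤ ∑ i, x i ^ 2 := Finset.sum_nonneg fun j _ => sq_nonneg _
    have h2 : (2 * |x i|) ^ 2 < (Real.sqrt (∑ i, x i ^ 2)) ^ 2 := by
      have : 0 ≤ 2 * |x i| := by positivity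
      nlinarith
    rw [Real.sq_sqrt h0, mul_pow, sq_abs] at h2
    linarith
  have h0 := h 0
  have h1 := h 1
  have h2 := h 2
  rw [Fin.sum_univ_three] at h0 h1 h2
  nlinarith [sq_nonneg (x 0), sq_nonneg (x 1), sq_nonneg (x 2)]

theorem cov_lower (M r : ℝ) (hM : 0 < M) (hr : 0 < r) : ∃ c : ℝ, 0 < c ∧ ∀ g : V → ℝ,
    Continuous g → (∀ v, 0 ≤ g v) → (∀ v, g v ≤ 1) →
    M ≤ ∫ v in Metric.closedBall (0 : V) r, g v → ∀ (x : Fin 3 → ℝ) (s : ℝ),
      c * ∑ i, x i ^ 2 ≤
        ∫ v in Metric.closedBall (0 : V) r, g v * ((∑ i, x i * v i) - s) ^ 2 := by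
  set δ : ℝ := M / (32 * r ^ 2) with hδdef
  have hδ : 0 < δ := by rw [hδdef]; positivity
  refine ⟨δ ^ 2 * M / 2, by positivity, ?_⟩
  intro g hgc hg0 hg1 hgM x s
  have hQ : 0 ≤ ∑ i, x i ^ 2 := Finset.sum_nonneg fun j _ => sq_nonneg _
  set n : ℝ := Real.sqrt (∑ i, x i ^ 2) with hn
  have hnn : n ^ 2 = ∑ i, x i ^ 2 := by rw [hn]; exact Real.sq_sqrt hQ
  have hcont2 : Continuous fun v : V => ((∑ i, x i * v i) - s) ^ 2 := by fun_prop
  have hcomp : IsCompact (Metric.closedBall (0 : V) r) := isCompact_closedBall _ _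
  have hmball : MeasurableSet (Metric.closedBall (0 : V) r) := Metric.isClosed_closedBall.measurableSet
  have hint : IntegrableOn (fun v : V => g v * ((∑ i, x i * v i) - s) ^ 2)
      (Metric.closedBall (0 : V) r) := (hgc.mul hcont2).continuousOn.integrableOn_compact hcomp
  have hintg : IntegrableOn g (Metric.closedBall (0 : V) r) :=
    hgc.continuousOn.integrableOn_compact hcomp
  have hpos : 0 ≤ ∫ v in Metric.closedBall (0 : V) r, g v * ((∑ i, x i * v i) - s) ^ 2 :=
    setIntegral_nonneg hmball fun v _ => mul_nonneg (hg0 v) (sq_nonneg _)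
  have hn0 : 0 ≤ n := Real.sqrt_nonneg _
  rcases hn0.eq_or_lt with h0 | hnpos
  · have : ∑ i, x i ^ 2 = 0 := by rw [← hnn, ← h0]; ring
    rw [this, mul_zero]
    exact hpos
  obtain ⟨i, hi⟩ := cov_coord x
  set S : Set V := {v : V | ‖v‖ ≤ r ∧ |(∑ j, x j * v j) - s| < δ * n} with hS
  have hmS : MeasurableSet S := by
    have e0 : S = {v : V | ‖v‖ ≤ r} ∩ {v : V | |(∑ j, x j * v j) - s| < δ * n} := rfl
    rw [e0]
    refine MeasurableSet.inter (measurableSet_le measurable_norm measurable_const)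
      (measurableSet_lt ?_ measurable_const)
    refine Continuous.measurable ?_
    fun_prop
  have hvolS : volume S ≤ ENNReal.ofReal (M / 2) := by
    refine (cov_slab x i s r δ n hr hδ hnpos hi).trans (le_of_eq ?_)
    congr 1
    rw [hδdef]
    field_simp
    ring
  have hSball : S ⊆ Metric.closedBall (0 : V) r := by
    rintro v ⟨hv, -⟩
    rw [mem_closedBall_zero_iff]
    exact hv
  have hfinS : volume S ≠ ⊤ := (hvolS.trans_lt ENNReal.ofReal_lt_top).ne
  have hgS : ∫ v in S, g v ≤ M / 2 := by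
    calc ∫ v in S, g v ≤ ∫ v in S, (1 : ℝ) := by
          refine setIntegral_mono_on (hintg.mono_set hSball) (integrableOn_const hfinS) hmS
            (fun v _ => hg1 v)
      _ = (volume S).toReal := by simp [Measure.real]
      _ ≤ M / 2 := ENNReal.toReal_le_of_le_ofReal (by positivity) hvolS
  have hsplit : ∫ v in Metric.closedBall (0 : V) r, g v =
      (∫ v in S, g v) + ∫ v in Metric.closedBall (0 : V) r \ S, g v := by
    have h1 := setIntegral_union (μ := (volume : Measure V)) (f := g) (s := S)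
      (t := Metric.closedBall (0 : V) r \ S) disjoint_sdiff_right (hmball.diff hmS)
      (hintg.mono_set hSball) (hintg.mono_set sdiff_subset)
    rw [← h1, union_sdiff_cancel hSball]
  have hrest : M / 2 ≤ ∫ v in Metric.closedBall (0 : V) r \ S, g v := by linarith
  calc δ ^ 2 * M / 2 * ∑ i, x i ^ 2 = (δ * n) ^ 2 * (M / 2) := by rw [← hnn]; ring
    _ ≤ (δ * n) ^ 2 * ∫ v in Metric.closedBall (0 : V) r \ S, g v :=
        mul_le_mul_of_nonneg_left hrest (sq_nonneg _)
    _ = ∫ v in Metric.closedBall (0 : V) r \ S, (δ * n) ^ 2 * g v := by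
        rw [← integral_const_mul]
    _ ≤ ∫ v in Metric.closedBall (0 : V) r \ S, g v * ((∑ i, x i * v i) - s) ^ 2 := by
        refine setIntegral_mono_on ((hintg.mono_set sdiff_subset).const_mul _)
          (hint.mono_set sdiff_subset) (hmball.diff hmS) (fun v hv => ?_)
        have hv1 : ‖v‖ ≤ r := mem_closedBall_zero_iff.mp hv.1
        have hv2 : δ * n ≤ |(∑ j, x j * v j) - s| := by
          by_contra hlt
          exact hv.2 ⟨hv1, not_le.mp hlt⟩
        have h3 : (δ * n) ^ 2 ≤ ((∑ j, x j * v j) - s) ^ 2 := by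
          rw [← sq_abs ((∑ j, x j * v j) - s)]
          exact pow_le_pow_left₀ (by positivity) hv2 2
        rw [mul_comm]
        exact mul_le_mul_of_nonneg_left h3 (hg0 v)
    _ ≤ ∫ v in Metric.closedBall (0 : V) r, g v * ((∑ i, x i * v i) - s) ^ 2 := by
        refine setIntegral_mono_set hint ?_ (LE.le.eventuallyLE sdiff_subset)
        exact Eventually.of_forall fun v => mul_nonneg (hg0 v) (sq_nonneg _)

theorem mat_inv (A : Fin 3 → Fin 3 → ℝ) (c : ℝ) (hc : 0 < c)
    (hA : ∀ x : Fin 3 → ℝ, c * ∑ i, x i ^ 2 ≤ ∑ i, ∑ j, A i j * x i * x j) :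
    ∃ S : Fin 3 → Fin 3 → ℝ, (∀ i j, |S i j| ≤ 1 / c) ∧
      ∀ l b, ∑ k, S l k * A k b = if l = b then 1 else 0 := by
  classical
  set B : Matrix (Fin 3) (Fin 3) ℝ := Matrix.of A with hB
  have hinj : ∀ x : Fin 3 → ℝ, B.mulVec x = 0 → x = 0 := by
    intro x hx
    have h1 := hA x
    have h2 : ∑ i, ∑ j, A i j * x i * x j = 0 := by
      have : ∀ i, ∑ j, A i j * x i * x j = x i * (B.mulVec x) i := by
        intro i
        rw [Matrix.mulVec, dotProduct, Finset.mul_sum]
        refine Finset.sum_congr rfl fun j _ => ?_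
        rw [hB, Matrix.of_apply]
        ring
      simp [this, hx]
    have h3 : ∑ i, x i ^ 2 ≤ 0 := by
      rw [h2] at h1
      by_contra hlt
      push Not at hlt
      nlinarith [mul_pos hc hlt]
    ext i
    have h4 := (Finset.sum_eq_zero_iff_of_nonneg (fun j _ => sq_nonneg (x j))).mp
      (le_antisymm h3 (Finset.sum_nonneg fun j _ => sq_nonneg _)) i (Finset.mem_univ i)
    simpa using h4
  have hinj2 : Function.Injective B.mulVec := by
    intro u v huv
    have : B.mulVec (u - v) = 0 := by rw [Matrix.mulVec_sub, huv, sub_self]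
    exact sub_eq_zero.mp (hinj _ this)
  have hu : IsUnit B := Matrix.mulVec_injective_iff_isUnit.mp hinj2
  have hdet : IsUnit B.det := (Matrix.isUnit_iff_isUnit_det B).mp hu
  have hSA : B⁻¹ * B = 1 := Matrix.nonsing_inv_mul B hdet
  have hrel : ∀ l b, ∑ k, B⁻¹ l k * A k b = if l = b then 1 else 0 := by
    intro l b
    have h := congrFun (congrFun hSA l) b
    rw [Matrix.mul_apply, Matrix.one_apply] at h
    exact h
  refine ⟨fun i j => B⁻¹ i j, ?_, hrel⟩
  intro l k
  set y : Fin 3 → ℝ := fun k => B⁻¹ l k with hy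
  have h1 : ∑ i, ∑ j, A i j * y i * y j = y l := by
    rw [Finset.sum_comm]
    calc ∑ j, ∑ i, A i j * y i * y j = ∑ j, (∑ i, y i * A i j) * y j := by
          refine Finset.sum_congr rfl fun j _ => ?_
          rw [Finset.sum_mul]
          refine Finset.sum_congr rfl fun i _ => ?_
          ring
      _ = ∑ j, (if l = j then 1 else 0) * y j := by
          refine Finset.sum_congr rfl fun j _ => ?_
          rw [hrel l j]
      _ = y l := by simp
  have h2 := hA y
  rw [h1] at h2
  have hle : ∀ m, y m ^ 2 ≤ ∑ i, y i ^ 2 := fun m =>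
    Finset.single_le_sum (f := fun j => y j ^ 2) (fun j _ => sq_nonneg _) (Finset.mem_univ m)
  have h3 : c * y l ^ 2 ≤ y l := (mul_le_mul_of_nonneg_left (hle l) hc.le).trans h2
  have h4 : c * y k ^ 2 ≤ y l := (mul_le_mul_of_nonneg_left (hle k) hc.le).trans h2
  have hyl : c * y l ≤ 1 := by
    by_contra hgt
    push Not at hgt
    have hpos : 0 < y l := by
      by_contra hneg
      push Not at hneg
      nlinarith [mul_nonneg hc.le (neg_nonneg.mpr hneg)]
    nlinarith
  rw [le_div_iff₀ hc]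
  have h5 : (c * y k) ^ 2 ≤ 1 := by nlinarith
  have h6 : |c * y k| ≤ 1 := by
    rw [← sq_abs] at h5
    by_contra hgt
    push Not at hgt
    nlinarith
  rw [abs_mul, abs_of_pos hc] at h6
  rw [mul_comm]
  exact h6

end Pool.Agent.Landau
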