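import Mathlib

/-!
# Ancient solutions of the Landau-Coulomb equation with finite mass and energy: definitions

`V` is three dimensional velocity space, `pd i g` the `i`-th partial derivative, `aK`, `bK` the
kernels `a(z)`, `b(z) = div a(z)` of the Landau-Coulomb operator `QL`, `abar u`, `bbar u` their
convolutions with a density `u`, `Cls` the class of densities (smooth, values in `[0, 1]`, finite
mass and energy), `Sol` the solutions for negative times, `DD` the entropy production (without the
constant `1 / (32 π)`), `DDc θ` its localised form.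
-/

set_option autoImplicit false

namespace Pool.Agent.Landau

open MeasureTheory Set Filter Topology

/-- velocity space -/
abbrev V := EuclideanSpace ℝ (Fin 3)

/-- partial derivative -/
noncomputable def pd (i : Fin 3) (g : V → ℝ) (v : V) : ℝ :=
  fderiv ℝ g v (EuclideanSpace.single i 1)

/-- the matrix kernel `a_ij(z)` -/
noncomputable def aK (i j : Fin 3) (z : V) : ℝ :=
  (1 / (8 * Real.pi)) * ((if i = j then (1 : ℝ) else 0) / ‖z‖ - z i * z j / ‖z‖ ^ 3)

/-- the vector kernel `b_i(z)`, the divergence of `a` -/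
noncomputable def bK (i : Fin 3) (z : V) : ℝ := -(1 / (4 * Real.pi)) * (z i / ‖z‖ ^ 3)

/-- convolution of `a_ij` with a density -/
noncomputable def abar (u : V → ℝ) (i j : Fin 3) (v : V) : ℝ := ∫ w, aK i j (v - w) * u w

/-- convolution of `b_i` with a density -/
noncomputable def bbar (u : V → ℝ) (i : Fin 3) (v : V) : ℝ := ∫ w, bK i (v - w) * u w

/-- the Landau-Coulomb collision operator (nondivergence form) -/
noncomputable def QL (g : V → ℝ) (v : V) : ℝ :=
  (∑ i : Fin 3, ∑ j : Fin 3, abar g i j v * pd i (pd j g) v) + g v ^ 2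

/-- densities: smooth, between `0` and `1`, finite mass and energy -/
structure Cls (g : V → ℝ) : Prop where
  smooth : ContDiff ℝ (⊤ : ℕ∞) g
  nonneg : ∀ v, 0 ≤ g v
  le_one : ∀ v, g v ≤ 1
  int : Integrable (fun v => (1 + ‖v‖ ^ 2) * g v)

/-- mass -/
noncomputable def mass (g : V → ℝ) : ℝ := ∫ v, g v

/-- energy -/
noncomputable def energy (g : V → ℝ) : ℝ := ∫ v, ‖v‖ ^ 2 * g v

/-- momentum -/
noncomputable def mom (i : Fin 3) (g : V → ℝ) : ℝ := ∫ v, v i * g v

/-- entropy -/
noncomputable def ent (g : V → ℝ) : ℝ := ∫ v, g v * Real.log (g v)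

/-- solutions for negative times -/
structure Sol (f : ℝ → V → ℝ) : Prop where
  smooth : ContDiffOn ℝ (⊤ : ℕ∞) (fun p : ℝ × V => f p.1 p.2) (Iio (0 : ℝ) ×ˢ univ)
  cls : ∀ t < 0, Cls (f t)
  pde : ∀ t < 0, ∀ v, HasDerivAt (fun s => f s v) (QL (f t) v) t

/-- logarithmic derivative (`0` where `g = 0`) -/
noncomputable def gam (i : Fin 3) (g : V → ℝ) (v : V) : ℝ := pd i g v / g v

/-- the components of `(v - w) × (∇ log g(v) - ∇ log g(w))` -/
noncomputable def XX (g : V → ℝ) (a b : Fin 3) (v w : V) : ℝ :=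
  (v a - w a) * (gam b g v - gam b g w) - (v b - w b) * (gam a g v - gam a g w)

/-- the sum of their squares (twice the squared norm of the cross product) -/
noncomputable def XS (g : V → ℝ) (v w : V) : ℝ := ∑ a : Fin 3, ∑ b : Fin 3, XX g a b v w ^ 2

/-- entropy production (times `32 π`) -/
noncomputable def DD (g : V → ℝ) : ENNReal :=
  ∫⁻ v, ∫⁻ w, ENNReal.ofReal (g v * g w * XS g v w / ‖v - w‖ ^ 3)

/-- localised entropy production (times `32 π`) -/
noncomputable def DDc (θ g : V → ℝ) : ENNReal :=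
  ∫⁻ v, ∫⁻ w, ENNReal.ofReal (θ v * θ w * g v * g w * XS g v w / ‖v - w‖ ^ 3)

/-- the approximate dissipation -/
noncomputable def Deps (θ g : V → ℝ) (ε : ℝ) : ℝ :=
  ∫ v, ∫ w, θ v * θ w * (g v + ε)⁻¹ *
    ∑ i : Fin 3, ∑ j : Fin 3, aK i j (v - w) * pd i g v * (g w * pd j g v - g v * pd j g w)

/-- a smooth cutoff: `1` on the unit ball, `0` outside the ball of radius `2` -/
noncomputable def chiB : ContDiffBump (0 : V) := ⟨1, 2, by norm_num, by norm_num⟩

/-- the cutoff at radius `R` -/
noncomputable def chi (R : ℝ) (v : V) : ℝ := chiB (R⁻¹ • v)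

end Pool.Agent.Landau
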