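import Pool.Agent.Landau.Base

/-!
# Landau: further definitions

`Kf φ` is the symmetrised kernel of the weak form of the equation, `bet ε`, `Bet ε` are the
regularised entropy densities (`bet ε s = ∫_0^s log (σ + ε) dσ`, `Bet ε s = ∫_0^s σ / (σ + ε) dσ`),
`NegE`, `RemE` the dissipative and the remainder terms in the localised entropy identity.
-/

set_option autoImplicit false

namespace Pool.Agent.Landau

open MeasureTheory Set Filter Topology

/-- kernel of the symmetric weak form -/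
noncomputable def Kf (φ : V → ℝ) (v w : V) : ℝ :=
  (∑ i : Fin 3, bK i (v - w) * (pd i φ v - pd i φ w)) +
    (1 / 2) * ∑ i : Fin 3, ∑ j : Fin 3, aK i j (v - w) * (pd i (pd j φ) v + pd i (pd j φ) w)

/-- `∫_0^s log (σ + ε) dσ` -/
noncomputable def bet (ε s : ℝ) : ℝ := (s + ε) * Real.log (s + ε) - s - ε * Real.log ε

/-- `∫_0^s σ / (σ + ε) dσ` -/
noncomputable def Bet (ε s : ℝ) : ℝ := s - ε * (Real.log (s + ε) - Real.log ε)

/-- the nonnegative term which is dropped in the localised entropy inequality -/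
noncomputable def NegE (θ g : V → ℝ) (ε : ℝ) : ℝ :=
  ∑ i : Fin 3, ∑ j : Fin 3, ∫ v, abar (fun w => (1 - θ w) * g w) i j v *
    (θ v * (g v + ε)⁻¹ * pd i g v * pd j g v)

/-- the remainder in the localised entropy identity -/
noncomputable def RemE (θ g : V → ℝ) (ε : ℝ) : ℝ :=
  -(∑ j : Fin 3, ∫ v, bbar (fun w => g w * pd j θ w) j v * (θ v * Bet ε (g v)))
    - (∑ i : Fin 3, ∑ j : Fin 3,
        ∫ v, abar (fun w => g w * pd j θ w) i j v * (pd i θ v * Bet ε (g v)))
    + (∫ v, (1 - θ v) * g v * (θ v * Bet ε (g v)))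
    - (∑ i : Fin 3, ∫ v, bbar (fun w => (1 - θ w) * g w) i v * (pd i θ v * Bet ε (g v)))
    + (∑ i : Fin 3, ∫ v, bbar g i v * (pd i θ v * (bet ε (g v) + g v * Real.log (g v + ε))))
    + ∑ i : Fin 3, ∑ j : Fin 3, ∫ v, abar g i j v * (pd j (pd i θ) v * bet ε (g v))

end Pool.Agent.Landau
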