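import Pool.Agent.Landau.Base

/-!
# Landau, module KBd: pointwise facts on the kernels `a` and `b`

`|z i| ≤ ‖z‖`, `8 π ≥ 2`, `4 π ≥ 1`; at `z = 0` all kernels are `0` (division by zero).
`kernel_quad`: both sides are `(‖x‖² ‖z‖² - (z·x)²) / (8 π ‖z‖³)` (Lagrange's identity).
`kernel_trace`: the trace of `a` is `2 / (8 π ‖z‖)` and `b·z = - 1 / (4 π ‖z‖)`.
-/

set_option autoImplicit false

namespace Pool.Agent.Landau

open MeasureTheory Set Filter Topology

theorem nsq (z : V) : ‖z‖ ^ 2 = z 0 ^ 2 + z 1 ^ 2 + z 2 ^ 2 := by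
  rw [EuclideanSpace.real_norm_sq_eq, Fin.sum_univ_three]

theorem coord_cont (i : Fin 3) : Continuous fun z : V => z i := by
  fun_prop

theorem aK_abs (i j : Fin 3) (z : V) : |aK i j z| ≤ 1 / ‖z‖ := by
  by_cases hz : z = 0
  · subst hz
    simp [aK]
  have hr : 0 < ‖z‖ := norm_pos_iff.2 hz
  have hpi := Real.pi_gt_three
  have h1 : |(if i = j then (1 : ℝ) else 0) / ‖z‖| ≤ 1 / ‖z‖ := by
    rw [abs_div, abs_of_pos hr]
    refine div_le_div_of_nonneg_right ?_ hr.le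
    split_ifs <;> simp
  have h2 : |z i * z j / ‖z‖ ^ 3| ≤ 1 / ‖z‖ := by
    rw [abs_div, abs_mul, abs_of_pos (pow_pos hr 3), div_le_div_iff₀ (pow_pos hr 3) hr]
    have h3 := mul_le_mul (Cls.abs_coord z i) (Cls.abs_coord z j) (abs_nonneg _) hr.le
    nlinarith
  have h4 : |(if i = j then (1 : ℝ) else 0) / ‖z‖ - z i * z j / ‖z‖ ^ 3| ≤ 2 * (1 / ‖z‖) := by
    refine (abs_sub _ _).trans ?_
    linarith
  have h5 : 1 / (8 * Real.pi) ≤ 1 / 2 := one_div_le_one_div_of_le (by norm_num) (by linarith)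
  have h6 : 0 < 1 / (8 * Real.pi) := by positivity
  have h7 : 0 ≤ 1 / ‖z‖ := by positivity
  unfold aK
  rw [abs_mul, abs_of_pos h6]
  calc 1 / (8 * Real.pi) * |(if i = j then (1 : ℝ) else 0) / ‖z‖ - z i * z j / ‖z‖ ^ 3|
      ≤ 1 / 2 * (2 * (1 / ‖z‖)) := mul_le_mul h5 h4 (abs_nonneg _) (by norm_num)
    _ = 1 / ‖z‖ := by ring

theorem bK_abs (i : Fin 3) (z : V) : |bK i z| ≤ 1 / ‖z‖ ^ 2 := by
  by_cases hz : z = 0
  · subst hz
    simp [bK]
  have hr : 0 < ‖z‖ := norm_pos_iff.2 hz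
  have hpi := Real.pi_gt_three
  have h2 : |z i / ‖z‖ ^ 3| ≤ 1 / ‖z‖ ^ 2 := by
    rw [abs_div, abs_of_pos (pow_pos hr 3), div_le_div_iff₀ (pow_pos hr 3) (pow_pos hr 2)]
    have h3 := mul_le_mul_of_nonneg_right (Cls.abs_coord z i) (sq_nonneg ‖z‖)
    nlinarith
  have h5 : 1 / (4 * Real.pi) ≤ 1 := by
    rw [div_le_one (by positivity)]
    linarith
  have h6 : 0 < 1 / (4 * Real.pi) := by positivity
  unfold bK
  rw [abs_mul, abs_neg, abs_of_pos h6]
  calc 1 / (4 * Real.pi) * |z i / ‖z‖ ^ 3| ≤ 1 * (1 / ‖z‖ ^ 2) :=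
        mul_le_mul h5 h2 (abs_nonneg _) zero_le_one
    _ = 1 / ‖z‖ ^ 2 := one_mul _

theorem aK_neg (i j : Fin 3) (z : V) : aK i j (-z) = aK i j z := by
  simp [aK]

theorem bK_neg (i : Fin 3) (z : V) : bK i (-z) = - bK i z := by
  simp [bK, neg_div]

theorem aK_symm (i j : Fin 3) (z : V) : aK i j z = aK j i z := by
  unfold aK
  rw [mul_comm (z i) (z j)]
  by_cases h : i = j
  · rw [if_pos h, if_pos h.symm]
  · rw [if_neg h, if_neg (Ne.symm h)]

theorem aK_measurable (i j : Fin 3) : Measurable (aK i j) := by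
  have h1 := (coord_cont i).measurable
  have h2 := (coord_cont j).measurable
  unfold aK
  exact ((measurable_const.div measurable_norm).sub
    ((h1.mul h2).div (measurable_norm.pow_const 3))).const_mul _

theorem bK_measurable (i : Fin 3) : Measurable (bK i) := by
  have h1 := (coord_cont i).measurable
  unfold bK
  exact (h1.div (measurable_norm.pow_const 3)).const_mul _

theorem kernel_quad (z : V) (x : Fin 3 → ℝ) :
    ∑ i, ∑ j, aK i j z * x i * x j =
      (1 / (16 * Real.pi)) * ((∑ a, ∑ b, (z a * x b - z b * x a) ^ 2) / ‖z‖ ^ 3) := by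
  by_cases hz : z = 0
  · subst hz
    simp [aK]
  have hr : 0 < ‖z‖ := norm_pos_iff.2 hz
  have hpi := Real.pi_pos
  have h1 : ∀ i j, aK i j z * x i * x j = (1 / (8 * Real.pi)) *
      (((if i = j then (1 : ℝ) else 0) * ‖z‖ ^ 2 - z i * z j) * x i * x j / ‖z‖ ^ 3) := by
    intro i j
    unfold aK
    field_simp
  simp only [h1]
  simp only [Fin.sum_univ_three]
  simp only [nsq z]
  simp only [Fin.isValue, if_true, Fin.reduceEq, if_false]
  ring

theorem kernel_quad_nonneg (z : V) (x : Fin 3 → ℝ) : 0 ≤ ∑ i, ∑ j, aK i j z * x i * x j := by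
  rw [kernel_quad]
  have hpi := Real.pi_pos
  refine mul_nonneg (by positivity) (div_nonneg ?_ (by positivity))
  exact Finset.sum_nonneg fun a _ => Finset.sum_nonneg fun b _ => sq_nonneg _

theorem kernel_trace (z : V) : (∑ i, aK i i z) + ∑ i, bK i z * z i = 0 := by
  by_cases hz : z = 0
  · subst hz
    simp [aK]
  have hr : 0 < ‖z‖ := norm_pos_iff.2 hz
  have hpi := Real.pi_pos
  have h1 : ∀ i, aK i i z = (1 / (8 * Real.pi)) * ((‖z‖ ^ 2 - z i ^ 2) / ‖z‖ ^ 3) := by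
    intro i
    unfold aK
    rw [if_pos rfl]
    field_simp
  have h2 : ∀ i, bK i z * z i = -(1 / (4 * Real.pi)) * (z i ^ 2 / ‖z‖ ^ 3) := by
    intro i
    unfold bK
    ring
  simp only [h1, h2]
  simp only [Fin.sum_univ_three]
  simp only [nsq z]
  ring

end Pool.Agent.Landau
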