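import Pool.Agent.Landau.Joint
import Pool.Agent.Landau.KBd
import Pool.Agent.Landau.KInt

/-!
# Landau, module DepsCont: the approximate dissipation is continuous in time

Let `S` be the (compact) support of `θ` and `t` in a closed interval `J ⊂ (-∞, 0)` around `t0`.  By
joint continuity (`Joint`) `f`, `∂f`, `(f + ε)⁻¹`, `θ` are bounded on `J × S`, so the integrand of `Deps` is at
most `C 1_S(v) 1_S(w) / ‖v - w‖`, whose inner integral is at most `C' 1_S(v)` (`int_inv` for the indicator of
`S`, `r = 1`).  For fixed `(v, w)` the integrand is continuous in `t`.  Apply dominated convergence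
(`continuousAt_of_dominated` or `tendsto_integral_filter_of_dominated_convergence`) first to the inner
integral for fixed `v`, then to the outer one.  Measurability in `w` for fixed `v`: measurable kernel
times continuous functions; measurability in `v`: `AEStronglyMeasurable.integral_prod_right'`.
-/

set_option autoImplicit false

namespace Pool.Agent.Landau

open MeasureTheory Set Filter Topology

/-- the integrand -/
noncomputable def dcG (f : ℝ → V → ℝ) (θ : V → ℝ) (ε t : ℝ) (p : V × V) : ℝ :=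
  θ p.1 * θ p.2 * (f t p.1 + ε)⁻¹ *
    ∑ i : Fin 3, ∑ j : Fin 3, aK i j (p.1 - p.2) * pd i (f t) p.1 *
      (f t p.2 * pd j (f t) p.1 - f t p.1 * pd j (f t) p.2)

theorem dc_meas (f : ℝ → V → ℝ) (hf : Sol f) (θ : V → ℝ) (hθ : Continuous θ) (ε t : ℝ)
    (ht : t < 0) : Measurable (dcG f θ ε t) := by
  have h1 : Measurable (f t) := (hf.cls t ht).cont.measurable
  have h2 : ∀ i, Measurable (pd i (f t)) := fun i =>
    (continuous_pd (contDiff_one_of_smooth (hf.cls t ht).smooth) i).measurable
  have h3 : ∀ i j, Measurable fun p : V × V => aK i j (p.1 - p.2) := fun i j =>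
    (aK_measurable i j).comp (measurable_fst.sub measurable_snd)
  have h4 : Measurable θ := hθ.measurable
  unfold dcG
  refine Measurable.mul ?_ ?_
  · exact ((h4.comp measurable_fst).mul (h4.comp measurable_snd)).mul
      (((h1.comp measurable_fst).add_const ε).inv)
  · refine Finset.measurable_fun_sum _ fun i _ => Finset.measurable_fun_sum _ fun j _ => ?_
    exact ((h3 i j).mul ((h2 i).comp measurable_fst)).mul
      (((h1.comp measurable_snd).mul ((h2 j).comp measurable_fst)).sub
        ((h1.comp measurable_fst).mul ((h2 j).comp measurable_snd)))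

theorem dc_bound (f : ℝ → V → ℝ) (hf : Sol f) (θ : V → ℝ) (hθ : Continuous θ)
    (hc : HasCompactSupport θ) (ε : ℝ) (hε : 0 < ε) (a b : ℝ) (hb : b < 0) :
    ∃ C : ℝ, ∀ t ∈ Icc a b, ∀ p : V × V, |dcG f θ ε t p| ≤
      C * ((tsupport θ).indicator (fun _ => (1 : ℝ)) p.1 *
        (tsupport θ).indicator (fun _ => (1 : ℝ)) p.2 / ‖p.1 - p.2‖) := by
  classical
  have hS : IsCompact (tsupport θ) := hc
  have hJS : IsCompact (Icc a b ×ˢ tsupport θ) := isCompact_Icc.prod hS
  have hsub : Icc a b ×ˢ tsupport θ ⊆ Iio (0 : ℝ) ×ˢ (univ : Set V) := fun p hp =>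
    ⟨lt_of_le_of_lt hp.1.2 hb, mem_univ _⟩
  have hM : ∀ i : Fin 3, ∃ M : ℝ, ∀ p ∈ Icc a b ×ˢ tsupport θ, |pd i (f p.1) p.2| ≤ M := by
    intro i
    obtain ⟨M, hM⟩ := hJS.exists_bound_of_continuousOn ((joint_pd f hf i).mono hsub)
    exact ⟨M, hM⟩
  choose M hM using hM
  obtain ⟨K, hK⟩ := hS.exists_bound_of_continuousOn hθ.continuousOn
  have hK0 : ∀ v ∈ tsupport θ, |θ v| ≤ |K| := fun v hv => (hK v hv).trans (le_abs_self K)
  set N : ℝ := ∑ i, |M i| with hN
  have hN0 : 0 ≤ N := Finset.sum_nonneg fun i _ => abs_nonneg _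
  have hMN : ∀ i, ∀ p ∈ Icc a b ×ˢ tsupport θ, |pd i (f p.1) p.2| ≤ N := fun i p hp =>
    (hM i p hp).trans ((le_abs_self _).trans
      (Finset.single_le_sum (f := fun i => |M i|) (fun i _ => abs_nonneg _) (Finset.mem_univ i)))
  refine ⟨|K| * |K| * ε⁻¹ * (9 * (N * (2 * N))), ?_⟩
  rintro t ht ⟨v, w⟩
  by_cases hv : v ∈ tsupport θ
  · by_cases hw : w ∈ tsupport θ
    · rw [indicator_of_mem hv, indicator_of_mem hw]
      have ht0 : t < 0 := lt_of_le_of_lt ht.2 hb
      have hcl := hf.cls t ht0
      unfold dcG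
      simp only
      have e1 : |θ v * θ w * (f t v + ε)⁻¹| ≤ |K| * |K| * ε⁻¹ := by
        rw [abs_mul, abs_mul]
        have e2 : |(f t v + ε)⁻¹| ≤ ε⁻¹ := by
          have : 0 < f t v + ε := by linarith [hcl.nonneg v]
          rw [abs_of_pos (inv_pos.2 this)]
          exact inv_anti₀ hε (by linarith [hcl.nonneg v])
        exact mul_le_mul (mul_le_mul (hK0 v hv) (hK0 w hw) (abs_nonneg _) (abs_nonneg _)) e2
          (abs_nonneg _) (by positivity)
      have e3 : |∑ i : Fin 3, ∑ j : Fin 3, aK i j (v - w) * pd i (f t) v *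
          (f t w * pd j (f t) v - f t v * pd j (f t) w)| ≤ 9 * (N * (2 * N)) * (1 / ‖v - w‖) := by
        have e4 : ∀ i j : Fin 3, |aK i j (v - w) * pd i (f t) v *
          (f t w * pd j (f t) v - f t v * pd j (f t) w)| ≤ (1 / ‖v - w‖) * (N * (2 * N)) := by
          intro i j
          rw [abs_mul, abs_mul, mul_assoc]
          refine mul_le_mul (aK_abs i j _) ?_ (by positivity) (by positivity)
          refine mul_le_mul (hMN i (t, v) ⟨ht, hv⟩) ?_ (abs_nonneg _) hN0
          have e5 : |f t w * pd j (f t) v| ≤ N := by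
            rw [abs_mul, abs_of_nonneg (hcl.nonneg w)]
            have := hMN j (t, v) ⟨ht, hv⟩
            simp only at this
            nlinarith [hcl.nonneg w, hcl.le_one w, abs_nonneg (pd j (f t) v)]
          have e6 : |f t v * pd j (f t) w| ≤ N := by
            rw [abs_mul, abs_of_nonneg (hcl.nonneg v)]
            have := hMN j (t, w) ⟨ht, hw⟩
            simp only at this
            nlinarith [hcl.nonneg v, hcl.le_one v, abs_nonneg (pd j (f t) w)]
          exact (abs_sub _ _).trans (by linarith)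
        calc |∑ i : Fin 3, ∑ j : Fin 3, aK i j (v - w) * pd i (f t) v *
              (f t w * pd j (f t) v - f t v * pd j (f t) w)|
            ≤ ∑ i : Fin 3, ∑ j : Fin 3, |aK i j (v - w) * pd i (f t) v *
              (f t w * pd j (f t) v - f t v * pd j (f t) w)| :=
              (Finset.abs_sum_le_sum_abs _ _).trans
                (Finset.sum_le_sum fun i _ => Finset.abs_sum_le_sum_abs _ _)
          _ ≤ ∑ i : Fin 3, ∑ j : Fin 3, (1 / ‖v - w‖) * (N * (2 * N)) :=
              Finset.sum_le_sum fun i _ => Finset.sum_le_sum fun j _ => e4 i j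
          _ = 9 * (N * (2 * N)) * (1 / ‖v - w‖) := by
              simp only [Finset.sum_const, Finset.card_univ, Fintype.card_fin]
              ring
      rw [abs_mul]
      calc |θ v * θ w * (f t v + ε)⁻¹| * _
          ≤ (|K| * |K| * ε⁻¹) * (9 * (N * (2 * N)) * (1 / ‖v - w‖)) :=
            mul_le_mul e1 e3 (abs_nonneg _) (by positivity)
        _ = _ := by ring
    · have : θ w = 0 := image_eq_zero_of_notMem_tsupport hw
      unfold dcG
      simp [this, indicator_of_notMem hw]
  · have : θ v = 0 := image_eq_zero_of_notMem_tsupport hv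
    unfold dcG
    simp [this, indicator_of_notMem hv]

theorem dc_bound_int (θ : V → ℝ) (hc : HasCompactSupport θ) (C : ℝ) :
    Integrable (fun p : V × V => C * ((tsupport θ).indicator (fun _ => (1 : ℝ)) p.1 *
        (tsupport θ).indicator (fun _ => (1 : ℝ)) p.2 / ‖p.1 - p.2‖)) (volume.prod volume) := by
  have hS : IsCompact (tsupport θ) := hc
  have hi : Integrable ((tsupport θ).indicator (fun _ => (1 : ℝ))) (volume : Measure V) := by
    rw [integrable_indicator_iff hS.isClosed.measurableSet]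
    exact integrableOn_const hS.measure_lt_top.ne
  refine ((integrable_prod_inv _ _ hi hi 1 ?_).1).const_mul C
  intro v
  by_cases hv : v ∈ tsupport θ
  · simp [indicator_of_mem hv]
  · simp [indicator_of_notMem hv]

theorem dc_eq (f : ℝ → V → ℝ) (hf : Sol f) (θ : V → ℝ) (hθ : Continuous θ)
    (hc : HasCompactSupport θ) (ε : ℝ) (hε : 0 < ε) (t : ℝ) (ht : t < 0) :
    Deps θ (f t) ε = ∫ p, dcG f θ ε t p ∂(volume.prod volume) := by
  obtain ⟨C, hC⟩ := dc_bound f hf θ hθ hc ε hε t t ht
  have hi : Integrable (dcG f θ ε t) (volume.prod volume) :=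
    (dc_bound_int θ hc C).mono' (dc_meas f hf θ hθ ε t ht).aestronglyMeasurable
      (Eventually.of_forall fun p => hC t ⟨le_rfl, le_rfl⟩ p)
  rw [integral_prod _ hi]
  rfl

theorem dc_cont_t (f : ℝ → V → ℝ) (hf : Sol f) (θ : V → ℝ) (ε : ℝ) (hε : 0 < ε) (p : V × V)
    (t0 : ℝ) (ht0 : t0 < 0) : ContinuousAt (fun t => dcG f θ ε t p) t0 := by
  have h1 : ∀ v : V, ContinuousAt (fun t => f t v) t0 := fun v =>
    ((joint_f f hf).continuousAt (joint_open.mem_nhds (x := (t0, v)) ⟨ht0, mem_univ _⟩)).comp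
      (f := fun t : ℝ => (t, v)) (Continuous.prodMk_left v).continuousAt
  have h2 : ∀ (i : Fin 3) (v : V), ContinuousAt (fun t => pd i (f t) v) t0 := fun i v =>
    ((joint_pd f hf i).continuousAt (joint_open.mem_nhds (x := (t0, v)) ⟨ht0, mem_univ _⟩)).comp
      (f := fun t : ℝ => (t, v)) (Continuous.prodMk_left v).continuousAt
  unfold dcG
  refine ContinuousAt.mul ?_ ?_
  · refine continuousAt_const.mul (ContinuousAt.inv₀ ((h1 p.1).add continuousAt_const) ?_)
    have := (hf.cls t0 ht0).nonneg p.1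
    positivity
  · refine tendsto_finsetSum _ fun i _ => tendsto_finsetSum _ fun j _ => ?_
    exact (continuousAt_const.mul (h2 i p.1)).mul
      (((h1 p.2).mul (h2 j p.1)).sub ((h1 p.1).mul (h2 j p.2)))

theorem deps_cont (f : ℝ → V → ℝ) (hf : Sol f) (θ : V → ℝ) (hθ : ContDiff ℝ (⊤ : ℕ∞) θ)
    (hc : HasCompactSupport θ) (ε : ℝ) (hε : 0 < ε) :
    ContinuousOn (fun t => Deps θ (f t) ε) (Iio (0 : ℝ)) := by
  intro t0 ht0
  have ht0' : t0 < 0 := ht0
  have hb : t0 / 2 < 0 := by linarith
  obtain ⟨C, hC⟩ := dc_bound f hf θ hθ.continuous hc ε hε (t0 - 1) (t0 / 2) hb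
  have hnb : ∀ᶠ t in 𝓝 t0, t ∈ Icc (t0 - 1) (t0 / 2) :=
    Icc_mem_nhds (by linarith) (by linarith)
  have hmain : ContinuousAt (fun t => ∫ p, dcG f θ ε t p ∂(volume.prod volume)) t0 := by
    refine continuousAt_of_dominated ?_ ?_ (dc_bound_int θ hc C) ?_
    · filter_upwards [hnb] with t ht
      exact (dc_meas f hf θ hθ.continuous ε t (lt_of_le_of_lt ht.2 hb)).aestronglyMeasurable
    · filter_upwards [hnb] with t ht
      exact Eventually.of_forall fun p => hC t ht p
    · exact Eventually.of_forall fun p => dc_cont_t f hf θ ε hε p t0 ht0'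
  refine (hmain.congr ?_).continuousWithinAt
  filter_upwards [hnb] with t ht
  exact (dc_eq f hf θ hθ.continuous hc ε hε t (lt_of_le_of_lt ht.2 hb)).symm

end Pool.Agent.Landau
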