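import Pool.Agent.Landau.Defs2

/-!
# Landau, module EInt: the entropy is finite

For `0 ≤ s ≤ 1` and real `y`: `0 ≤ - s log s ≤ s y + exp (-1 - y)` (the function
`s y + s log s + exp (-1 - y)` of `s` is minimal at `s = exp (-1 - y)`, where it is `0`; or
`Real.add_one_le_exp` for the exponent `-1 - y - log s`).  Take `y = ‖v‖²`:
`|g log g| ≤ ‖v‖² g + exp (-1) exp (-‖v‖²)`, and `∫ exp (-‖v‖²) = π^(3/2) ≤ 6`
(`GaussianFourier.integral_rexp_neg_mul_sq_norm` or `integral_gaussian` in each variable), `exp (-1) ≤ 1`.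

`bet_bounds`: for `0 ≤ s ≤ 1`, `0 < ε ≤ 1`: `0 ≤ Bet ε s ≤ s` as `log (s + ε) ≥ log ε` and
`ε log (1 + s / ε) ≤ s`; `log s ≤ log (s + ε) ≤ log 2` gives `|s log (s + ε)| ≤ |s log s| + s`;
`bet ε s = s log (s + ε) + ε log (1 + s / ε) - s`, where `0 ≤ ε log (1 + s / ε) ≤ s`.
-/

set_option autoImplicit false

namespace Pool.Agent.Landau

open MeasureTheory Set Filter Topology

/-- the elementary inequality `- s log s ≤ s y + exp (-1 - y)` -/
theorem neg_mul_log_le (s y : ℝ) (h0 : 0 ≤ s) :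
    -(s * Real.log s) ≤ s * y + Real.exp (-1 - y) := by
  rcases h0.eq_or_lt with h | h
  · rw [← h]; simp; positivity
  · have h1 := Real.add_one_le_exp (-1 - y - Real.log s)
    rw [Real.exp_sub, Real.exp_log h] at h1
    have h2 := mul_le_mul_of_nonneg_left h1 h.le
    have h3 : s * (Real.exp (-1 - y) / s) = Real.exp (-1 - y) := by field_simp
    rw [h3] at h2
    nlinarith

theorem integral_gauss : ∫ v : V, Real.exp (-1 * ‖v‖ ^ 2) = Real.pi ^ ((3 : ℝ) / 2) := by
  have h := GaussianFourier.integral_rexp_neg_mul_sq_norm (V := V) (b := 1) one_pos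
  rw [h]
  simp

theorem integrable_gauss : Integrable fun v : V => Real.exp (-1 * ‖v‖ ^ 2) := by
  by_contra hc
  have h := integral_undef hc
  rw [integral_gauss] at h
  have : 0 < Real.pi ^ ((3 : ℝ) / 2) := Real.rpow_pos_of_pos Real.pi_pos _
  linarith

theorem pi_pow_le : Real.pi ^ ((3 : ℝ) / 2) ≤ 6 := by
  have h1 : Real.pi ^ ((3 : ℝ) / 2) = Real.pi * Real.sqrt Real.pi := by
    rw [Real.sqrt_eq_rpow, show (3 : ℝ) / 2 = 1 + 1 / 2 by norm_num,
      Real.rpow_add Real.pi_pos, Real.rpow_one]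
  have h2 : Real.pi < 3.15 := Real.pi_lt_d2
  have h3 : Real.sqrt Real.pi ≤ 1.8 := by
    rw [Real.sqrt_le_left (by norm_num)]
    linarith
  rw [h1]
  have h4 := Real.pi_pos
  have h5 := Real.sqrt_nonneg Real.pi
  nlinarith

theorem ent_pt (g : V → ℝ) (hg : Cls g) (v : V) :
    |g v * Real.log (g v)| ≤ ‖v‖ ^ 2 * g v + Real.exp (-1 * ‖v‖ ^ 2) := by
  have h0 := hg.nonneg v
  have h1 := hg.le_one v
  have hneg : g v * Real.log (g v) ≤ 0 :=
    mul_nonpos_of_nonneg_of_nonpos h0 (Real.log_nonpos h0 h1)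
  rw [abs_of_nonpos hneg]
  have h2 := neg_mul_log_le (g v) (‖v‖ ^ 2) h0
  have h3 : Real.exp (-1 - ‖v‖ ^ 2) ≤ Real.exp (-1 * ‖v‖ ^ 2) :=
    Real.exp_le_exp.2 (by linarith)
  nlinarith

theorem ent_int (g : V → ℝ) (hg : Cls g) :
    Integrable (fun v => g v * Real.log (g v)) ∧ ∫ v, |g v * Real.log (g v)| ≤ energy g + 6 := by
  have hI : Integrable fun v : V => ‖v‖ ^ 2 * g v + Real.exp (-1 * ‖v‖ ^ 2) :=
    hg.int_energy.add integrable_gauss
  have hm : AEStronglyMeasurable (fun v => g v * Real.log (g v)) volume :=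
    (hg.cont.measurable.mul (Real.measurable_log.comp hg.cont.measurable)).aestronglyMeasurable
  have hint : Integrable (fun v => g v * Real.log (g v)) :=
    hI.mono' hm (Eventually.of_forall fun v => by
      rw [Real.norm_eq_abs]; exact ent_pt g hg v)
  refine ⟨hint, ?_⟩
  calc ∫ v, |g v * Real.log (g v)| ≤ ∫ v : V, (‖v‖ ^ 2 * g v + Real.exp (-1 * ‖v‖ ^ 2)) :=
        integral_mono hint.abs hI (ent_pt g hg)
    _ = energy g + Real.pi ^ ((3 : ℝ) / 2) := by
        rw [integral_add hg.int_energy integrable_gauss, integral_gauss]; rfl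
    _ ≤ energy g + 6 := by linarith [pi_pow_le]

theorem ent_bounds (g : V → ℝ) (hg : Cls g) : -(energy g + 6) ≤ ent g ∧ ent g ≤ 0 := by
  obtain ⟨hi, hb⟩ := ent_int g hg
  constructor
  · have h1 : |ent g| ≤ ∫ v, |g v * Real.log (g v)| := abs_integral_le_integral_abs
    have h2 := neg_abs_le (ent g)
    linarith
  · exact integral_nonpos fun v =>
      mul_nonpos_of_nonneg_of_nonpos (hg.nonneg v) (Real.log_nonpos (hg.nonneg v) (hg.le_one v))

/-- `0 ≤ ε (log (s + ε) - log ε) ≤ s` -/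
theorem eps_log_bounds (ε s : ℝ) (hε : 0 < ε) (h0 : 0 ≤ s) :
    0 ≤ ε * (Real.log (s + ε) - Real.log ε) ∧ ε * (Real.log (s + ε) - Real.log ε) ≤ s := by
  have h1 : Real.log ε ≤ Real.log (s + ε) := Real.log_le_log hε (by linarith)
  constructor
  · exact mul_nonneg hε.le (by linarith)
  · have h2 : Real.log (s + ε) - Real.log ε = Real.log ((s + ε) / ε) :=
      (Real.log_div (by positivity) hε.ne').symm
    have h3 := Real.log_le_sub_one_of_pos (x := (s + ε) / ε) (by positivity)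
    rw [h2]
    have h4 : (s + ε) / ε - 1 = s / ε := by field_simp; ring
    rw [h4] at h3
    calc ε * Real.log ((s + ε) / ε) ≤ ε * (s / ε) := mul_le_mul_of_nonneg_left h3 hε.le
      _ = s := by field_simp

theorem bet_bounds (ε s : ℝ) (hε : 0 < ε) (hε1 : ε ≤ 1) (h0 : 0 ≤ s) (h1 : s ≤ 1) :
    0 ≤ Bet ε s ∧ Bet ε s ≤ s ∧ |s * Real.log (s + ε)| ≤ |s * Real.log s| + s ∧
      |bet ε s| ≤ |s * Real.log s| + 2 * s := by
  obtain ⟨ha, hb⟩ := eps_log_bounds ε s hε h0
  have hc : |s * Real.log (s + ε)| ≤ |s * Real.log s| + s := by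
    rcases h0.eq_or_lt with h | h
    · rw [← h]; simp
    · have h2 : Real.log s ≤ Real.log (s + ε) := Real.log_le_log h (by linarith)
      have h3 : Real.log (s + ε) ≤ 1 := by
        have := Real.log_le_sub_one_of_pos (x := s + ε) (by positivity)
        linarith
      rw [abs_le]
      have h5 : s * Real.log s ≤ s * Real.log (s + ε) := mul_le_mul_of_nonneg_left h2 h0
      have h6 : s * Real.log (s + ε) ≤ s * 1 := mul_le_mul_of_nonneg_left h3 h0
      have h7 := neg_abs_le (s * Real.log s)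
      have h8 := abs_nonneg (s * Real.log s)
      constructor <;> linarith
  refine ⟨by unfold Bet; linarith, by unfold Bet; linarith, hc, ?_⟩
  have h9 : bet ε s = s * Real.log (s + ε) + (ε * (Real.log (s + ε) - Real.log ε) - s) := by
    unfold bet; ring
  rw [h9]
  have h10 : |ε * (Real.log (s + ε) - Real.log ε) - s| ≤ s := by
    rw [abs_le]; constructor <;> linarith
  have h11 := abs_add_le (s * Real.log (s + ε)) (ε * (Real.log (s + ε) - Real.log ε) - s)
  linarith

theorem bet_hasDerivAt (ε s : ℝ) (hε : 0 < ε) (h0 : 0 ≤ s) :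
    HasDerivAt (bet ε) (Real.log (s + ε)) s ∧ HasDerivAt (Bet ε) (s / (s + ε)) s := by
  have hp : 0 < s + ε := by linarith
  have h1 : HasDerivAt (fun x : ℝ => x + ε) 1 s := (hasDerivAt_id s).add_const ε
  have h2 : HasDerivAt (fun x : ℝ => Real.log (x + ε)) (1 / (s + ε)) s := h1.log hp.ne'
  constructor
  · have h3 := ((h1.mul h2).sub (hasDerivAt_id s)).sub_const (ε * Real.log ε)
    have e : 1 * Real.log (s + ε) + (s + ε) * (1 / (s + ε)) - 1 = Real.log (s + ε) := by
      rw [mul_one_div_cancel hp.ne']; ring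
    rw [← e]
    exact h3
  · have h4 := (hasDerivAt_id s).sub ((h2.sub_const (Real.log ε)).const_mul ε)
    have e : 1 - ε * (1 / (s + ε)) = s / (s + ε) := by
      field_simp
      ring
    rw [← e]
    exact h4

end Pool.Agent.Landau
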