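import Pool.Agent.Landau.EntLoc

/-!
# Landau, module EntFinal: the entropy inequality

Let `R = 2 ^ n → ∞` in `ent_loc`.  `∫ chi R (f log f - f) → ent - mass` by dominated convergence
(`ent_int`, `Cls.int_g`), mass is conserved (`cons_global`), the error tends to `0`; this gives
`0 ≤ ent (f t1) - ent (f t2)`.  For every `t` the integrands of `DDc (chi (2 ^ n)) (f t)` increase with `n` to
the integrand of `DD (f t)` (`chi_mono`, `chi_one`), so `DD (f t) ≤ liminf DDc (chi (2 ^ n)) (f t)` (Fatou or monotone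
convergence in `(v, w)`), and Fatou in `t` (`lintegral_liminf_le'`, measurability `dd_meas`) gives the bound.
-/

set_option autoImplicit false

namespace Pool.Agent.Landau

open MeasureTheory Set Filter Topology

theorem dd_le_liminf (g : V → ℝ) (hg : Cls g) :
    DD g ≤ liminf (fun n : ℕ => DDc (chi ((2 : ℝ) ^ n)) g) atTop := by
  rw [dd_prod g hg]
  have e : (fun n : ℕ => DDc (chi ((2 : ℝ) ^ n)) g) = fun n : ℕ => ∫⁻ p : V × V,
      ENNReal.ofReal (chi ((2 : ℝ) ^ n) p.1 * chi ((2 : ℝ) ^ n) p.2 * g p.1 * g p.2 *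
        XS g p.1 p.2 / ‖p.1 - p.2‖ ^ 3) ∂(volume.prod volume) := by
    funext n
    exact ddc_prod g hg _ (chi_smooth _).continuous
  rw [e]
  have h1 := lintegral_liminf_le (μ := (volume.prod volume : Measure (V × V)))
    (u := atTop) (f := fun n : ℕ => fun p : V × V =>
      ENNReal.ofReal (chi ((2 : ℝ) ^ n) p.1 * chi ((2 : ℝ) ^ n) p.2 * g p.1 * g p.2 *
        XS g p.1 p.2 / ‖p.1 - p.2‖ ^ 3))
    (fun n => dd_integrand_meas g hg _ (chi_smooth _).continuous)
  refine le_trans (le_of_eq ?_) h1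
  refine lintegral_congr fun p => ?_
  symm
  apply Tendsto.liminf_eq
  refine tendsto_const_nhds.congr' ?_
  have hlim : Tendsto (fun n : ℕ => (2 : ℝ) ^ n) atTop atTop :=
    tendsto_pow_atTop_atTop_of_one_lt (by norm_num)
  filter_upwards [hlim.eventually_ge_atTop (max ‖p.1‖ ‖p.2‖)] with n hn
  rw [chi_one (by positivity) ((le_max_left _ _).trans hn),
    chi_one (by positivity) ((le_max_right _ _).trans hn)]
  simp

theorem entropy_ineq (f : ℝ → V → ℝ) (hf : Sol f) (t1 t2 : ℝ) (h12 : t1 ≤ t2) (h2 : t2 < 0) :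
    ent (f t2) ≤ ent (f t1) ∧
      ∫⁻ t in Icc t1 t2, DD (f t) ≤
        ENNReal.ofReal (32 * Real.pi * (ent (f t1) - ent (f t2))) := by
  obtain ⟨C, hC, hloc⟩ := ent_loc
  have ht1 : t1 < 0 := lt_of_le_of_lt h12 h2
  have c1 := hf.cls t1 ht1
  have c2 := hf.cls t2 h2
  have hmass : mass (f t2) = mass (f t1) := (cons_global f hf t1 t2 ht1 h2).1
  have hF : ∀ g : V → ℝ, Cls g →
      Tendsto (fun R : ℝ => ∫ v, chi R v * (g v * Real.log (g v) - g v)) atTop
        (𝓝 (ent g - mass g)) := by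
    intro g hg
    have h := Cons.lim (fun v => g v * Real.log (g v) - g v) ((ent_int g hg).1.sub hg.int_g)
    rw [integral_sub (ent_int g hg).1 hg.int_g] at h
    exact h
  have hpow : Tendsto (fun n : ℕ => (2 : ℝ) ^ n) atTop atTop :=
    tendsto_pow_atTop_atTop_of_one_lt (by norm_num)
  have herr : Tendsto (fun n : ℕ => C * (1 + (mass (f t1) + energy (f t1))) ^ 2 / (2 : ℝ) ^ n *
      (t2 - t1)) atTop (𝓝 0) := by
    have h := (tendsto_const_nhds (x := C * (1 + (mass (f t1) + energy (f t1))) ^ 2)).div_atTop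
      hpow
    have h' := h.mul_const (t2 - t1)
    rwa [zero_mul] at h'
  have hA : Tendsto (fun n : ℕ =>
      (∫ v, chi ((2 : ℝ) ^ n) v * (f t1 v * Real.log (f t1 v) - f t1 v)) -
        (∫ v, chi ((2 : ℝ) ^ n) v * (f t2 v * Real.log (f t2 v) - f t2 v)) +
        C * (1 + (mass (f t1) + energy (f t1))) ^ 2 / (2 : ℝ) ^ n * (t2 - t1)) atTop
      (𝓝 (ent (f t1) - ent (f t2))) := by
    have h := (((hF (f t1) c1).comp hpow).sub ((hF (f t2) c2).comp hpow)).add herr
    have e : (ent (f t1) - mass (f t1)) - (ent (f t2) - mass (f t2)) + 0 =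
        ent (f t1) - ent (f t2) := by
      rw [hmass]; ring
    rw [e] at h
    exact h
  have h1n : ∀ n : ℕ, (1 : ℝ) ≤ (2 : ℝ) ^ n := fun n => one_le_pow₀ (by norm_num)
  refine ⟨?_, ?_⟩
  · have h := ge_of_tendsto' hA (fun n => (hloc f hf t1 t2 ((2 : ℝ) ^ n) h12 h2 (h1n n)).1)
    linarith
  · calc ∫⁻ t in Icc t1 t2, DD (f t)
        ≤ ∫⁻ t in Icc t1 t2, liminf (fun n : ℕ => DDc (chi ((2 : ℝ) ^ n)) (f t)) atTop :=
          setLIntegral_mono' measurableSet_Icc
            (fun t ht => dd_le_liminf (f t) (hf.cls t (lt_of_le_of_lt ht.2 h2)))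
      _ ≤ liminf (fun n : ℕ => ∫⁻ t in Icc t1 t2, DDc (chi ((2 : ℝ) ^ n)) (f t)) atTop :=
          lintegral_liminf_le'
            (fun n => dd_meas f hf _ (chi_smooth _).continuous t1 t2 h2)
      _ ≤ liminf (fun n : ℕ => ENNReal.ofReal (32 * Real.pi *
            ((∫ v, chi ((2 : ℝ) ^ n) v * (f t1 v * Real.log (f t1 v) - f t1 v)) -
            (∫ v, chi ((2 : ℝ) ^ n) v * (f t2 v * Real.log (f t2 v) - f t2 v)) +
            C * (1 + (mass (f t1) + energy (f t1))) ^ 2 / (2 : ℝ) ^ n * (t2 - t1)))) atTop :=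
          liminf_le_liminf (Eventually.of_forall fun n =>
            (hloc f hf t1 t2 ((2 : ℝ) ^ n) h12 h2 (h1n n)).2)
      _ = ENNReal.ofReal (32 * Real.pi * (ent (f t1) - ent (f t2))) :=
          (ENNReal.tendsto_ofReal (hA.const_mul (32 * Real.pi))).liminf_eq

end Pool.Agent.Landau
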