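import Pool.Agent.Landau.Bars
import Pool.Agent.Landau.EInt

/-!
# Landau, module EntIdB: localised entropy identity, second part

`ent_id_c`: `bar_ibp_b` with `u w = (1 - θ w) * g w` and `G v = θ v * Bet ε (g v)`,
`∂_i G = ∂_i θ Bet ε (g) + θ (g / (g + ε)) ∂_i g`.

`ent_id_d`: for each `j`, `bar_ibp_a` with `u_j w = g w * pd j θ w`, first index `j`, the same `G`
(use `abar_symm`).

`ent_id_e`: multiply out the definition of `Deps`: for every `v` the inner integral is
`θ v (g v + ε)⁻¹ ∑_ij [∂_i g(v) ∂_j g(v) abar(θ g)_ij(v) - ∂_i g(v) g v abar(θ ∂_j g)_ij(v)]`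
(`kernel_int`), and the outer integrals are integrable.

`ent_id_f`: `abar_add`, `bbar_add`; `bbar (θ g) i = ∑_j abar (∂_j (θ g)) i j` (`bar_div`),
`∂_j (θ g) = θ ∂_j g + g ∂_j θ`.
-/

set_option autoImplicit false

namespace Pool.Agent.Landau

open MeasureTheory Set Filter Topology

theorem eib_bdd (u : V → ℝ) (hu : Integrable u) (C : ℝ) (hC : ∀ v, |u v| ≤ C) :
    ∃ K : ℝ, ∀ (i j : Fin 3) (v : V), |abar u i j v| ≤ K ∧ |bbar u i v| ≤ K := by
  obtain ⟨c, hc⟩ : ∃ c, c = max C 1 := ⟨_, rfl⟩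
  have hcpos : 0 < c := by rw [hc]; exact lt_of_lt_of_le one_pos (le_max_right _ _)
  have hCc : C ≤ c := by rw [hc]; exact le_max_left _ _
  have hgi : Integrable (fun v => |u v| / c) := hu.abs.div_const _
  have hg0 : ∀ v, 0 ≤ |u v| / c := fun v => div_nonneg (abs_nonneg _) hcpos.le
  have hg1 : ∀ v, |u v| / c ≤ 1 := fun v => by
    rw [div_le_one hcpos]
    exact (hC v).trans hCc
  have hle : ∀ v, |u v| ≤ c * (|u v| / c) := fun v => by
    rw [mul_div_cancel₀ _ hcpos.ne']
  refine ⟨c * (13 + ∫ w, |u w| / c), fun i j v => ⟨?_, ?_⟩⟩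
  · refine (abar_bound u _ hu hgi hg0 hg1 c hcpos.le hle i j v).trans ?_
    exact mul_le_mul_of_nonneg_left (by linarith) hcpos.le
  · exact bbar_bound u _ hu hgi hg0 hg1 c hcpos.le hle i v

theorem eib_int_a (u : V → ℝ) (hu : Integrable u) (C : ℝ) (hC : ∀ v, |u v| ≤ C) (F : V → ℝ)
    (hF : Continuous F) (hc : HasCompactSupport F) (i j : Fin 3) :
    Integrable (fun v => abar u i j v * F v) := by
  obtain ⟨K, hK⟩ := eib_bdd u hu C hC
  exact (hF.integrable_of_hasCompactSupport hc).bdd_mul (abar_meas u hu i j)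
    (Eventually.of_forall fun v => by rw [Real.norm_eq_abs]; exact (hK i j v).1)

theorem eib_int_b (u : V → ℝ) (hu : Integrable u) (C : ℝ) (hC : ∀ v, |u v| ≤ C) (F : V → ℝ)
    (hF : Continuous F) (hc : HasCompactSupport F) (i : Fin 3) :
    Integrable (fun v => bbar u i v * F v) := by
  obtain ⟨K, hK⟩ := eib_bdd u hu C hC
  exact (hF.integrable_of_hasCompactSupport hc).bdd_mul (bbar_meas u hu i)
    (Eventually.of_forall fun v => by rw [Real.norm_eq_abs]; exact (hK i i v).2)

/-- a bound for a continuous function with compact support -/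
theorem eib_cbdd (F : V → ℝ) (hF : Continuous F) (hc : HasCompactSupport F) :
    ∃ C : ℝ, 0 ≤ C ∧ ∀ v, |F v| ≤ C := by
  obtain ⟨C, hC⟩ := hF.bounded_above_of_compact_support hc
  exact ⟨C, (norm_nonneg _).trans (hC 0), fun v => by simpa using hC v⟩

section setup

variable {g : V → ℝ} (hg : Cls g) {θ : V → ℝ} (hθ : ContDiff ℝ (⊤ : ℕ∞) θ)
  (hc : HasCompactSupport θ) {ε : ℝ} (hε : 0 < ε)

include hg hε in
theorem eib_pos (v : V) : 0 < g v + ε := by
  have := hg.nonneg v
  linarith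

include hg hε in
theorem eib_inv_cont : Continuous fun v => (g v + ε)⁻¹ :=
  (hg.cont.add continuous_const).inv₀ fun v => (eib_pos hg hε v).ne'

include hg hε in
theorem eib_Bet_cont : Continuous fun v => Bet ε (g v) := by
  unfold Bet
  exact hg.cont.sub (continuous_const.mul
    (((hg.cont.add continuous_const).log fun v => (eib_pos hg hε v).ne').sub continuous_const))

include hg hθ hε in
theorem eib_G_diff : ContDiff ℝ 1 fun v => θ v * Bet ε (g v) := by
  have h1 : ContDiff ℝ 1 g := contDiff_one_of_smooth hg.smooth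
  have h2 : ContDiff ℝ 1 fun v => Real.log (g v + ε) :=
    (h1.add contDiff_const).log fun v => (eib_pos hg hε v).ne'
  unfold Bet
  exact (contDiff_one_of_smooth hθ).mul (h1.sub (contDiff_const.mul (h2.sub contDiff_const)))

include hg hθ hε in
theorem eib_G_pd (i : Fin 3) (v : V) : pd i (fun v => θ v * Bet ε (g v)) v =
    θ v * (g v + ε)⁻¹ * g v * pd i g v + pd i θ v * Bet ε (g v) := by
  have h1 : HasDerivAt (Bet ε) (g v / (g v + ε)) (g v) :=
    (bet_hasDerivAt ε (g v) hε (hg.nonneg v)).2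
  have hgd : DifferentiableAt ℝ g v := differentiable_of_smooth hg.smooth v
  have hBd : DifferentiableAt ℝ (fun x => Bet ε (g x)) v :=
    (h1.comp_hasFDerivAt v hgd.hasFDerivAt).differentiableAt
  rw [pd_mul (differentiable_of_smooth hθ v) hBd i, pd_comp hgd h1 i, div_eq_mul_inv]
  ring

include hg hθ in
theorem eib_u1 (hc : HasCompactSupport θ) :
    Integrable (fun w => (1 - θ w) * g w) ∧ ∃ C : ℝ, ∀ v, |(1 - θ v) * g v| ≤ C := by
  obtain ⟨C, hC0, hC⟩ := eib_cbdd θ hθ.continuous hc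
  have hb : ∀ v, |1 - θ v| ≤ 1 + C := fun v => by
    have h1 := hC v
    rw [abs_le] at h1 ⊢
    constructor <;> linarith [h1.1, h1.2]
  refine ⟨hg.int_g.bdd_mul ((continuous_const.sub hθ.continuous).aestronglyMeasurable)
    (Eventually.of_forall fun v => by rw [Real.norm_eq_abs]; exact hb v), 1 + C, fun v => ?_⟩
  rw [abs_mul, abs_of_nonneg (hg.nonneg v)]
  calc |1 - θ v| * g v ≤ (1 + C) * 1 :=
        mul_le_mul (hb v) (hg.le_one v) (hg.nonneg v) (by linarith)
    _ = 1 + C := mul_one _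

include hg in
theorem eib_u2 (F : V → ℝ) (hF : Continuous F) (hFc : HasCompactSupport F) :
    Integrable (fun w => g w * F w) ∧ ∃ C : ℝ, ∀ v, |g v * F v| ≤ C := by
  obtain ⟨C, hC0, hC⟩ := eib_cbdd (fun w => g w * F w) (hg.cont.mul hF) hFc.mul_left
  exact ⟨(hg.cont.mul hF).integrable_of_hasCompactSupport hFc.mul_left, C, hC⟩

end setup

theorem ent_id_c (g : V → ℝ) (hg : Cls g) (θ : V → ℝ) (hθ : ContDiff ℝ (⊤ : ℕ∞) θ)
    (hc : HasCompactSupport θ) (ε : ℝ) (hε : 0 < ε) :
    ∑ i : Fin 3, ∫ v, bbar (fun w => (1 - θ w) * g w) i v *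
        (θ v * (g v + ε)⁻¹ * g v * pd i g v) =
      (∫ v, (1 - θ v) * g v * (θ v * Bet ε (g v))) -
        ∑ i : Fin 3, ∫ v, bbar (fun w => (1 - θ w) * g w) i v * (pd i θ v * Bet ε (g v)) := by
  obtain ⟨hu, C, hC⟩ := eib_u1 hg hθ hc
  have h1 := bar_ibp_b (fun w => (1 - θ w) * g w) hu C hC (fun v => θ v * Bet ε (g v))
    (eib_G_diff hg hθ hε) hc.mul_right
  rw [← h1, ← Finset.sum_sub_distrib]
  refine Finset.sum_congr rfl fun i _ => ?_
  have hF1 : Continuous fun v => θ v * (g v + ε)⁻¹ * g v * pd i g v :=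
    ((hθ.continuous.mul (eib_inv_cont hg hε)).mul hg.cont).mul
      (continuous_pd (contDiff_one_of_smooth hg.smooth) i)
  have hF1c : HasCompactSupport fun v => θ v * (g v + ε)⁻¹ * g v * pd i g v :=
    ((hc.mul_right).mul_right).mul_right
  have hF2 : Continuous fun v => pd i θ v * Bet ε (g v) :=
    (continuous_pd (contDiff_one_of_smooth hθ) i).mul (eib_Bet_cont hg hε)
  have hF2c : HasCompactSupport fun v => pd i θ v * Bet ε (g v) := (compact_pd hc i).mul_right
  rw [← integral_sub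
    (eib_int_b _ hu C hC _ (continuous_pd (eib_G_diff hg hθ hε) i) (compact_pd hc.mul_right i) i)
    (eib_int_b _ hu C hC _ hF2 hF2c i)]
  refine integral_congr_ae (Eventually.of_forall fun v => ?_)
  simp only []
  rw [eib_G_pd hg hθ hε i v]
  ring

theorem ent_id_d (g : V → ℝ) (hg : Cls g) (θ : V → ℝ) (hθ : ContDiff ℝ (⊤ : ℕ∞) θ)
    (hc : HasCompactSupport θ) (ε : ℝ) (hε : 0 < ε) :
    ∑ i : Fin 3, ∑ j : Fin 3, ∫ v, abar (fun w => g w * pd j θ w) i j v *
        (θ v * (g v + ε)⁻¹ * g v * pd i g v) =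
      -(∑ j : Fin 3, ∫ v, bbar (fun w => g w * pd j θ w) j v * (θ v * Bet ε (g v))) -
        ∑ i : Fin 3, ∑ j : Fin 3,
          ∫ v, abar (fun w => g w * pd j θ w) i j v * (pd i θ v * Bet ε (g v)) := by
  have hθ1 := contDiff_one_of_smooth hθ
  have h1 : ∀ j : Fin 3, ∑ i : Fin 3, ∫ v, abar (fun w => g w * pd j θ w) i j v *
        (θ v * (g v + ε)⁻¹ * g v * pd i g v) =
      -(∫ v, bbar (fun w => g w * pd j θ w) j v * (θ v * Bet ε (g v))) -
        ∑ i : Fin 3, ∫ v, abar (fun w => g w * pd j θ w) i j v * (pd i θ v * Bet ε (g v)) := by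
    intro j
    obtain ⟨hu, C, hC⟩ := eib_u2 hg (pd j θ) (continuous_pd hθ1 j) (compact_pd hc j)
    have h2 := bar_ibp_a (fun w => g w * pd j θ w) hu C hC (fun v => θ v * Bet ε (g v))
      (eib_G_diff hg hθ hε) hc.mul_right j
    rw [← h2, ← Finset.sum_sub_distrib]
    refine Finset.sum_congr rfl fun i _ => ?_
    have hF2 : Continuous fun v => pd i θ v * Bet ε (g v) :=
      (continuous_pd hθ1 i).mul (eib_Bet_cont hg hε)
    have hF2c : HasCompactSupport fun v => pd i θ v * Bet ε (g v) := (compact_pd hc i).mul_right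
    rw [← integral_sub
      (eib_int_a _ hu C hC _ (continuous_pd (eib_G_diff hg hθ hε) i)
        (compact_pd hc.mul_right i) j i)
      (eib_int_a _ hu C hC _ hF2 hF2c i j)]
    refine integral_congr_ae (Eventually.of_forall fun v => ?_)
    simp only []
    rw [eib_G_pd hg hθ hε i v, abar_symm _ j i v]
    ring
  rw [Finset.sum_comm, Finset.sum_congr rfl fun j _ => h1 j, Finset.sum_sub_distrib,
    Finset.sum_neg_distrib, Finset.sum_comm]

theorem ent_id_e (g : V → ℝ) (hg : Cls g) (θ : V → ℝ) (hθ : ContDiff ℝ (⊤ : ℕ∞) θ)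
    (hc : HasCompactSupport θ) (ε : ℝ) (hε : 0 < ε) :
    -(∑ i : Fin 3, ∑ j : Fin 3, ∫ v, abar (fun w => θ w * g w) i j v *
        (θ v * (g v + ε)⁻¹ * pd i g v * pd j g v)) +
      (∑ i : Fin 3, ∑ j : Fin 3, ∫ v, abar (fun w => θ w * pd j g w) i j v *
        (θ v * (g v + ε)⁻¹ * g v * pd i g v)) = - Deps θ g ε := by
  have hg1 := contDiff_one_of_smooth hg.smooth
  have hpd := fun i => continuous_pd hg1 i
  have hu : ∀ F : V → ℝ, Continuous F →
      Integrable (fun w => θ w * F w) ∧ ∃ C : ℝ, ∀ v, |θ v * F v| ≤ C := by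
    intro F hF
    obtain ⟨C, hC0, hC⟩ := eib_cbdd (fun w => θ w * F w) (hθ.continuous.mul hF) hc.mul_right
    exact ⟨(hθ.continuous.mul hF).integrable_of_hasCompactSupport hc.mul_right, C, hC⟩
  have hF1 : ∀ i j, Continuous fun v => θ v * (g v + ε)⁻¹ * pd i g v * pd j g v := fun i j =>
    ((hθ.continuous.mul (eib_inv_cont hg hε)).mul (hpd i)).mul (hpd j)
  have hF1c : ∀ i j, HasCompactSupport fun v => θ v * (g v + ε)⁻¹ * pd i g v * pd j g v :=
    fun i j => ((hc.mul_right).mul_right).mul_right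
  have hF2 : ∀ i, Continuous fun v => θ v * (g v + ε)⁻¹ * g v * pd i g v := fun i =>
    ((hθ.continuous.mul (eib_inv_cont hg hε)).mul hg.cont).mul (hpd i)
  have hF2c : ∀ i, HasCompactSupport fun v => θ v * (g v + ε)⁻¹ * g v * pd i g v := fun i =>
    ((hc.mul_right).mul_right).mul_right
  have hI1 : ∀ i j, Integrable (fun v => abar (fun w => θ w * g w) i j v *
      (θ v * (g v + ε)⁻¹ * pd i g v * pd j g v)) := by
    intro i j
    obtain ⟨h1, C, hC⟩ := hu g hg.cont
    exact eib_int_a _ h1 C hC _ (hF1 i j) (hF1c i j) i j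
  have hI2 : ∀ i j, Integrable (fun v => abar (fun w => θ w * pd j g w) i j v *
      (θ v * (g v + ε)⁻¹ * g v * pd i g v)) := by
    intro i j
    obtain ⟨h1, C, hC⟩ := hu (pd j g) (hpd j)
    exact eib_int_a _ h1 C hC _ (hF2 i) (hF2c i) i j
  have hin : ∀ v, ∫ w, θ v * θ w * (g v + ε)⁻¹ *
      ∑ i : Fin 3, ∑ j : Fin 3, aK i j (v - w) * pd i g v * (g w * pd j g v - g v * pd j g w) =
      ∑ i : Fin 3, ∑ j : Fin 3, (abar (fun w => θ w * g w) i j v *
        (θ v * (g v + ε)⁻¹ * pd i g v * pd j g v) - abar (fun w => θ w * pd j g w) i j v *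
        (θ v * (g v + ε)⁻¹ * g v * pd i g v)) := by
    intro v
    have k1 : ∀ i j, Integrable (fun w => aK i j (v - w) * (θ w * g w)) := by
      intro i j
      obtain ⟨h1, C, hC⟩ := hu g hg.cont
      exact (kernel_int _ h1 C hC i j v).1
    have k2 : ∀ i j, Integrable (fun w => aK i j (v - w) * (θ w * pd j g w)) := by
      intro i j
      obtain ⟨h1, C, hC⟩ := hu (pd j g) (hpd j)
      exact (kernel_int _ h1 C hC i j v).1
    have k3 : ∀ i j, ∫ w, ((θ v * (g v + ε)⁻¹ * pd i g v * pd j g v) *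
          (aK i j (v - w) * (θ w * g w)) -
          (θ v * (g v + ε)⁻¹ * g v * pd i g v) * (aK i j (v - w) * (θ w * pd j g w))) =
        abar (fun w => θ w * g w) i j v * (θ v * (g v + ε)⁻¹ * pd i g v * pd j g v) -
          abar (fun w => θ w * pd j g w) i j v * (θ v * (g v + ε)⁻¹ * g v * pd i g v) := by
      intro i j
      rw [integral_sub ((k1 i j).const_mul _) ((k2 i j).const_mul _), integral_const_mul,
        integral_const_mul]
      unfold abar
      ring
    have k4 : ∀ i j, Integrable (fun w => (θ v * (g v + ε)⁻¹ * pd i g v * pd j g v) *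
          (aK i j (v - w) * (θ w * g w)) -
          (θ v * (g v + ε)⁻¹ * g v * pd i g v) * (aK i j (v - w) * (θ w * pd j g w))) :=
      fun i j => ((k1 i j).const_mul _).sub ((k2 i j).const_mul _)
    have k5 : ∀ w, θ v * θ w * (g v + ε)⁻¹ *
        ∑ i : Fin 3, ∑ j : Fin 3, aK i j (v - w) * pd i g v * (g w * pd j g v - g v * pd j g w) =
        ∑ i : Fin 3, ∑ j : Fin 3, ((θ v * (g v + ε)⁻¹ * pd i g v * pd j g v) *
          (aK i j (v - w) * (θ w * g w)) -
          (θ v * (g v + ε)⁻¹ * g v * pd i g v) * (aK i j (v - w) * (θ w * pd j g w))) := by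
      intro w
      rw [Finset.mul_sum]
      refine Finset.sum_congr rfl fun i _ => ?_
      rw [Finset.mul_sum]
      refine Finset.sum_congr rfl fun j _ => ?_
      ring
    rw [integral_congr_ae (Eventually.of_forall k5),
      integral_finsetSum _ fun i _ => integrable_finsetSum _ fun j _ => k4 i j]
    refine Finset.sum_congr rfl fun i _ => ?_
    rw [integral_finsetSum _ fun j _ => k4 i j]
    exact Finset.sum_congr rfl fun j _ => k3 i j
  have hI3 : ∀ i j, Integrable (fun v => abar (fun w => θ w * g w) i j v *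
        (θ v * (g v + ε)⁻¹ * pd i g v * pd j g v) - abar (fun w => θ w * pd j g w) i j v *
        (θ v * (g v + ε)⁻¹ * g v * pd i g v)) := fun i j => (hI1 i j).sub (hI2 i j)
  unfold Deps
  rw [integral_congr_ae (Eventually.of_forall hin),
    integral_finsetSum _ fun i _ => integrable_finsetSum _ fun j _ => hI3 i j]
  have h9 : ∀ i : Fin 3, ∫ v, ∑ j : Fin 3, (abar (fun w => θ w * g w) i j v *
        (θ v * (g v + ε)⁻¹ * pd i g v * pd j g v) - abar (fun w => θ w * pd j g w) i j v *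
        (θ v * (g v + ε)⁻¹ * g v * pd i g v)) =
      (∑ j : Fin 3, ∫ v, abar (fun w => θ w * g w) i j v *
        (θ v * (g v + ε)⁻¹ * pd i g v * pd j g v)) -
      ∑ j : Fin 3, ∫ v, abar (fun w => θ w * pd j g w) i j v *
        (θ v * (g v + ε)⁻¹ * g v * pd i g v) := by
    intro i
    rw [integral_finsetSum _ fun j _ => hI3 i j, ← Finset.sum_sub_distrib]
    exact Finset.sum_congr rfl fun j _ => integral_sub (hI1 i j) (hI2 i j)
  rw [Finset.sum_congr rfl fun i _ => h9 i, Finset.sum_sub_distrib]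
  ring

theorem ent_id_f (g : V → ℝ) (hg : Cls g) (θ : V → ℝ) (hθ : ContDiff ℝ (⊤ : ℕ∞) θ)
    (hc : HasCompactSupport θ) (i j : Fin 3) (v : V) :
    abar g i j v = abar (fun w => θ w * g w) i j v + abar (fun w => (1 - θ w) * g w) i j v ∧
      bbar g i v = (∑ j : Fin 3, abar (fun w => θ w * pd j g w) i j v) +
        (∑ j : Fin 3, abar (fun w => g w * pd j θ w) i j v) +
        bbar (fun w => (1 - θ w) * g w) i v := by
  have hg1 := contDiff_one_of_smooth hg.smooth
  have hθ1 := contDiff_one_of_smooth hθ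
  have hu : ∀ F : V → ℝ, Continuous F →
      Integrable (fun w => θ w * F w) ∧ ∃ C : ℝ, ∀ v, |θ v * F v| ≤ C := by
    intro F hF
    obtain ⟨C, hC0, hC⟩ := eib_cbdd (fun w => θ w * F w) (hθ.continuous.mul hF) hc.mul_right
    exact ⟨(hθ.continuous.mul hF).integrable_of_hasCompactSupport hc.mul_right, C, hC⟩
  obtain ⟨h1, C1, hC1⟩ := hu g hg.cont
  obtain ⟨h2, C2, hC2⟩ := eib_u1 hg hθ hc
  have hC1' : ∀ v, |θ v * g v| ≤ max C1 C2 := fun v => (hC1 v).trans (le_max_left _ _)
  have hC2' : ∀ v, |(1 - θ v) * g v| ≤ max C1 C2 := fun v => (hC2 v).trans (le_max_right _ _)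
  have hsplit : g = fun w => θ w * g w + (1 - θ w) * g w := by
    funext w
    ring
  constructor
  · rw [← abar_add _ _ h1 h2 _ hC1' hC2' i j v, ← hsplit]
  · have e1 : bbar g i v = bbar (fun w => θ w * g w) i v +
        bbar (fun w => (1 - θ w) * g w) i v := by
      rw [← bbar_add _ _ h1 h2 _ hC1' hC2' i v, ← hsplit]
    have e2 := bar_div (fun w => θ w * g w) (hθ1.mul hg1) hc.mul_right i v
    have e3 : ∀ k : Fin 3, abar (pd k fun w => θ w * g w) i k v =
        abar (fun w => θ w * pd k g w) i k v + abar (fun w => g w * pd k θ w) i k v := by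
      intro k
      obtain ⟨h3, C3, hC3⟩ := hu (pd k g) (continuous_pd hg1 k)
      obtain ⟨h4, C4, hC4⟩ := eib_u2 hg (pd k θ) (continuous_pd hθ1 k) (compact_pd hc k)
      rw [← abar_add _ _ h3 h4 (max C3 C4) (fun v => (hC3 v).trans (le_max_left _ _))
        (fun v => (hC4 v).trans (le_max_right _ _)) i k v]
      congr 1
      funext w
      rw [pd_mul (differentiable_of_smooth hθ w) (differentiable_of_smooth hg.smooth w) k]
      ring
    rw [e1, ← e2, Finset.sum_congr rfl fun k _ => e3 k, Finset.sum_add_distrib]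

end Pool.Agent.Landau
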