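import Pool.Agent.Landau.EntIdA
import Pool.Agent.Landau.EntIdB

/-!
# Landau, module EntId: the localised entropy identity

Insert `ent_id_f` in the first two sums of `ent_id_a`: the first becomes the sum of the first part of
`ent_id_e` and `- NegE`, the second becomes the sum of the second part of `ent_id_e`, the left hand
sides of `ent_id_d` and `ent_id_c`.  Then use `ent_id_b`, `ent_id_c`, `ent_id_d`, `ent_id_e` and collect the terms
of `RemE` (`bet` and `g log (g + ε)` together).  All integrals exist (bounded measurable times continuous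
with compact support).
-/

set_option autoImplicit false

namespace Pool.Agent.Landau

open MeasureTheory Set Filter Topology

private theorem int_abar (u : V → ℝ) (hu : Integrable u) (F : V → ℝ) (hF : Continuous F)
    (hc : HasCompactSupport F) (i j : Fin 3) : Integrable (fun v => abar u i j v * F v) := by
  refine (bars_int_a u hu F hF hc i j).integral_prod_left.congr (Eventually.of_forall fun v => ?_)
  show ∫ w, aK i j (v - w) * u w * F v = abar u i j v * F v
  rw [integral_mul_const]
  rfl

private theorem int_bbar (u : V → ℝ) (hu : Integrable u) (F : V → ℝ) (hF : Continuous F)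
    (hc : HasCompactSupport F) (i : Fin 3) : Integrable (fun v => bbar u i v * F v) := by
  refine (bars_int_b u hu F hF hc i).integral_prod_left.congr (Eventually.of_forall fun v => ?_)
  show ∫ w, bK i (v - w) * u w * F v = bbar u i v * F v
  rw [integral_mul_const]
  rfl

theorem ent_identity (g : V → ℝ) (hg : Cls g) (θ : V → ℝ) (hθ : ContDiff ℝ (⊤ : ℕ∞) θ)
    (hc : HasCompactSupport θ) (ε : ℝ) (hε : 0 < ε) :
    ∫ v, θ v * (Real.log (g v + ε) * QL g v) = - Deps θ g ε - NegE θ g ε + RemE θ g ε := by
  have hgc : Continuous g := hg.cont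
  have hθc : Continuous θ := hθ.continuous
  have hpg : ∀ i, Continuous (pd i g) := fun i => continuous_pd (contDiff_one_of_smooth hg.smooth) i
  have hpθ : ∀ i, Continuous (pd i θ) := fun i => continuous_pd (contDiff_one_of_smooth hθ) i
  have hpos : ∀ v, g v + ε ≠ 0 := fun v => by have := hg.nonneg v; positivity
  have hinv : Continuous fun v => (g v + ε)⁻¹ := (hgc.add continuous_const).inv₀ hpos
  have hlog : Continuous fun v => Real.log (g v + ε) := (hgc.add continuous_const).log hpos
  have hbet : Continuous fun v => bet ε (g v) := by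
    unfold bet
    exact (((hgc.add continuous_const).mul hlog).sub hgc).sub continuous_const
  -- integrability of the densities
  have u1 : Integrable (fun w => θ w * g w) :=
    (hθc.mul hgc).integrable_of_hasCompactSupport hc.mul_right
  have u2 : Integrable (fun w => (1 - θ w) * g w) := by
    refine (hg.int_g.sub u1).congr (Eventually.of_forall fun w => ?_)
    show g w - θ w * g w = (1 - θ w) * g w
    ring
  have u3 : ∀ j, Integrable (fun w => θ w * pd j g w) := fun j =>
    (hθc.mul (hpg j)).integrable_of_hasCompactSupport hc.mul_right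
  have u4 : ∀ j, Integrable (fun w => g w * pd j θ w) := fun j =>
    (hgc.mul (hpθ j)).integrable_of_hasCompactSupport (compact_pd hc j).mul_left
  -- the test functions
  have f1 : ∀ i j, Continuous fun v => θ v * (g v + ε)⁻¹ * pd i g v * pd j g v := fun i j =>
    ((hθc.mul hinv).mul (hpg i)).mul (hpg j)
  have c1 : ∀ i j, HasCompactSupport fun v => θ v * (g v + ε)⁻¹ * pd i g v * pd j g v :=
    fun i j => hc.mul_right.mul_right.mul_right
  have f2 : ∀ i, Continuous fun v => θ v * (g v + ε)⁻¹ * g v * pd i g v := fun i =>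
    ((hθc.mul hinv).mul hgc).mul (hpg i)
  have c2 : ∀ i, HasCompactSupport fun v => θ v * (g v + ε)⁻¹ * g v * pd i g v :=
    fun i => hc.mul_right.mul_right.mul_right
  have f3 : ∀ i, Continuous fun v => pd i θ v * bet ε (g v) := fun i => (hpθ i).mul hbet
  have c3 : ∀ i, HasCompactSupport fun v => pd i θ v * bet ε (g v) := fun i =>
    (compact_pd hc i).mul_right
  have f4 : ∀ i, Continuous fun v => pd i θ v * (g v * Real.log (g v + ε)) := fun i =>
    (hpθ i).mul (hgc.mul hlog)
  have c4 : ∀ i, HasCompactSupport fun v => pd i θ v * (g v * Real.log (g v + ε)) := fun i =>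
    (compact_pd hc i).mul_right
  -- first sum
  have e1 : (∑ i : Fin 3, ∑ j : Fin 3,
      ∫ v, abar g i j v * (θ v * (g v + ε)⁻¹ * pd i g v * pd j g v)) =
      (∑ i : Fin 3, ∑ j : Fin 3, ∫ v, abar (fun w => θ w * g w) i j v *
        (θ v * (g v + ε)⁻¹ * pd i g v * pd j g v)) + NegE θ g ε := by
    unfold NegE
    rw [← Finset.sum_add_distrib]
    refine Finset.sum_congr rfl fun i _ => ?_
    rw [← Finset.sum_add_distrib]
    refine Finset.sum_congr rfl fun j _ => ?_
    rw [← integral_add (int_abar _ u1 _ (f1 i j) (c1 i j) i j)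
      (int_abar _ u2 _ (f1 i j) (c1 i j) i j)]
    refine integral_congr_ae (Eventually.of_forall fun v => ?_)
    simp only []
    rw [(ent_id_f g hg θ hθ hc i j v).1]
    ring
  -- second sum
  have e2 : (∑ i : Fin 3, ∫ v, bbar g i v * (θ v * (g v + ε)⁻¹ * g v * pd i g v)) =
      (∑ i : Fin 3, ∑ j : Fin 3, ∫ v, abar (fun w => θ w * pd j g w) i j v *
        (θ v * (g v + ε)⁻¹ * g v * pd i g v)) +
      (∑ i : Fin 3, ∑ j : Fin 3, ∫ v, abar (fun w => g w * pd j θ w) i j v *
        (θ v * (g v + ε)⁻¹ * g v * pd i g v)) +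
      ∑ i : Fin 3, ∫ v, bbar (fun w => (1 - θ w) * g w) i v *
        (θ v * (g v + ε)⁻¹ * g v * pd i g v) := by
    rw [← Finset.sum_add_distrib, ← Finset.sum_add_distrib]
    refine Finset.sum_congr rfl fun i _ => ?_
    have i3 : ∀ j ∈ (Finset.univ : Finset (Fin 3)),
        Integrable (fun v => abar (fun w => θ w * pd j g w) i j v *
          (θ v * (g v + ε)⁻¹ * g v * pd i g v)) := fun j _ =>
      int_abar _ (u3 j) _ (f2 i) (c2 i) i j
    have i4 : ∀ j ∈ (Finset.univ : Finset (Fin 3)),
        Integrable (fun v => abar (fun w => g w * pd j θ w) i j v *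
          (θ v * (g v + ε)⁻¹ * g v * pd i g v)) := fun j _ =>
      int_abar _ (u4 j) _ (f2 i) (c2 i) i j
    have i34 : Integrable (fun v => (∑ j : Fin 3, abar (fun w => θ w * pd j g w) i j v *
          (θ v * (g v + ε)⁻¹ * g v * pd i g v)) +
          ∑ j : Fin 3, abar (fun w => g w * pd j θ w) i j v *
          (θ v * (g v + ε)⁻¹ * g v * pd i g v)) :=
      (integrable_finsetSum _ i3).add (integrable_finsetSum _ i4)
    rw [← integral_finsetSum _ i3, ← integral_finsetSum _ i4,
      ← integral_add (integrable_finsetSum _ i3) (integrable_finsetSum _ i4),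
      ← integral_add i34 (int_bbar _ u2 _ (f2 i) (c2 i) i)]
    refine integral_congr_ae (Eventually.of_forall fun v => ?_)
    simp only []
    rw [(ent_id_f g hg θ hθ hc i i v).2, add_mul, add_mul, Finset.sum_mul, Finset.sum_mul]
  -- bet and g log
  have e3 : (∑ i : Fin 3, ∫ v, bbar g i v *
      (pd i θ v * (bet ε (g v) + g v * Real.log (g v + ε)))) =
      (∑ i : Fin 3, ∫ v, bbar g i v * (pd i θ v * bet ε (g v))) +
      ∑ i : Fin 3, ∫ v, bbar g i v * (pd i θ v * (g v * Real.log (g v + ε))) := by
    rw [← Finset.sum_add_distrib]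
    refine Finset.sum_congr rfl fun i _ => ?_
    rw [← integral_add (int_bbar _ hg.int_g _ (f3 i) (c3 i) i)
      (int_bbar _ hg.int_g _ (f4 i) (c4 i) i)]
    refine integral_congr_ae (Eventually.of_forall fun v => ?_)
    simp only []
    ring
  have ha := ent_id_a g hg θ hθ hc ε hε
  have hb := ent_id_b g hg θ hθ hc ε hε
  have hcc := ent_id_c g hg θ hθ hc ε hε
  have hd := ent_id_d g hg θ hθ hc ε hε
  have he := ent_id_e g hg θ hθ hc ε hε
  unfold RemE
  rw [ha, e1, e2, e3]
  linarith

end Pool.Agent.Landau
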