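import Pool.Agent.Landau.Weak0
import Pool.Agent.Landau.EInt

/-!
# Landau, module EntIdA: localised entropy identity, first part

`ent_id_a`: `QL_weak` with `ζ v = θ v * log (g v + ε)`,
`∂_i ζ = ∂_i θ log (g + ε) + θ (g + ε)⁻¹ ∂_i g`; split the integrals (all integrands have the form
(bounded measurable) times (continuous with compact support)).

`ent_id_b`: `bar_ibp_a` for each `i` with `G v = pd i θ v * bet ε (g v)`,
`∂_j G = ∂_j ∂_i θ bet ε (g) + ∂_i θ log (g + ε) ∂_j g` (`bet_hasDerivAt`, `pd_comp`, `pd_mul`).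
-/

set_option autoImplicit false

namespace Pool.Agent.Landau

open MeasureTheory Set Filter Topology

theorem entA_int_abar (g : V → ℝ) (hg : Cls g) (F : V → ℝ) (hF : Continuous F)
    (hc : HasCompactSupport F) (i j : Fin 3) : Integrable (fun v => abar g i j v * F v) := by
  refine (hF.integrable_of_hasCompactSupport hc).bdd_mul (abar_meas g hg.int_g i j)
    (c := 1 * (7 + ∫ w, g w)) (Eventually.of_forall fun v => ?_)
  rw [Real.norm_eq_abs]
  exact abar_bound g g hg.int_g hg.int_g hg.nonneg hg.le_one 1 zero_le_one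
    (fun w => by rw [abs_of_nonneg (hg.nonneg w), one_mul]) i j v

theorem entA_int_bbar (g : V → ℝ) (hg : Cls g) (F : V → ℝ) (hF : Continuous F)
    (hc : HasCompactSupport F) (i : Fin 3) : Integrable (fun v => bbar g i v * F v) := by
  refine (hF.integrable_of_hasCompactSupport hc).bdd_mul (bbar_meas g hg.int_g i)
    (c := 1 * (13 + ∫ w, g w)) (Eventually.of_forall fun v => ?_)
  rw [Real.norm_eq_abs]
  exact bbar_bound g g hg.int_g hg.int_g hg.nonneg hg.le_one 1 zero_le_one
    (fun w => by rw [abs_of_nonneg (hg.nonneg w), one_mul]) i v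

theorem entA_pos (g : V → ℝ) (hg : Cls g) (ε : ℝ) (hε : 0 < ε) (v : V) : 0 < g v + ε := by
  have := hg.nonneg v
  linarith

theorem entA_log_smooth (g : V → ℝ) (hg : Cls g) (ε : ℝ) (hε : 0 < ε) :
    ContDiff ℝ 1 (fun v => Real.log (g v + ε)) :=
  ((contDiff_one_of_smooth hg.smooth).add contDiff_const).log
    fun v => (entA_pos g hg ε hε v).ne'

theorem entA_pd_log (g : V → ℝ) (hg : Cls g) (ε : ℝ) (hε : 0 < ε) (i : Fin 3) (v : V) :
    pd i (fun v => Real.log (g v + ε)) v = (g v + ε)⁻¹ * pd i g v := by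
  have h1 : HasDerivAt (fun s : ℝ => Real.log (s + ε)) ((g v + ε)⁻¹) (g v) := by
    have h2 := ((hasDerivAt_id (g v)).add_const ε).log (entA_pos g hg ε hε v).ne'
    simpa using h2
  exact pd_comp (differentiable_of_smooth hg.smooth v) h1 i

theorem ent_id_a (g : V → ℝ) (hg : Cls g) (θ : V → ℝ) (hθ : ContDiff ℝ (⊤ : ℕ∞) θ)
    (hc : HasCompactSupport θ) (ε : ℝ) (hε : 0 < ε) :
    ∫ v, θ v * (Real.log (g v + ε) * QL g v) =
      -(∑ i : Fin 3, ∑ j : Fin 3, ∫ v, abar g i j v * (θ v * (g v + ε)⁻¹ * pd i g v * pd j g v))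
      + (∑ i : Fin 3, ∫ v, bbar g i v * (θ v * (g v + ε)⁻¹ * g v * pd i g v))
      - (∑ i : Fin 3, ∑ j : Fin 3,
          ∫ v, abar g i j v * (pd i θ v * Real.log (g v + ε) * pd j g v))
      + ∑ i : Fin 3, ∫ v, bbar g i v * (pd i θ v * (g v * Real.log (g v + ε))) := by
  have hlog := entA_log_smooth g hg ε hε
  have hζ : ContDiff ℝ 1 (fun v => θ v * Real.log (g v + ε)) :=
    (contDiff_one_of_smooth hθ).mul hlog
  have hcζ : HasCompactSupport (fun v => θ v * Real.log (g v + ε)) := hc.mul_right
  have hw := QL_weak g hg _ hζ hcζ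
  have hpd : ∀ i v, pd i (fun v => θ v * Real.log (g v + ε)) v =
      θ v * ((g v + ε)⁻¹ * pd i g v) + pd i θ v * Real.log (g v + ε) := by
    intro i v
    rw [pd_mul (differentiable_of_smooth hθ v) (hlog.differentiable (by norm_num) v),
      entA_pd_log g hg ε hε]
  have hg1 : ∀ i, Continuous (pd i g) := fun i => continuous_pd (contDiff_one_of_smooth hg.smooth) i
  have hθ1 : ∀ i, Continuous (pd i θ) := fun i => continuous_pd (contDiff_one_of_smooth hθ) i
  have hinv : Continuous (fun v => (g v + ε)⁻¹) :=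
    (hg.cont.add continuous_const).inv₀ fun v => (entA_pos g hg ε hε v).ne'
  have hA : ∀ i j, ∫ v, abar g i j v * (pd i (fun v => θ v * Real.log (g v + ε)) v * pd j g v) =
      (∫ v, abar g i j v * (θ v * (g v + ε)⁻¹ * pd i g v * pd j g v)) +
        ∫ v, abar g i j v * (pd i θ v * Real.log (g v + ε) * pd j g v) := by
    intro i j
    rw [← integral_add
      (entA_int_abar g hg (fun v => θ v * (g v + ε)⁻¹ * pd i g v * pd j g v)
        (((hθ.continuous.mul hinv).mul (hg1 i)).mul (hg1 j))
        (((hc.mul_right).mul_right).mul_right) i j)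
      (entA_int_abar g hg (fun v => pd i θ v * Real.log (g v + ε) * pd j g v)
        (((hθ1 i).mul hlog.continuous).mul (hg1 j))
        (((compact_pd hc i).mul_right).mul_right) i j)]
    refine integral_congr_ae (Eventually.of_forall fun v => ?_)
    simp only [hpd]
    ring
  have hB : ∀ i, ∫ v, bbar g i v * (g v * pd i (fun v => θ v * Real.log (g v + ε)) v) =
      (∫ v, bbar g i v * (θ v * (g v + ε)⁻¹ * g v * pd i g v)) +
        ∫ v, bbar g i v * (pd i θ v * (g v * Real.log (g v + ε))) := by
    intro i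
    rw [← integral_add
      (entA_int_bbar g hg (fun v => θ v * (g v + ε)⁻¹ * g v * pd i g v)
        (((hθ.continuous.mul hinv).mul hg.cont).mul (hg1 i))
        (((hc.mul_right).mul_right).mul_right) i)
      (entA_int_bbar g hg (fun v => pd i θ v * (g v * Real.log (g v + ε)))
        ((hθ1 i).mul (hg.cont.mul hlog.continuous))
        ((compact_pd hc i).mul_right) i)]
    refine integral_congr_ae (Eventually.of_forall fun v => ?_)
    simp only [hpd]
    ring
  simp only [hA, hB, Finset.sum_add_distrib] at hw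
  have hl : ∫ v, θ v * (Real.log (g v + ε) * QL g v) =
      ∫ v, θ v * Real.log (g v + ε) * QL g v := by
    simp only [mul_assoc]
  rw [hl, hw]
  ring

theorem ent_id_b (g : V → ℝ) (hg : Cls g) (θ : V → ℝ) (hθ : ContDiff ℝ (⊤ : ℕ∞) θ)
    (hc : HasCompactSupport θ) (ε : ℝ) (hε : 0 < ε) :
    -(∑ i : Fin 3, ∑ j : Fin 3,
        ∫ v, abar g i j v * (pd i θ v * Real.log (g v + ε) * pd j g v)) =
      (∑ i : Fin 3, ∫ v, bbar g i v * (pd i θ v * bet ε (g v))) +
        ∑ i : Fin 3, ∑ j : Fin 3, ∫ v, abar g i j v * (pd j (pd i θ) v * bet ε (g v)) := by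
  have hlog := entA_log_smooth g hg ε hε
  have hg1 : ∀ i, Continuous (pd i g) := fun i => continuous_pd (contDiff_one_of_smooth hg.smooth) i
  have hbet : ContDiff ℝ 1 (fun v => bet ε (g v)) := by
    unfold bet
    have h1 := contDiff_one_of_smooth hg.smooth
    exact ((((h1.add contDiff_const).mul hlog).sub h1).sub contDiff_const)
  have hθi : ∀ i, ContDiff ℝ 1 (pd i θ) := fun i => contDiff_one_of_smooth (smooth_pd hθ i)
  have key : ∀ i, -(∑ j : Fin 3, ∫ v, abar g i j v * (pd i θ v * Real.log (g v + ε) * pd j g v)) =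
      (∫ v, bbar g i v * (pd i θ v * bet ε (g v))) +
        ∑ j : Fin 3, ∫ v, abar g i j v * (pd j (pd i θ) v * bet ε (g v)) := by
    intro i
    have h1 := bar_ibp_a g hg.int_g 1 (fun v => by
      rw [abs_of_nonneg (hg.nonneg v)]
      exact hg.le_one v) (fun v => pd i θ v * bet ε (g v)) ((hθi i).mul hbet)
      ((compact_pd hc i).mul_right) i
    have hpd : ∀ j v, pd j (fun v => pd i θ v * bet ε (g v)) v =
        pd i θ v * (Real.log (g v + ε) * pd j g v) + pd j (pd i θ) v * bet ε (g v) := by
      intro j v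
      rw [pd_mul ((hθi i).differentiable (by norm_num) v) (hbet.differentiable (by norm_num) v),
        pd_comp (differentiable_of_smooth hg.smooth v)
          (bet_hasDerivAt ε (g v) hε (hg.nonneg v)).1 j]
    have hA : ∀ j, ∫ v, abar g i j v * pd j (fun v => pd i θ v * bet ε (g v)) v =
        (∫ v, abar g i j v * (pd i θ v * Real.log (g v + ε) * pd j g v)) +
          ∫ v, abar g i j v * (pd j (pd i θ) v * bet ε (g v)) := by
      intro j
      rw [← integral_add
        (entA_int_abar g hg (fun v => pd i θ v * Real.log (g v + ε) * pd j g v)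
          (((hθi i).continuous.mul hlog.continuous).mul (hg1 j))
          (((compact_pd hc i).mul_right).mul_right) i j)
        (entA_int_abar g hg (fun v => pd j (pd i θ) v * bet ε (g v))
          ((continuous_pd (hθi i) j).mul hbet.continuous)
          ((compact_pd (compact_pd hc i) j).mul_right) i j)]
      refine integral_congr_ae (Eventually.of_forall fun v => ?_)
      simp only [hpd]
      ring
    simp only [hA, Finset.sum_add_distrib] at h1
    linarith
  have h2 : -(∑ i : Fin 3, ∑ j : Fin 3,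
      ∫ v, abar g i j v * (pd i θ v * Real.log (g v + ε) * pd j g v)) =
      ∑ i : Fin 3, -(∑ j : Fin 3,
        ∫ v, abar g i j v * (pd i θ v * Real.log (g v + ε) * pd j g v)) := by
    rw [Finset.sum_neg_distrib]
  rw [h2, ← Finset.sum_add_distrib]
  exact Finset.sum_congr rfl fun i _ => key i

end Pool.Agent.Landau
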