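import Pool.Agent.Landau.EInt
import Pool.Agent.Landau.Defs3

/-!
# Landau, module EntLim: upper semicontinuity of the entropy

Write `G v = c * exp (quad μ ℓ v)`; `G log G = G (log c + quad)` is integrable.  Choose `ρ` with
`∫_{‖v‖ ≥ ρ} |G log G| ≤ δ / 2`.  As `s log s ≤ 0` for `0 ≤ s ≤ 1`, `ent (g n) ≤ ∫_{‖v‖ < ρ} g_n log g_n`.
`∫_{‖v‖ < ρ} g_n log g_n → ∫_{‖v‖ < ρ} G log G`: convergence in `L¹` on the ball gives convergence in measure, so every
subsequence has a further subsequence which converges a.e. (`TendstoInMeasure.exists_seq_tendsto_ae`), `s ↦ s log s`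
is continuous (`Real.continuous_mul_log`) and bounded by `1` on `[0, 1]`, dominated convergence, and
`tendsto_of_subseq_tendsto`.
-/

set_option autoImplicit false

namespace Pool.Agent.Landau

open MeasureTheory Set Filter Topology

theorem continuous_quad (μ : ℝ) (ℓ : Fin 3 → ℝ) : Continuous (quad μ ℓ) := by
  unfold quad
  fun_prop

theorem abs_quad_le (μ : ℝ) (ℓ : Fin 3 → ℝ) (v : V) :
    |quad μ ℓ v| ≤ (|μ| + ∑ i : Fin 3, |ℓ i|) * (1 + ‖v‖ ^ 2) := by
  have h1 : ∀ i : Fin 3, |ℓ i * v i| ≤ |ℓ i| * (1 + ‖v‖ ^ 2) := by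
    intro i
    rw [abs_mul]
    apply mul_le_mul_of_nonneg_left _ (abs_nonneg _)
    have h2 := Cls.abs_coord v i
    nlinarith [sq_nonneg (‖v‖ - 1)]
  have h3 : |∑ i : Fin 3, ℓ i * v i| ≤ (∑ i : Fin 3, |ℓ i|) * (1 + ‖v‖ ^ 2) := by
    refine (Finset.abs_sum_le_sum_abs _ _).trans ?_
    rw [Finset.sum_mul]
    exact Finset.sum_le_sum fun i _ => h1 i
  have h4 : |μ / 2 * ‖v‖ ^ 2| ≤ |μ| * (1 + ‖v‖ ^ 2) := by
    rw [abs_mul, abs_div, abs_of_nonneg (sq_nonneg ‖v‖), abs_of_nonneg (show (0 : ℝ) ≤ 2 by norm_num)]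
    have h5 := abs_nonneg μ
    nlinarith [sq_nonneg ‖v‖, mul_nonneg h5 (sq_nonneg ‖v‖)]
  unfold quad
  refine (abs_add_le _ _).trans ?_
  linarith

/-- convergence of the entropy on balls -/
theorem ent_ball_tendsto (g : ℕ → V → ℝ) (hg : ∀ n, Cls (g n)) (G : V → ℝ) (hG : Continuous G)
    (ρ : ℝ)
    (h : Tendsto (fun n => ∫ v in Metric.ball (0 : V) ρ, |g n v - G v|) atTop (𝓝 0)) :
    Tendsto (fun n => ∫ v in Metric.ball (0 : V) ρ, g n v * Real.log (g n v)) atTop
      (𝓝 (∫ v in Metric.ball (0 : V) ρ, G v * Real.log (G v))) := by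
  have hfin : IsFiniteMeasure (volume.restrict (Metric.ball (0 : V) ρ)) :=
    ⟨by rw [Measure.restrict_apply_univ]; exact measure_ball_lt_top⟩
  have hGi : IntegrableOn G (Metric.ball (0 : V) ρ) :=
    (hG.continuousOn.integrableOn_compact (isCompact_closedBall (0 : V) ρ)).mono_set
      Metric.ball_subset_closedBall
  refine tendsto_of_subseq_tendsto fun ns hns => ?_
  have h1 : Tendsto (fun n => ∫ v in Metric.ball (0 : V) ρ, |g (ns n) v - G v|) atTop (𝓝 0) :=
    h.comp hns
  have h2 : TendstoInMeasure (volume.restrict (Metric.ball (0 : V) ρ)) (fun n => g (ns n)) atTop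
      G := by
    apply tendstoInMeasure_of_tendsto_eLpNorm (p := 1) one_ne_zero
    · intro n
      exact (hg (ns n)).cont.aestronglyMeasurable
    · exact hG.aestronglyMeasurable
    · have h3 : (fun n => eLpNorm (g (ns n) - G) 1 (volume.restrict (Metric.ball (0 : V) ρ))) =
          fun n => ENNReal.ofReal (∫ v in Metric.ball (0 : V) ρ, |g (ns n) v - G v|) := by
        funext n
        have h4 : Integrable (g (ns n) - G) (volume.restrict (Metric.ball (0 : V) ρ)) :=
          ((hg (ns n)).int_g.integrableOn).sub hGi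
        rw [eLpNorm_one_eq_lintegral_enorm]
        have h5 := ofReal_integral_norm_eq_lintegral_enorm h4
        rw [← h5]
        rfl
      rw [h3, ← ENNReal.ofReal_zero]
      exact ENNReal.tendsto_ofReal h1
  obtain ⟨ms, -, hms⟩ := h2.exists_seq_tendsto_ae
  refine ⟨ms, ?_⟩
  apply tendsto_integral_of_dominated_convergence (fun _ => (1 : ℝ))
  · intro n
    exact ((hg (ns (ms n))).cont.measurable.mul
      (Real.measurable_log.comp (hg (ns (ms n))).cont.measurable)).aestronglyMeasurable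
  · exact integrable_const _
  · intro n
    refine Eventually.of_forall fun v => ?_
    rw [Real.norm_eq_abs]
    have h0 := (hg (ns (ms n))).nonneg v
    have h1 := (hg (ns (ms n))).le_one v
    rcases h0.eq_or_lt with h0 | h0
    · rw [← h0]
      simp
    · rw [mul_comm]
      exact (Real.abs_log_mul_self_lt _ h0 h1).le
  · filter_upwards [hms] with v hv
    exact (Real.continuous_mul_log.tendsto (G v)).comp hv

theorem ent_lim (g : ℕ → V → ℝ) (hg : ∀ n, Cls (g n)) (μ c : ℝ) (ℓ : Fin 3 → ℝ) (hc : 0 < c)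
    (hint : Integrable (fun v : V => (1 + ‖v‖ ^ 2) * (c * Real.exp (quad μ ℓ v))))
    (h : ∀ ρ : ℝ, Tendsto (fun n => ∫ v in Metric.ball (0 : V) ρ,
        |g n v - c * Real.exp (quad μ ℓ v)|) atTop (𝓝 0)) (δ : ℝ) (hδ : 0 < δ) :
    ∀ᶠ n in atTop, ent (g n) ≤
      (∫ v : V, c * Real.exp (quad μ ℓ v) * Real.log (c * Real.exp (quad μ ℓ v))) + δ := by
  have hGc : Continuous fun v : V => c * Real.exp (quad μ ℓ v) :=
    continuous_const.mul (Real.continuous_exp.comp (continuous_quad μ ℓ))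
  have hGl : Integrable fun v : V => c * Real.exp (quad μ ℓ v) * Real.log (c * Real.exp (quad μ ℓ v)) := by
    refine (hint.const_mul (|Real.log c| + (|μ| + ∑ i : Fin 3, |ℓ i|))).mono'
      ((Real.continuous_mul_log.comp hGc).aestronglyMeasurable) (Eventually.of_forall fun v => ?_)
    have h1 : Real.log (c * Real.exp (quad μ ℓ v)) = Real.log c + quad μ ℓ v := by
      rw [Real.log_mul hc.ne' (Real.exp_pos _).ne', Real.log_exp]
    have h2 : 0 < c * Real.exp (quad μ ℓ v) := mul_pos hc (Real.exp_pos _)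
    rw [Real.norm_eq_abs, abs_mul, abs_of_pos h2, h1]
    have h3 : |Real.log c + quad μ ℓ v| ≤
        (|Real.log c| + (|μ| + ∑ i : Fin 3, |ℓ i|)) * (1 + ‖v‖ ^ 2) := by
      refine (abs_add_le _ _).trans ?_
      have h4 := abs_quad_le μ ℓ v
      have h5 : |Real.log c| ≤ |Real.log c| * (1 + ‖v‖ ^ 2) := by
        nlinarith [abs_nonneg (Real.log c), mul_nonneg (abs_nonneg (Real.log c)) (sq_nonneg ‖v‖)]
      linarith
    calc c * Real.exp (quad μ ℓ v) * |Real.log c + quad μ ℓ v| ≤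
        c * Real.exp (quad μ ℓ v) *
          ((|Real.log c| + (|μ| + ∑ i : Fin 3, |ℓ i|)) * (1 + ‖v‖ ^ 2)) :=
          mul_le_mul_of_nonneg_left h3 h2.le
      _ = (|Real.log c| + (|μ| + ∑ i : Fin 3, |ℓ i|)) *
          ((1 + ‖v‖ ^ 2) * (c * Real.exp (quad μ ℓ v))) := by ring
  obtain ⟨I, hI⟩ : ∃ I : ℝ, I = ∫ v : V, c * Real.exp (quad μ ℓ v) *
    Real.log (c * Real.exp (quad μ ℓ v)) := ⟨_, rfl⟩
  rw [← hI]
  have hball : Tendsto (fun m : ℕ => ∫ v in Metric.ball (0 : V) m, c * Real.exp (quad μ ℓ v) *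
      Real.log (c * Real.exp (quad μ ℓ v))) atTop (𝓝 I) := by
    have h1 := tendsto_setIntegral_of_monotone (μ := (volume : Measure V))
      (s := fun m : ℕ => Metric.ball (0 : V) (m : ℝ))
      (f := fun v : V => c * Real.exp (quad μ ℓ v) * Real.log (c * Real.exp (quad μ ℓ v)))
      (fun m => measurableSet_ball)
      (fun m m' hmm => Metric.ball_subset_ball (by exact_mod_cast hmm)) hGl.integrableOn
    have h2 : (⋃ m : ℕ, Metric.ball (0 : V) (m : ℝ)) = univ := by
      rw [Set.eq_univ_iff_forall]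
      intro v
      obtain ⟨m, hm⟩ := exists_nat_gt ‖v‖
      rw [Set.mem_iUnion]
      exact ⟨m, by rw [mem_ball_zero_iff]; exact hm⟩
    rw [h2, setIntegral_univ, ← hI] at h1
    exact h1
  obtain ⟨m, hm⟩ := (hball.eventually (gt_mem_nhds (show I < I + δ / 2 by linarith))).exists
  have h1 := ent_ball_tendsto g hg (fun v => c * Real.exp (quad μ ℓ v)) hGc m (h m)
  have h2 := h1.eventually (gt_mem_nhds (show (∫ v in Metric.ball (0 : V) m,
    c * Real.exp (quad μ ℓ v) * Real.log (c * Real.exp (quad μ ℓ v))) < (∫ v in Metric.ball (0 : V) m,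
    c * Real.exp (quad μ ℓ v) * Real.log (c * Real.exp (quad μ ℓ v))) + δ / 2 by linarith))
  filter_upwards [h2] with n hn
  have h3 : ent (g n) ≤ ∫ v in Metric.ball (0 : V) m, g n v * Real.log (g n v) := by
    unfold ent
    rw [← integral_add_compl (measurableSet_ball : MeasurableSet (Metric.ball (0 : V) (m : ℝ)))
      (ent_int (g n) (hg n)).1]
    have h4 : ∫ v in (Metric.ball (0 : V) (m : ℝ))ᶜ, g n v * Real.log (g n v) ≤ 0 :=
      integral_nonpos fun v => mul_nonpos_of_nonneg_of_nonpos ((hg n).nonneg v)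
        (Real.log_nonpos ((hg n).nonneg v) ((hg n).le_one v))
    linarith
  linarith

end Pool.Agent.Landau
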