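import Pool.Agent.Landau.Chi
import Pool.Agent.Landau.Bars
import Pool.Agent.Landau.EInt

/-!
# Landau, module EntRem: the remainder is small

Let `θ = chi R`, `C0` the constant of `chi_bounds`, `M = mass g`, `E = energy g`.  Bounds of the six terms of
`RemE` (with `abar_bound`, `bbar_bound`, `bet_bounds`, `ent_int`, `Cls.tail`):
(1) `3 (C0 / R) (13 + M) M` as `|g ∂_j θ| ≤ (C0 / R) g`, `0 ≤ θ Bet ≤ g`;
(2) `9 (C0 / R) (7 + M) (C0 / R) M`; (3) `∫ (1 - θ) g ≤ E / R²`; (4) `3 (13 + M) (C0 / R) M`;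
(5) `3 (13 + M) (C0 / R) ∫ (2 |g log g| + 3 g) ≤ 3 (13 + M) (C0 / R) (2 E + 12 + 3 M)`;
(6) `9 (7 + M) (C0 / R²) ∫ (|g log g| + 2 g) ≤ 9 (7 + M) (C0 / R²) (E + 6 + 2 M)`.
Each is at most a constant times `(1 + m)² / R`.
-/

set_option autoImplicit false

namespace Pool.Agent.Landau

open MeasureTheory Set Filter Topology

namespace EntRemAux

theorem pair_bound (A F H : V → ℝ) (a b I : ℝ) (ha : 0 ≤ a) (hb : 0 ≤ b) (hA : ∀ v, |A v| ≤ a)
    (hF : ∀ v, |F v| ≤ b * H v) (hH : Integrable H) (hI : ∫ v, H v ≤ I) :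
    |∫ v, A v * F v| ≤ a * (b * I) := by
  have hpt : ∀ v, ‖A v * F v‖ ≤ a * (b * H v) := by
    intro v
    rw [norm_mul, Real.norm_eq_abs, Real.norm_eq_abs]
    exact mul_le_mul (hA v) (hF v) (abs_nonneg _) ha
  have h := norm_integral_le_of_norm_le ((hH.const_mul b).const_mul a)
    (Eventually.of_forall hpt)
  rw [Real.norm_eq_abs, integral_const_mul, integral_const_mul] at h
  refine h.trans ?_
  exact mul_le_mul_of_nonneg_left (mul_le_mul_of_nonneg_left hI hb) ha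

theorem sum1 (f : Fin 3 → ℝ) (B : ℝ) (h : ∀ i, |f i| ≤ B) : |∑ i, f i| ≤ 3 * B := by
  calc |∑ i, f i| ≤ ∑ i, |f i| := Finset.abs_sum_le_sum_abs _ _
    _ ≤ ∑ _i : Fin 3, B := Finset.sum_le_sum fun i _ => h i
    _ = 3 * B := by simp

theorem sum2 (f : Fin 3 → Fin 3 → ℝ) (B : ℝ) (h : ∀ i j, |f i j| ≤ B) :
    |∑ i, ∑ j, f i j| ≤ 9 * B := by
  have := sum1 (fun i => ∑ j, f i j) (3 * B) (fun i => sum1 (f i) B (h i))
  linarith

theorem six (a1 a2 a3 a4 a5 a6 b1 b2 b3 b4 b5 b6 : ℝ) (h1 : |a1| ≤ b1) (h2 : |a2| ≤ b2)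
    (h3 : |a3| ≤ b3) (h4 : |a4| ≤ b4) (h5 : |a5| ≤ b5) (h6 : |a6| ≤ b6) :
    |-a1 - a2 + a3 - a4 + a5 + a6| ≤ b1 + b2 + b3 + b4 + b5 + b6 := by
  rw [abs_le] at *
  constructor <;> linarith [h1.1, h1.2, h2.1, h2.2, h3.1, h3.2, h4.1, h4.2, h5.1, h5.2, h6.1,
    h6.2]

end EntRemAux

open EntRemAux

theorem rem_bound : ∃ C : ℝ, 0 < C ∧ ∀ g : V → ℝ, Cls g → ∀ m R ε : ℝ, mass g + energy g ≤ m →
    1 ≤ R → 0 < ε → ε ≤ 1 → |RemE (chi R) g ε| ≤ C * (1 + m) ^ 2 / R := by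
  obtain ⟨C0, hC0, hchi⟩ := chi_bounds
  refine ⟨1167 * C0 + 63 * C0 ^ 2 + 1, by positivity, fun g hg m R ε hm hR hε hε1 => ?_⟩
  obtain ⟨c1, c2, -, -⟩ := hchi R hR
  have hR0 : 0 < R := lt_of_lt_of_le one_pos hR
  have hM := hg.mass_nonneg
  have hE := hg.energy_nonneg
  obtain ⟨M, hMd⟩ : ∃ M : ℝ, M = mass g := ⟨_, rfl⟩
  obtain ⟨E, hEd⟩ : ∃ E : ℝ, E = energy g := ⟨_, rfl⟩
  rw [← hMd] at hM hm
  rw [← hEd] at hE hm
  have hMint : ∫ w, g w = M := hMd.symm
  have hbet := fun v => bet_bounds ε (g v) hε hε1 (hg.nonneg v) (hg.le_one v)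
  have hcR : 0 ≤ C0 / R := by positivity
  have hcR2 : 0 ≤ C0 / R ^ 2 := by positivity
  have hθ0 := chi_nonneg R
  have hθ1 := chi_le_one R
  obtain ⟨heI, heB⟩ := ent_int g hg
  rw [← hEd] at heB
  -- integrability of the densities
  have hcpd : ∀ j : Fin 3, Continuous (pd j (chi R)) := fun j =>
    (smooth_pd (chi_smooth R) j).continuous
  have hu1 : ∀ j : Fin 3, ∀ v, |g v * pd j (chi R) v| ≤ C0 / R * g v := by
    intro j v
    rw [abs_mul, abs_of_nonneg (hg.nonneg v), mul_comm]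
    exact mul_le_mul_of_nonneg_right (c1 j v) (hg.nonneg v)
  have hi1 : ∀ j : Fin 3, Integrable (fun v => g v * pd j (chi R) v) := by
    intro j
    refine (hg.int_g.const_mul (C0 / R)).mono' (hg.cont.mul (hcpd j)).aestronglyMeasurable
      (Eventually.of_forall fun v => ?_)
    rw [Real.norm_eq_abs]
    exact hu1 j v
  have hu2 : ∀ v, |(1 - chi R v) * g v| ≤ 1 * g v := by
    intro v
    rw [abs_mul, abs_of_nonneg (hg.nonneg v), abs_of_nonneg (by linarith [hθ1 v])]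
    exact mul_le_mul_of_nonneg_right (by linarith [hθ0 v]) (hg.nonneg v)
  have hi2 : Integrable (fun v => (1 - chi R v) * g v) := by
    refine (hg.int_g.const_mul 1).mono'
      ((continuous_const.sub (chi_smooth R).continuous).mul hg.cont).aestronglyMeasurable
      (Eventually.of_forall fun v => ?_)
    rw [Real.norm_eq_abs]
    exact hu2 v
  have hu3 : ∀ v, |g v| ≤ 1 * g v := by
    intro v
    rw [abs_of_nonneg (hg.nonneg v), one_mul]
  -- bounds of the bars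
  have A1 : ∀ j v, |bbar (fun w => g w * pd j (chi R) w) j v| ≤ C0 / R * (13 + M) := by
    intro j v
    have := bbar_bound (fun w => g w * pd j (chi R) w) g (hi1 j) hg.int_g hg.nonneg hg.le_one
      (C0 / R) hcR (hu1 j) j v
    rwa [hMint] at this
  have A2 : ∀ i j v, |abar (fun w => g w * pd j (chi R) w) i j v| ≤ C0 / R * (7 + M) := by
    intro i j v
    have := abar_bound (fun w => g w * pd j (chi R) w) g (hi1 j) hg.int_g hg.nonneg hg.le_one
      (C0 / R) hcR (hu1 j) i j v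
    rwa [hMint] at this
  have A4 : ∀ i v, |bbar (fun w => (1 - chi R w) * g w) i v| ≤ 1 * (13 + M) := by
    intro i v
    have := bbar_bound (fun w => (1 - chi R w) * g w) g hi2 hg.int_g hg.nonneg hg.le_one
      1 zero_le_one hu2 i v
    rwa [hMint] at this
  have A5 : ∀ i v, |bbar g i v| ≤ 1 * (13 + M) := by
    intro i v
    have := bbar_bound g g hg.int_g hg.int_g hg.nonneg hg.le_one 1 zero_le_one hu3 i v
    rwa [hMint] at this
  have A6 : ∀ i j v, |abar g i j v| ≤ 1 * (7 + M) := by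
    intro i j v
    have := abar_bound g g hg.int_g hg.int_g hg.nonneg hg.le_one 1 zero_le_one hu3 i j v
    rwa [hMint] at this
  -- the test functions
  have F1 : ∀ v, |chi R v * Bet ε (g v)| ≤ 1 * g v := by
    intro v
    rw [abs_mul, abs_of_nonneg (hθ0 v), abs_of_nonneg (hbet v).1]
    exact mul_le_mul (hθ1 v) (hbet v).2.1 (hbet v).1 zero_le_one
  have F2 : ∀ i v, |pd i (chi R) v * Bet ε (g v)| ≤ C0 / R * g v := by
    intro i v
    rw [abs_mul, abs_of_nonneg (hbet v).1]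
    exact mul_le_mul (c1 i v) (hbet v).2.1 (hbet v).1 hcR
  have F5 : ∀ i v, |pd i (chi R) v * (bet ε (g v) + g v * Real.log (g v + ε))| ≤
      C0 / R * (2 * |g v * Real.log (g v)| + 3 * g v) := by
    intro i v
    rw [abs_mul]
    refine mul_le_mul (c1 i v) ?_ (abs_nonneg _) hcR
    have h1 := abs_add_le (bet ε (g v)) (g v * Real.log (g v + ε))
    linarith [(hbet v).2.2.1, (hbet v).2.2.2]
  have F6 : ∀ i j v, |pd j (pd i (chi R)) v * bet ε (g v)| ≤
      C0 / R ^ 2 * (|g v * Real.log (g v)| + 2 * g v) := by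
    intro i j v
    rw [abs_mul]
    exact mul_le_mul (c2 j i v) (hbet v).2.2.2 (abs_nonneg _) hcR2
  have I5 : Integrable fun v => 2 * |g v * Real.log (g v)| + 3 * g v :=
    (heI.abs.const_mul 2).add (hg.int_g.const_mul 3)
  have I5b : ∫ v, (2 * |g v * Real.log (g v)| + 3 * g v) ≤ 2 * (E + 6) + 3 * M := by
    rw [integral_add (heI.abs.const_mul 2) (hg.int_g.const_mul 3), integral_const_mul,
      integral_const_mul, hMint]
    linarith
  have I6 : Integrable fun v => |g v * Real.log (g v)| + 2 * g v :=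
    heI.abs.add (hg.int_g.const_mul 2)
  have I6b : ∫ v, (|g v * Real.log (g v)| + 2 * g v) ≤ (E + 6) + 2 * M := by
    rw [integral_add heI.abs (hg.int_g.const_mul 2), integral_const_mul, hMint]
    linarith
  -- the six terms
  have T1 := sum1 (fun j => ∫ v, bbar (fun w => g w * pd j (chi R) w) j v *
      (chi R v * Bet ε (g v))) (C0 / R * (13 + M) * (1 * M)) (fun j =>
      pair_bound _ _ g _ 1 M (by positivity) zero_le_one (A1 j) F1 hg.int_g hMint.le)
  have T2 := sum2 (fun i j => ∫ v, abar (fun w => g w * pd j (chi R) w) i j v *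
      (pd i (chi R) v * Bet ε (g v))) (C0 / R * (7 + M) * (C0 / R * M)) (fun i j =>
      pair_bound _ _ g _ (C0 / R) M (by positivity) hcR (A2 i j) (F2 i) hg.int_g hMint.le)
  have T3 : |∫ v, (1 - chi R v) * g v * (chi R v * Bet ε (g v))| ≤ 1 * (1 / R ^ 2 * E) := by
    have h1 : ∀ v, |(1 - chi R v) * g v| ≤ 1 / R ^ 2 * (‖v‖ ^ 2 * g v) := by
      intro v
      rcases le_or_gt (‖v‖) R with hv | hv
      · rw [chi_one hR0 hv]
        simp only [sub_self, zero_mul, abs_zero]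
        have := hg.nonneg v
        positivity
      · rw [abs_mul, abs_of_nonneg (hg.nonneg v), abs_of_nonneg (by linarith [hθ1 v]),
          ← mul_assoc]
        refine mul_le_mul_of_nonneg_right ?_ (hg.nonneg v)
        have h2 : R ^ 2 ≤ ‖v‖ ^ 2 := pow_le_pow_left₀ hR0.le hv.le 2
        have h3 : 1 ≤ 1 / R ^ 2 * ‖v‖ ^ 2 := by
          rw [one_div, inv_mul_eq_div, le_div_iff₀ (by positivity)]
          linarith
        linarith [hθ0 v]
    have h4 := pair_bound (fun v => chi R v * Bet ε (g v)) (fun v => (1 - chi R v) * g v)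
      (fun v => ‖v‖ ^ 2 * g v) 1 (1 / R ^ 2) E zero_le_one (by positivity) (fun v => by
        refine (F1 v).trans ?_
        rw [one_mul]
        exact hg.le_one v) h1 hg.int_energy (le_of_eq hEd.symm)
    have h5 : ∫ v, (1 - chi R v) * g v * (chi R v * Bet ε (g v)) =
        ∫ v, (chi R v * Bet ε (g v)) * ((1 - chi R v) * g v) := by
      congr 1
      funext v
      ring
    rw [h5]
    exact h4
  have T4 := sum1 (fun i => ∫ v, bbar (fun w => (1 - chi R w) * g w) i v *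
      (pd i (chi R) v * Bet ε (g v))) (1 * (13 + M) * (C0 / R * M)) (fun i =>
      pair_bound _ _ g _ (C0 / R) M (by positivity) hcR (A4 i) (F2 i) hg.int_g hMint.le)
  have T5 := sum1 (fun i => ∫ v, bbar g i v *
      (pd i (chi R) v * (bet ε (g v) + g v * Real.log (g v + ε))))
      (1 * (13 + M) * (C0 / R * (2 * (E + 6) + 3 * M))) (fun i =>
      pair_bound _ _ _ _ (C0 / R) _ (by positivity) hcR (A5 i) (F5 i) I5 I5b)
  have T6 := sum2 (fun i j => ∫ v, abar g i j v * (pd j (pd i (chi R)) v * bet ε (g v)))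
      (1 * (7 + M) * (C0 / R ^ 2 * ((E + 6) + 2 * M))) (fun i j =>
      pair_bound _ _ _ _ (C0 / R ^ 2) _ (by positivity) hcR2 (A6 i j) (F6 i j) I6 I6b)
  have hall := six _ _ _ _ _ _ _ _ _ _ _ _ T1 T2 T3 T4 T5 T6
  unfold RemE
  refine hall.trans ?_
  -- final arithmetic
  obtain ⟨s, hs⟩ : ∃ s : ℝ, s = 1 + m := ⟨_, rfl⟩
  have hs1 : 1 ≤ s := by rw [hs]; linarith
  have q1 : 13 + M ≤ 13 * s := by rw [hs]; linarith
  have q2 : 7 + M ≤ 7 * s := by rw [hs]; linarith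
  have q3 : M ≤ s := by rw [hs]; linarith
  have q4 : 2 * (E + 6) + 3 * M ≤ 15 * s := by rw [hs]; linarith
  have q5 : (E + 6) + 2 * M ≤ 8 * s := by rw [hs]; linarith
  have q6 : E ≤ s ^ 2 := by nlinarith
  have hRR : 1 / R ^ 2 ≤ 1 / R := by
    refine one_div_le_one_div_of_le hR0 ?_
    nlinarith
  have hRR2 : C0 / R ^ 2 ≤ C0 / R := by
    have := mul_le_mul_of_nonneg_left hRR hC0.le
    calc C0 / R ^ 2 = C0 * (1 / R ^ 2) := by ring
      _ ≤ C0 * (1 / R) := this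
      _ = C0 / R := by ring
  have hRR3 : C0 / R * (C0 / R) ≤ C0 ^ 2 / R := by
    calc C0 / R * (C0 / R) = C0 ^ 2 * (1 / R ^ 2) := by field_simp
      _ ≤ C0 ^ 2 * (1 / R) := mul_le_mul_of_nonneg_left hRR (by positivity)
      _ = C0 ^ 2 / R := by ring
  have e1 : C0 / R * (13 + M) * (1 * M) ≤ C0 / R * (13 * s ^ 2) := by
    have : (13 + M) * M ≤ 13 * s * s := mul_le_mul q1 q3 hM (by positivity)
    calc C0 / R * (13 + M) * (1 * M) = C0 / R * ((13 + M) * M) := by ring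
      _ ≤ C0 / R * (13 * s * s) := mul_le_mul_of_nonneg_left this hcR
      _ = _ := by ring
  have e2 : C0 / R * (7 + M) * (C0 / R * M) ≤ C0 ^ 2 / R * (7 * s ^ 2) := by
    have : (7 + M) * M ≤ 7 * s * s := mul_le_mul q2 q3 hM (by positivity)
    calc C0 / R * (7 + M) * (C0 / R * M) = (C0 / R * (C0 / R)) * ((7 + M) * M) := by ring
      _ ≤ (C0 ^ 2 / R) * (7 * s * s) := mul_le_mul hRR3 this (by positivity) (by positivity)
      _ = _ := by ring
  have e3 : 1 * (1 / R ^ 2 * E) ≤ 1 / R * s ^ 2 := by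
    rw [one_mul]
    exact mul_le_mul hRR q6 hE (by positivity)
  have e4 : 1 * (13 + M) * (C0 / R * M) ≤ C0 / R * (13 * s ^ 2) := by
    refine le_trans (le_of_eq ?_) e1
    ring
  have e5 : 1 * (13 + M) * (C0 / R * (2 * (E + 6) + 3 * M)) ≤ C0 / R * (195 * s ^ 2) := by
    have : (13 + M) * (2 * (E + 6) + 3 * M) ≤ 13 * s * (15 * s) :=
      mul_le_mul q1 q4 (by positivity) (by positivity)
    calc 1 * (13 + M) * (C0 / R * (2 * (E + 6) + 3 * M))
        = C0 / R * ((13 + M) * (2 * (E + 6) + 3 * M)) := by ring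
      _ ≤ C0 / R * (13 * s * (15 * s)) := mul_le_mul_of_nonneg_left this hcR
      _ = _ := by ring
  have e6 : 1 * (7 + M) * (C0 / R ^ 2 * ((E + 6) + 2 * M)) ≤ C0 / R * (56 * s ^ 2) := by
    have : (7 + M) * ((E + 6) + 2 * M) ≤ 7 * s * (8 * s) :=
      mul_le_mul q2 q5 (by positivity) (by positivity)
    calc 1 * (7 + M) * (C0 / R ^ 2 * ((E + 6) + 2 * M))
        = C0 / R ^ 2 * ((7 + M) * ((E + 6) + 2 * M)) := by ring
      _ ≤ C0 / R * (7 * s * (8 * s)) := mul_le_mul hRR2 this (by positivity) hcR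
      _ = _ := by ring
  have key : 3 * (C0 / R * (13 + M) * (1 * M)) + 9 * (C0 / R * (7 + M) * (C0 / R * M)) +
      1 * (1 / R ^ 2 * E) + 3 * (1 * (13 + M) * (C0 / R * M)) +
      3 * (1 * (13 + M) * (C0 / R * (2 * (E + 6) + 3 * M))) +
      9 * (1 * (7 + M) * (C0 / R ^ 2 * ((E + 6) + 2 * M))) ≤
      (1167 * C0 + 63 * C0 ^ 2 + 1) * s ^ 2 / R := by
    have h7 : (1167 * C0 + 63 * C0 ^ 2 + 1) * s ^ 2 / R = 3 * (C0 / R * (13 * s ^ 2)) +
        9 * (C0 ^ 2 / R * (7 * s ^ 2)) + 1 / R * s ^ 2 + 3 * (C0 / R * (13 * s ^ 2)) +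
        3 * (C0 / R * (195 * s ^ 2)) + 9 * (C0 / R * (56 * s ^ 2)) := by
      ring
    rw [h7]
    linarith
  rw [hs] at key
  exact key

end Pool.Agent.Landau
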