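import Pool.Agent.Landau.Bars
import Pool.Agent.Landau.Defs2

/-!
# Landau, module EntNeg: the dropped term has a sign

Put `u w = (1 - θ w) * g w ≥ 0` (integrable, `0 ≤ u ≤ 1`).  All integrands are integrable (`θ`, `∂g`
continuous, `θ` compactly supported, `abar u i j` bounded and measurable), so `NegE θ g ε` is the
integral over `v` of `θ v (g v + ε)⁻¹ ∑_ij abar_ij(v) x_i x_j`, `x_i = ∂_i g(v)`, and
`∑_ij abar_ij(v) x_i x_j = ∫ u w ∑_ij a_ij(v - w) x_i x_j dw ≥ 0` by `kernel_quad_nonneg`.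
-/

set_option autoImplicit false

namespace Pool.Agent.Landau

open MeasureTheory Set Filter Topology

/-- the quadratic form of `abar u` is nonnegative for `u ≥ 0` -/
theorem abar_quad_nonneg (u : V → ℝ) (hu : Integrable u) (C : ℝ) (hC : ∀ v, |u v| ≤ C)
    (h0 : ∀ v, 0 ≤ u v) (v : V) (x : Fin 3 → ℝ) :
    0 ≤ ∑ i : Fin 3, ∑ j : Fin 3, abar u i j v * (x i * x j) := by
  have hI : ∀ i j : Fin 3, Integrable (fun w => aK i j (v - w) * u w * (x i * x j)) := fun i j =>
    (kernel_int u hu C hC i j v).1.mul_const _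
  have e : ∑ i : Fin 3, ∑ j : Fin 3, abar u i j v * (x i * x j) =
      ∫ w, ∑ i : Fin 3, ∑ j : Fin 3, aK i j (v - w) * u w * (x i * x j) := by
    rw [integral_finsetSum _ (fun i _ => integrable_finsetSum _ (fun j _ => hI i j))]
    refine Finset.sum_congr rfl fun i _ => ?_
    rw [integral_finsetSum _ (fun j _ => hI i j)]
    refine Finset.sum_congr rfl fun j _ => ?_
    rw [integral_mul_const]
    rfl
  rw [e]
  refine integral_nonneg fun w => ?_
  have h := mul_nonneg (h0 w) (kernel_quad_nonneg (v - w) x)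
  refine h.trans_eq ?_
  rw [Finset.mul_sum]
  refine Finset.sum_congr rfl fun i _ => ?_
  rw [Finset.mul_sum]
  refine Finset.sum_congr rfl fun j _ => ?_
  ring

theorem NegE_nonneg (g : V → ℝ) (hg : Cls g) (θ : V → ℝ) (hθ : ContDiff ℝ (⊤ : ℕ∞) θ)
    (hc : HasCompactSupport θ) (h0 : ∀ v, 0 ≤ θ v) (h1 : ∀ v, θ v ≤ 1) (ε : ℝ) (hε : 0 < ε) :
    0 ≤ NegE θ g ε := by
  obtain ⟨u, hu⟩ : ∃ u : V → ℝ, u = fun w => (1 - θ w) * g w := ⟨_, rfl⟩
  have hu0 : ∀ w, 0 ≤ u w := fun w => by
    rw [hu]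
    exact mul_nonneg (by linarith [h1 w]) (hg.nonneg w)
  have hug : ∀ w, u w ≤ g w := fun w => by
    rw [hu]
    simp only
    nlinarith [h0 w, hg.nonneg w, mul_nonneg (h0 w) (hg.nonneg w)]
  have hua : ∀ w, |u w| ≤ 1 := fun w => by
    rw [abs_of_nonneg (hu0 w)]
    exact (hug w).trans (hg.le_one w)
  have huc : Continuous u := by
    rw [hu]
    exact (continuous_const.sub hθ.continuous).mul hg.cont
  have hui : Integrable u := by
    refine hg.int_g.mono' huc.aestronglyMeasurable (Eventually.of_forall fun w => ?_)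
    rw [Real.norm_eq_abs, abs_of_nonneg (hu0 w)]
    exact hug w
  have hs := contDiff_one_of_smooth hg.smooth
  have hinv : Continuous fun v => (g v + ε)⁻¹ :=
    (hg.cont.add continuous_const).inv₀ fun v => (by linarith [hg.nonneg v] : 0 < g v + ε).ne'
  have hF : ∀ i j : Fin 3, Integrable (fun v => θ v * (g v + ε)⁻¹ * pd i g v * pd j g v) := by
    intro i j
    have hcont : Continuous fun v => θ v * (g v + ε)⁻¹ * pd i g v * pd j g v :=
      ((hθ.continuous.mul hinv).mul (continuous_pd hs i)).mul (continuous_pd hs j)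
    exact hcont.integrable_of_hasCompactSupport ((hc.mul_right.mul_right).mul_right)
  have hI : ∀ i j : Fin 3, Integrable (fun v => abar u i j v *
      (θ v * (g v + ε)⁻¹ * pd i g v * pd j g v)) := by
    intro i j
    refine (hF i j).bdd_mul (c := 1 * (7 + ∫ w, g w)) (abar_meas u hui i j)
      (Eventually.of_forall fun v => ?_)
    rw [Real.norm_eq_abs]
    exact abar_bound u g hui hg.int_g hg.nonneg hg.le_one 1 zero_le_one
      (fun w => by rw [abs_of_nonneg (hu0 w), one_mul]; exact hug w) i j v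
  have e : NegE θ g ε = ∫ v, ∑ i : Fin 3, ∑ j : Fin 3, abar u i j v *
      (θ v * (g v + ε)⁻¹ * pd i g v * pd j g v) := by
    rw [integral_finsetSum _ (fun i _ => integrable_finsetSum _ (fun j _ => hI i j))]
    unfold NegE
    rw [← hu]
    refine Finset.sum_congr rfl fun i _ => ?_
    rw [integral_finsetSum _ (fun j _ => hI i j)]
  rw [e]
  refine integral_nonneg fun v => ?_
  have h2 := abar_quad_nonneg u hui 1 hua hu0 v (fun i => pd i g v)
  have h3 : 0 ≤ θ v * (g v + ε)⁻¹ := by
    have := hg.nonneg v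
    exact mul_nonneg (h0 v) (by positivity)
  have h4 := mul_nonneg h3 h2
  refine h4.trans_eq ?_
  rw [Finset.mul_sum]
  refine Finset.sum_congr rfl fun i _ => ?_
  rw [Finset.mul_sum]
  refine Finset.sum_congr rfl fun j _ => ?_
  ring

end Pool.Agent.Landau
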