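import Pool.Agent.Landau.TimeDer
import Pool.Agent.Landau.DepsCont
import Pool.Agent.Landau.EntId
import Pool.Agent.Landau.EntNeg

/-!
# Landau, module EntTime: integrated localised entropy inequality

Let `Φ t = - ∫ θ bet ε (f t)`.  By `timeDer_ent`, `ent_identity` and `NegE_nonneg`,
`Φ' t = Deps + NegE - RemE ≥ Deps - κ` on `[t1, t2]`; `Deps` is continuous on `[t1, t2]` (`deps_cont`).  Use
`intervalIntegral.integral_le_sub_of_hasDeriv_right_of_le` (or the `sub_le_integral` version for `- Φ`).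
-/

set_option autoImplicit false

namespace Pool.Agent.Landau

open MeasureTheory Set Filter Topology

theorem deps_int (f : ℝ → V → ℝ) (hf : Sol f) (θ : V → ℝ) (hθ : ContDiff ℝ (⊤ : ℕ∞) θ)
    (hc : HasCompactSupport θ) (h0 : ∀ v, 0 ≤ θ v) (h1 : ∀ v, θ v ≤ 1) (ε : ℝ) (hε : 0 < ε)
    (t1 t2 : ℝ) (h12 : t1 ≤ t2) (h2 : t2 < 0) (κ : ℝ)
    (hκ : ∀ t ∈ Icc t1 t2, RemE θ (f t) ε ≤ κ) :
    ∫ t in t1..t2, Deps θ (f t) ε ≤
      (∫ v, θ v * bet ε (f t1 v)) - (∫ v, θ v * bet ε (f t2 v)) + κ * (t2 - t1) := by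
  have hneg : ∀ t ∈ Icc t1 t2, t < 0 := fun t ht => lt_of_le_of_lt ht.2 h2
  have hder : ∀ t ∈ Icc t1 t2, HasDerivAt (fun s => -(∫ v, θ v * bet ε (f s v)) + κ * s)
      (-(∫ v, θ v * (Real.log (f t v + ε) * QL (f t) v)) + κ) t := by
    intro t ht
    have h := timeDer_ent f hf θ hθ.continuous hc ε hε t (hneg t ht)
    have h3 : HasDerivAt (fun s : ℝ => κ * s) κ t := by
      simpa using (hasDerivAt_id t).const_mul κ
    exact h.neg.add h3
  have hcont : ContinuousOn (fun s => -(∫ v, θ v * bet ε (f s v)) + κ * s) (Icc t1 t2) :=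
    fun t ht => (hder t ht).continuousAt.continuousWithinAt
  have hD : ContinuousOn (fun t => Deps θ (f t) ε) (Icc t1 t2) :=
    (deps_cont f hf θ hθ hc ε hε).mono fun t ht => hneg t ht
  have hmain := intervalIntegral.integral_le_sub_of_hasDeriv_right_of_le
    (g := fun s => -(∫ v, θ v * bet ε (f s v)) + κ * s)
    (g' := fun t => -(∫ v, θ v * (Real.log (f t v + ε) * QL (f t) v)) + κ)
    (φ := fun t => Deps θ (f t) ε) h12 hcont
    (fun t ht => (hder t (Ioo_subset_Icc_self ht)).hasDerivWithinAt)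
    (hD.integrableOn_compact isCompact_Icc) ?_
  · refine hmain.trans (le_of_eq ?_)
    show -(∫ v, θ v * bet ε (f t2 v)) + κ * t2 - (-(∫ v, θ v * bet ε (f t1 v)) + κ * t1) = _
    ring
  · intro t ht
    have ht' := Ioo_subset_Icc_self ht
    have hg := hf.cls t (hneg t ht')
    have h3 := ent_identity (f t) hg θ hθ hc ε hε
    have h4 := NegE_nonneg (f t) hg θ hθ hc h0 h1 ε hε
    have h5 := hκ t ht'
    show Deps θ (f t) ε ≤ -(∫ v, θ v * (Real.log (f t v + ε) * QL (f t) v)) + κ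
    rw [h3]
    linarith

end Pool.Agent.Landau
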