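import Pool.Agent.Landau.FatouA
import Pool.Agent.Landau.DepsCont

/-!
# Landau, module FatouB: Fatou in time

By joint continuity (`joint_pd`) there is `B ≥ 0` with `|pd i (f t) v| ≤ B` for `t ∈ [t1, t2]`,
`v ∈ tsupport θ`.  Let `K = C B²` with `C` from `deps_lower`.  Put `D_n t = Deps θ (f t) (1 / (n + 1))`, continuous
on `[t1, t2]` (`deps_cont`), `D_n + K ≥ 0`.  Fatou in `t` (`lintegral_liminf_le'`):
`∫⁻ (DDc + ofReal (32 π K)) ≤ ∫⁻ liminf ofReal (32 π (D_n + K)) ≤ liminf ∫⁻ ofReal (32 π (D_n + K))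
= liminf ofReal (32 π (∫ D_n + K (t2 - t1))) ≤ ofReal (32 π (κ0 + δ + K (t2 - t1)))` for every `δ > 0`.
The left side is `∫⁻ DDc + ofReal (32 π K (t2 - t1))` (`lintegral_add_right` with a constant).  Let `δ → 0` and
subtract (finite).  For `0 ≤ κ0` choose `K > 0` (enlarge `B`) if `t1 < t2`; if `t1 = t2` the hypothesis
says `0 ≤ κ0 + δ`.
-/

set_option autoImplicit false

namespace Pool.Agent.Landau

open MeasureTheory Set Filter Topology

theorem fatouB_bound (f : ℝ → V → ℝ) (hf : Sol f) (θ : V → ℝ) (hc : HasCompactSupport θ)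
    (t1 t2 : ℝ) (h2 : t2 < 0) :
    ∃ B : ℝ, 0 < B ∧ ∀ t ∈ Icc t1 t2, ∀ i : Fin 3, ∀ v ∈ tsupport θ, |pd i (f t) v| ≤ B := by
  have hK : IsCompact (Icc t1 t2 ×ˢ tsupport θ) := isCompact_Icc.prod hc
  have hsub : Icc t1 t2 ×ˢ tsupport θ ⊆ Iio (0 : ℝ) ×ˢ (univ : Set V) :=
    fun p hp => ⟨hp.1.2.trans_lt h2, mem_univ _⟩
  have hb : ∀ i : Fin 3, ∃ B : ℝ, ∀ p ∈ Icc t1 t2 ×ˢ tsupport θ, ‖pd i (f p.1) p.2‖ ≤ B :=
    fun i => hK.exists_bound_of_continuousOn ((joint_pd f hf i).mono hsub)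
  choose B hB using hb
  refine ⟨1 + ∑ i, |B i|, by positivity, fun t ht i v hv => ?_⟩
  have h1 := hB i (t, v) ⟨ht, hv⟩
  rw [Real.norm_eq_abs] at h1
  have h3 : |B i| ≤ ∑ j, |B j| :=
    Finset.single_le_sum (f := fun j => |B j|) (fun j _ => abs_nonneg _) (Finset.mem_univ i)
  have h4 := le_abs_self (B i)
  linarith

theorem deps_fatou (f : ℝ → V → ℝ) (hf : Sol f) (θ : V → ℝ) (hθ : ContDiff ℝ (⊤ : ℕ∞) θ)
    (hc : HasCompactSupport θ) (h0 : ∀ v, 0 ≤ θ v) (t1 t2 : ℝ) (h12 : t1 ≤ t2) (h2 : t2 < 0)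
    (κ0 : ℝ)
    (h : ∀ δ > 0, ∃ ε0 > 0, ∀ ε ∈ Ioo (0 : ℝ) ε0, ∫ t in t1..t2, Deps θ (f t) ε ≤ κ0 + δ) :
    0 ≤ κ0 ∧ ∫⁻ t in Icc t1 t2, DDc θ (f t) ≤ ENNReal.ofReal (32 * Real.pi * κ0) := by
  obtain ⟨C, hC, hlow⟩ := deps_lower θ hθ hc h0
  obtain ⟨B, hB, hbd⟩ := fatouB_bound f hf θ hc t1 t2 h2
  set K : ℝ := C * B ^ 2 with hK
  have hKpos : 0 < K := by positivity
  have hpi : (0 : ℝ) < 32 * Real.pi := by positivity
  have hneg : ∀ t ∈ Icc t1 t2, t < 0 := fun t ht => ht.2.trans_lt h2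
  set D : ℕ → ℝ → ℝ := fun n t => Deps θ (f t) (1 / ((n : ℝ) + 1)) with hD
  have hεn : ∀ n : ℕ, (0 : ℝ) < 1 / ((n : ℝ) + 1) := fun n => by positivity
  have hDc : ∀ n, ContinuousOn (D n) (Icc t1 t2) := fun n =>
    (deps_cont f hf θ hθ hc _ (hεn n)).mono fun t ht => hneg t ht
  have hDlow : ∀ n, ∀ t ∈ Icc t1 t2, 0 ≤ D n t + K := by
    intro n t ht
    have := (hlow (f t) (hf.cls t (hneg t ht)) B hB.le (hbd t ht)).1 _ (hεn n)
    simp only [hD]
    linarith
  have hDint : ∀ n, IntegrableOn (D n) (Icc t1 t2) := fun n =>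
    (hDc n).integrableOn_compact isCompact_Icc
  have hvol : (volume (Icc t1 t2)) = ENNReal.ofReal (t2 - t1) := Real.volume_Icc
  -- the lintegral of the approximations
  have hFn : ∀ n, ∫⁻ t in Icc t1 t2, ENNReal.ofReal (32 * Real.pi * (D n t + K)) =
      ENNReal.ofReal (32 * Real.pi * ((∫ t in t1..t2, D n t) + K * (t2 - t1))) := by
    intro n
    have hint : IntegrableOn (fun t => 32 * Real.pi * (D n t + K)) (Icc t1 t2) :=
      (((hDc n).add continuousOn_const).const_mul _ |>.integrableOn_compact isCompact_Icc)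
    rw [← ofReal_integral_eq_lintegral_ofReal hint]
    · congr 1
      rw [integral_const_mul]
      congr 1
      rw [integral_add (hDint n) (by
        exact (continuousOn_const.integrableOn_compact isCompact_Icc)),
        intervalIntegral.integral_of_le h12, integral_Icc_eq_integral_Ioc]
      congr 1
      rw [setIntegral_const, Real.volume_real_Icc_of_le h12, smul_eq_mul, mul_comm]
    · refine (ae_restrict_iff' measurableSet_Icc).2 (Eventually.of_forall fun t ht => ?_)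
      exact mul_nonneg hpi.le (hDlow n t ht)
  -- Fatou
  have hfat : ∀ δ > 0, (∫⁻ t in Icc t1 t2, DDc θ (f t)) +
      ENNReal.ofReal (32 * Real.pi * K * (t2 - t1)) ≤
      ENNReal.ofReal (32 * Real.pi * (κ0 + δ + K * (t2 - t1))) := by
    intro δ hδ
    obtain ⟨ε0, hε0, hδ'⟩ := h δ hδ
    have hconst : ENNReal.ofReal (32 * Real.pi * K * (t2 - t1)) =
        ∫⁻ _t in Icc t1 t2, ENNReal.ofReal (32 * Real.pi * K) := by
      rw [setLIntegral_const, hvol, ← ENNReal.ofReal_mul (by positivity)]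
    rw [hconst, ← lintegral_add_right _ measurable_const]
    calc ∫⁻ t in Icc t1 t2, (DDc θ (f t) + ENNReal.ofReal (32 * Real.pi * K))
        ≤ ∫⁻ t in Icc t1 t2, liminf (fun n : ℕ =>
            ENNReal.ofReal (32 * Real.pi * (D n t + K))) atTop := by
          refine setLIntegral_mono_ae' measurableSet_Icc (Eventually.of_forall fun t ht => ?_)
          exact (hlow (f t) (hf.cls t (hneg t ht)) B hB.le (hbd t ht)).2
      _ ≤ liminf (fun n : ℕ => ∫⁻ t in Icc t1 t2,
            ENNReal.ofReal (32 * Real.pi * (D n t + K))) atTop := by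
          refine lintegral_liminf_le' fun n => ?_
          have hcn : ContinuousOn (fun t => 32 * Real.pi * (D n t + K)) (Icc t1 t2) :=
            ((hDc n).add continuousOn_const).const_mul _
          exact (hcn.aemeasurable measurableSet_Icc).ennreal_ofReal
      _ ≤ ENNReal.ofReal (32 * Real.pi * (κ0 + δ + K * (t2 - t1))) := by
          refine liminf_le_of_frequently_le' (Eventually.frequently ?_)
          have hlim : Tendsto (fun n : ℕ => 1 / ((n : ℝ) + 1)) atTop (𝓝 0) :=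
            tendsto_one_div_add_atTop_nhds_zero_nat
          filter_upwards [hlim.eventually (gt_mem_nhds hε0)] with n hn
          rw [hFn n]
          refine ENNReal.ofReal_le_ofReal ?_
          have := hδ' _ ⟨hεn n, hn⟩
          refine mul_le_mul_of_nonneg_left ?_ hpi.le
          simp only [hD]
          linarith
  have hκ : 0 ≤ κ0 := by
    refine le_of_forall_pos_le_add fun δ hδ => ?_
    rcases h12.eq_or_lt with heq | hlt
    · obtain ⟨ε0, hε0, hδ'⟩ := h δ hδ
      have := hδ' (ε0 / 2) ⟨by linarith, by linarith⟩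
      rw [heq, intervalIntegral.integral_same] at this
      exact this
    · have h3 := hfat δ hδ
      have h4 : ENNReal.ofReal (32 * Real.pi * K * (t2 - t1)) ≤
          ENNReal.ofReal (32 * Real.pi * (κ0 + δ + K * (t2 - t1))) := le_trans le_add_self h3
      have hp : 0 < 32 * Real.pi * K * (t2 - t1) := mul_pos (mul_pos hpi hKpos) (by linarith)
      by_contra hcon
      push Not at hcon
      have h5 : 32 * Real.pi * (κ0 + δ + K * (t2 - t1)) < 32 * Real.pi * K * (t2 - t1) := by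
        have : 32 * Real.pi * (κ0 + δ) < 0 := mul_neg_of_pos_of_neg hpi hcon
        nlinarith
      exact absurd h4 (not_le.2 ((ENNReal.ofReal_lt_ofReal_iff hp).2 h5))
  refine ⟨hκ, ?_⟩
  refine ENNReal.le_of_forall_pos_le_add fun ε hε _ => ?_
  set δ : ℝ := (ε : ℝ) / (32 * Real.pi) with hδ
  have hδpos : 0 < δ := div_pos (by exact_mod_cast hε) hpi
  have h3 := hfat δ hδpos
  have hc0 : 0 ≤ 32 * Real.pi * K * (t2 - t1) :=
    mul_nonneg (mul_nonneg hpi.le hKpos.le) (by linarith)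
  have h4 : 32 * Real.pi * (κ0 + δ + K * (t2 - t1)) =
      (32 * Real.pi * κ0 + ε) + 32 * Real.pi * K * (t2 - t1) := by
    rw [hδ]; field_simp
  rw [h4, ENNReal.ofReal_add (by positivity) hc0] at h3
  have h5 := (ENNReal.add_le_add_iff_right ENNReal.ofReal_ne_top).1 h3
  refine h5.trans ?_
  rw [ENNReal.ofReal_add (by positivity) (by positivity), ENNReal.ofReal_coe_nnreal]

end Pool.Agent.Landau
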