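import Pool.Agent.Landau.Baire
import Pool.Agent.Landau.EntRem
import Pool.Agent.Landau.EntTime
import Pool.Agent.Landau.FatouB

/-!
# Landau, module EntLoc: localised entropy inequality

Fix `R ≥ 1`, `θ = chi R`.  For `0 < ε ≤ 1` the bounds `rem_bound` and `cons_global` (mass and energy do not
depend on time) allow to take `κ = C (1 + m)² / R` in `deps_int`, `m = mass (f t1) + energy (f t1)`.
As `ε → 0`, `∫ θ bet ε (f t) → ∫ θ (f t log f t - f t)` for `t = t1, t2`: dominated convergence with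
`|bet ε s| ≤ |s log s| + 2 s` (`bet_bounds`, `ent_int`), and `bet ε s → s log s - s` (for `s > 0` by
continuity of `log` and `ε log ε → 0`, for `s = 0` all terms vanish).  Then `deps_fatou`.
-/

set_option autoImplicit false

namespace Pool.Agent.Landau

open MeasureTheory Set Filter Topology

theorem entLoc_bet_tendsto (s : ℝ) :
    Tendsto (fun ε : ℝ => bet ε s) (𝓝[>] 0) (𝓝 (s * Real.log s - s)) := by
  have h1 : Tendsto (fun ε : ℝ => (s + ε) * Real.log (s + ε)) (𝓝 0) (𝓝 (s * Real.log s)) := by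
    have h2 : Continuous (fun ε : ℝ => (s + ε) * Real.log (s + ε)) :=
      Real.continuous_mul_log.comp (continuous_const.add continuous_id)
    have h3 := h2.tendsto 0
    simpa using h3
  have h4 : Tendsto (fun ε : ℝ => ε * Real.log ε) (𝓝 0) (𝓝 0) := by
    have h5 := Real.continuous_mul_log.tendsto 0
    simpa using h5
  have h6 := (h1.sub (tendsto_const_nhds (x := s))).sub h4
  rw [sub_zero] at h6
  exact h6.mono_left nhdsWithin_le_nhds

theorem entLoc_lim (g : V → ℝ) (hg : Cls g) (R : ℝ) :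
    Tendsto (fun ε : ℝ => ∫ v, chi R v * bet ε (g v)) (𝓝[>] 0)
      (𝓝 (∫ v, chi R v * (g v * Real.log (g v) - g v))) := by
  have hint := (ent_int g hg).1
  refine tendsto_integral_filter_of_dominated_convergence
    (fun v => |g v * Real.log (g v)| + 2 * g v) ?_ ?_ ?_ ?_
  · refine Eventually.of_forall fun ε => ?_
    have h1 : Measurable (fun v => bet ε (g v)) := by
      unfold bet
      have := hg.cont.measurable
      fun_prop
    exact (chi_smooth R).continuous.aestronglyMeasurable.mul h1.aestronglyMeasurable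
  · have h1 : Ioo (0 : ℝ) 1 ∈ 𝓝[>] (0 : ℝ) := Ioo_mem_nhdsGT one_pos
    filter_upwards [h1] with ε hε
    refine Eventually.of_forall fun v => ?_
    have h2 := (bet_bounds ε (g v) hε.1 hε.2.le (hg.nonneg v) (hg.le_one v)).2.2.2
    rw [norm_mul, Real.norm_eq_abs, Real.norm_eq_abs, abs_of_nonneg (chi_nonneg R v)]
    calc chi R v * |bet ε (g v)| ≤ 1 * |bet ε (g v)| :=
          mul_le_mul_of_nonneg_right (chi_le_one R v) (abs_nonneg _)
      _ ≤ |g v * Real.log (g v)| + 2 * g v := by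
          rw [one_mul]
          exact h2
  · exact hint.abs.add (hg.int_g.const_mul 2)
  · exact Eventually.of_forall fun v => (entLoc_bet_tendsto (g v)).const_mul _

theorem ent_loc : ∃ C : ℝ, 0 < C ∧ ∀ f : ℝ → V → ℝ, Sol f → ∀ t1 t2 R : ℝ, t1 ≤ t2 → t2 < 0 →
    1 ≤ R →
    0 ≤ (∫ v, chi R v * (f t1 v * Real.log (f t1 v) - f t1 v)) -
        (∫ v, chi R v * (f t2 v * Real.log (f t2 v) - f t2 v)) +
        C * (1 + (mass (f t1) + energy (f t1))) ^ 2 / R * (t2 - t1) ∧
    ∫⁻ t in Icc t1 t2, DDc (chi R) (f t) ≤ ENNReal.ofReal (32 * Real.pi *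
      ((∫ v, chi R v * (f t1 v * Real.log (f t1 v) - f t1 v)) -
        (∫ v, chi R v * (f t2 v * Real.log (f t2 v) - f t2 v)) +
        C * (1 + (mass (f t1) + energy (f t1))) ^ 2 / R * (t2 - t1))) := by
  obtain ⟨C, hC, hrem⟩ := rem_bound
  refine ⟨C, hC, ?_⟩
  intro f hf t1 t2 R h12 h2 hR
  have hR0 : 0 < R := by linarith
  have h1 : t1 < 0 := h12.trans_lt h2
  refine deps_fatou f hf (chi R) (chi_smooth R) (chi_compact hR0) (chi_nonneg R) t1 t2 h12 h2 _ ?_
  intro δ hδ
  have hlim := ((entLoc_lim (f t1) (hf.cls t1 h1) R).sub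
    (entLoc_lim (f t2) (hf.cls t2 h2) R)).add_const
      (C * (1 + (mass (f t1) + energy (f t1))) ^ 2 / R * (t2 - t1))
  have hev := hlim.eventually (gt_mem_nhds (lt_add_of_pos_right _ hδ))
  have h3 : Ioo (0 : ℝ) 1 ∈ 𝓝[>] (0 : ℝ) := Ioo_mem_nhdsGT one_pos
  obtain ⟨ε0, hε0, hsub⟩ := (mem_nhdsGT_iff_exists_Ioo_subset).1 (inter_mem hev h3)
  refine ⟨ε0, hε0, fun ε hε => ?_⟩
  obtain ⟨h4, h5⟩ := hsub hε
  have h6 := deps_int f hf (chi R) (chi_smooth R) (chi_compact hR0) (chi_nonneg R) (chi_le_one R)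
    ε h5.1 t1 t2 h12 h2 (C * (1 + (mass (f t1) + energy (f t1))) ^ 2 / R) (fun t ht => by
      have ht0 : t < 0 := ht.2.trans_lt h2
      obtain ⟨c1, c2, -⟩ := cons_global f hf t1 t h1 ht0
      refine (le_abs_self _).trans (hrem (f t) (hf.cls t ht0) _ R ε ?_ hR h5.1 h5.2.le)
      rw [c1, c2])
  exact h6.trans (le_of_lt h4)

end Pool.Agent.Landau
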