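import Pool.Agent.Landau.DDMeas
import Pool.Agent.Landau.KBd
import Pool.Agent.Landau.KInt

/-!
# Landau, module FatouA: the limit of the approximate dissipation at a fixed time

Write `g = g v`, `g_* = g w`, `z = v - w`, `γ^ε_i = ∂_i g / (g + ε)`, `Δ^ε = γ^ε(v) - γ^ε(w)`,
`P_j = g_* ∂_j g(v) - g ∂_j g(w)`.  The integrand of `Deps` is `I(v, w) = θ θ_* ∑ a_ij(z) γ^ε_i(v) P_j`, an integrable
function on `V × V` (`integrable_prod_inv`), so `Deps` is its integral over the product and (swap, `aK_neg`)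
equal to the integral of `S_ε = (1/2) θ θ_* ∑ a_ij(z) Δ^ε_i P_j`.  As
`P_j = (g + ε)(g_* + ε) Δ^ε_j - ε (∂_j g(v) - ∂_j g(w))`, `ε |γ^ε_i| ≤ |∂_i g| ≤ B` on the support of `θ`,
`kernel_quad_nonneg` and `aK_abs` give `S_ε ≥ - (1/2) θ θ_* 9 (2 B) (2 B) / ‖z‖ = -18 B² θ θ_* / ‖z‖`.
So `C = 18 ∫∫ θ θ_* / ‖v - w‖` (finite) works for the lower bound.  Pointwise, as `ε → 0`,
`S_ε → (1/2) θ θ_* g g_* ∑ a_ij(z) (γ_i - γ_i*)(γ_j - γ_j*) = θ θ_* g g_* XS / (32 π ‖z‖³)` by `kernel_quad`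
(if `g v = 0` then `∂ g(v) = 0` by `Cls.pd_zero`, and `S_ε = 0`; the same for `w`).
Apply Fatou's lemma (`lintegral_liminf_le`) on `V × V` to `ofReal (S_ε + 18 B² θ θ_* / ‖z‖)`, `ε = 1 / (n + 1)`, multiply
by `32 π`, and use `ddc_prod`.
-/

set_option autoImplicit false

namespace Pool.Agent.Landau

open MeasureTheory Set Filter Topology

/-- the integrand of `Deps` -/
noncomputable def Ie (θ g : V → ℝ) (ε : ℝ) (p : V × V) : ℝ :=
  θ p.1 * θ p.2 * (g p.1 + ε)⁻¹ *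
    ∑ i : Fin 3, ∑ j : Fin 3, aK i j (p.1 - p.2) * pd i g p.1 *
      (g p.2 * pd j g p.1 - g p.1 * pd j g p.2)

/-- the symmetrised integrand of `Deps` -/
noncomputable def Se (θ g : V → ℝ) (ε : ℝ) (p : V × V) : ℝ :=
  (1 / 2) * (Ie θ g ε p + Ie θ g ε p.swap)

/-- the dominating kernel -/
noncomputable def Jk (θ : V → ℝ) (p : V × V) : ℝ := θ p.1 * θ p.2 / ‖p.1 - p.2‖

theorem Jk_int (θ : V → ℝ) (hθ : Continuous θ) (hc : HasCompactSupport θ) :
    Integrable (Jk θ) (volume.prod volume) := by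
  obtain ⟨C, hC⟩ := hc.exists_bound_of_continuous hθ
  have hi : Integrable θ := hθ.integrable_of_hasCompactSupport hc
  exact (integrable_prod_inv θ θ hi hi C (fun v => by
    rw [← Real.norm_eq_abs]; exact hC v)).1

theorem Jk_nonneg (θ : V → ℝ) (h0 : ∀ v, 0 ≤ θ v) (p : V × V) : 0 ≤ Jk θ p :=
  div_nonneg (mul_nonneg (h0 _) (h0 _)) (norm_nonneg _)

theorem Ie_meas (θ g : V → ℝ) (hθ : Continuous θ) (hg : Cls g) (ε : ℝ) :
    Measurable (Ie θ g ε) := by
  have h1 : Measurable θ := hθ.measurable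
  have h2 : Measurable g := hg.cont.measurable
  have h3 : ∀ i, Measurable (pd i g) := fun i =>
    (continuous_pd (contDiff_one_of_smooth hg.smooth) i).measurable
  unfold Ie
  refine Measurable.mul (((h1.comp measurable_fst).mul (h1.comp measurable_snd)).mul
    (((h2.comp measurable_fst).add_const ε).inv)) ?_
  refine Finset.measurable_sum _ fun i _ => Finset.measurable_sum _ fun j _ => ?_
  exact (((aK_measurable i j).comp (measurable_fst.sub measurable_snd)).mul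
    ((h3 i).comp measurable_fst)).mul
      (((h2.comp measurable_snd).mul ((h3 j).comp measurable_fst)).sub
        ((h2.comp measurable_fst).mul ((h3 j).comp measurable_snd)))

theorem Se_meas (θ g : V → ℝ) (hθ : Continuous θ) (hg : Cls g) (ε : ℝ) :
    Measurable (Se θ g ε) :=
  ((Ie_meas θ g hθ hg ε).add ((Ie_meas θ g hθ hg ε).comp measurable_swap)).const_mul _

/-- a double sum of nine terms is at most nine times a common bound -/
theorem sum9_abs (F : Fin 3 → Fin 3 → ℝ) (K : ℝ) (h : ∀ i j, |F i j| ≤ K) :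
    |∑ i, ∑ j, F i j| ≤ 9 * K := by
  calc |∑ i, ∑ j, F i j| ≤ ∑ i, |∑ j, F i j| := Finset.abs_sum_le_sum_abs _ _
    _ ≤ ∑ i : Fin 3, ∑ j : Fin 3, |F i j| :=
        Finset.sum_le_sum fun i _ => Finset.abs_sum_le_sum_abs _ _
    _ ≤ ∑ i : Fin 3, ∑ j : Fin 3, K :=
        Finset.sum_le_sum fun i _ => Finset.sum_le_sum fun j _ => h i j
    _ = 9 * K := by simp; ring

theorem Ie_bound (θ g : V → ℝ) (hg : Cls g) (h0 : ∀ v, 0 ≤ θ v) (B : ℝ) (hB0 : 0 ≤ B)
    (hB : ∀ i : Fin 3, ∀ v ∈ tsupport θ, |pd i g v| ≤ B) (ε : ℝ) (hε : 0 < ε) (p : V × V) :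
    |Ie θ g ε p| ≤ (ε⁻¹ * (9 * (B * (2 * B)))) * Jk θ p := by
  by_cases h1 : p.1 ∈ tsupport θ
  swap
  · have : θ p.1 = 0 := image_eq_zero_of_notMem_tsupport h1
    simp [Ie, Jk, this]
  by_cases h2 : p.2 ∈ tsupport θ
  swap
  · have : θ p.2 = 0 := image_eq_zero_of_notMem_tsupport h2
    simp [Ie, Jk, this]
  have hg1 := hg.nonneg p.1
  have hinv : |(g p.1 + ε)⁻¹| ≤ ε⁻¹ := by
    rw [abs_of_nonneg (by positivity)]
    exact inv_anti₀ hε (by linarith)
  have hz : 0 ≤ 1 / ‖p.1 - p.2‖ := by positivity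
  have hs : |∑ i : Fin 3, ∑ j : Fin 3, aK i j (p.1 - p.2) * pd i g p.1 *
      (g p.2 * pd j g p.1 - g p.1 * pd j g p.2)| ≤ 9 * (1 / ‖p.1 - p.2‖ * B * (2 * B)) := by
    refine sum9_abs _ _ fun i j => ?_
    rw [abs_mul, abs_mul]
    have e1 : |g p.2 * pd j g p.1 - g p.1 * pd j g p.2| ≤ 2 * B := by
      refine (abs_sub _ _).trans ?_
      rw [abs_mul, abs_mul, abs_of_nonneg (hg.nonneg _), abs_of_nonneg (hg.nonneg _)]
      have a1 : g p.2 * |pd j g p.1| ≤ 1 * B :=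
        mul_le_mul (hg.le_one _) (hB j _ h1) (abs_nonneg _) zero_le_one
      have a2 : g p.1 * |pd j g p.2| ≤ 1 * B :=
        mul_le_mul (hg.le_one _) (hB j _ h2) (abs_nonneg _) zero_le_one
      linarith
    exact mul_le_mul (mul_le_mul (aK_abs i j _) (hB i _ h1) (abs_nonneg _) hz) e1
      (abs_nonneg _) (mul_nonneg hz hB0)
  unfold Ie Jk
  rw [abs_mul, abs_mul, abs_mul, abs_of_nonneg (h0 _), abs_of_nonneg (h0 _)]
  calc θ p.1 * θ p.2 * |(g p.1 + ε)⁻¹| * |∑ i : Fin 3, ∑ j : Fin 3, aK i j (p.1 - p.2) * pd i g p.1 *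
        (g p.2 * pd j g p.1 - g p.1 * pd j g p.2)|
      ≤ θ p.1 * θ p.2 * ε⁻¹ * (9 * (1 / ‖p.1 - p.2‖ * B * (2 * B))) := by
        have hθθ : 0 ≤ θ p.1 * θ p.2 := mul_nonneg (h0 _) (h0 _)
        exact mul_le_mul (mul_le_mul_of_nonneg_left hinv hθθ) hs (abs_nonneg _) (by positivity)
    _ = (ε⁻¹ * (9 * (B * (2 * B)))) * (θ p.1 * θ p.2 / ‖p.1 - p.2‖) := by ring

theorem Ie_int (θ g : V → ℝ) (hθ : Continuous θ) (hc : HasCompactSupport θ) (hg : Cls g)
    (h0 : ∀ v, 0 ≤ θ v) (B : ℝ) (hB0 : 0 ≤ B)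
    (hB : ∀ i : Fin 3, ∀ v ∈ tsupport θ, |pd i g v| ≤ B) (ε : ℝ) (hε : 0 < ε) :
    Integrable (Ie θ g ε) (volume.prod volume) := by
  refine ((Jk_int θ hθ hc).const_mul (ε⁻¹ * (9 * (B * (2 * B))))).mono'
    (Ie_meas θ g hθ hg ε).aestronglyMeasurable (Eventually.of_forall fun p => ?_)
  rw [Real.norm_eq_abs]
  exact Ie_bound θ g hg h0 B hB0 hB ε hε p

theorem Se_int (θ g : V → ℝ) (hθ : Continuous θ) (hc : HasCompactSupport θ) (hg : Cls g)
    (h0 : ∀ v, 0 ≤ θ v) (B : ℝ) (hB0 : 0 ≤ B)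
    (hB : ∀ i : Fin 3, ∀ v ∈ tsupport θ, |pd i g v| ≤ B) (ε : ℝ) (hε : 0 < ε) :
    Integrable (Se θ g ε) (volume.prod volume) ∧
      ∫ p, Se θ g ε p ∂(volume.prod volume) = Deps θ g ε := by
  have hI := Ie_int θ g hθ hc hg h0 B hB0 hB ε hε
  have hI2 : Integrable (fun p : V × V => Ie θ g ε p.swap) (volume.prod volume) := hI.swap
  refine ⟨(hI.add hI2).const_mul _, ?_⟩
  have hD : Deps θ g ε = ∫ p, Ie θ g ε p ∂(volume.prod volume) := by
    rw [integral_prod _ hI]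
    rfl
  have hsw : ∫ p : V × V, Ie θ g ε p.swap ∂(volume.prod volume) =
      ∫ p, Ie θ g ε p ∂(volume.prod volume) := integral_prod_swap (Ie θ g ε)
  unfold Se
  rw [integral_const_mul, integral_add hI hI2, hsw, ← hD]
  ring

/-- algebraic form of the symmetrised integrand -/
theorem Se_eq (θ g : V → ℝ) (ε : ℝ) (p : V × V) :
    Se θ g ε p = (1 / 2) * (θ p.1 * θ p.2) * ∑ i : Fin 3, ∑ j : Fin 3,
      aK i j (p.1 - p.2) * (pd i g p.1 / (g p.1 + ε) - pd i g p.2 / (g p.2 + ε)) *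
        (g p.2 * pd j g p.1 - g p.1 * pd j g p.2) := by
  have hneg : ∀ i j, aK i j (p.2 - p.1) = aK i j (p.1 - p.2) := fun i j => by
    rw [← neg_sub, aK_neg]
  unfold Se Ie
  simp only [Prod.fst_swap, Prod.snd_swap, hneg, Finset.mul_sum, ← Finset.sum_add_distrib]
  refine Finset.sum_congr rfl fun i _ => Finset.sum_congr rfl fun j _ => ?_
  rw [div_eq_mul_inv, div_eq_mul_inv]
  ring

theorem Se_lower (θ g : V → ℝ) (hg : Cls g) (h0 : ∀ v, 0 ≤ θ v) (B : ℝ) (hB0 : 0 ≤ B)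
    (hB : ∀ i : Fin 3, ∀ v ∈ tsupport θ, |pd i g v| ≤ B) (ε : ℝ) (hε : 0 < ε) (p : V × V) :
    0 ≤ Se θ g ε p + 18 * B ^ 2 * Jk θ p := by
  by_cases h1 : p.1 ∈ tsupport θ
  swap
  · have : θ p.1 = 0 := image_eq_zero_of_notMem_tsupport h1
    simp [Se_eq, Jk, this]
  by_cases h2 : p.2 ∈ tsupport θ
  swap
  · have : θ p.2 = 0 := image_eq_zero_of_notMem_tsupport h2
    simp [Se_eq, Jk, this]
  have hp1 : 0 < g p.1 + ε := by linarith [hg.nonneg p.1]
  have hp2 : 0 < g p.2 + ε := by linarith [hg.nonneg p.2]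
  set D : Fin 3 → ℝ := fun i => pd i g p.1 / (g p.1 + ε) - pd i g p.2 / (g p.2 + ε) with hD
  have hP : ∀ j, g p.2 * pd j g p.1 - g p.1 * pd j g p.2 =
      (g p.1 + ε) * (g p.2 + ε) * D j - ε * (pd j g p.1 - pd j g p.2) := by
    intro j
    simp only [hD]
    field_simp
    ring
  have hsum : ∑ i : Fin 3, ∑ j : Fin 3, aK i j (p.1 - p.2) *
      (pd i g p.1 / (g p.1 + ε) - pd i g p.2 / (g p.2 + ε)) *
        (g p.2 * pd j g p.1 - g p.1 * pd j g p.2) =
      (g p.1 + ε) * (g p.2 + ε) * (∑ i : Fin 3, ∑ j : Fin 3, aK i j (p.1 - p.2) * D i * D j) -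
        ∑ i : Fin 3, ∑ j : Fin 3, aK i j (p.1 - p.2) * (ε * D i) *
          (pd j g p.1 - pd j g p.2) := by
    simp only [Finset.mul_sum, ← Finset.sum_sub_distrib]
    refine Finset.sum_congr rfl fun i _ => Finset.sum_congr rfl fun j _ => ?_
    rw [hP j]
    ring
  have hq := kernel_quad_nonneg (p.1 - p.2) D
  have hz : 0 ≤ 1 / ‖p.1 - p.2‖ := by positivity
  have hinv : ∀ v : V, ∀ i, v ∈ tsupport θ → |ε * (pd i g v / (g v + ε))| ≤ B := by
    intro v i hv
    have hpv : 0 < g v + ε := by linarith [hg.nonneg v]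
    have e1 : ε * (pd i g v / (g v + ε)) = (ε / (g v + ε)) * pd i g v := by ring
    rw [e1, abs_mul, abs_of_nonneg (by positivity)]
    have e2 : ε / (g v + ε) ≤ 1 := by
      rw [div_le_one hpv]
      linarith [hg.nonneg v]
    calc ε / (g v + ε) * |pd i g v| ≤ 1 * B :=
          mul_le_mul e2 (hB i v hv) (abs_nonneg _) zero_le_one
      _ = B := one_mul B
  have herr : |∑ i : Fin 3, ∑ j : Fin 3, aK i j (p.1 - p.2) * (ε * D i) *
          (pd j g p.1 - pd j g p.2)| ≤ 9 * (1 / ‖p.1 - p.2‖ * (2 * B) * (2 * B)) := by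
    refine sum9_abs _ _ fun i j => ?_
    rw [abs_mul, abs_mul]
    have e1 : |pd j g p.1 - pd j g p.2| ≤ 2 * B := by
      refine (abs_sub _ _).trans ?_
      linarith [hB j _ h1, hB j _ h2]
    have e2 : |ε * D i| ≤ 2 * B := by
      have : ε * D i = ε * (pd i g p.1 / (g p.1 + ε)) - ε * (pd i g p.2 / (g p.2 + ε)) := by
        simp only [hD]; ring
      rw [this]
      refine (abs_sub _ _).trans ?_
      linarith [hinv p.1 i h1, hinv p.2 i h2]
    exact mul_le_mul (mul_le_mul (aK_abs i j _) e2 (abs_nonneg _) hz) e1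
      (abs_nonneg _) (mul_nonneg hz (by positivity))
  have herr2 := (abs_le.1 herr).2
  have hθθ : 0 ≤ θ p.1 * θ p.2 := mul_nonneg (h0 _) (h0 _)
  have hA : 0 ≤ (g p.1 + ε) * (g p.2 + ε) *
      (∑ i : Fin 3, ∑ j : Fin 3, aK i j (p.1 - p.2) * D i * D j) :=
    mul_nonneg (mul_pos hp1 hp2).le hq
  rw [Se_eq, hsum]
  have key : 0 ≤ (1 / 2) * (θ p.1 * θ p.2) * (((g p.1 + ε) * (g p.2 + ε) *
      (∑ i : Fin 3, ∑ j : Fin 3, aK i j (p.1 - p.2) * D i * D j) -
        ∑ i : Fin 3, ∑ j : Fin 3, aK i j (p.1 - p.2) * (ε * D i) *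
          (pd j g p.1 - pd j g p.2)) + 9 * (1 / ‖p.1 - p.2‖ * (2 * B) * (2 * B))) := by
    refine mul_nonneg (by positivity) ?_
    linarith
  have e3 : 18 * B ^ 2 * Jk θ p = (1 / 2) * (θ p.1 * θ p.2) *
      (9 * (1 / ‖p.1 - p.2‖ * (2 * B) * (2 * B))) := by
    unfold Jk
    ring
  rw [e3, ← mul_add]
  exact key

theorem Se_tendsto (θ g : V → ℝ) (hg : Cls g) (p : V × V) :
    Tendsto (fun n : ℕ => 32 * Real.pi * Se θ g (1 / ((n : ℝ) + 1)) p) atTop
      (𝓝 (θ p.1 * θ p.2 * g p.1 * g p.2 * XS g p.1 p.2 / ‖p.1 - p.2‖ ^ 3)) := by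
  have hε : Tendsto (fun n : ℕ => 1 / ((n : ℝ) + 1)) atTop (𝓝 0) :=
    tendsto_one_div_add_atTop_nhds_zero_nat
  have hgam : ∀ (v : V) (i : Fin 3), Tendsto (fun n : ℕ => pd i g v / (g v + 1 / ((n : ℝ) + 1)))
      atTop (𝓝 (gam i g v)) := by
    intro v i
    by_cases h : g v = 0
    · have h1 : pd i g v = 0 := hg.pd_zero h i
      simp [gam, h1]
    · have h2 : Tendsto (fun n : ℕ => g v + 1 / ((n : ℝ) + 1)) atTop (𝓝 (g v)) := by
        simpa using hε.const_add (g v)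
      exact tendsto_const_nhds.div h2 h
  have hlim : Tendsto (fun n : ℕ => 32 * Real.pi * ((1 / 2) * (θ p.1 * θ p.2) *
      ∑ i : Fin 3, ∑ j : Fin 3, aK i j (p.1 - p.2) *
        (pd i g p.1 / (g p.1 + 1 / ((n : ℝ) + 1)) - pd i g p.2 / (g p.2 + 1 / ((n : ℝ) + 1))) *
        (g p.2 * pd j g p.1 - g p.1 * pd j g p.2))) atTop
      (𝓝 (32 * Real.pi * ((1 / 2) * (θ p.1 * θ p.2) *
        ∑ i : Fin 3, ∑ j : Fin 3, aK i j (p.1 - p.2) * (gam i g p.1 - gam i g p.2) *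
          (g p.2 * pd j g p.1 - g p.1 * pd j g p.2)))) := by
    refine Tendsto.const_mul _ (Tendsto.const_mul _ ?_)
    refine tendsto_finsetSum _ fun i _ => tendsto_finsetSum _ fun j _ => ?_
    exact (((hgam p.1 i).sub (hgam p.2 i)).const_mul _).mul_const _
  simp only [Se_eq]
  convert hlim using 2
  have hpi := Real.pi_pos
  have e1 : ∑ i : Fin 3, ∑ j : Fin 3, aK i j (p.1 - p.2) * (gam i g p.1 - gam i g p.2) *
          (g p.2 * pd j g p.1 - g p.1 * pd j g p.2) =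
      g p.1 * g p.2 * ∑ i : Fin 3, ∑ j : Fin 3, aK i j (p.1 - p.2) *
        (gam i g p.1 - gam i g p.2) * (gam j g p.1 - gam j g p.2) := by
    simp only [Finset.mul_sum]
    refine Finset.sum_congr rfl fun i _ => Finset.sum_congr rfl fun j _ => ?_
    rw [← hg.gam_mul j p.1, ← hg.gam_mul j p.2]
    ring
  rw [e1, kernel_quad (p.1 - p.2) (fun i => gam i g p.1 - gam i g p.2)]
  have e2 : ∑ a : Fin 3, ∑ b : Fin 3, ((p.1 - p.2) a * (gam b g p.1 - gam b g p.2) -
      (p.1 - p.2) b * (gam a g p.1 - gam a g p.2)) ^ 2 = XS g p.1 p.2 := rfl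
  rw [e2]
  field_simp
  ring

theorem deps_lower (θ : V → ℝ) (hθ : ContDiff ℝ (⊤ : ℕ∞) θ) (hc : HasCompactSupport θ)
    (h0 : ∀ v, 0 ≤ θ v) : ∃ C : ℝ, 0 < C ∧ ∀ g : V → ℝ, Cls g → ∀ B : ℝ, 0 ≤ B →
    (∀ i : Fin 3, ∀ v ∈ tsupport θ, |pd i g v| ≤ B) →
      (∀ ε > 0, -(C * B ^ 2) ≤ Deps θ g ε) ∧
      DDc θ g + ENNReal.ofReal (32 * Real.pi * (C * B ^ 2)) ≤
        liminf (fun n : ℕ => ENNReal.ofReal
          (32 * Real.pi * (Deps θ g (1 / ((n : ℝ) + 1)) + C * B ^ 2))) atTop := by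
  have hJ := Jk_int θ hθ.continuous hc
  have hJ0 : 0 ≤ ∫ p, Jk θ p ∂(volume.prod volume) := integral_nonneg (Jk_nonneg θ h0)
  have hpi := Real.pi_pos
  refine ⟨18 * (∫ p, Jk θ p ∂(volume.prod volume)) + 1, by linarith, ?_⟩
  intro g hg B hB0 hB
  have hlow : ∀ ε > 0, 0 ≤ Deps θ g ε + 18 * B ^ 2 * ∫ p, Jk θ p ∂(volume.prod volume) := by
    intro ε hε
    obtain ⟨hSi, hSe⟩ := Se_int θ g hθ.continuous hc hg h0 B hB0 hB ε hε
    rw [← hSe, ← integral_const_mul, ← integral_add hSi (hJ.const_mul _)]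
    exact integral_nonneg fun p => Se_lower θ g hg h0 B hB0 hB ε hε p
  constructor
  · intro ε hε
    have := hlow ε hε
    nlinarith [sq_nonneg B]
  · set K0 : ℝ := 18 * B ^ 2 * ∫ p, Jk θ p ∂(volume.prod volume) with hK0
    have hK : (18 * (∫ p, Jk θ p ∂(volume.prod volume)) + 1) * B ^ 2 = K0 + B ^ 2 := by
      rw [hK0]; ring
    rw [hK]
    have hK00 : 0 ≤ K0 := by rw [hK0]; positivity
    have hεn : ∀ n : ℕ, (0 : ℝ) < 1 / ((n : ℝ) + 1) := fun n => by positivity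
    -- Fatou
    have hF := lintegral_liminf_le (μ := (volume : Measure V).prod (volume : Measure V))
      (u := atTop) (f := fun (n : ℕ) (p : V × V) => ENNReal.ofReal
        (32 * Real.pi * (Se θ g (1 / ((n : ℝ) + 1)) p + 18 * B ^ 2 * Jk θ p))) ?_
    swap
    · intro n
      have hJm : Measurable (Jk θ) := by
        have h1 : Measurable θ := hθ.continuous.measurable
        exact ((h1.comp measurable_fst).mul (h1.comp measurable_snd)).div
          (measurable_norm.comp (measurable_fst.sub measurable_snd))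
      exact (((Se_meas θ g hθ.continuous hg _).add (hJm.const_mul _)).const_mul _).ennreal_ofReal
    have hR : ∀ n : ℕ, ∫⁻ p : V × V, ENNReal.ofReal
        (32 * Real.pi * (Se θ g (1 / ((n : ℝ) + 1)) p + 18 * B ^ 2 * Jk θ p))
          ∂(volume.prod volume) =
        ENNReal.ofReal (32 * Real.pi * (Deps θ g (1 / ((n : ℝ) + 1)) + K0)) := by
      intro n
      obtain ⟨hSi, hSe⟩ := Se_int θ g hθ.continuous hc hg h0 B hB0 hB _ (hεn n)
      have hi : Integrable (fun p : V × V => 32 * Real.pi *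
          (Se θ g (1 / ((n : ℝ) + 1)) p + 18 * B ^ 2 * Jk θ p)) (volume.prod volume) :=
        (hSi.add (hJ.const_mul _)).const_mul _
      rw [← ofReal_integral_eq_lintegral_ofReal hi
        (Eventually.of_forall fun p => mul_nonneg (by positivity)
          (Se_lower θ g hg h0 B hB0 hB _ (hεn n) p))]
      congr 1
      rw [integral_const_mul, integral_add hSi (hJ.const_mul _), hSe, integral_const_mul]
    have hL : ∫⁻ p : V × V, liminf (fun n : ℕ => ENNReal.ofReal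
        (32 * Real.pi * (Se θ g (1 / ((n : ℝ) + 1)) p + 18 * B ^ 2 * Jk θ p))) atTop
          ∂(volume.prod volume) = DDc θ g + ENNReal.ofReal (32 * Real.pi * K0) := by
      have hpt : ∀ p : V × V, liminf (fun n : ℕ => ENNReal.ofReal
          (32 * Real.pi * (Se θ g (1 / ((n : ℝ) + 1)) p + 18 * B ^ 2 * Jk θ p))) atTop =
          ENNReal.ofReal (θ p.1 * θ p.2 * g p.1 * g p.2 * XS g p.1 p.2 / ‖p.1 - p.2‖ ^ 3) +
            ENNReal.ofReal (32 * Real.pi * (18 * B ^ 2 * Jk θ p)) := by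
        intro p
        have ht := Se_tendsto θ g hg p
        have ht2 : Tendsto (fun n : ℕ => 32 * Real.pi *
            (Se θ g (1 / ((n : ℝ) + 1)) p + 18 * B ^ 2 * Jk θ p)) atTop
            (𝓝 (θ p.1 * θ p.2 * g p.1 * g p.2 * XS g p.1 p.2 / ‖p.1 - p.2‖ ^ 3 +
              32 * Real.pi * (18 * B ^ 2 * Jk θ p))) := by
          have := ht.add_const (32 * Real.pi * (18 * B ^ 2 * Jk θ p))
          refine this.congr fun n => ?_
          ring
        have hXS : 0 ≤ XS g p.1 p.2 :=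
          Finset.sum_nonneg fun a _ => Finset.sum_nonneg fun b _ => sq_nonneg _
        rw [← ENNReal.ofReal_add]
        · exact ((ENNReal.continuous_ofReal.tendsto _).comp ht2).liminf_eq
        · have h1 := h0 p.1
          have h2 := h0 p.2
          have h3 := hg.nonneg p.1
          have h4 := hg.nonneg p.2
          positivity
        · have := Jk_nonneg θ h0 p
          positivity
      simp only [hpt]
      rw [lintegral_add_left (dd_integrand_meas g hg θ hθ.continuous), ← ddc_prod g hg θ hθ.continuous]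
      congr 1
      rw [← ofReal_integral_eq_lintegral_ofReal ((hJ.const_mul _).const_mul _)
        (Eventually.of_forall fun p => mul_nonneg (by positivity)
          (mul_nonneg (by positivity) (Jk_nonneg θ h0 p)))]
      congr 1
      rw [integral_const_mul, integral_const_mul]
    rw [hL] at hF
    simp only [hR] at hF
    have hsplit : ∀ n : ℕ, ENNReal.ofReal
          (32 * Real.pi * (Deps θ g (1 / ((n : ℝ) + 1)) + (K0 + B ^ 2))) =
        ENNReal.ofReal (32 * Real.pi * (Deps θ g (1 / ((n : ℝ) + 1)) + K0)) +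
          ENNReal.ofReal (32 * Real.pi * B ^ 2) := by
      intro n
      rw [← ENNReal.ofReal_add (mul_nonneg (by positivity) (hlow _ (hεn n))) (by positivity)]
      congr 1
      ring
    simp only [hsplit]
    rw [liminf_add_const _ _ _ isCobounded_ge_of_top isBounded_ge_of_bot, mul_add,
      ENNReal.ofReal_add (by positivity) (by positivity), ← add_assoc]
    exact add_le_add_left hF _

end Pool.Agent.Landau
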