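import Pool.Agent.Landau.Poin
import Pool.Agent.Landau.Defs3

/-!
# Landau, module Gauss: convergence to a Gaussian on balls

Put `F_n v = g n v * exp (- quad μ ℓ v)`; `∂_b F_n = exp (- quad) (∂_b g_n - g_n (μ v_b + ℓ_b))`, so
`∫_{‖v‖ < ρ} |∂_b F_n| → 0` for all `ρ`.  Let `c_n = (∫ over the unit ball of F_n) / volume (unit ball)`, a bounded
sequence of nonnegative numbers (`0 ≤ g_n ≤ 1`), take a subsequence with `c_{s n} → c ≥ 0`.  For `ρ ≥ 1`,
`∫_{‖x‖ < ρ} |F_n x - c_n| ≤ (1 / volume (unit ball)) ∫_{‖x‖ < ρ} ∫_{‖y‖ < 1} |F_n x - F_n y| → 0` (`poincare`), so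
`∫_{‖v‖ < ρ} |F_n - c| → 0` along the subsequence, and multiply by `exp (quad)`, bounded on the ball.
-/

set_option autoImplicit false

namespace Pool.Agent.Landau

open MeasureTheory Set Filter Topology

namespace GaussAux

theorem contDiff_quad (μ : ℝ) (ℓ : Fin 3 → ℝ) : ContDiff ℝ 1 (quad μ ℓ) := by
  unfold quad
  refine ContDiff.add (contDiff_const.mul (contDiff_norm_sq ℝ)) ?_
  refine ContDiff.sum fun i _ => contDiff_const.mul ?_
  fun_prop

theorem pd_quad (μ : ℝ) (ℓ : Fin 3 → ℝ) (b : Fin 3) (v : V) :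
    pd b (quad μ ℓ) v = μ * v b + ℓ b := by
  have h1 : HasFDerivAt (fun x : V => ‖x‖ ^ 2) (2 • innerSL ℝ v) v :=
    (hasStrictFDerivAt_norm_sq v).hasFDerivAt
  have h2 : ∀ i : Fin 3, HasFDerivAt (fun x : V => x i)
      (EuclideanSpace.proj i : V →L[ℝ] ℝ) v := fun i =>
    (EuclideanSpace.proj i : V →L[ℝ] ℝ).hasFDerivAt
  have h3 : HasFDerivAt (quad μ ℓ)
      ((μ / 2) • (2 • innerSL ℝ v) + ∑ i : Fin 3, ℓ i • (EuclideanSpace.proj i : V →L[ℝ] ℝ)) v := by
    unfold quad
    exact (h1.const_mul (μ / 2)).add (HasFDerivAt.fun_sum fun i _ => (h2 i).const_mul (ℓ i))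
  unfold pd
  rw [h3.fderiv]
  simp [Pi.single_apply, EuclideanSpace.inner_single_right]
  ring

/-- bound of a continuous function on a ball -/
theorem bdd (h : V → ℝ) (hh : Continuous h) (ρ : ℝ) :
    ∃ M : ℝ, 0 < M ∧ ∀ v ∈ Metric.ball (0 : V) ρ, |h v| ≤ M := by
  obtain ⟨M, hM⟩ := (isCompact_closedBall (0 : V) ρ).exists_bound_of_continuousOn hh.continuousOn
  refine ⟨max M 1, by positivity, fun v hv => ?_⟩
  exact (hM v (Metric.ball_subset_closedBall hv)).trans (le_max_left _ _)

theorem ion (ρ : ℝ) (G : V → ℝ) (hG : Continuous G) : IntegrableOn G (Metric.ball (0 : V) ρ) :=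
  (hG.continuousOn.integrableOn_compact (isCompact_closedBall 0 ρ)).mono_set
    Metric.ball_subset_closedBall

theorem cont_abs (ρ : ℝ) (G : V → ℝ) (hG : Continuous G) :
    Continuous fun t : ℝ => ∫ y in Metric.ball (0 : V) ρ, |t - G y| := by
  have hw : 0 ≤ (volume (Metric.ball (0 : V) ρ)).toReal := ENNReal.toReal_nonneg
  refine (LipschitzWith.of_dist_le_mul (K := ⟨(volume (Metric.ball (0 : V) ρ)).toReal, hw⟩)
    (fun t t' => ?_)).continuous
  have hi : ∀ t : ℝ, IntegrableOn (fun y => |t - G y|) (Metric.ball (0 : V) ρ) := fun t =>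
    ion ρ _ (continuous_const.sub hG).abs
  rw [Real.dist_eq, Real.dist_eq, ← integral_sub (hi t) (hi t')]
  calc |∫ y in Metric.ball (0 : V) ρ, (|t - G y| - |t' - G y|)|
      ≤ ∫ y in Metric.ball (0 : V) ρ, abs (|t - G y| - |t' - G y|) := abs_integral_le_integral_abs
    _ ≤ ∫ y in Metric.ball (0 : V) ρ, |t - t'| := by
        refine setIntegral_mono_on ((hi t).sub (hi t')).abs (ion ρ _ continuous_const)
          measurableSet_ball (fun y _ => ?_)
        refine (abs_abs_sub_abs_le _ _).trans (le_of_eq ?_)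
        congr 1
        ring
    _ = (volume (Metric.ball (0 : V) ρ)).toReal * |t - t'| := by
        rw [setIntegral_const, smul_eq_mul]
        rfl

end GaussAux

open GaussAux in
theorem gauss_limit (g : ℕ → V → ℝ) (hg : ∀ n, Cls (g n)) (μ : ℝ) (ℓ : Fin 3 → ℝ)
    (h : ∀ (ρ : ℝ) (b : Fin 3), Tendsto (fun n => ∫ v in Metric.ball (0 : V) ρ,
      |pd b (g n) v - g n v * (μ * v b + ℓ b)|) atTop (𝓝 0)) :
    ∃ (s : ℕ → ℕ) (c : ℝ), StrictMono s ∧ 0 ≤ c ∧ ∀ ρ : ℝ,
      Tendsto (fun n => ∫ v in Metric.ball (0 : V) ρ,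
        |g (s n) v - c * Real.exp (quad μ ℓ v)|) atTop (𝓝 0) := by
  have hq := contDiff_quad μ ℓ
  have hqc : Continuous (quad μ ℓ) := hq.continuous
  have hec : Continuous fun v => Real.exp (-quad μ ℓ v) := by fun_prop
  have hec' : Continuous fun v => Real.exp (quad μ ℓ v) := by fun_prop
  -- the functions F
  set F : ℕ → V → ℝ := fun n v => g n v * Real.exp (-quad μ ℓ v) with hF
  have hgc : ∀ n, Continuous (g n) := fun n => (hg n).cont
  have hg1 : ∀ n, ContDiff ℝ 1 (g n) := fun n => contDiff_one_of_smooth (hg n).smooth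
  have hF1 : ∀ n, ContDiff ℝ 1 (F n) := fun n => (hg1 n).mul (hq.neg.exp)
  have hFc : ∀ n, Continuous (F n) := fun n => (hF1 n).continuous
  have hpd : ∀ n b v, pd b (F n) v =
      Real.exp (-quad μ ℓ v) * (pd b (g n) v - g n v * (μ * v b + ℓ b)) := by
    intro n b v
    have hgd : DifferentiableAt ℝ (g n) v := (hg1 n).differentiable (by norm_num) v
    have hqd : DifferentiableAt ℝ (quad μ ℓ) v := hq.differentiable (by norm_num) v
    have h1 : pd b (fun x => Real.exp (-quad μ ℓ x)) v =
        -Real.exp (-quad μ ℓ v) * pd b (quad μ ℓ) v := by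
      have := pd_comp (β := fun t => Real.exp (-t)) (β' := -Real.exp (-quad μ ℓ v)) hqd (by
        simpa using (hasDerivAt_neg (quad μ ℓ v)).exp) b
      exact this
    have h2 := pd_mul (f := g n) (g := fun x => Real.exp (-quad μ ℓ x)) hgd
      ((hq.neg.exp).differentiable (by norm_num) v) b
    rw [hF]
    simp only
    rw [h2, h1, pd_quad]
    ring
  -- the derivatives tend to zero
  have hder : ∀ (ρ : ℝ) (b : Fin 3), Tendsto (fun n => ∫ v in Metric.ball (0 : V) ρ,
      |pd b (F n) v|) atTop (𝓝 0) := by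
    intro ρ b
    obtain ⟨M, hM, hMb⟩ := bdd _ hec ρ
    have h0 : Tendsto (fun n => M * ∫ v in Metric.ball (0 : V) ρ,
        |pd b (g n) v - g n v * (μ * v b + ℓ b)|) atTop (𝓝 0) := by
      simpa using (h ρ b).const_mul M
    refine squeeze_zero (fun n => integral_nonneg fun v => abs_nonneg _) (fun n => ?_) h0
    rw [← integral_const_mul]
    have hc1 : Continuous fun v => pd b (F n) v := continuous_pd (hF1 n) b
    have hc2 : Continuous fun v : V => pd b (g n) v - g n v * (μ * v b + ℓ b) := by
      have := continuous_pd (hg1 n) b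
      have := hgc n
      fun_prop
    refine setIntegral_mono_on (ion ρ _ hc1.abs) (ion ρ _ (continuous_const.mul hc2.abs))
      measurableSet_ball (fun v hv => ?_)
    rw [hpd, abs_mul]
    exact mul_le_mul_of_nonneg_right (hMb v hv) (abs_nonneg _)
  -- the double integrals tend to zero
  have hdbl : ∀ ρ : ℝ, 0 < ρ → Tendsto (fun n => ∫ x in Metric.ball (0 : V) ρ,
      ∫ y in Metric.ball (0 : V) ρ, |F n x - F n y|) atTop (𝓝 0) := by
    intro ρ hρ
    obtain ⟨C, hC, hCb⟩ := poincare ρ hρ
    have h0 : Tendsto (fun n => C * ∑ b : Fin 3, ∫ v in Metric.ball (0 : V) ρ,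
        |pd b (F n) v|) atTop (𝓝 0) := by
      have := (tendsto_finsetSum (Finset.univ : Finset (Fin 3))
        (fun b _ => hder ρ b)).const_mul C
      simpa using this
    exact squeeze_zero (fun n => integral_nonneg fun x => integral_nonneg fun y => abs_nonneg _)
      (fun n => hCb (F n) (hF1 n)) h0
  -- the averages
  set w : ℝ := (volume (Metric.ball (0 : V) 1)).toReal with hw
  have hw0 : 0 < w :=
    ENNReal.toReal_pos (Metric.measure_ball_pos volume 0 one_pos).ne' measure_ball_lt_top.ne
  set cc : ℕ → ℝ := fun n => (∫ v in Metric.ball (0 : V) 1, F n v) / w with hcc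
  obtain ⟨M, hM, hMb⟩ := bdd _ hec 1
  have hF0 : ∀ n v, 0 ≤ F n v := fun n v => mul_nonneg ((hg n).nonneg v) (Real.exp_pos _).le
  have hcI : ∀ n, cc n ∈ Icc (0 : ℝ) M := by
    intro n
    refine ⟨div_nonneg (integral_nonneg (hF0 n)) hw0.le, ?_⟩
    rw [hcc]
    simp only
    rw [div_le_iff₀ hw0]
    calc ∫ v in Metric.ball (0 : V) 1, F n v ≤ ∫ v in Metric.ball (0 : V) 1, M := by
          refine setIntegral_mono_on (ion 1 _ (hFc n)) (ion 1 _ continuous_const)
            measurableSet_ball (fun v hv => ?_)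
          have h1 := hMb v hv
          rw [abs_of_pos (Real.exp_pos _)] at h1
          calc g n v * Real.exp (-quad μ ℓ v) ≤ 1 * M :=
                mul_le_mul ((hg n).le_one v) h1 (Real.exp_pos _).le zero_le_one
            _ = M := one_mul M
      _ = M * w := by
          rw [setIntegral_const, smul_eq_mul, mul_comm]
          rfl
  obtain ⟨c, hc, s, hs, hsc⟩ := isCompact_Icc.tendsto_subseq hcI
  refine ⟨s, c, hs, hc.1, fun ρ => ?_⟩
  -- the main estimate
  set r : ℝ := max ρ 1 with hr
  have hr1 : 1 ≤ r := le_max_right _ _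
  have hrρ : ρ ≤ r := le_max_left _ _
  have hr0 : 0 < r := by linarith
  obtain ⟨M', hM', hMb'⟩ := bdd _ hec' r
  set w' : ℝ := (volume (Metric.ball (0 : V) r)).toReal with hw'
  have hmain : ∀ n, ∫ v in Metric.ball (0 : V) r, |F n v - cc n| ≤
      (∫ x in Metric.ball (0 : V) r, ∫ y in Metric.ball (0 : V) r, |F n x - F n y|) / w := by
    intro n
    rw [le_div_iff₀ hw0, ← integral_mul_const]
    have hcont2 : Continuous fun x : V => ∫ y in Metric.ball (0 : V) r, |F n x - F n y| :=
      (cont_abs r (F n) (hFc n)).comp (hFc n)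
    refine setIntegral_mono_on (ion r _ (((hFc n).sub continuous_const).abs.mul continuous_const))
      (ion r _ hcont2) measurableSet_ball (fun x _ => ?_)
    have h1 : (F n x - cc n) * w = ∫ y in Metric.ball (0 : V) 1, (F n x - F n y) := by
      rw [integral_sub (ion 1 _ continuous_const) (ion 1 _ (hFc n)), setIntegral_const,
        smul_eq_mul, sub_mul, hcc]
      simp only
      rw [div_mul_cancel₀ _ hw0.ne']
      congr 1
      rw [mul_comm]
      rfl
    calc |F n x - cc n| * w = |(F n x - cc n) * w| := by rw [abs_mul, abs_of_pos hw0]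
      _ ≤ ∫ y in Metric.ball (0 : V) 1, |F n x - F n y| := by
          rw [h1]
          exact abs_integral_le_integral_abs
      _ ≤ ∫ y in Metric.ball (0 : V) r, |F n x - F n y| := by
          refine setIntegral_mono_set (ion r _ ((continuous_const.sub (hFc n)).abs))
            (Eventually.of_forall fun y => abs_nonneg _) ?_
          exact (Metric.ball_subset_ball hr1).eventuallyLE
  have hlim : Tendsto (fun n => M' * ((∫ x in Metric.ball (0 : V) r,
      ∫ y in Metric.ball (0 : V) r, |F (s n) x - F (s n) y|) / w + |cc (s n) - c| * w'))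
      atTop (𝓝 0) := by
    have h1 := ((hdbl r hr0).comp hs.tendsto_atTop).div_const w
    have h2 : Tendsto (fun n => |cc (s n) - c| * w') atTop (𝓝 0) := by
      have := ((hsc.sub_const c).abs).mul_const w'
      simpa using this
    have h3 := (h1.add h2).const_mul M'
    simpa using h3
  refine squeeze_zero (fun n => integral_nonneg fun v => abs_nonneg _) (fun n => ?_) hlim
  have hcon1 : Continuous fun v => |g (s n) v - c * Real.exp (quad μ ℓ v)| := by
    have := hgc (s n)
    fun_prop
  have hcon2 : Continuous fun v => |F (s n) v - cc (s n)| := ((hFc (s n)).sub continuous_const).abs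
  calc ∫ v in Metric.ball (0 : V) ρ, |g (s n) v - c * Real.exp (quad μ ℓ v)|
      ≤ ∫ v in Metric.ball (0 : V) r, |g (s n) v - c * Real.exp (quad μ ℓ v)| := by
        refine setIntegral_mono_set (ion r _ hcon1)
            (Eventually.of_forall fun y => abs_nonneg _) ?_
        exact (Metric.ball_subset_ball hrρ).eventuallyLE
    _ ≤ ∫ v in Metric.ball (0 : V) r, M' * (|F (s n) v - cc (s n)| + |cc (s n) - c|) := by
        refine setIntegral_mono_on (ion r _ hcon1)
          (ion r _ (continuous_const.mul (hcon2.add continuous_const)))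
          measurableSet_ball (fun v hv => ?_)
        have h1 := hMb' v hv
        rw [abs_of_pos (Real.exp_pos _)] at h1
        have h2 : g (s n) v - c * Real.exp (quad μ ℓ v) =
            Real.exp (quad μ ℓ v) * ((F (s n) v - cc (s n)) + (cc (s n) - c)) := by
          have : F (s n) v * Real.exp (quad μ ℓ v) = g (s n) v := by
            show g (s n) v * Real.exp (-quad μ ℓ v) * Real.exp (quad μ ℓ v) = g (s n) v
            rw [mul_assoc, ← Real.exp_add, neg_add_cancel, Real.exp_zero, mul_one]
          rw [← this]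
          ring
        rw [h2, abs_mul, abs_of_pos (Real.exp_pos _)]
        exact mul_le_mul h1 (abs_add_le _ _) (abs_nonneg _) hM'.le
    _ = M' * ((∫ v in Metric.ball (0 : V) r, |F (s n) v - cc (s n)|) + |cc (s n) - c| * w') := by
        rw [integral_const_mul, integral_add (ion r _ hcon2) (ion r _ continuous_const),
          setIntegral_const, smul_eq_mul]
        congr 2
        rw [mul_comm]
        rfl
    _ ≤ _ := by
        refine mul_le_mul_of_nonneg_left ?_ hM'.le
        exact add_le_add_left (hmain (s n)) _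

end Pool.Agent.Landau
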