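import Pool.Agent.Landau.EInt
import Pool.Agent.Landau.Defs3

/-!
# Landau, module Gibbs: the Gaussian minimises the entropy

Write `G v = c * exp (quad μ ℓ v) > 0`, `log G = log c + quad μ ℓ v`.  Since mass, energy and momenta agree,
`∫ h log G = ∫ G log G`.  Let `D = h log h - h log G - h + G`; `D ≥ 0` pointwise with equality iff
`h = G` (for `h > 0`: `G (x log x - x + 1)`, `x = h / G`; for `h = 0`: `D = G > 0`), `D` is integrable and
`∫ D = ent h - ∫ G log G - M + M ≤ 0`, so `D = 0` a.e., `h = G` a.e., and everywhere by continuity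
(`Continuous.ae_eq_iff_eq`).
-/

set_option autoImplicit false

namespace Pool.Agent.Landau

open MeasureTheory Set Filter Topology

namespace GibbsAux

theorem int1 {g : V → ℝ} (hc : Continuous g) (h0 : ∀ v, 0 ≤ g v)
    (hint : Integrable (fun v => (1 + ‖v‖ ^ 2) * g v)) : Integrable g := by
  refine hint.mono' hc.aestronglyMeasurable (Eventually.of_forall fun v => ?_)
  rw [Real.norm_eq_abs, abs_of_nonneg (h0 v)]
  nlinarith [h0 v, sq_nonneg ‖v‖, mul_nonneg (sq_nonneg ‖v‖) (h0 v)]

theorem int2 {g : V → ℝ} (hc : Continuous g) (h0 : ∀ v, 0 ≤ g v)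
    (hint : Integrable (fun v => (1 + ‖v‖ ^ 2) * g v)) : Integrable (fun v => ‖v‖ ^ 2 * g v) := by
  refine hint.mono' ((continuous_norm.pow 2).mul hc).aestronglyMeasurable
    (Eventually.of_forall fun v => ?_)
  rw [Real.norm_eq_abs, abs_of_nonneg (mul_nonneg (sq_nonneg ‖v‖) (h0 v))]
  nlinarith [h0 v]

theorem int3 {g : V → ℝ} (hc : Continuous g) (h0 : ∀ v, 0 ≤ g v)
    (hint : Integrable (fun v => (1 + ‖v‖ ^ 2) * g v)) (i : Fin 3) :
    Integrable (fun v => v i * g v) := by
  have hcc : Continuous fun v : V => v i := by fun_prop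
  refine hint.mono' (hcc.mul hc).aestronglyMeasurable (Eventually.of_forall fun v => ?_)
  rw [Real.norm_eq_abs, abs_mul, abs_of_nonneg (h0 v)]
  refine mul_le_mul_of_nonneg_right ?_ (h0 v)
  have := Cls.abs_coord v i
  nlinarith [sq_nonneg (‖v‖ - 1)]

theorem quad_cont (μ : ℝ) (ℓ : Fin 3 → ℝ) : Continuous (quad μ ℓ) := by
  unfold quad
  fun_prop

/-- integral of `g` times an affine-quadratic function -/
theorem int_quad {g : V → ℝ} (hc : Continuous g) (h0 : ∀ v, 0 ≤ g v)
    (hint : Integrable (fun v => (1 + ‖v‖ ^ 2) * g v)) (μ a : ℝ) (ℓ : Fin 3 → ℝ) :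
    Integrable (fun v => g v * (a + quad μ ℓ v)) ∧
      ∫ v, g v * (a + quad μ ℓ v) =
        a * (∫ v, g v) + μ / 2 * (∫ v, ‖v‖ ^ 2 * g v) + ∑ i : Fin 3, ℓ i * ∫ v, v i * g v := by
  have e : (fun v => g v * (a + quad μ ℓ v)) =
      fun v => (a * g v + μ / 2 * (‖v‖ ^ 2 * g v)) + ∑ i : Fin 3, ℓ i * (v i * g v) := by
    funext v
    unfold quad
    rw [mul_add, mul_add, Finset.mul_sum]
    have : ∑ i : Fin 3, g v * (ℓ i * v i) = ∑ i : Fin 3, ℓ i * (v i * g v) :=
      Finset.sum_congr rfl fun i _ => by ring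
    rw [this]
    ring
  have i1 := (int1 hc h0 hint).const_mul a
  have i2 := (int2 hc h0 hint).const_mul (μ / 2)
  have i3 : ∀ i ∈ (Finset.univ : Finset (Fin 3)), Integrable (fun v : V => ℓ i * (v i * g v)) :=
    fun i _ => (int3 hc h0 hint i).const_mul (ℓ i)
  have i12 : Integrable (fun v : V => a * g v + μ / 2 * (‖v‖ ^ 2 * g v)) := i1.add i2
  have i4 : Integrable (fun v : V => ∑ i : Fin 3, ℓ i * (v i * g v)) :=
    integrable_finsetSum _ i3
  rw [e]
  refine ⟨i12.add i4, ?_⟩
  rw [integral_add i12 i4, integral_add i1 i2,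
    integral_finsetSum _ i3, integral_const_mul, integral_const_mul]
  congr 1
  exact Finset.sum_congr rfl fun i _ => integral_const_mul _ _

/-- the relative entropy density is nonnegative -/
theorem dens_nonneg (s t : ℝ) (hs : 0 ≤ s) (ht : 0 < t) :
    0 ≤ s * Real.log s - s * Real.log t - s + t := by
  rcases hs.eq_or_lt with h | h
  · rw [← h]
    simp only [zero_mul, sub_self, zero_add]
    exact ht.le
  · have h1 := Real.log_le_sub_one_of_pos (div_pos ht h)
    rw [Real.log_div ht.ne' h.ne'] at h1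
    have h2 := mul_le_mul_of_nonneg_left h1 h.le
    have h3 : s * (t / s - 1) = t - s := by field_simp
    rw [h3] at h2
    nlinarith

theorem dens_eq_zero (s t : ℝ) (hs : 0 ≤ s) (ht : 0 < t)
    (h0 : s * Real.log s - s * Real.log t - s + t = 0) : s = t := by
  rcases hs.eq_or_lt with h | h
  · rw [← h] at h0
    simp only [zero_mul, zero_add, sub_self] at h0
    exact absurd h0 ht.ne'
  · by_contra hne
    have h1 : t / s ≠ 1 := by
      intro h2
      rw [div_eq_one_iff_eq h.ne'] at h2
      exact hne h2.symm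
    have h2 := Real.log_lt_sub_one_of_pos (div_pos ht h) h1
    rw [Real.log_div ht.ne' h.ne'] at h2
    have h3 := mul_lt_mul_of_pos_left h2 h
    have h4 : s * (t / s - 1) = t - s := by field_simp
    rw [h4] at h3
    nlinarith

end GibbsAux

open GibbsAux

theorem gibbs (h : V → ℝ) (hh : Cls h) (μ c : ℝ) (ℓ : Fin 3 → ℝ) (hc : 0 < c)
    (hint : Integrable (fun v : V => (1 + ‖v‖ ^ 2) * (c * Real.exp (quad μ ℓ v))))
    (hmass : (∫ v : V, c * Real.exp (quad μ ℓ v)) = mass h)
    (henergy : (∫ v : V, ‖v‖ ^ 2 * (c * Real.exp (quad μ ℓ v))) = energy h)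
    (hmom : ∀ k : Fin 3, (∫ v : V, v k * (c * Real.exp (quad μ ℓ v))) = mom k h)
    (hent : ent h ≤
      ∫ v : V, c * Real.exp (quad μ ℓ v) * Real.log (c * Real.exp (quad μ ℓ v))) (v : V) :
    h v = c * Real.exp (quad μ ℓ v) := by
  obtain ⟨G, hG⟩ : ∃ G : V → ℝ, G = fun v => c * Real.exp (quad μ ℓ v) := ⟨_, rfl⟩
  have hGv : ∀ v, c * Real.exp (quad μ ℓ v) = G v := fun v => by rw [hG]
  simp only [hGv] at hint hmass henergy hmom hent ⊢
  have hGpos : ∀ v, 0 < G v := fun v => by
    rw [← hGv]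
    exact mul_pos hc (Real.exp_pos _)
  have hGc : Continuous G := by
    rw [hG]
    exact continuous_const.mul (Real.continuous_exp.comp (quad_cont μ ℓ))
  have hlog : ∀ v, Real.log (G v) = Real.log c + quad μ ℓ v := fun v => by
    rw [← hGv, Real.log_mul hc.ne' (Real.exp_pos _).ne', Real.log_exp]
  obtain ⟨a1, a2⟩ := int_quad hh.cont hh.nonneg hh.int μ (Real.log c) ℓ
  obtain ⟨b1, b2⟩ := int_quad hGc (fun v => (hGpos v).le) hint μ (Real.log c) ℓ
  have heq : ∫ v, h v * Real.log (G v) = ∫ v, G v * Real.log (G v) := by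
    simp only [hlog]
    rw [a2, b2, hmass, henergy]
    simp only [hmom]
    rfl
  have hI1 : Integrable (fun v => h v * Real.log (h v)) := (ent_int h hh).1
  have hI2 : Integrable (fun v => h v * Real.log (G v)) := by
    simp only [hlog]
    exact a1
  have hI3 := hh.int_g
  have hI4 := int1 hGc (fun v => (hGpos v).le) hint
  have hI5 : Integrable (fun v => h v * Real.log (h v) - h v * Real.log (G v)) := hI1.sub hI2
  have hI6 : Integrable (fun v => h v * Real.log (h v) - h v * Real.log (G v) - h v) :=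
    hI5.sub hI3
  have hID : Integrable (fun v => h v * Real.log (h v) - h v * Real.log (G v) - h v + G v) :=
    hI6.add hI4
  have hD0 : ∀ v, 0 ≤ h v * Real.log (h v) - h v * Real.log (G v) - h v + G v := fun v =>
    dens_nonneg _ _ (hh.nonneg v) (hGpos v)
  have hDint : ∫ v, (h v * Real.log (h v) - h v * Real.log (G v) - h v + G v) =
      ent h - (∫ v, h v * Real.log (G v)) - mass h + ∫ v, G v := by
    rw [integral_add hI6 hI4, integral_sub hI5 hI3, integral_sub hI1 hI2]
    rfl
  have hDz : ∫ v, (h v * Real.log (h v) - h v * Real.log (G v) - h v + G v) = 0 := by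
    apply le_antisymm
    · rw [hDint, heq, hmass]
      linarith
    · exact integral_nonneg hD0
  have hae := (integral_eq_zero_iff_of_nonneg hD0 hID).1 hDz
  have hae2 : h =ᵐ[volume] G := by
    filter_upwards [hae] with v hv
    exact dens_eq_zero _ _ (hh.nonneg v) (hGpos v) hv
  exact congrFun ((Continuous.ae_eq_iff_eq volume hh.cont hGc).1 hae2) v

end Pool.Agent.Landau
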