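import Pool.Agent.Landau.Defs3

/-!
# Landau, module Lim: the limit has the same mass, energy and momentum

Write `G v = c * exp (quad μ ℓ v)`.  For every `ρ` and every bounded measurable weight `k` on the ball,
`∫_{‖v‖ < ρ} k g_n → ∫_{‖v‖ < ρ} k G`.  So `∫_{‖v‖ < ρ} (1 + ‖v‖²) G ≤ M + E` for all `ρ`, hence `(1 + ‖v‖²) G` is
integrable (monotone convergence).  By tightness, for `k = 1, v_k, ‖v‖²`,
`|∫_{‖v‖ ≥ ρ} k g_n| ≤ ∫_{‖v‖ ≥ ρ} ‖v‖² g_n ≤ δ` (`ρ ≥ 1`), and the same for `G` if `ρ` is large, so the moments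
agree up to `3 δ`.  Since `∫ G = M > 0`, `c > 0`.  If `μ ≥ 0` then `G ≥ c` on the half space
`∑ ℓ_i v_i ≥ 0`, which has infinite volume (it and its image under `v ↦ -v` cover `V`), a contradiction.
-/

set_option autoImplicit false

namespace Pool.Agent.Landau

open MeasureTheory Set Filter Topology

/-- convergence of weighted integrals over a ball -/
theorem lim_ball (g : ℕ → V → ℝ) (hg : ∀ n, Cls (g n)) (G : V → ℝ) (hG : Continuous G)
    (k : V → ℝ) (hk : Continuous k) (hk1 : ∀ v, |k v| ≤ 1 + ‖v‖ ^ 2) (ρ : ℝ)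
    (h : Tendsto (fun n => ∫ v in Metric.ball (0 : V) ρ, |g n v - G v|) atTop (𝓝 0)) :
    Tendsto (fun n => ∫ v in Metric.ball (0 : V) ρ, k v * g n v) atTop
      (𝓝 (∫ v in Metric.ball (0 : V) ρ, k v * G v)) := by
  have hint : ∀ F : V → ℝ, Continuous F → IntegrableOn F (Metric.ball (0 : V) ρ) := fun F hF =>
    (hF.continuousOn.integrableOn_compact (isCompact_closedBall (0 : V) ρ)).mono_set
      Metric.ball_subset_closedBall
  rw [tendsto_iff_dist_tendsto_zero]
  have h2 : Tendsto (fun n => (1 + ρ ^ 2) * ∫ v in Metric.ball (0 : V) ρ, |g n v - G v|) atTop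
      (𝓝 0) := by
    simpa using h.const_mul (1 + ρ ^ 2)
  refine squeeze_zero (fun n => dist_nonneg) (fun n => ?_) h2
  have hgc := (hg n).cont
  rw [Real.dist_eq, ← integral_sub (hint (fun v => k v * g n v) (hk.mul hgc))
    (hint (fun v => k v * G v) (hk.mul hG)), ← integral_const_mul]
  refine (abs_integral_le_integral_abs).trans ?_
  refine setIntegral_mono_on (hint _ ((hk.mul hgc).sub (hk.mul hG)).abs)
    ((hint _ (hgc.sub hG).abs).const_mul _) measurableSet_ball (fun v hv => ?_)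
  rw [← mul_sub, abs_mul]
  refine mul_le_mul_of_nonneg_right ((hk1 v).trans ?_) (abs_nonneg _)
  have hv' : ‖v‖ < ρ := by simpa using hv
  have := pow_le_pow_left₀ (norm_nonneg v) hv'.le 2
  linarith

/-- weights of at most quadratic growth -/
theorem Cls.int_weight {g : V → ℝ} (hg : Cls g) {k : V → ℝ} (hk : Continuous k)
    (hk1 : ∀ v, |k v| ≤ 1 + ‖v‖ ^ 2) : Integrable (fun v => k v * g v) := by
  refine hg.int.mono' (hk.mul hg.cont).aestronglyMeasurable (Eventually.of_forall fun v => ?_)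
  rw [Real.norm_eq_abs, abs_mul, abs_of_nonneg (hg.nonneg v)]
  exact mul_le_mul_of_nonneg_right (hk1 v) (hg.nonneg v)

/-- the limit has the same moments -/
theorem lim_mom (g : ℕ → V → ℝ) (hg : ∀ n, Cls (g n)) (G : V → ℝ) (hG : Continuous G)
    (hG0 : ∀ v, 0 ≤ G v) (hGi : Integrable (fun v : V => (1 + ‖v‖ ^ 2) * G v))
    (htight : ∀ δ > 0, ∃ ρ : ℝ, 1 ≤ ρ ∧
      ∀ᶠ n in atTop, ∫ v in {v : V | ρ ≤ ‖v‖}, ‖v‖ ^ 2 * g n v ≤ δ)
    (h : ∀ ρ : ℝ, Tendsto (fun n => ∫ v in Metric.ball (0 : V) ρ, |g n v - G v|) atTop (𝓝 0))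
    (k : V → ℝ) (hk : Continuous k) (hk1 : ∀ v, |k v| ≤ 1 + ‖v‖ ^ 2)
    (hk2 : ∀ v, 1 ≤ ‖v‖ → |k v| ≤ ‖v‖ ^ 2) (m : ℝ) (hm : ∀ n, ∫ v, k v * g n v = m) :
    ∫ v, k v * G v = m := by
  have hkG : Integrable (fun v => k v * G v) := by
    refine hGi.mono' (hk.mul hG).aestronglyMeasurable (Eventually.of_forall fun v => ?_)
    rw [Real.norm_eq_abs, abs_mul, abs_of_nonneg (hG0 v)]
    exact mul_le_mul_of_nonneg_right (hk1 v) (hG0 v)
  have hlim : Tendsto (fun N : ℕ => ∫ v in Metric.ball (0 : V) (N : ℝ), k v * G v) atTop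
      (𝓝 (∫ v, k v * G v)) :=
    (aecover_ball tendsto_natCast_atTop_atTop).integral_tendsto_of_countably_generated hkG
  have hlim2 : Tendsto (fun N : ℕ => ∫ v in Metric.ball (0 : V) (N : ℝ), k v * G v) atTop
      (𝓝 m) := by
    rw [Metric.tendsto_atTop]
    intro δ hδ
    obtain ⟨ρ, hρ1, hρ⟩ := htight (δ / 2) (by positivity)
    obtain ⟨N₀, hN₀⟩ := exists_nat_ge ρ
    refine ⟨N₀, fun N hN => ?_⟩
    have hNρ : ρ ≤ N := hN₀.trans (by exact_mod_cast hN)
    have h1 := lim_ball g hg G hG k hk hk1 N (h N)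
    have h2 : ∀ᶠ n in atTop,
        (∫ v in Metric.ball (0 : V) (N : ℝ), k v * g n v) ∈ Metric.closedBall m (δ / 2) := by
      filter_upwards [hρ] with n hn
      have hi := (hg n).int_weight hk hk1
      have h3 := integral_add_compl (measurableSet_ball (x := (0 : V)) (ε := (N : ℝ))) hi
      rw [Metric.mem_closedBall, Real.dist_eq]
      have h4 : (∫ v in Metric.ball (0 : V) (N : ℝ), k v * g n v) - m =
          -∫ v in (Metric.ball (0 : V) (N : ℝ))ᶜ, k v * g n v := by
        rw [hm n] at h3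
        linarith
      rw [h4, abs_neg]
      refine (abs_integral_le_integral_abs).trans (le_trans ?_ hn)
      have hms : MeasurableSet {v : V | ρ ≤ ‖v‖} :=
        measurableSet_le measurable_const measurable_norm
      have hsub : (Metric.ball (0 : V) (N : ℝ))ᶜ ⊆ {v : V | ρ ≤ ‖v‖} := by
        intro v hv
        have hv' : (N : ℝ) ≤ ‖v‖ := by simpa using hv
        exact hNρ.trans hv'
      calc ∫ v in (Metric.ball (0 : V) (N : ℝ))ᶜ, |k v * g n v|
          ≤ ∫ v in (Metric.ball (0 : V) (N : ℝ))ᶜ, ‖v‖ ^ 2 * g n v := by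
            refine setIntegral_mono_on hi.abs.integrableOn (hg n).int_energy.integrableOn
              measurableSet_ball.compl (fun v hv => ?_)
            rw [abs_mul, abs_of_nonneg ((hg n).nonneg v)]
            exact mul_le_mul_of_nonneg_right (hk2 v (hρ1.trans (hsub hv))) ((hg n).nonneg v)
        _ ≤ ∫ v in {v : V | ρ ≤ ‖v‖}, ‖v‖ ^ 2 * g n v :=
            setIntegral_mono_set (hg n).int_energy.integrableOn
              (Eventually.of_forall fun v => mul_nonneg (sq_nonneg _) ((hg n).nonneg v))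
              hsub.eventuallyLE
    have h3 := Metric.isClosed_closedBall.mem_of_tendsto h1 h2
    rw [Metric.mem_closedBall] at h3
    linarith
  exact tendsto_nhds_unique hlim hlim2

theorem lim_moments (g : ℕ → V → ℝ) (hg : ∀ n, Cls (g n)) (M E : ℝ) (P : Fin 3 → ℝ)
    (hM : 0 < M) (hmass : ∀ n, mass (g n) = M) (hE : ∀ n, energy (g n) = E)
    (hP : ∀ n k, mom k (g n) = P k)
    (htight : ∀ δ > 0, ∃ ρ : ℝ, 1 ≤ ρ ∧
      ∀ᶠ n in atTop, ∫ v in {v : V | ρ ≤ ‖v‖}, ‖v‖ ^ 2 * g n v ≤ δ)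
    (μ c : ℝ) (ℓ : Fin 3 → ℝ) (hc : 0 ≤ c)
    (h : ∀ ρ : ℝ, Tendsto (fun n => ∫ v in Metric.ball (0 : V) ρ,
        |g n v - c * Real.exp (quad μ ℓ v)|) atTop (𝓝 0)) :
    0 < c ∧ μ < 0 ∧ Integrable (fun v : V => (1 + ‖v‖ ^ 2) * (c * Real.exp (quad μ ℓ v))) ∧
      (∫ v : V, c * Real.exp (quad μ ℓ v)) = M ∧
      (∫ v : V, ‖v‖ ^ 2 * (c * Real.exp (quad μ ℓ v))) = E ∧
      ∀ k : Fin 3, (∫ v : V, v k * (c * Real.exp (quad μ ℓ v))) = P k := by
  have hq : Continuous (quad μ ℓ) := by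
    unfold quad
    fun_prop
  have hG : Continuous fun v : V => c * Real.exp (quad μ ℓ v) := by fun_prop
  have hG0 : ∀ v : V, 0 ≤ c * Real.exp (quad μ ℓ v) := fun v => by positivity
  have hw : Continuous fun v : V => 1 + ‖v‖ ^ 2 := by fun_prop
  -- integrability of the limit
  have hGi : Integrable (fun v : V => (1 + ‖v‖ ^ 2) * (c * Real.exp (quad μ ℓ v))) := by
    refine (aecover_ball (μ := (volume : Measure V)) (x := (0 : V))
      (r := fun N : ℕ => (N : ℝ)) tendsto_natCast_atTop_atTop).integrable_of_integral_bounded_of_nonneg_ae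
      (M + E) (fun N => ?_) (Eventually.of_forall fun v => by positivity)
      (Eventually.of_forall fun N => ?_)
    · exact ((hw.mul hG).continuousOn.integrableOn_compact
        (isCompact_closedBall (0 : V) N)).mono_set Metric.ball_subset_closedBall
    · have h1 := lim_ball g hg _ hG (fun v => 1 + ‖v‖ ^ 2) hw (fun v => by
        rw [abs_of_nonneg (by positivity)]) N (h N)
      refine le_of_tendsto h1 (Eventually.of_forall fun n => ?_)
      have h2 : ∫ v, (1 + ‖v‖ ^ 2) * g n v = M + E := by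
        rw [← hmass n, ← hE n]
        unfold mass energy
        rw [← integral_add (hg n).int_g (hg n).int_energy]
        refine integral_congr_ae (Eventually.of_forall fun v => ?_)
        simp only
        ring
      rw [← h2]
      exact setIntegral_le_integral (hg n).int
        (Eventually.of_forall fun v => mul_nonneg (by positivity) ((hg n).nonneg v))
  have hlm := lim_mom g hg _ hG hG0 hGi htight h
  have hmassG : (∫ v : V, c * Real.exp (quad μ ℓ v)) = M := by
    have := hlm (fun _ => 1) continuous_const (fun v => by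
      rw [abs_one]
      nlinarith [sq_nonneg ‖v‖]) (fun v hv => by
      rw [abs_one]
      nlinarith) M (fun n => by simpa [mass] using hmass n)
    simpa using this
  have hEG : (∫ v : V, ‖v‖ ^ 2 * (c * Real.exp (quad μ ℓ v))) = E :=
    hlm (fun v => ‖v‖ ^ 2) (by fun_prop) (fun v => by
      rw [abs_of_nonneg (by positivity)]
      linarith) (fun v hv => by
      rw [abs_of_nonneg (by positivity)]) E hE
  have hPG : ∀ k : Fin 3, (∫ v : V, v k * (c * Real.exp (quad μ ℓ v))) = P k := fun k =>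
    hlm (fun v => v k) (by fun_prop) (fun v => by
      have := Cls.abs_coord v k
      nlinarith [sq_nonneg (‖v‖ - 1)]) (fun v hv => by
      have := Cls.abs_coord v k
      nlinarith) (P k) (fun n => hP n k)
  have hc0 : 0 < c := by
    rcases hc.eq_or_lt with h0 | h0
    · exfalso
      rw [← h0] at hmassG
      simp at hmassG
      linarith
    · exact h0
  refine ⟨hc0, ?_, hGi, hmassG, hEG, hPG⟩
  by_contra hμ
  push Not at hμ
  have hGint : Integrable (fun v : V => c * Real.exp (quad μ ℓ v)) := by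
    refine hGi.mono' hG.aestronglyMeasurable (Eventually.of_forall fun v => ?_)
    rw [Real.norm_eq_abs, abs_of_nonneg (hG0 v)]
    have := mul_nonneg (sq_nonneg ‖v‖) (hG0 v)
    linarith
  have hsum := hGint.add hGint.comp_neg
  have hconst : Integrable (fun _ : V => c) := by
    refine hsum.mono' aestronglyMeasurable_const (Eventually.of_forall fun v => ?_)
    rw [Real.norm_eq_abs, abs_of_nonneg hc0.le]
    simp only [Pi.add_apply]
    rw [← mul_add]
    refine le_mul_of_one_le_right hc0.le ?_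
    have h1 : quad μ ℓ v = μ / 2 * ‖v‖ ^ 2 + ∑ i : Fin 3, ℓ i * v i := rfl
    have h2 : quad μ ℓ (-v) = μ / 2 * ‖v‖ ^ 2 - ∑ i : Fin 3, ℓ i * v i := by
      unfold quad
      rw [norm_neg, sub_eq_add_neg, ← Finset.sum_neg_distrib]
      congr 1
      refine Finset.sum_congr rfl fun i _ => ?_
      simp
    rw [h1, h2]
    have h3 : 0 ≤ μ / 2 * ‖v‖ ^ 2 := by positivity
    rcases le_total 0 (∑ i : Fin 3, ℓ i * v i) with h4 | h4
    · have h5 : 1 ≤ Real.exp (μ / 2 * ‖v‖ ^ 2 + ∑ i : Fin 3, ℓ i * v i) :=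
        Real.one_le_exp (by linarith)
      have h6 := Real.exp_pos (μ / 2 * ‖v‖ ^ 2 - ∑ i : Fin 3, ℓ i * v i)
      linarith
    · have h5 : 1 ≤ Real.exp (μ / 2 * ‖v‖ ^ 2 - ∑ i : Fin 3, ℓ i * v i) :=
        Real.one_le_exp (by linarith)
      have h6 := Real.exp_pos (μ / 2 * ‖v‖ ^ 2 + ∑ i : Fin 3, ℓ i * v i)
      linarith
  rw [integrable_const_iff] at hconst
  rcases hconst with h1 | h1
  · exact hc0.ne' h1
  · have h2 := measure_univ_of_isAddLeftInvariant (volume : Measure V)
    exact (measure_lt_top (volume : Measure V) univ).ne h2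

end Pool.Agent.Landau
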