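import Pool.Agent.Landau.KInt

/-!
# Landau, module TBound: the tail of the interaction energy

Let `M = mass g`, `E = energy g`, `‖v‖ ≥ R ≥ 1`.  Split the inner integral at `‖w‖ = ‖v‖ / 2`.
For `‖w‖ ≤ ‖v‖ / 2` we have `‖v - w‖ ≥ ‖v‖ / 2`, so this part is at most `2 M / ‖v‖`.
For the other part apply `int_inv` to `g` times the indicator of `‖w‖ > ‖v‖ / 2` (its integral is at
most `4 E / ‖v‖²` by `Cls.tail`) with `r = ‖v‖ ^ (-1/2)`: at most
`7 / ‖v‖ + 4 E ‖v‖ ^ (1/2) / ‖v‖² ≤ (7 + 4 E) / ‖v‖`.  So the inner integral is at most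
`(2 M + 7 + 4 E) / ‖v‖`, and `g v / ‖v‖ ≤ ‖v‖² g v / R³`, so the double integral is at most
`(2 M + 7 + 4 E) E / R³ ≤ 13 (1 + m)² / R³`.
-/

set_option autoImplicit false

namespace Pool.Agent.Landau

open MeasureTheory Set Filter Topology

theorem tail_pair_inner (g : V → ℝ) (hg : Cls g) (v : V) (hv : 1 ≤ ‖v‖) :
    ∫ w, g w / ‖v - w‖ ≤ (2 * mass g + 7 + 4 * energy g) / ‖v‖ := by
  have hv0 : 0 < ‖v‖ := lt_of_lt_of_le one_pos hv
  have hE := hg.energy_nonneg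
  obtain ⟨h, hh⟩ : ∃ h : V → ℝ, h = {w : V | ‖v‖ / 2 ≤ ‖w‖}.indicator g := ⟨_, rfl⟩
  have hms : MeasurableSet {w : V | ‖v‖ / 2 ≤ ‖w‖} :=
    measurableSet_le measurable_const measurable_norm
  have hi : Integrable h := by rw [hh]; exact hg.int_g.indicator hms
  have h0 : ∀ w, 0 ≤ h w := by
    intro w
    rw [hh]
    exact indicator_nonneg (fun x _ => hg.nonneg x) w
  have h1 : ∀ w, h w ≤ 1 := by
    intro w
    rw [hh]
    by_cases hw : w ∈ {w : V | ‖v‖ / 2 ≤ ‖w‖}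
    · rw [indicator_of_mem hw]; exact hg.le_one w
    · rw [indicator_of_notMem hw]; exact zero_le_one
  have hint : ∫ w, h w ≤ 4 * energy g / ‖v‖ ^ 2 := by
    rw [hh, integral_indicator hms]
    refine (hg.tail (R := ‖v‖ / 2) (by positivity)).trans (le_of_eq ?_)
    field_simp
    ring
  obtain ⟨r, hr⟩ : ∃ r : ℝ, r = (Real.sqrt ‖v‖)⁻¹ := ⟨_, rfl⟩
  have hs0 : 0 < Real.sqrt ‖v‖ := Real.sqrt_pos.2 hv0
  have hs2 : Real.sqrt ‖v‖ ^ 2 = ‖v‖ := Real.sq_sqrt hv0.le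
  have hr0 : 0 < r := by rw [hr]; positivity
  obtain ⟨hI, hB⟩ := int_inv h hi h0 h1 v r hr0
  have hB2 : ∫ w, h w / ‖v - w‖ ≤ (7 + 4 * energy g) / ‖v‖ := by
    refine hB.trans ?_
    have e1 : 7 * r ^ 2 = 7 / ‖v‖ := by
      rw [hr, inv_pow, hs2]
      ring
    have e2 : (∫ w, h w) / r ≤ 4 * energy g / ‖v‖ := by
      have e3 : (∫ w, h w) / r = (∫ w, h w) * Real.sqrt ‖v‖ := by
        rw [hr]
        field_simp
      rw [e3]
      have e4 : Real.sqrt ‖v‖ ≤ ‖v‖ := by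
        have : 1 ≤ Real.sqrt ‖v‖ := Real.one_le_sqrt.2 hv
        nlinarith
      calc (∫ w, h w) * Real.sqrt ‖v‖ ≤ (4 * energy g / ‖v‖ ^ 2) * ‖v‖ := by
            refine mul_le_mul hint e4 hs0.le ?_
            positivity
        _ = 4 * energy g / ‖v‖ := by
            field_simp
    rw [e1, add_div]
    linarith
  have hpt : ∀ w, g w / ‖v - w‖ ≤ (2 / ‖v‖) * g w + h w / ‖v - w‖ := by
    intro w
    by_cases hw : w ∈ {w : V | ‖v‖ / 2 ≤ ‖w‖}
    · have : h w = g w := by rw [hh, indicator_of_mem hw]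
      rw [this]
      have := mul_nonneg (by positivity : 0 ≤ 2 / ‖v‖) (hg.nonneg w)
      linarith
    · have : h w = 0 := by rw [hh, indicator_of_notMem hw]
      rw [this, zero_div, add_zero]
      have hw' : ‖w‖ < ‖v‖ / 2 := not_le.1 hw
      have h3 : ‖v‖ / 2 ≤ ‖v - w‖ := by
        have := norm_sub_norm_le v w
        linarith
      calc g w / ‖v - w‖ ≤ g w / (‖v‖ / 2) :=
            div_le_div_of_nonneg_left (hg.nonneg w) (by positivity) h3
        _ = (2 / ‖v‖) * g w := by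
            field_simp
  have hint2 : Integrable fun w => (2 / ‖v‖) * g w + h w / ‖v - w‖ :=
    (hg.int_g.const_mul _).add hI
  calc ∫ w, g w / ‖v - w‖ ≤ ∫ w, ((2 / ‖v‖) * g w + h w / ‖v - w‖) := by
        refine integral_mono_of_nonneg (Eventually.of_forall fun w => ?_) hint2
          (Eventually.of_forall hpt)
        exact div_nonneg (hg.nonneg w) (norm_nonneg _)
    _ = (2 / ‖v‖) * mass g + ∫ w, h w / ‖v - w‖ := by
        rw [integral_add (hg.int_g.const_mul _) hI, integral_const_mul]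
        rfl
    _ ≤ (2 / ‖v‖) * mass g + (7 + 4 * energy g) / ‖v‖ := by linarith
    _ = (2 * mass g + 7 + 4 * energy g) / ‖v‖ := by ring

theorem tail_pair (g : V → ℝ) (hg : Cls g) (m : ℝ) (hm : mass g + energy g ≤ m) (R : ℝ)
    (hR : 1 ≤ R) :
    ∫ v in {v : V | R ≤ ‖v‖}, (g v * ∫ w, g w / ‖v - w‖) ≤ 13 * (1 + m) ^ 2 / R ^ 3 := by
  have hM := hg.mass_nonneg
  have hE := hg.energy_nonneg
  have hR0 : 0 < R := lt_of_lt_of_le one_pos hR
  have hms : MeasurableSet {v : V | R ≤ ‖v‖} := measurableSet_le measurable_const measurable_norm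
  obtain ⟨A, hA⟩ : ∃ A : ℝ, A = 2 * mass g + 7 + 4 * energy g := ⟨_, rfl⟩
  have hA0 : 0 ≤ A := by rw [hA]; linarith
  have hpt : ∀ v ∈ {v : V | R ≤ ‖v‖}, (g v * ∫ w, g w / ‖v - w‖) ≤
      A / R ^ 3 * (‖v‖ ^ 2 * g v) := by
    intro v hv
    have hv' : R ≤ ‖v‖ := hv
    have hv0 : 0 < ‖v‖ := lt_of_lt_of_le hR0 hv'
    have h1 := tail_pair_inner g hg v (hR.trans hv')
    rw [← hA] at h1
    have h2 : A / ‖v‖ ≤ A / R ^ 3 * ‖v‖ ^ 2 := by
      rw [div_mul_eq_mul_div, div_le_div_iff₀ hv0 (by positivity)]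
      have h3 : R ^ 3 ≤ ‖v‖ ^ 3 := pow_le_pow_left₀ hR0.le hv' 3
      have h4 := mul_le_mul_of_nonneg_left h3 hA0
      calc A * R ^ 3 ≤ A * ‖v‖ ^ 3 := h4
        _ = A * ‖v‖ ^ 2 * ‖v‖ := by ring
    calc (g v * ∫ w, g w / ‖v - w‖) ≤ g v * (A / R ^ 3 * ‖v‖ ^ 2) :=
          mul_le_mul_of_nonneg_left (h1.trans h2) (hg.nonneg v)
      _ = A / R ^ 3 * (‖v‖ ^ 2 * g v) := by ring
  have hnn : ∀ v, 0 ≤ (g v * ∫ w, g w / ‖v - w‖) := fun v =>
    mul_nonneg (hg.nonneg v) (integral_nonneg fun w => div_nonneg (hg.nonneg w) (norm_nonneg _))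
  have hi2 : Integrable fun v => A / R ^ 3 * (‖v‖ ^ 2 * g v) := hg.int_energy.const_mul _
  calc ∫ v in {v : V | R ≤ ‖v‖}, (g v * ∫ w, g w / ‖v - w‖)
      ≤ ∫ v in {v : V | R ≤ ‖v‖}, A / R ^ 3 * (‖v‖ ^ 2 * g v) := by
        refine integral_mono_of_nonneg (Eventually.of_forall hnn) hi2.integrableOn ?_
        filter_upwards [ae_restrict_mem hms] with v hv
        exact hpt v hv
    _ ≤ ∫ v, A / R ^ 3 * (‖v‖ ^ 2 * g v) := by
        refine setIntegral_le_integral hi2 (Eventually.of_forall fun v => ?_)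
        exact mul_nonneg (by positivity) (mul_nonneg (sq_nonneg _) (hg.nonneg v))
    _ = A / R ^ 3 * energy g := by
        rw [integral_const_mul]
        rfl
    _ = (A * energy g) / R ^ 3 := by ring
    _ ≤ 13 * (1 + m) ^ 2 / R ^ 3 := by
        refine div_le_div_of_nonneg_right ?_ (by positivity)
        rw [hA]
        nlinarith [mul_nonneg hM hE, mul_nonneg hM hM, mul_nonneg hE hE,
          mul_nonneg (sub_nonneg.2 hm) hE, mul_nonneg (sub_nonneg.2 hm) hM,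
          mul_nonneg (sub_nonneg.2 hm) (sub_nonneg.2 hm)]

end Pool.Agent.Landau
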