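import Pool.Agent.Landau.Joint

/-!
# Landau, module TimeDer: derivatives in time of localised quantities

`hasDerivAt_integral_of_dominated_loc_of_deriv_le` (or its `hasDerivAt_integral_of_dominated_loc_of_lip`
version) on a small interval around `t` contained in `Iio 0`: the derivative of the integrand in time
is `φ v * QL (f s) v`, respectively `φ v * (log (f s v + ε) * QL (f s) v)` (the derivative of `bet ε` at
`s ≥ 0` is `log (s + ε)`), and it is bounded by a constant times the indicator of the support of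
`φ` because it is jointly continuous (module `Joint`) on the compact product of a closed interval
with the support of `φ`.
-/

set_option autoImplicit false

namespace Pool.Agent.Landau

open MeasureTheory Set Filter Topology

theorem td_slice {Ψ : ℝ → V → ℝ}
    (hc' : ContinuousOn (fun p : ℝ × V => Ψ p.1 p.2) (Iio (0 : ℝ) ×ˢ univ)) {s : ℝ} (hs : s < 0) :
    Continuous (Ψ s) := by
  have h1 : Continuous fun v : V => ((s, v) : ℝ × V) := by fun_prop
  have h2 : ContinuousOn ((fun p : ℝ × V => Ψ p.1 p.2) ∘ fun v : V => ((s, v) : ℝ × V)) univ :=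
    hc'.comp h1.continuousOn (fun v _ => ⟨hs, mem_univ _⟩)
  exact continuousOn_univ.mp h2

theorem td_gen (Φ Φ' : ℝ → V → ℝ) (φ : V → ℝ) (hφ : Continuous φ) (hc : HasCompactSupport φ)
    (t : ℝ) (ht : t < 0) (hcont : ∀ s < 0, Continuous (Φ s))
    (hc' : ContinuousOn (fun p : ℝ × V => Φ' p.1 p.2) (Iio (0 : ℝ) ×ˢ univ))
    (hd : ∀ s < 0, ∀ v, HasDerivAt (fun s => Φ s v) (Φ' s v) s) :
    HasDerivAt (fun s => ∫ v, φ v * Φ s v) (∫ v, φ v * Φ' t v) t := by
  have hsub : Icc (t - 1) (t / 2) ×ˢ tsupport φ ⊆ Iio (0 : ℝ) ×ˢ (univ : Set V) := by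
    rintro ⟨s, v⟩ ⟨hs, _⟩
    refine ⟨?_, mem_univ _⟩
    have : s ≤ t / 2 := hs.2
    show s < 0
    linarith
  have hcomp : IsCompact (Icc (t - 1) (t / 2) ×ˢ tsupport φ) := isCompact_Icc.prod hc
  obtain ⟨M, hM⟩ := hcomp.exists_bound_of_continuousOn (hc'.mono hsub)
  have hnhds : Icc (t - 1) (t / 2) ∈ 𝓝 t := Icc_mem_nhds (by linarith) (by linarith)
  have hneg : ∀ s ∈ Icc (t - 1) (t / 2), s < 0 := by
    intro s hs
    have : s ≤ t / 2 := hs.2
    linarith
  refine (hasDerivAt_integral_of_dominated_loc_of_deriv_le (μ := (volume : Measure V))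
    (F := fun s v => φ v * Φ s v) (F' := fun s v => φ v * Φ' s v)
    (bound := fun v => ‖φ v‖ * M) hnhds ?_ ?_ ?_ ?_ ?_ ?_).2
  · filter_upwards [hnhds] with s hs
    exact (hφ.mul (hcont s (hneg s hs))).aestronglyMeasurable
  · exact (hφ.mul (hcont t ht)).integrable_of_hasCompactSupport hc.mul_right
  · exact (hφ.mul (td_slice hc' ht)).aestronglyMeasurable
  · refine Eventually.of_forall fun v s hs => ?_
    by_cases hv : v ∈ tsupport φ
    · rw [norm_mul]
      exact mul_le_mul_of_nonneg_left (hM (s, v) ⟨hs, hv⟩) (norm_nonneg _)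
    · have h0 : φ v = 0 := image_eq_zero_of_notMem_tsupport hv
      simp [h0]
  · exact (hφ.norm.mul continuous_const).integrable_of_hasCompactSupport hc.norm.mul_right
  · refine Eventually.of_forall fun v s hs => ?_
    exact (hd s (hneg s hs) v).const_mul (φ v)

theorem timeDer_lin (f : ℝ → V → ℝ) (hf : Sol f) (φ : V → ℝ) (hφ : Continuous φ)
    (hc : HasCompactSupport φ) (t : ℝ) (ht : t < 0) :
    HasDerivAt (fun s => ∫ v, φ v * f s v) (∫ v, φ v * QL (f t) v) t :=
  td_gen f (fun s => QL (f s)) φ hφ hc t ht (fun s hs => (hf.cls s hs).cont) (joint_QL f hf)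
    (fun s hs v => hf.pde s hs v)

theorem td_bet (ε s : ℝ) (h : 0 < s + ε) : HasDerivAt (bet ε) (Real.log (s + ε)) s := by
  have h1 : HasDerivAt (fun x : ℝ => x + ε) 1 s := (hasDerivAt_id s).add_const ε
  have h2 : HasDerivAt (fun x : ℝ => Real.log (x + ε)) (1 / (s + ε)) s := h1.log h.ne'
  have h3 : HasDerivAt (fun x : ℝ => (x + ε) * Real.log (x + ε))
      (1 * Real.log (s + ε) + (s + ε) * (1 / (s + ε))) s := h1.mul h2
  have h4 : HasDerivAt (fun x : ℝ => (x + ε) * Real.log (x + ε) - x - ε * Real.log ε)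
      (1 * Real.log (s + ε) + (s + ε) * (1 / (s + ε)) - 1) s :=
    (h3.sub (hasDerivAt_id s)).sub_const _
  have h5 : 1 * Real.log (s + ε) + (s + ε) * (1 / (s + ε)) - 1 = Real.log (s + ε) := by
    rw [mul_one_div_cancel h.ne']
    ring
  rw [h5] at h4
  exact h4

theorem timeDer_ent (f : ℝ → V → ℝ) (hf : Sol f) (φ : V → ℝ) (hφ : Continuous φ)
    (hc : HasCompactSupport φ) (ε : ℝ) (hε : 0 < ε) (t : ℝ) (ht : t < 0) :
    HasDerivAt (fun s => ∫ v, φ v * bet ε (f s v))
      (∫ v, φ v * (Real.log (f t v + ε) * QL (f t) v)) t := by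
  have hpos : ∀ s < 0, ∀ v, 0 < f s v + ε := by
    intro s hs v
    have := (hf.cls s hs).nonneg v
    linarith
  refine td_gen (fun s v => bet ε (f s v)) (fun s v => Real.log (f s v + ε) * QL (f s) v) φ hφ hc
    t ht ?_ ?_ ?_
  · intro s hs
    have hfc := (hf.cls s hs).cont
    have h1 : Continuous fun v => Real.log (f s v + ε) :=
      (hfc.add continuous_const).log (fun v => (hpos s hs v).ne')
    unfold bet
    exact (((hfc.add continuous_const).mul h1).sub hfc).sub continuous_const
  · refine ContinuousOn.mul ?_ (joint_QL f hf)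
    refine ContinuousOn.log ((joint_f f hf).add continuousOn_const) ?_
    rintro ⟨s, v⟩ ⟨hs, _⟩
    exact (hpos s hs v).ne'
  · intro s hs v
    have h1 := td_bet ε (f s v) (hpos s hs v)
    exact h1.comp s (hf.pde s hs v)

end Pool.Agent.Landau
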