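import Pool.Agent.Landau.Weak1

/-!
# Landau, module WBound: only particles outside the ball matter

Let `z = v - w`.  All second derivatives of `φ` are bounded by `Λ`, so
`|∂_i φ(v) - ∂_i φ(w)| ≤ √3 Λ ‖z‖ ≤ 2 Λ ‖z‖` (mean value inequality, the norm of the differential of
`∂_i φ` is at most `√3 Λ`).  With `bK_abs`, `aK_abs`: `|Kf φ v w| ≤ (3 * 2 Λ + (1/2) * 9 * 2 Λ) / ‖z‖ =
15 Λ / ‖z‖` (`Kf_bound`).
If `‖v‖ < R` and `‖w‖ < R` then `∂_i φ(v) - ∂_i φ(w) = 2 γ z_i`, `∂_i ∂_j φ = 2 γ δ_ij` at `v` and `w`, so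
`Kf φ v w = 2 γ (∑ b_i(z) z_i + ∑ a_ii(z)) = 0` by `kernel_trace` (`Kf_zero`).
So by `weak_sym`, `|∫ φ QL g|` is at most the integral of `15 Λ g g_* / ‖z‖` over `‖v‖ ≥ R` or
`‖w‖ ≥ R`, at most twice the integral over `‖v‖ ≥ R` (symmetry).
(Everything is integrable: `integrable_prod_inv` with `F = u = g`.)
-/

set_option autoImplicit false

namespace Pool.Agent.Landau

open MeasureTheory Set Filter Topology

namespace WBoundAux

theorem vec_sum (u : V) : u = ∑ j, u j • EuclideanSpace.single j (1 : ℝ) := by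
  ext k
  fin_cases k <;> simp [Fin.sum_univ_three]

theorem sum_abs_le (u : V) : ∑ j, |u j| ≤ 2 * ‖u‖ := by
  have h1 := nsq u
  have h2 := sq_abs (u 0)
  have h3 := sq_abs (u 1)
  have h4 := sq_abs (u 2)
  rw [Fin.sum_univ_three, ← pow_le_pow_iff_left₀ (by positivity) (by positivity) two_ne_zero]
  nlinarith [sq_nonneg (|u 0| - |u 1|), sq_nonneg (|u 1| - |u 2|), sq_nonneg (|u 0| - |u 2|),
    sq_nonneg ‖u‖]

theorem grad_lip (G : V → ℝ) (hG : Differentiable ℝ G) (Λ : ℝ) (hΛ : ∀ j x, |pd j G x| ≤ Λ)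
    (v w : V) : |G v - G w| ≤ 2 * Λ * ‖v - w‖ := by
  have h0 : 0 ≤ Λ := (abs_nonneg _).trans (hΛ 0 0)
  have h1 : ∀ x, ‖fderiv ℝ G x‖ ≤ 2 * Λ := by
    intro x
    refine ContinuousLinearMap.opNorm_le_bound _ (by positivity) fun u => ?_
    have h2 : fderiv ℝ G x u = ∑ j, u j * pd j G x := by
      conv_lhs => rw [vec_sum u]
      rw [map_sum]
      refine Finset.sum_congr rfl fun j _ => ?_
      rw [map_smul, smul_eq_mul]
      rfl
    rw [h2, Real.norm_eq_abs]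
    calc |∑ j, u j * pd j G x| ≤ ∑ j, |u j * pd j G x| := Finset.abs_sum_le_sum_abs _ _
      _ ≤ ∑ j, |u j| * Λ := Finset.sum_le_sum fun j _ => by
          rw [abs_mul]
          exact mul_le_mul_of_nonneg_left (hΛ j x) (abs_nonneg _)
      _ = (∑ j, |u j|) * Λ := by rw [Finset.sum_mul]
      _ ≤ (2 * ‖u‖) * Λ := mul_le_mul_of_nonneg_right (sum_abs_le u) h0
      _ = 2 * Λ * ‖u‖ := by ring
  have h3 := convex_univ.norm_image_sub_le_of_norm_fderiv_le (𝕜 := ℝ) (f := G)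
    (fun x _ => hG x) (fun x _ => h1 x) (mem_univ w) (mem_univ v)
  rwa [Real.norm_eq_abs] at h3

theorem pd_coord (i j : Fin 3) (v : V) : pd i (fun v : V => v j) v = if i = j then 1 else 0 := by
  have h1 : HasFDerivAt (fun v : V => v j) (EuclideanSpace.proj j : V →L[ℝ] ℝ) v :=
    (EuclideanSpace.proj j : V →L[ℝ] ℝ).hasFDerivAt
  unfold pd
  rw [h1.fderiv]
  fin_cases i <;> fin_cases j <;> simp

theorem pd_congr {f g : V → ℝ} {v : V} (h : f =ᶠ[𝓝 v] g) (i : Fin 3) : pd i f v = pd i g v := by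
  unfold pd
  rw [h.fderiv_eq]

theorem pd_affine (a b : ℝ) (i j : Fin 3) (v : V) :
    pd i (fun v : V => a + b * v j) v = if i = j then b else 0 := by
  have h1 : HasFDerivAt (fun v : V => v j) (EuclideanSpace.proj j : V →L[ℝ] ℝ) v :=
    (EuclideanSpace.proj j : V →L[ℝ] ℝ).hasFDerivAt
  have h2 := (h1.const_mul b).const_add a
  unfold pd
  rw [h2.fderiv]
  fin_cases i <;> fin_cases j <;> simp

theorem pd_quad (α : ℝ) (β : Fin 3 → ℝ) (γ : ℝ) (i : Fin 3) (v : V) :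
    pd i (fun v : V => α + (∑ i, β i * v i) + γ * ‖v‖ ^ 2) v = β i + 2 * γ * v i := by
  have hc : ∀ j : Fin 3, HasFDerivAt (fun v : V => v j) (EuclideanSpace.proj j : V →L[ℝ] ℝ) v :=
    fun j => (EuclideanSpace.proj j : V →L[ℝ] ℝ).hasFDerivAt
  have h1 : HasFDerivAt (fun v : V => ∑ i, β i * v i)
      (∑ i, β i • (EuclideanSpace.proj i : V →L[ℝ] ℝ)) v :=
    HasFDerivAt.fun_sum fun j _ => (hc j).const_mul (β j)
  have h2 : HasFDerivAt (fun v : V => ‖v‖ ^ 2) (2 • innerSL ℝ v) v :=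
    (hasStrictFDerivAt_norm_sq v).hasFDerivAt
  have h3 := (h1.const_add α).add (h2.const_mul γ)
  have h4 : (fun v : V => α + (∑ i, β i * v i) + γ * ‖v‖ ^ 2) =
      (fun v : V => α + ∑ i, β i * v i) + fun v : V => γ * ‖v‖ ^ 2 := rfl
  unfold pd
  rw [h4, h3.fderiv]
  fin_cases i <;> simp [Fin.sum_univ_three, EuclideanSpace.inner_single_right] <;> ring

end WBoundAux

open WBoundAux

theorem Kf_bound (φ : V → ℝ) (hφ : ContDiff ℝ (⊤ : ℕ∞) φ) (Λ : ℝ)
    (hΛ : ∀ i j v, |pd i (pd j φ) v| ≤ Λ) (v w : V) : |Kf φ v w| ≤ 15 * Λ / ‖v - w‖ := by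
  have h0 : 0 ≤ Λ := (abs_nonneg _).trans (hΛ 0 0 0)
  have hb : ∀ i, |bK i (v - w) * (pd i φ v - pd i φ w)| ≤ 2 * Λ / ‖v - w‖ := by
    intro i
    rw [abs_mul]
    have h1 := grad_lip (pd i φ) (differentiable_of_smooth (smooth_pd hφ i)) Λ
      (fun j x => hΛ j i x) v w
    calc |bK i (v - w)| * |pd i φ v - pd i φ w|
        ≤ 1 / ‖v - w‖ ^ 2 * (2 * Λ * ‖v - w‖) :=
          mul_le_mul (bK_abs i _) h1 (abs_nonneg _) (by positivity)
      _ = 2 * Λ / ‖v - w‖ := by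
          by_cases hz : ‖v - w‖ = 0
          · rw [hz]
            simp
          · field_simp
  have ha : ∀ i j, |aK i j (v - w) * (pd i (pd j φ) v + pd i (pd j φ) w)| ≤
      2 * Λ / ‖v - w‖ := by
    intro i j
    rw [abs_mul]
    have h1 : |pd i (pd j φ) v + pd i (pd j φ) w| ≤ 2 * Λ :=
      (abs_add_le _ _).trans (by linarith [hΛ i j v, hΛ i j w])
    calc |aK i j (v - w)| * |pd i (pd j φ) v + pd i (pd j φ) w|
        ≤ 1 / ‖v - w‖ * (2 * Λ) := mul_le_mul (aK_abs i j _) h1 (abs_nonneg _) (by positivity)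
      _ = 2 * Λ / ‖v - w‖ := by ring
  have h1 : |∑ i : Fin 3, bK i (v - w) * (pd i φ v - pd i φ w)| ≤ 3 * (2 * Λ / ‖v - w‖) := by
    refine (Finset.abs_sum_le_sum_abs _ _).trans ((Finset.sum_le_sum fun i _ => hb i).trans ?_)
    simp
  have h2 : |∑ i : Fin 3, ∑ j : Fin 3, aK i j (v - w) * (pd i (pd j φ) v + pd i (pd j φ) w)| ≤
      9 * (2 * Λ / ‖v - w‖) := by
    refine (Finset.abs_sum_le_sum_abs _ _).trans ((Finset.sum_le_sum fun i _ =>
      (Finset.abs_sum_le_sum_abs _ _).trans (Finset.sum_le_sum fun j _ => ha i j)).trans ?_)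
    simp only [Finset.sum_const, Finset.card_univ, Fintype.card_fin, nsmul_eq_mul]
    apply le_of_eq
    push_cast
    ring
  unfold Kf
  calc _ ≤ |∑ i : Fin 3, bK i (v - w) * (pd i φ v - pd i φ w)| +
        |1 / 2 * ∑ i : Fin 3, ∑ j : Fin 3, aK i j (v - w) *
          (pd i (pd j φ) v + pd i (pd j φ) w)| := abs_add_le _ _
    _ ≤ 3 * (2 * Λ / ‖v - w‖) + 1 / 2 * (9 * (2 * Λ / ‖v - w‖)) := by
        rw [abs_mul, abs_of_pos (by norm_num : (0 : ℝ) < 1 / 2)]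
        linarith
    _ = 15 * Λ / ‖v - w‖ := by ring

theorem Kf_zero (φ : V → ℝ) (R : ℝ) (α : ℝ) (β : Fin 3 → ℝ) (γ : ℝ)
    (hin : ∀ v : V, ‖v‖ < R → φ v = α + (∑ i, β i * v i) + γ * ‖v‖ ^ 2) (v w : V)
    (hv : ‖v‖ < R) (hw : ‖w‖ < R) : Kf φ v w = 0 := by
  have hball : ∀ x : V, ‖x‖ < R → ∀ᶠ y in 𝓝 x, ‖y‖ < R := fun x hx =>
    continuous_norm.continuousAt.eventually (gt_mem_nhds hx)
  have h1 : ∀ x : V, ‖x‖ < R → ∀ i, pd i φ x = β i + 2 * γ * x i := by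
    intro x hx i
    rw [← pd_quad α β γ i x]
    refine pd_congr ?_ i
    filter_upwards [hball x hx] with y hy using hin y hy
  have h2 : ∀ x : V, ‖x‖ < R → ∀ i j, pd i (pd j φ) x = if i = j then 2 * γ else 0 := by
    intro x hx i j
    rw [← pd_affine (β j) (2 * γ) i j x]
    refine pd_congr ?_ i
    filter_upwards [hball x hx] with y hy using h1 y hy j
  have h3 := kernel_trace (v - w)
  unfold Kf
  simp only [h1 v hv, h1 w hw, h2 v hv, h2 w hw]
  simp only [Fin.sum_univ_three, PiLp.sub_apply, Fin.isValue, if_true, Fin.reduceEq,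
    if_false] at h3 ⊢
  linear_combination (2 * γ) * h3

theorem weak_bound (g : V → ℝ) (hg : Cls g) (φ : V → ℝ) (hφ : ContDiff ℝ (⊤ : ℕ∞) φ)
    (hc : HasCompactSupport φ) (Λ : ℝ) (hΛ : ∀ i j v, |pd i (pd j φ) v| ≤ Λ) (R : ℝ)
    (α : ℝ) (β : Fin 3 → ℝ) (γ : ℝ)
    (hin : ∀ v : V, ‖v‖ < R → φ v = α + (∑ i, β i * v i) + γ * ‖v‖ ^ 2) :
    |∫ v, φ v * QL g v| ≤
      30 * Λ * ∫ v in {v : V | R ≤ ‖v‖}, (g v * ∫ w, g w / ‖v - w‖) := by
  obtain ⟨hF, hw⟩ := weak_sym g hg φ hφ hc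
  have h0 : 0 ≤ Λ := (abs_nonneg _).trans (hΛ 0 0 0)
  have hA : MeasurableSet {v : V | R ≤ ‖v‖} := measurableSet_le measurable_const measurable_norm
  obtain ⟨H, hH⟩ : ∃ H : V × V → ℝ, H = fun p => g p.1 * g p.2 / ‖p.1 - p.2‖ := ⟨_, rfl⟩
  have hHi : Integrable H (volume.prod volume) := by
    rw [hH]
    exact (integrable_prod_inv g g hg.int_g hg.int_g 1
      (fun v => by rw [abs_of_nonneg (hg.nonneg v)]; exact hg.le_one v)).1
  have hH0 : ∀ p, 0 ≤ H p := by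
    intro p
    rw [hH]
    exact div_nonneg (mul_nonneg (hg.nonneg _) (hg.nonneg _)) (norm_nonneg _)
  have hA1 : MeasurableSet (Prod.fst ⁻¹' {v : V | R ≤ ‖v‖} : Set (V × V)) := measurable_fst hA
  have hA2 : MeasurableSet (Prod.snd ⁻¹' {v : V | R ≤ ‖v‖} : Set (V × V)) := measurable_snd hA
  obtain ⟨K1, hK1⟩ : ∃ K1 : V × V → ℝ, K1 = (Prod.fst ⁻¹' {v : V | R ≤ ‖v‖}).indicator H :=
    ⟨_, rfl⟩
  obtain ⟨K2, hK2⟩ : ∃ K2 : V × V → ℝ, K2 = (Prod.snd ⁻¹' {v : V | R ≤ ‖v‖}).indicator H :=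
    ⟨_, rfl⟩
  have hK1i : Integrable K1 (volume.prod volume) := by rw [hK1]; exact hHi.indicator hA1
  have hK2i : Integrable K2 (volume.prod volume) := by rw [hK2]; exact hHi.indicator hA2
  have hK10 : ∀ p, 0 ≤ K1 p := by
    intro p
    rw [hK1]
    exact Set.indicator_nonneg (fun p _ => hH0 p) p
  have hK20 : ∀ p, 0 ≤ K2 p := by
    intro p
    rw [hK2]
    exact Set.indicator_nonneg (fun p _ => hH0 p) p
  have hbd : ∀ p : V × V, ‖g p.1 * g p.2 * Kf φ p.1 p.2‖ ≤ 15 * Λ * (K1 p + K2 p) := by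
    intro p
    have h1 : ‖g p.1 * g p.2 * Kf φ p.1 p.2‖ ≤ 15 * Λ * H p := by
      rw [Real.norm_eq_abs, abs_mul, abs_of_nonneg (mul_nonneg (hg.nonneg _) (hg.nonneg _)), hH]
      calc g p.1 * g p.2 * |Kf φ p.1 p.2| ≤ g p.1 * g p.2 * (15 * Λ / ‖p.1 - p.2‖) :=
            mul_le_mul_of_nonneg_left (Kf_bound φ hφ Λ hΛ _ _)
              (mul_nonneg (hg.nonneg _) (hg.nonneg _))
        _ = 15 * Λ * (g p.1 * g p.2 / ‖p.1 - p.2‖) := by ring
    by_cases hp1 : R ≤ ‖p.1‖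
    · have h2 : K1 p = H p := by
        rw [hK1]
        exact Set.indicator_of_mem (s := Prod.fst ⁻¹' {v : V | R ≤ ‖v‖}) hp1 H
      refine h1.trans (mul_le_mul_of_nonneg_left ?_ (by positivity))
      rw [h2]
      linarith [hK20 p]
    · by_cases hp2 : R ≤ ‖p.2‖
      · have h2 : K2 p = H p := by
          rw [hK2]
          exact Set.indicator_of_mem (s := Prod.snd ⁻¹' {v : V | R ≤ ‖v‖}) hp2 H
        refine h1.trans (mul_le_mul_of_nonneg_left ?_ (by positivity))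
        rw [h2]
        linarith [hK10 p]
      · rw [Kf_zero φ R α β γ hin _ _ (not_le.1 hp1) (not_le.1 hp2), mul_zero, norm_zero]
        exact mul_nonneg (by positivity) (add_nonneg (hK10 p) (hK20 p))
  have hI1 : ∫ p, K1 p ∂(volume.prod volume) =
      ∫ v in {v : V | R ≤ ‖v‖}, (g v * ∫ w, g w / ‖v - w‖) := by
    rw [hK1, integral_indicator hA1, ← Set.prod_univ, setIntegral_prod _ hHi.integrableOn]
    refine integral_congr_ae (Eventually.of_forall fun v => ?_)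
    simp only [Measure.restrict_univ]
    rw [← integral_const_mul]
    refine integral_congr_ae (Eventually.of_forall fun w => ?_)
    simp only [hH]
    ring
  have hI2 : ∫ p, K2 p ∂(volume.prod volume) = ∫ p, K1 p ∂(volume.prod volume) := by
    rw [← integral_prod_swap K2]
    refine integral_congr_ae (Eventually.of_forall fun p => ?_)
    have hsw : H p.swap = H p := by
      rw [hH]
      simp only [Prod.fst_swap, Prod.snd_swap]
      rw [norm_sub_rev, mul_comm]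
    simp only [hK1, hK2]
    by_cases hp : R ≤ ‖p.1‖
    · rw [Set.indicator_of_mem (s := Prod.fst ⁻¹' {v : V | R ≤ ‖v‖}) hp H,
        Set.indicator_of_mem (s := Prod.snd ⁻¹' {v : V | R ≤ ‖v‖}) (a := p.swap) hp H, hsw]
    · rw [Set.indicator_of_notMem (s := Prod.fst ⁻¹' {v : V | R ≤ ‖v‖}) hp H,
        Set.indicator_of_notMem (s := Prod.snd ⁻¹' {v : V | R ≤ ‖v‖}) (a := p.swap) hp H]
  rw [hw, ← Real.norm_eq_abs]
  refine (norm_integral_le_of_norm_le ((hK1i.add hK2i).const_mul (15 * Λ))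
    (Eventually.of_forall hbd)).trans ?_
  rw [integral_const_mul]
  have h5 : ∫ p, (K1 + K2) p ∂(volume.prod volume) =
      ∫ p, K1 p ∂(volume.prod volume) + ∫ p, K2 p ∂(volume.prod volume) :=
    integral_add hK1i hK2i
  rw [h5, hI2, hI1]
  apply le_of_eq
  ring

end Pool.Agent.Landau
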