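import Pool.Agent.Landau.Chi
import Pool.Agent.Landau.WBound
import Pool.Agent.Landau.TBound
import Pool.Agent.Landau.TimeDer

/-!
# Landau, module PairLip: localised moments are Lipschitz in time

`pair_lip`: mean value inequality (`Convex.norm_image_sub_le_of_norm_hasDerivWithin_le` or
`image_norm_sub_le_of_norm_deriv_le_segment` on `[t1, t2]`) with `timeDer_lin`, `weak_bound`, `tail_pair`:
`30 Λ * 13 (1 + m)² / R³ = 390 Λ (1 + m)² / R³`.

`trunc_lip`: apply this to `chi R`, `v k * chi R v`, `‖v‖² chi R v` (equal to `1`, `v k`, `‖v‖²` on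
`‖v‖ < R`), whose second derivatives are bounded by `C / R²`, `C / R`, `C` (`chi_bounds`), all at most `C`.
-/

set_option autoImplicit false

namespace Pool.Agent.Landau

open MeasureTheory Set Filter Topology

theorem pair_lip (f : ℝ → V → ℝ) (hf : Sol f) (φ : V → ℝ) (hφ : ContDiff ℝ (⊤ : ℕ∞) φ)
    (hc : HasCompactSupport φ) (Λ : ℝ) (hΛ : ∀ i j v, |pd i (pd j φ) v| ≤ Λ) (R : ℝ) (hR : 1 ≤ R)
    (α : ℝ) (β : Fin 3 → ℝ) (γ : ℝ)
    (hin : ∀ v : V, ‖v‖ < R → φ v = α + (∑ i, β i * v i) + γ * ‖v‖ ^ 2)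
    (t1 t2 m : ℝ) (h12 : t1 ≤ t2) (h2 : t2 < 0)
    (hm : ∀ t ∈ Icc t1 t2, mass (f t) + energy (f t) ≤ m) :
    |(∫ v, φ v * f t2 v) - ∫ v, φ v * f t1 v| ≤ 390 * Λ * (1 + m) ^ 2 * (t2 - t1) / R ^ 3 := by
  have hΛ0 : 0 ≤ Λ := (abs_nonneg _).trans (hΛ 0 0 0)
  have hR3 : 0 < R ^ 3 := by positivity
  have hder : ∀ t ∈ Icc t1 t2, HasDerivWithinAt (fun s => ∫ v, φ v * f s v)
      (∫ v, φ v * QL (f t) v) (Icc t1 t2) t := fun t ht =>
    (timeDer_lin f hf φ hφ.continuous hc t (ht.2.trans_lt h2)).hasDerivWithinAt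
  have hbd : ∀ t ∈ Icc t1 t2, ‖∫ v, φ v * QL (f t) v‖ ≤ 30 * Λ * (13 * (1 + m) ^ 2 / R ^ 3) := by
    intro t ht
    have hcl := hf.cls t (ht.2.trans_lt h2)
    rw [Real.norm_eq_abs]
    refine (weak_bound (f t) hcl φ hφ hc Λ hΛ R α β γ hin).trans ?_
    exact mul_le_mul_of_nonneg_left (tail_pair (f t) hcl m (hm t ht) R hR) (by positivity)
  have h := (convex_Icc t1 t2).norm_image_sub_le_of_norm_hasDerivWithin_le hder hbd
    (left_mem_Icc.2 h12) (right_mem_Icc.2 h12)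
  rw [Real.norm_eq_abs, Real.norm_eq_abs, abs_of_nonneg (sub_nonneg.2 h12)] at h
  refine h.trans (le_of_eq ?_)
  ring

theorem trunc_lip : ∃ C : ℝ, 0 < C ∧ ∀ f : ℝ → V → ℝ, Sol f → ∀ t1 t2 m R : ℝ, t1 ≤ t2 → t2 < 0 →
    1 ≤ R → (∀ t ∈ Icc t1 t2, mass (f t) + energy (f t) ≤ m) →
    |(∫ v, chi R v * f t2 v) - ∫ v, chi R v * f t1 v| ≤ C * (1 + m) ^ 2 * (t2 - t1) / R ^ 3 ∧
    (∀ k : Fin 3, |(∫ v, v k * chi R v * f t2 v) - ∫ v, v k * chi R v * f t1 v| ≤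
      C * (1 + m) ^ 2 * (t2 - t1) / R ^ 3) ∧
    |(∫ v, ‖v‖ ^ 2 * chi R v * f t2 v) - ∫ v, ‖v‖ ^ 2 * chi R v * f t1 v| ≤
      C * (1 + m) ^ 2 * (t2 - t1) / R ^ 3 := by
  obtain ⟨C, hC, hchi⟩ := chi_bounds
  refine ⟨390 * C, by positivity, ?_⟩
  intro f hf t1 t2 m R h12 h2 hR hm
  have hR0 : 0 < R := by linarith
  obtain ⟨-, b1, b2, b3⟩ := hchi R hR
  have hsm := chi_smooth R
  have hcs := chi_compact hR0
  refine ⟨?_, ?_, ?_⟩
  · refine pair_lip f hf (chi R) hsm hcs C (fun i j v => (b1 i j v).trans ?_) R hR 1 (fun _ => 0) 0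
      (fun v hv => ?_) t1 t2 m h12 h2 hm
    · exact div_le_self hC.le (one_le_pow₀ hR)
    · rw [chi_one hR0 hv.le]
      simp
  · intro k
    have hk : ContDiff ℝ (⊤ : ℕ∞) (fun v : V => v k) := by fun_prop
    refine pair_lip f hf (fun v => v k * chi R v) (hk.mul hsm) (HasCompactSupport.mul_left hcs) C
      (fun i j v => (b2 k i j v).trans ?_) R hR 0 (fun i => if i = k then 1 else 0) 0
      (fun v hv => ?_) t1 t2 m h12 h2 hm
    · exact div_le_self hC.le hR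
    · simp only
      rw [chi_one hR0 hv.le]
      simp
  · have hn : ContDiff ℝ (⊤ : ℕ∞) (fun v : V => ‖v‖ ^ 2) := contDiff_norm_sq ℝ
    refine pair_lip f hf (fun v => ‖v‖ ^ 2 * chi R v) (hn.mul hsm) (HasCompactSupport.mul_left hcs)
      C b3 R hR 0 (fun _ => 0) 1 (fun v hv => ?_) t1 t2 m h12 h2 hm
    simp only
    rw [chi_one hR0 hv.le]
    simp

end Pool.Agent.Landau
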