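import Pool.Agent.Landau.Baire
import Pool.Agent.Landau.CT2
import Pool.Agent.Landau.PairLip

/-!
# Landau, module Tight: no energy escapes along the good times

Let `M = mass (f (-1)) > 0`, `E = energy (f (-1))`, `m = M + E`; by `cons_global` mass and energy are `M`, `E` at all
negative times.  Given `δ > 0`.  (1) By `trunc_lip` (`t1 = t n`, `t2 = -1`, radius `B0 = K (-t n)^(1/3) ≥ 1`)
`∫ ‖v‖² (1 - chi B0) f(t n) ≤ ∫ ‖v‖² (1 - chi B0) f(-1) + C (1 + m)² / K³` (as the energies agree), and the first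
term on the right tends to `0` as `n → ∞` (dominated convergence, `B0 → ∞`).  Fix `K` large: for large `n`,
`∫_{‖v‖ ≥ 2 B0} ‖v‖² f(t n) ≤ δ / 2`.
(2) By `core_tail` with `B = 2 B0`, `B³ = 8 K³ (-t n)`, and `(-t n) DD → 0`:
`∫_{2 R' ≤ ‖v‖ ≤ 2 B0} ‖v‖² f(t n) ≤ C (1 / R² + R / R') + 8 C K³ (-t n) DD`.  Choose first `R`, then `R'`, then `n` large
(so that also `2 R' ≤ 2 B0`, `DD ≠ ⊤`).  The claim holds with `ρ = 2 R'`.
-/

set_option autoImplicit false

namespace Pool.Agent.Landau

open MeasureTheory Set Filter Topology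

theorem tight_int {g : V → ℝ} (hg : Cls g) (B : ℝ) :
    Integrable (fun v => ‖v‖ ^ 2 * chi B v * g v) := by
  refine hg.int_energy.mono' (((continuous_norm.pow 2).mul
    (chi_smooth B).continuous).mul hg.cont).aestronglyMeasurable (Eventually.of_forall fun v => ?_)
  have h1 := chi_nonneg B v
  have h2 := chi_le_one B v
  have h3 := hg.nonneg v
  have h4 : 0 ≤ ‖v‖ ^ 2 * g v := by positivity
  rw [Real.norm_of_nonneg (by positivity)]
  nlinarith

/-- the energy outside of a ball is at most the energy removed by the truncation -/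
theorem tight_outer {g : V → ℝ} (hg : Cls g) {B : ℝ} (hB : 0 < B) :
    ∫ v in {v : V | 2 * B < ‖v‖}, ‖v‖ ^ 2 * g v ≤ energy g - ∫ v, ‖v‖ ^ 2 * chi B v * g v := by
  have hm : MeasurableSet {v : V | 2 * B < ‖v‖} := measurableSet_lt measurable_const measurable_norm
  have hi := tight_int hg B
  unfold energy
  rw [← integral_sub hg.int_energy hi, ← integral_indicator hm]
  refine integral_mono (hg.int_energy.indicator hm) (hg.int_energy.sub hi) fun v => ?_
  by_cases h : v ∈ {v : V | 2 * B < ‖v‖}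
  · have h' : 2 * B < ‖v‖ := h
    rw [indicator_of_mem h]
    simp only [Pi.sub_apply]
    rw [chi_zero hB h'.le]
    simp
  · rw [indicator_of_notMem h]
    simp only [Pi.sub_apply]
    have h2 := chi_le_one B v
    have h3 := hg.nonneg v
    have h4 : 0 ≤ ‖v‖ ^ 2 * g v := by positivity
    nlinarith

theorem tight_lim {g : V → ℝ} (hg : Cls g) (B : ℕ → ℝ) (hB : Tendsto B atTop atTop) :
    Tendsto (fun n => ∫ v, ‖v‖ ^ 2 * chi (B n) v * g v) atTop (𝓝 (energy g)) := by
  unfold energy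
  refine tendsto_integral_of_dominated_convergence (fun v => ‖v‖ ^ 2 * g v)
    (fun n => (tight_int hg (B n)).aestronglyMeasurable) hg.int_energy (fun n => ?_) ?_
  · refine Eventually.of_forall fun v => ?_
    have h1 := chi_nonneg (B n) v
    have h2 := chi_le_one (B n) v
    have h3 := hg.nonneg v
    have h4 : 0 ≤ ‖v‖ ^ 2 * g v := by positivity
    rw [Real.norm_of_nonneg (by positivity)]
    nlinarith
  · refine Eventually.of_forall fun v => ?_
    refine tendsto_const_nhds.congr' ?_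
    filter_upwards [hB.eventually_ge_atTop (max ‖v‖ 1)] with n hn
    have h1 : ‖v‖ ≤ B n := (le_max_left _ _).trans hn
    have h2 : 1 ≤ B n := (le_max_right _ _).trans hn
    rw [chi_one (by linarith) h1, mul_one]

/-- the energy outside of a ball, split at a second radius -/
theorem tight_split {g : V → ℝ} (hg : Cls g) {ρ B : ℝ} (h : ρ ≤ B) :
    ∫ v in {v : V | ρ ≤ ‖v‖}, ‖v‖ ^ 2 * g v =
      (∫ v in {v : V | ρ ≤ ‖v‖ ∧ ‖v‖ ≤ B}, ‖v‖ ^ 2 * g v) +
        ∫ v in {v : V | B < ‖v‖}, ‖v‖ ^ 2 * g v := by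
  have hm : MeasurableSet {v : V | B < ‖v‖} := measurableSet_lt measurable_const measurable_norm
  rw [← setIntegral_union _ hm hg.int_energy.integrableOn hg.int_energy.integrableOn]
  · congr 2
    ext v
    constructor
    · intro hv
      have hv' : ρ ≤ ‖v‖ := hv
      rcases le_or_gt ‖v‖ B with h1 | h1
      · exact Or.inl ⟨hv', h1⟩
      · exact Or.inr h1
    · rintro (hv | hv)
      · exact hv.1
      · exact h.trans (le_of_lt hv)
  · rw [Set.disjoint_left]
    rintro v ⟨-, hv⟩ hv'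
    exact absurd hv (not_le.2 hv')

theorem tight (f : ℝ → V → ℝ) (hf : Sol f) (hM : 0 < mass (f (-1))) (t : ℕ → ℝ)
    (ht : ∀ n, t n < -1) (hlim : Tendsto t atTop atBot)
    (hD : Tendsto (fun n => ENNReal.ofReal (-(t n)) * DD (f (t n))) atTop (𝓝 0)) (δ : ℝ)
    (hδ : 0 < δ) :
    ∃ ρ : ℝ, 1 ≤ ρ ∧ ∀ᶠ n in atTop, ∫ v in {v : V | ρ ≤ ‖v‖}, ‖v‖ ^ 2 * f (t n) v ≤ δ := by
  obtain ⟨C1, hC1, hlip⟩ := trunc_lip
  set M := mass (f (-1)) with hMd
  set E := energy (f (-1)) with hEd
  have hcls : ∀ s < 0, Cls (f s) := hf.cls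
  have hE0 : 0 ≤ E := (hcls (-1) (by norm_num)).energy_nonneg
  set m := M + E with hmd
  have hm0 : 0 < m := by linarith
  have hmass : ∀ s < 0, mass (f s) = M := fun s hs =>
    (cons_global f hf (-1) s (by norm_num) hs).1
  have hener : ∀ s < 0, energy (f s) = E := fun s hs =>
    (cons_global f hf (-1) s (by norm_num) hs).2.1
  obtain ⟨C2, hC2, hcore⟩ := core_tail M m hM
  -- the constants
  set K : ℝ := 1 + 4 * (C1 * (1 + m) ^ 2) / δ with hK
  have hK1 : 1 ≤ K := by
    rw [hK]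
    have : 0 ≤ 4 * (C1 * (1 + m) ^ 2) / δ := by positivity
    linarith
  have hK3 : C1 * (1 + m) ^ 2 / K ^ 3 ≤ δ / 4 := by
    have h1 : K ≤ K ^ 3 := le_self_pow₀ hK1 (by norm_num)
    have h2 : C1 * (1 + m) ^ 2 ≤ δ / 4 * K := by
      rw [hK]
      have h3 : δ / 4 * (1 + 4 * (C1 * (1 + m) ^ 2) / δ) = δ / 4 + C1 * (1 + m) ^ 2 := by
        field_simp
      linarith
    rw [div_le_iff₀ (by positivity)]
    refine h2.trans ?_
    exact mul_le_mul_of_nonneg_left h1 (by positivity)
  set R : ℝ := 1 + 2 * m / M + 8 * C2 / δ with hR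
  have hR1 : 1 ≤ R := by
    have h1 : 0 ≤ 2 * m / M := by positivity
    have h2 : 0 ≤ 8 * C2 / δ := by positivity
    linarith
  have hR0 : 0 < R := by linarith
  have hRR : R ≤ R ^ 2 := le_self_pow₀ hR1 (by norm_num)
  have hR2 : m / R ^ 2 ≤ M / 2 := by
    have h1 : 2 * m / M ≤ R := by
      have h2 : 0 ≤ 8 * C2 / δ := by positivity
      linarith
    rw [div_le_iff₀ hM] at h1
    rw [div_le_iff₀ (by positivity)]
    nlinarith
  have hR3 : C2 * (1 / R ^ 2) ≤ δ / 8 := by
    have h1 : 8 * C2 / δ ≤ R := by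
      have h2 : 0 ≤ 2 * m / M := by positivity
      linarith
    rw [div_le_iff₀ hδ] at h1
    rw [mul_one_div, div_le_iff₀ (by positivity)]
    nlinarith
  set R' : ℝ := 8 * R + 8 * C2 * R / δ with hR'
  have hR'1 : 8 * R ≤ R' := by
    have : 0 ≤ 8 * C2 * R / δ := by positivity
    linarith
  have hR'0 : 0 < R' := by linarith
  have hR'2 : C2 * (R / R') ≤ δ / 8 := by
    have h1 : 8 * C2 * R / δ ≤ R' := by linarith
    rw [div_le_iff₀ hδ] at h1
    rw [mul_div_assoc', div_le_iff₀ hR'0]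
    linarith
  refine ⟨2 * R', by linarith, ?_⟩
  -- the radii
  set T : ℕ → ℝ := fun n => -(t n) with hT
  have hT1 : ∀ n, 1 < T n := fun n => by
    have := ht n
    simp only [hT]
    linarith
  have hTlim : Tendsto T atTop atTop := tendsto_neg_atBot_atTop.comp hlim
  set B : ℕ → ℝ := fun n => K * T n ^ ((1 : ℝ) / 3) with hB
  have hBlim : Tendsto B atTop atTop := by
    refine Tendsto.const_mul_atTop (by linarith) ?_
    exact (tendsto_rpow_atTop (by norm_num : (0 : ℝ) < 1 / 3)).comp hTlim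
  have hB1 : ∀ n, 1 ≤ B n := fun n => by
    have h1 : 1 ≤ T n ^ ((1 : ℝ) / 3) := Real.one_le_rpow (hT1 n).le (by norm_num)
    calc (1 : ℝ) = 1 * 1 := by ring
      _ ≤ K * T n ^ ((1 : ℝ) / 3) := mul_le_mul hK1 h1 zero_le_one (by linarith)
  have hB3 : ∀ n, B n ^ 3 = K ^ 3 * T n := fun n => by
    simp only [hB]
    rw [mul_pow, ← Real.rpow_natCast (T n ^ ((1 : ℝ) / 3)) 3, ← Real.rpow_mul (by linarith [hT1 n])]
    norm_num
  -- the dissipation
  have hDr : Tendsto (fun n => T n * (DD (f (t n))).toReal) atTop (𝓝 0) := by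
    have h1 := (ENNReal.tendsto_toReal (ENNReal.zero_ne_top)).comp hD
    rw [ENNReal.toReal_zero] at h1
    refine h1.congr fun n => ?_
    simp only [Function.comp_apply, hT]
    rw [ENNReal.toReal_mul, ENNReal.toReal_ofReal (by linarith [ht n])]
  have hDfin : ∀ᶠ n in atTop, DD (f (t n)) ≠ ⊤ := by
    filter_upwards [hD.eventually_lt_const (by norm_num : (0 : ENNReal) < 1)] with n hn htop
    rw [htop, ENNReal.mul_top] at hn
    · exact absurd hn (by simp)
    · have := ht n
      simp only [ne_eq, ENNReal.ofReal_eq_zero, not_le]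
      linarith
  have hE1 : ∀ᶠ n in atTop, E - δ / 4 < ∫ v, ‖v‖ ^ 2 * chi (B n) v * f (-1) v :=
    (tight_lim (hcls (-1) (by norm_num)) B hBlim).eventually_const_lt (by linarith)
  have hD1 : ∀ᶠ n in atTop, T n * (DD (f (t n))).toReal < δ / (32 * (C2 * K ^ 3)) :=
    hDr.eventually_lt_const (by positivity)
  filter_upwards [hDfin, hE1, hD1, hBlim.eventually_ge_atTop R'] with n h1 h2 h3 h4
  have htn : t n < 0 := by linarith [ht n]
  have hcn := hcls (t n) htn
  have hBn : 0 < B n := by linarith [hB1 n]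
  rw [tight_split hcn (show 2 * R' ≤ 2 * B n by linarith)]
  -- the middle part
  have h5 := hcore (f (t n)) hcn (hmass _ htn).ge (by rw [hmass _ htn, hener _ htn]) h1 R R' (2 * B n)
    hR1 hR2 hR'1 (by linarith)
  have h6 : C2 * (2 * B n) ^ 3 * (DD (f (t n))).toReal ≤ δ / 4 := by
    have h7 : C2 * (2 * B n) ^ 3 * (DD (f (t n))).toReal =
        8 * (C2 * K ^ 3) * (T n * (DD (f (t n))).toReal) := by
      rw [mul_pow, hB3 n]
      ring
    rw [h7]
    have h8 := mul_le_mul_of_nonneg_left h3.le (show 0 ≤ 8 * (C2 * K ^ 3) by positivity)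
    refine h8.trans (le_of_eq ?_)
    field_simp
    norm_num
  -- the outer part
  have h9 := tight_outer hcn hBn
  have h10 := (hlip f hf (t n) (-1) m (B n) (ht n).le (by norm_num) (hB1 n) (fun s hs => by
    have hs0 : s < 0 := by linarith [hs.2]
    rw [hmass s hs0, hener s hs0])).2.2
  have h11 : C1 * (1 + m) ^ 2 * (-1 - t n) / B n ^ 3 ≤ δ / 4 := by
    refine le_trans ?_ hK3
    rw [hB3 n, div_le_div_iff₀ (by have := hT1 n; positivity) (by positivity)]
    have h12 : -1 - t n ≤ T n := by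
      simp only [hT]
      linarith
    have h13 : 0 ≤ C1 * (1 + m) ^ 2 * K ^ 3 := by positivity
    nlinarith [mul_le_mul_of_nonneg_left h12 h13]
  rw [hener _ htn] at h9
  have h14 := (abs_le.1 h10).2
  linarith

end Pool.Agent.Landau
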