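import Pool.Agent.Landau.EntFinal
import Pool.Agent.Landau.EInt

/-!
# Landau, module Times: good times

For every `t1 ≤ -1`, `entropy_ineq`, `ent_bounds` and conservation of energy (or only the bounds at time
`-1` and `ent ≤ 0` at `t1`) give `∫⁻ t in Icc t1 (-1), DD (f t) ≤ ofReal (32 π (energy (f (-1)) + 6))`, a finite bound
which does not depend on `t1`.  If for some `c > 0`, `T ≥ 1` we had `ofReal (-t) * DD (f t) ≥ c` for all `t ≤ -T` then
the integral over `Icc (-S) (-T)` would be at least `c log (S / T) → ∞` (monotonicity of the lower integral; no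
measurability is needed).  So for every `n` there is `t ≤ - (n + 2)` with `ofReal (-t) * DD (f t) < 1 / (n + 1)`.

(In the formal proof the dyadic intervals `Icc (-2 s) (-s)` are used: each of them would increase the entropy by at
least `c / (64 π)`, but the entropy is at most `0`.)
-/

set_option autoImplicit false

namespace Pool.Agent.Landau

open MeasureTheory Set Filter Topology

/-- one dyadic interval -/
theorem dyadic_step (f : ℝ → V → ℝ) (hf : Sol f) (c s : ℝ) (hc : 0 < c) (hs : 0 < s)
    (h : ∀ t : ℝ, t ≤ -s → ENNReal.ofReal c ≤ ENNReal.ofReal (-t) * DD (f t)) :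
    ent (f (-s)) + c / (64 * Real.pi) ≤ ent (f (-(2 * s))) := by
  have hpi := Real.pi_pos
  obtain ⟨-, h1⟩ := entropy_ineq f hf (-(2 * s)) (-s) (by linarith) (by linarith)
  have h2 : ∀ t ∈ Icc (-(2 * s)) (-s), ENNReal.ofReal (c / (2 * s)) ≤ DD (f t) := by
    intro t ht
    have h3 := h t ht.2
    have h4 : ENNReal.ofReal (-t) ≤ ENNReal.ofReal (2 * s) :=
      ENNReal.ofReal_le_ofReal (by linarith [ht.1])
    have h5 : ENNReal.ofReal c ≤ ENNReal.ofReal (2 * s) * DD (f t) :=
      h3.trans (mul_le_mul_left h4 _)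
    rw [ENNReal.ofReal_div_of_pos (by positivity)]
    apply ENNReal.div_le_of_le_mul'
    exact h5
  have h6 : ENNReal.ofReal (c / 2) ≤ ∫⁻ t in Icc (-(2 * s)) (-s), DD (f t) := by
    calc ENNReal.ofReal (c / 2) = ENNReal.ofReal (c / (2 * s)) * ENNReal.ofReal (-s - -(2 * s)) := by
          rw [← ENNReal.ofReal_mul (by positivity)]
          congr 1
          field_simp
          ring
      _ = ∫⁻ _t in Icc (-(2 * s)) (-s), ENNReal.ofReal (c / (2 * s)) := by
          rw [setLIntegral_const, Real.volume_Icc]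
      _ ≤ ∫⁻ t in Icc (-(2 * s)) (-s), DD (f t) := setLIntegral_mono' measurableSet_Icc h2
  have h7 := h6.trans h1
  rw [ENNReal.ofReal_le_ofReal_iff'] at h7
  rcases h7 with h7 | h7
  · have h8 : c / (64 * Real.pi) ≤ ent (f (-(2 * s))) - ent (f (-s)) := by
      rw [div_le_iff₀ (by positivity)]
      linarith
    linarith
  · linarith

theorem good_one (f : ℝ → V → ℝ) (hf : Sol f) (T c : ℝ) (hT : 0 < T) (hc : 0 < c) :
    ∃ t : ℝ, t ≤ -T ∧ ENNReal.ofReal (-t) * DD (f t) < ENNReal.ofReal c := by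
  by_contra hcon
  push Not at hcon
  have hpi := Real.pi_pos
  have h1 : ∀ k : ℕ, ent (f (-T)) + k * (c / (64 * Real.pi)) ≤ ent (f (-(2 ^ k * T))) := by
    intro k
    induction k with
    | zero => simp
    | succ k ih =>
      have hk : (1 : ℝ) ≤ 2 ^ k := one_le_pow₀ (by norm_num)
      have h2 := dyadic_step f hf c (2 ^ k * T) hc (by positivity) (by
        intro t ht
        apply hcon t
        nlinarith)
      have h3 : (2 : ℝ) * (2 ^ k * T) = 2 ^ (k + 1) * T := by ring
      rw [h3] at h2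
      push_cast
      linarith
  have hc' : 0 < c / (64 * Real.pi) := by positivity
  obtain ⟨k, hk⟩ := exists_nat_gt ((1 - ent (f (-T))) / (c / (64 * Real.pi)))
  rw [div_lt_iff₀ hc'] at hk
  have h4 := h1 k
  have hk1 : (0 : ℝ) < 2 ^ k * T := by positivity
  have h5 := (ent_bounds (f (-(2 ^ k * T))) (hf.cls _ (by linarith))).2
  linarith

theorem good_times (f : ℝ → V → ℝ) (hf : Sol f) : ∃ t : ℕ → ℝ, (∀ n, t n < -1) ∧
    Tendsto t atTop atBot ∧
    Tendsto (fun n => ENNReal.ofReal (-(t n)) * DD (f (t n))) atTop (𝓝 0) := by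
  choose t ht1 ht2 using fun n : ℕ => good_one f hf ((n : ℝ) + 2) (1 / ((n : ℝ) + 1))
    (by positivity) (by positivity)
  refine ⟨t, ?_, ?_, ?_⟩
  · intro n
    have := ht1 n
    have h0 : (0 : ℝ) ≤ n := Nat.cast_nonneg n
    linarith
  · refine tendsto_atBot_mono ht1 ?_
    apply tendsto_neg_atTop_atBot.comp
    exact tendsto_natCast_atTop_atTop.atTop_add tendsto_const_nhds
  · have h1 : Tendsto (fun n : ℕ => ENNReal.ofReal (1 / ((n : ℝ) + 1))) atTop (𝓝 0) := by
      rw [← ENNReal.ofReal_zero]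
      exact ENNReal.tendsto_ofReal tendsto_one_div_add_atTop_nhds_zero_nat
    exact tendsto_of_tendsto_of_tendsto_of_le_of_le tendsto_const_nhds h1 (fun n => bot_le)
      (fun n => (ht2 n).le)

end Pool.Agent.Landau
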