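import Pool.Agent.Landau.Scalar
import Pool.Agent.Landau.Gauss
import Pool.Agent.Landau.Times
import Pool.Agent.Landau.Tight
import Pool.Agent.Landau.Lim
import Pool.Agent.Landau.EntLim
import Pool.Agent.Landau.Gibbs

/-!
# Landau, module Final: ancient solutions of finite mass and energy are Gaussian
-/

set_option autoImplicit false

namespace Pool.Agent.Landau

open MeasureTheory Set Filter Topology

theorem dd_tendsto (D : ℕ → ENNReal) (t : ℕ → ℝ) (ht : ∀ n, t n < -1)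
    (hD : Tendsto (fun n => ENNReal.ofReal (-(t n)) * D n) atTop (𝓝 0)) :
    Tendsto D atTop (𝓝 0) := by
  refine tendsto_of_tendsto_of_tendsto_of_le_of_le tendsto_const_nhds hD (fun n => zero_le)
    (fun n => ?_)
  have h1 : (1 : ENNReal) ≤ ENNReal.ofReal (-(t n)) := by
    rw [← ENNReal.ofReal_one]
    exact ENNReal.ofReal_le_ofReal (by linarith [ht n])
  calc D n = 1 * D n := (one_mul _).symm
    _ ≤ ENNReal.ofReal (-(t n)) * D n := by gcongr

theorem ancient_gauss (f : ℝ → V → ℝ) (hf : Sol f) (hM : 0 < mass (f (-1))) :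
    ∃ (c μ : ℝ) (ℓ : Fin 3 → ℝ), 0 < c ∧ μ < 0 ∧
      ∀ t < 0, ∀ v, f t v = c * Real.exp (quad μ ℓ v) := by
  obtain ⟨t, ht, hlim, hD⟩ := good_times f hf
  have ht0 : ∀ n, t n < 0 := fun n => by linarith [ht n]
  have hD0 := dd_tendsto _ t ht hD
  have hcons : ∀ s < 0, mass (f s) = mass (f (-1)) ∧ energy (f s) = energy (f (-1)) ∧
      ∀ k : Fin 3, mom k (f s) = mom k (f (-1)) := fun s hs =>
    cons_global f hf (-1) s (by norm_num) hs
  obtain ⟨s1, μ, ℓ, hs1, h1⟩ := scalar_limit (mass (f (-1)))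
    (mass (f (-1)) + energy (f (-1))) hM (fun n => f (t n)) (fun n => hf.cls _ (ht0 n))
    (fun n => (hcons _ (ht0 n)).1.ge)
    (fun n => by rw [(hcons _ (ht0 n)).1, (hcons _ (ht0 n)).2.1]) hD0
  obtain ⟨s2, c, hs2, hc, h2⟩ := gauss_limit (fun n => f (t (s1 n)))
    (fun n => hf.cls _ (ht0 _)) μ ℓ h1
  -- the final subsequence
  set τ : ℕ → ℝ := fun n => t (s1 (s2 n)) with hτ
  have hs : StrictMono (fun n => s1 (s2 n)) := hs1.comp hs2
  have hτ0 : ∀ n, τ n < 0 := fun n => ht0 _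
  have htight : ∀ δ > 0, ∃ ρ : ℝ, 1 ≤ ρ ∧
      ∀ᶠ n in atTop, ∫ v in {v : V | ρ ≤ ‖v‖}, ‖v‖ ^ 2 * f (τ n) v ≤ δ := by
    intro δ hδ
    obtain ⟨ρ, hρ, h⟩ := tight f hf hM t ht hlim hD δ hδ
    exact ⟨ρ, hρ, hs.tendsto_atTop.eventually h⟩
  obtain ⟨hc0, hμ, hint, hG1, hG2, hG3⟩ := lim_moments (fun n => f (τ n))
    (fun n => hf.cls _ (hτ0 n)) (mass (f (-1))) (energy (f (-1)))
    (fun k => mom k (f (-1))) hM (fun n => (hcons _ (hτ0 n)).1)
    (fun n => (hcons _ (hτ0 n)).2.1) (fun n k => (hcons _ (hτ0 n)).2.2 k) htight μ c ℓ hc h2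
  refine ⟨c, μ, ℓ, hc0, hμ, fun s hs0 v => ?_⟩
  have hcs := hcons s hs0
  refine gibbs (f s) (hf.cls s hs0) μ c ℓ hc0 hint (by rw [hG1, hcs.1])
    (by rw [hG2, hcs.2.1]) (fun k => by rw [hG3 k, hcs.2.2 k]) ?_ v
  -- entropy comparison
  refine le_of_forall_pos_le_add fun δ hδ => ?_
  have hE := ent_lim (fun n => f (τ n)) (fun n => hf.cls _ (hτ0 n)) μ c ℓ hc0 hint h2 δ hδ
  have hev : ∀ᶠ n in atTop, τ n ≤ s :=
    (hlim.comp hs.tendsto_atTop).eventually (eventually_le_atBot s)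
  obtain ⟨n, hn1, hn2⟩ := (hE.and hev).exists
  exact ((entropy_ineq f hf (τ n) s hn2 hs0).1).trans hn1

end Pool.Agent.Landau
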