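import Pool.Agent.Landau.Defs3

/-!
# Landau, module MomId: moments of the cross product in the second variable

`g w * gam b g w = pd b g w` (`Cls.gam_mul`), so the integrand is a combination of continuous functions with
compact support.  Expand `XX`; by parts (`ibp`) `∫ ψ ∂_b g = - ∫ g ∂_b ψ` and
`∫ ψ w_a ∂_b g = - ∫ g (w_a ∂_b ψ + δ_ab ψ)`; the terms with `δ_ab` cancel.
-/

set_option autoImplicit false

namespace Pool.Agent.Landau

open MeasureTheory Set Filter Topology

namespace MomIdAux

theorem coord_contDiff (a : Fin 3) : ContDiff ℝ (⊤ : ℕ∞) (fun w : V => w a) :=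
  (EuclideanSpace.proj (𝕜 := ℝ) a : V →L[ℝ] ℝ).contDiff

theorem pd_coord (a b : Fin 3) (w : V) : pd b (fun w : V => w a) w = if a = b then 1 else 0 := by
  unfold pd
  have h : fderiv ℝ (fun w : V => w a) w = (EuclideanSpace.proj (𝕜 := ℝ) a : V →L[ℝ] ℝ) :=
    (EuclideanSpace.proj (𝕜 := ℝ) a : V →L[ℝ] ℝ).fderiv
  rw [h]
  simp

theorem expand {g : V → ℝ} (hg : Cls g) (ψ : V → ℝ) (a b : Fin 3) (v w : V) :
    ψ w * g w * XX g a b v w =
      ((ψ w * g w) * v a - ψ w * w a * g w) * gam b g v -
      ((ψ w * g w) * v b - ψ w * w b * g w) * gam a g v -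
      (ψ w * pd b g w * v a - ψ w * w a * pd b g w) +
      (ψ w * pd a g w * v b - ψ w * w b * pd a g w) := by
  unfold XX
  rw [← hg.gam_mul b w, ← hg.gam_mul a w]
  ring

section

variable {g : V → ℝ} (hg : Cls g) {ψ : V → ℝ} (hψ : ContDiff ℝ (⊤ : ℕ∞) ψ)
  (hc : HasCompactSupport ψ)

include hc in
theorem int_cs {h : V → ℝ} (hψ : Continuous ψ) (hh : Continuous h) :
    Integrable (fun w => ψ w * h w) :=
  (hψ.mul hh).integrable_of_hasCompactSupport hc.mul_right

include hg hψ hc

theorem i1 : Integrable (fun w => ψ w * g w) := int_cs hc hψ.continuous hg.cont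

theorem i2 (a : Fin 3) : Integrable (fun w => ψ w * w a * g w) := by
  have h := int_cs hc hψ.continuous ((coord_contDiff a).continuous.mul hg.cont)
  refine h.congr (Eventually.of_forall fun w => ?_)
  simp only [Pi.mul_apply]
  ring

theorem i3 (b : Fin 3) : Integrable (fun w => ψ w * pd b g w) :=
  int_cs hc hψ.continuous (continuous_pd (contDiff_one_of_smooth hg.smooth) b)

theorem i4 (a b : Fin 3) : Integrable (fun w => ψ w * w a * pd b g w) := by
  have h := int_cs hc hψ.continuous ((coord_contDiff a).continuous.mul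
    (continuous_pd (contDiff_one_of_smooth hg.smooth) b))
  refine h.congr (Eventually.of_forall fun w => ?_)
  simp only [Pi.mul_apply]
  ring

theorem i5 (b : Fin 3) : Integrable (fun w => g w * pd b ψ w) := by
  have h := int_cs (compact_pd hc b) (continuous_pd (contDiff_one_of_smooth hψ) b) hg.cont
  refine h.congr (Eventually.of_forall fun w => ?_)
  simp only
  ring

theorem i6 (a b : Fin 3) : Integrable (fun w => g w * (w a * pd b ψ w)) := by
  have h := int_cs (compact_pd hc b) (continuous_pd (contDiff_one_of_smooth hψ) b)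
    ((coord_contDiff a).continuous.mul hg.cont)
  refine h.congr (Eventually.of_forall fun w => ?_)
  simp only [Pi.mul_apply]
  ring

theorem by1 (b : Fin 3) : ∫ w, ψ w * pd b g w = - ∫ w, g w * pd b ψ w := by
  rw [ibp (contDiff_one_of_smooth hg.smooth) (contDiff_one_of_smooth hψ) hc b, neg_neg]
  exact integral_congr_ae (Eventually.of_forall fun w => by simp only; ring)

theorem by2 (a b : Fin 3) : ∫ w, ψ w * w a * pd b g w =
    - ((∫ w, g w * (w a * pd b ψ w)) + (if a = b then (1 : ℝ) else 0) * ∫ w, ψ w * g w) := by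
  have hG : ContDiff ℝ (⊤ : ℕ∞) (fun w : V => ψ w * w a) := hψ.mul (coord_contDiff a)
  have h := ibp (contDiff_one_of_smooth hg.smooth) (contDiff_one_of_smooth hG) hc.mul_right b
  have h1 : ∀ w, g w * pd b (fun w : V => ψ w * w a) w =
      g w * (w a * pd b ψ w) + (if a = b then (1 : ℝ) else 0) * (ψ w * g w) := by
    intro w
    rw [pd_mul (differentiable_of_smooth hψ w) (differentiable_of_smooth (coord_contDiff a) w),
      pd_coord]
    ring
  simp_rw [h1] at h
  rw [integral_add (i6 hg hψ hc a b) ((i1 hg hψ hc).const_mul _), integral_const_mul] at h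
  rw [h, neg_neg]
  exact integral_congr_ae (Eventually.of_forall fun w => by simp only; ring)

end

end MomIdAux

open MomIdAux

theorem mom_int (g : V → ℝ) (hg : Cls g) (ψ : V → ℝ) (hψ : ContDiff ℝ (⊤ : ℕ∞) ψ)
    (hc : HasCompactSupport ψ) (a b : Fin 3) (v : V) :
    Integrable (fun w => ψ w * g w * XX g a b v w) := by
  simp_rw [expand hg ψ a b v]
  exact ((((((i1 hg hψ hc).mul_const _).sub (i2 hg hψ hc a)).mul_const _).sub
    ((((i1 hg hψ hc).mul_const _).sub (i2 hg hψ hc b)).mul_const _)).sub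
    (((i3 hg hψ hc b).mul_const _).sub (i4 hg hψ hc a b))).add
    (((i3 hg hψ hc a).mul_const _).sub (i4 hg hψ hc b a))

theorem mom_id (g : V → ℝ) (hg : Cls g) (ψ : V → ℝ) (hψ : ContDiff ℝ (⊤ : ℕ∞) ψ)
    (hc : HasCompactSupport ψ) (a b : Fin 3) (v : V) :
    ∫ w, ψ w * g w * XX g a b v w =
      ((∫ w, ψ w * g w) * v a - ∫ w, ψ w * w a * g w) * gam b g v -
        ((∫ w, ψ w * g w) * v b - ∫ w, ψ w * w b * g w) * gam a g v +
        v a * (∫ w, g w * pd b ψ w) - v b * (∫ w, g w * pd a ψ w) -
        ∫ w, g w * (w a * pd b ψ w - w b * pd a ψ w) := by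
  have e1 : ∫ w, g w * (w a * pd b ψ w - w b * pd a ψ w) =
      (∫ w, g w * (w a * pd b ψ w)) - ∫ w, g w * (w b * pd a ψ w) := by
    rw [← integral_sub (i6 hg hψ hc a b) (i6 hg hψ hc b a)]
    exact integral_congr_ae (Eventually.of_forall fun w => by simp only; ring)
  have I1 := i1 hg hψ hc
  have J : ∀ a b : Fin 3, Integrable (fun w => ((ψ w * g w) * v a - ψ w * w a * g w) * gam b g v) :=
    fun a b => ((I1.mul_const _).sub (i2 hg hψ hc a)).mul_const _
  have K : ∀ a b : Fin 3, Integrable (fun w => ψ w * pd b g w * v a - ψ w * w a * pd b g w) :=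
    fun a b => ((i3 hg hψ hc b).mul_const _).sub (i4 hg hψ hc a b)
  have j : ∀ a b : Fin 3, ∫ w, ((ψ w * g w) * v a - ψ w * w a * g w) * gam b g v =
      ((∫ w, ψ w * g w) * v a - ∫ w, ψ w * w a * g w) * gam b g v := by
    intro a b
    rw [integral_mul_const, integral_sub (I1.mul_const _) (i2 hg hψ hc a), integral_mul_const]
  have k : ∀ a b : Fin 3, ∫ w, (ψ w * pd b g w * v a - ψ w * w a * pd b g w) =
      (∫ w, ψ w * pd b g w) * v a - ∫ w, ψ w * w a * pd b g w := by
    intro a b
    rw [integral_sub ((i3 hg hψ hc b).mul_const _) (i4 hg hψ hc a b), integral_mul_const]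
  have S1 : Integrable (fun w => ((ψ w * g w) * v a - ψ w * w a * g w) * gam b g v -
      ((ψ w * g w) * v b - ψ w * w b * g w) * gam a g v) := (J a b).sub (J b a)
  have S2 : Integrable (fun w => ((ψ w * g w) * v a - ψ w * w a * g w) * gam b g v -
      ((ψ w * g w) * v b - ψ w * w b * g w) * gam a g v -
      (ψ w * pd b g w * v a - ψ w * w a * pd b g w)) := S1.sub (K a b)
  simp_rw [expand hg ψ a b v]
  rw [integral_add S2 (K b a), integral_sub S1 (K a b), integral_sub (J a b) (J b a), j, j, k, k, e1,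
    by1 hg hψ hc b, by1 hg hψ hc a, by2 hg hψ hc a b, by2 hg hψ hc b a]
  have hs : (if b = a then (1 : ℝ) else 0) = if a = b then 1 else 0 := by
    by_cases h : a = b
    · rw [if_pos h, if_pos h.symm]
    · rw [if_neg h, if_neg (fun h' => h h'.symm)]
  rw [hs]
  ring

end Pool.Agent.Landau
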