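import Pool.Agent.Landau.DDMeas
import Pool.Agent.Landau.MomId

/-!
# Landau, module IdentCS: the moments are controlled by the entropy production

Integrability: by `mom_id` and `Cls.gam_mul` the function `g v * |∫ ...|` is continuous.
Bound: `∫_{‖v‖ < ρ} g |∫ ψ g_* XX| ≤ ∫∫_{‖v‖ < ρ} g g_* |ψ| |XX|`, and by Cauchy-Schwarz (for `lintegral`:
`ENNReal.lintegral_mul_le_Lp_mul_Lq` with exponents `2, 2`) its square is at most
`∫∫ g g_* XX² / ‖z‖³ * ∫∫_{‖v‖ < ρ} g g_* ψ² ‖z‖³ ≤ DD g * Ψ² (ρ + r)³ m²` (`z = v - w`; `XX = 0` if `z = 0`;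
`‖z‖ ≤ ρ + r` on the support; `XX² ≤ XS`; `dd_prod`).
-/

set_option autoImplicit false

namespace Pool.Agent.Landau

open MeasureTheory Set Filter Topology

theorem XX_sq_le (g : V → ℝ) (a b : Fin 3) (v w : V) : XX g a b v w ^ 2 ≤ XS g v w := by
  unfold XS
  have h1 : XX g a b v w ^ 2 ≤ ∑ b' : Fin 3, XX g a b' v w ^ 2 :=
    Finset.single_le_sum (f := fun b' => XX g a b' v w ^ 2) (fun _ _ => sq_nonneg _)
      (Finset.mem_univ b)
  have h2 : ∑ b' : Fin 3, XX g a b' v w ^ 2 ≤ ∑ a' : Fin 3, ∑ b' : Fin 3, XX g a' b' v w ^ 2 :=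
    Finset.single_le_sum (f := fun a' => ∑ b' : Fin 3, XX g a' b' v w ^ 2)
      (fun _ _ => Finset.sum_nonneg fun _ _ => sq_nonneg _) (Finset.mem_univ a)
  exact h1.trans h2

theorem XX_self (g : V → ℝ) (a b : Fin 3) (v : V) : XX g a b v v = 0 := by
  unfold XX
  simp

/-- the square root of a product dominates -/
theorem cs_point {x A B : ℝ} (hx : 0 ≤ x) (hA : 0 ≤ A) (h : x ^ 2 ≤ A * B) :
    ENNReal.ofReal x ≤ ENNReal.ofReal A ^ (1 / 2 : ℝ) * ENNReal.ofReal B ^ (1 / 2 : ℝ) := by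
  rw [← ENNReal.mul_rpow_of_nonneg _ _ (by norm_num : (0 : ℝ) ≤ 1 / 2), ← ENNReal.ofReal_mul hA]
  have h1 : ENNReal.ofReal x = (ENNReal.ofReal (x ^ 2)) ^ (1 / 2 : ℝ) := by
    rw [ENNReal.ofReal_pow hx, ← ENNReal.rpow_natCast, ← ENNReal.rpow_mul]
    norm_num
  rw [h1]
  exact ENNReal.rpow_le_rpow (ENNReal.ofReal_le_ofReal h) (by norm_num)

theorem cs_int {α : Type*} [MeasurableSpace α] (μ : Measure α) (F G : α → ENNReal)
    (hF : Measurable F) (hG : Measurable G) :
    (∫⁻ x, F x ^ (1 / 2 : ℝ) * G x ^ (1 / 2 : ℝ) ∂μ) ^ 2 ≤ (∫⁻ x, F x ∂μ) * ∫⁻ x, G x ∂μ := by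
  have h := ENNReal.lintegral_mul_le_Lp_mul_Lq μ Real.HolderConjugate.two_two
    (f := fun x => F x ^ (1 / 2 : ℝ)) (g := fun x => G x ^ (1 / 2 : ℝ))
    (hF.pow_const _).aemeasurable (hG.pow_const _).aemeasurable
  have e : ∀ y : ENNReal, (y ^ (1 / 2 : ℝ)) ^ (2 : ℝ) = y := fun y => by
    rw [← ENNReal.rpow_mul]; norm_num
  simp only [Pi.mul_apply, e] at h
  calc (∫⁻ x, F x ^ (1 / 2 : ℝ) * G x ^ (1 / 2 : ℝ) ∂μ) ^ 2
      ≤ ((∫⁻ x, F x ∂μ) ^ (1 / 2 : ℝ) * (∫⁻ x, G x ∂μ) ^ (1 / 2 : ℝ)) ^ 2 := by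
        gcongr
    _ = ((∫⁻ x, F x ∂μ) ^ (1 / 2 : ℝ)) ^ (2 : ℝ) * ((∫⁻ x, G x ∂μ) ^ (1 / 2 : ℝ)) ^ (2 : ℝ) := by
        rw [mul_pow]
        congr 1 <;> exact (ENNReal.rpow_natCast _ 2).symm
    _ = _ := by rw [e, e]

theorem cs_bound (g : V → ℝ) (hg : Cls g) (m : ℝ) (hm : mass g + energy g ≤ m) (ψ : V → ℝ)
    (hψ : ContDiff ℝ (⊤ : ℕ∞) ψ) (hc : HasCompactSupport ψ) (r Ψ : ℝ) (hr : 0 < r)
    (hs : ∀ v, r < ‖v‖ → ψ v = 0) (hΨ : ∀ v, |ψ v| ≤ Ψ) (hD : DD g ≠ ⊤) (a b : Fin 3) (ρ : ℝ)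
    (hρ : 1 ≤ ρ) :
    IntegrableOn (fun v => g v * |∫ w, ψ w * g w * XX g a b v w|) (Metric.ball (0 : V) ρ) ∧
      (∫ v in Metric.ball (0 : V) ρ, g v * |∫ w, ψ w * g w * XX g a b v w|) ^ 2 ≤
        Ψ ^ 2 * (ρ + r) ^ 3 * m ^ 2 * (DD g).toReal := by
  set F : V → ℝ := fun v => g v * |∫ w, ψ w * g w * XX g a b v w| with hFdef
  have hF0 : ∀ v, 0 ≤ F v := fun v => mul_nonneg (hg.nonneg v) (abs_nonneg _)
  have hρ0 : 0 < ρ := by linarith
  have hFcont : Continuous F := by
    have h1 : F = fun v => |((∫ w, ψ w * g w) * v a - ∫ w, ψ w * w a * g w) * pd b g v -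
        ((∫ w, ψ w * g w) * v b - ∫ w, ψ w * w b * g w) * pd a g v +
        g v * (v a * (∫ w, g w * pd b ψ w) - v b * (∫ w, g w * pd a ψ w) -
        ∫ w, g w * (w a * pd b ψ w - w b * pd a ψ w))| := by
      funext v
      have e1 : F v = |g v * ∫ w, ψ w * g w * XX g a b v w| := by
        rw [abs_mul, abs_of_nonneg (hg.nonneg v)]
      rw [e1, mom_id g hg ψ hψ hc a b v, ← hg.gam_mul b v, ← hg.gam_mul a v]
      congr 1
      ring
    rw [h1]
    have hb := continuous_pd (contDiff_one_of_smooth hg.smooth) b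
    have ha := continuous_pd (contDiff_one_of_smooth hg.smooth) a
    have hca : Continuous fun v : V => v a := by fun_prop
    have hcb : Continuous fun v : V => v b := by fun_prop
    exact (((((continuous_const.mul hca).sub continuous_const).mul hb).sub
      (((continuous_const.mul hcb).sub continuous_const).mul ha)).add
      (hg.cont.mul (((hca.mul continuous_const).sub (hcb.mul continuous_const)).sub
        continuous_const))).abs
  have hint : IntegrableOn F (Metric.ball (0 : V) ρ) :=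
    (hFcont.continuousOn.integrableOn_compact (isCompact_closedBall (0 : V) ρ)).mono_set
      Metric.ball_subset_closedBall
  refine ⟨hint, ?_⟩
  have hm0 : mass g ≤ m := by linarith [hg.energy_nonneg]
  have hmn : 0 ≤ mass g := hg.mass_nonneg
  set K : ℝ := Ψ ^ 2 * (ρ + r) ^ 3 * m ^ 2 with hK
  have hK0 : 0 ≤ K := by positivity
  set ib : V → ℝ := (Metric.ball (0 : V) ρ).indicator (fun _ => (1 : ℝ)) with hib
  have hib0 : ∀ v, 0 ≤ ib v := fun v => indicator_nonneg (fun _ _ => zero_le_one) v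
  have hib2 : ∀ v, ib v ^ 2 = ib v := by
    intro v
    by_cases hv : v ∈ Metric.ball (0 : V) ρ
    · rw [hib, indicator_of_mem hv]; norm_num
    · rw [hib, indicator_of_notMem hv]; norm_num
  have hibm : Measurable ib := measurable_const.indicator measurableSet_ball
  set A : V × V → ℝ := fun p => g p.1 * g p.2 * XS g p.1 p.2 / ‖p.1 - p.2‖ ^ 3 with hA
  set B : V × V → ℝ := fun p => ib p.1 * g p.1 * g p.2 * ψ p.2 ^ 2 * ‖p.1 - p.2‖ ^ 3 with hB
  have hAm : Measurable fun p => ENNReal.ofReal (A p) := by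
    have h := dd_integrand_meas g hg (fun _ => (1 : ℝ)) continuous_const
    simp only [one_mul] at h
    exact h
  have hgm := hg.cont.measurable
  have hBm : Measurable fun p => ENNReal.ofReal (B p) := by
    refine ENNReal.measurable_ofReal.comp ?_
    exact ((((hibm.comp measurable_fst).mul (hgm.comp measurable_fst)).mul
      (hgm.comp measurable_snd)).mul ((hψ.continuous.measurable.comp measurable_snd).pow_const 2)).mul
      ((measurable_fst.sub measurable_snd).norm.pow_const 3)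
  have hXS0 : ∀ v w, 0 ≤ XS g v w := fun v w =>
    Finset.sum_nonneg fun _ _ => Finset.sum_nonneg fun _ _ => sq_nonneg _
  have hA0 : ∀ p, 0 ≤ A p := fun p => div_nonneg (mul_nonneg (mul_nonneg (hg.nonneg _)
    (hg.nonneg _)) (hXS0 _ _)) (by positivity)
  -- first step
  have hL : ∫⁻ v in Metric.ball (0 : V) ρ, ENNReal.ofReal (F v) ≤
      ∫⁻ p, ENNReal.ofReal (A p) ^ (1 / 2 : ℝ) * ENNReal.ofReal (B p) ^ (1 / 2 : ℝ)
        ∂((volume : Measure V).prod (volume : Measure V)) := by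
    have hABm : Measurable fun p : V × V =>
        ENNReal.ofReal (A p) ^ (1 / 2 : ℝ) * ENNReal.ofReal (B p) ^ (1 / 2 : ℝ) :=
      (hAm.pow_const _).mul (hBm.pow_const _)
    rw [lintegral_prod _ hABm.aemeasurable, ← lintegral_indicator measurableSet_ball]
    refine lintegral_mono fun v => ?_
    by_cases hv : v ∈ Metric.ball (0 : V) ρ
    · rw [indicator_of_mem hv]
      have hibv : ib v = 1 := by rw [hib, indicator_of_mem hv]
      calc ENNReal.ofReal (F v)
          = ENNReal.ofReal (g v) * ‖∫ w, ψ w * g w * XX g a b v w‖ₑ := by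
            rw [hFdef, ENNReal.ofReal_mul (hg.nonneg v), Real.enorm_eq_ofReal_abs]
        _ ≤ ENNReal.ofReal (g v) * ∫⁻ w, ‖ψ w * g w * XX g a b v w‖ₑ := by
            gcongr
            exact enorm_integral_le_lintegral_enorm _
        _ = ∫⁻ w, ENNReal.ofReal (g v) * ‖ψ w * g w * XX g a b v w‖ₑ :=
            (lintegral_const_mul' _ _ ENNReal.ofReal_ne_top).symm
        _ ≤ _ := by
            refine lintegral_mono fun w => ?_
            simp only []
            rw [Real.enorm_eq_ofReal_abs, ← ENNReal.ofReal_mul (hg.nonneg v)]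
            refine cs_point (mul_nonneg (hg.nonneg v) (abs_nonneg _)) (hA0 (v, w)) ?_
            rw [mul_pow, sq_abs, hA, hB]
            simp only []
            rw [hibv, one_mul]
            by_cases hz : v = w
            · subst hz
              rw [XX_self]
              simp
            · have hz' : 0 < ‖v - w‖ := norm_pos_iff.2 (sub_ne_zero.2 hz)
              have e : g v * g w * XS g v w / ‖v - w‖ ^ 3 *
                  (g v * g w * ψ w ^ 2 * ‖v - w‖ ^ 3) =
                  g v ^ 2 * g w ^ 2 * ψ w ^ 2 * XS g v w := by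
                field_simp
              rw [e]
              calc g v ^ 2 * (ψ w * g w * XX g a b v w) ^ 2 =
                  g v ^ 2 * g w ^ 2 * ψ w ^ 2 * XX g a b v w ^ 2 := by ring
                _ ≤ _ := mul_le_mul_of_nonneg_left (XX_sq_le g a b v w) (by positivity)
    · rw [indicator_of_notMem hv]
      exact zero_le
  -- Cauchy-Schwarz
  have hCS := cs_int ((volume : Measure V).prod (volume : Measure V))
    (fun p => ENNReal.ofReal (A p)) (fun p => ENNReal.ofReal (B p)) hAm hBm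
  have hDD : ∫⁻ p, ENNReal.ofReal (A p) ∂((volume : Measure V).prod (volume : Measure V)) =
      DD g := (dd_prod g hg).symm
  have hBB : ∫⁻ p, ENNReal.ofReal (B p) ∂((volume : Measure V).prod (volume : Measure V)) ≤
      ENNReal.ofReal K := by
    rw [lintegral_prod _ hBm.aemeasurable]
    have hb : ∀ v w, B (v, w) ≤ Ψ ^ 2 * (ρ + r) ^ 3 * g v * g w := by
      intro v w
      rw [hB]
      simp only []
      have hgg : 0 ≤ g v * g w := mul_nonneg (hg.nonneg v) (hg.nonneg w)
      by_cases hv : v ∈ Metric.ball (0 : V) ρ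
      · have hibv : ib v = 1 := by rw [hib, indicator_of_mem hv]
        rw [hibv, one_mul]
        by_cases hw : r < ‖w‖
        · rw [hs w hw]
          have : 0 ≤ Ψ ^ 2 * (ρ + r) ^ 3 := by positivity
          nlinarith [mul_nonneg this hgg]
        · have hv' : ‖v‖ < ρ := by simpa using hv
          have h3 : ‖v - w‖ ≤ ρ + r := (norm_sub_le v w).trans (by linarith)
          have h4 : ‖v - w‖ ^ 3 ≤ (ρ + r) ^ 3 := pow_le_pow_left₀ (norm_nonneg _) h3 3
          have h5 : ψ w ^ 2 ≤ Ψ ^ 2 := by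
            rw [← sq_abs]
            exact pow_le_pow_left₀ (abs_nonneg _) (hΨ w) 2
          calc g v * g w * ψ w ^ 2 * ‖v - w‖ ^ 3 ≤ g v * g w * Ψ ^ 2 * (ρ + r) ^ 3 := by
                gcongr
            _ = _ := by ring
      · have hibv : ib v = 0 := by rw [hib, indicator_of_notMem hv]
        rw [hibv]
        have : 0 ≤ Ψ ^ 2 * (ρ + r) ^ 3 := by positivity
        nlinarith [mul_nonneg this hgg]
    have hlg : ∫⁻ v, ENNReal.ofReal (g v) = ENNReal.ofReal (mass g) := by
      rw [mass, ofReal_integral_eq_lintegral_ofReal hg.int_g (Eventually.of_forall hg.nonneg)]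
    calc ∫⁻ v, ∫⁻ w, ENNReal.ofReal (B (v, w))
        ≤ ∫⁻ v, ∫⁻ w, ENNReal.ofReal (Ψ ^ 2 * (ρ + r) ^ 3) *
            (ENNReal.ofReal (g v) * ENNReal.ofReal (g w)) := by
          refine lintegral_mono fun v => lintegral_mono fun w => ?_
          simp only []
          rw [← ENNReal.ofReal_mul (hg.nonneg v), ← ENNReal.ofReal_mul (by positivity)]
          refine ENNReal.ofReal_le_ofReal ((hb v w).trans (le_of_eq ?_))
          ring
      _ = ENNReal.ofReal (Ψ ^ 2 * (ρ + r) ^ 3) *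
            (ENNReal.ofReal (mass g) * ENNReal.ofReal (mass g)) := by
          have e1 : ∀ v, ∫⁻ w, ENNReal.ofReal (Ψ ^ 2 * (ρ + r) ^ 3) *
              (ENNReal.ofReal (g v) * ENNReal.ofReal (g w)) =
              ENNReal.ofReal (Ψ ^ 2 * (ρ + r) ^ 3) *
              (ENNReal.ofReal (mass g) * ENNReal.ofReal (g v)) := by
            intro v
            rw [lintegral_const_mul' _ _ ENNReal.ofReal_ne_top,
              lintegral_const_mul' _ _ ENNReal.ofReal_ne_top, hlg,
              mul_comm (ENNReal.ofReal (g v))]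
          simp only [e1]
          rw [lintegral_const_mul' _ _ ENNReal.ofReal_ne_top,
            lintegral_const_mul' _ _ ENNReal.ofReal_ne_top, hlg]
      _ ≤ ENNReal.ofReal K := by
          rw [← ENNReal.ofReal_mul hmn, ← ENNReal.ofReal_mul (by positivity)]
          refine ENNReal.ofReal_le_ofReal ?_
          rw [hK, ← sq]
          have : mass g ^ 2 ≤ m ^ 2 := pow_le_pow_left₀ hmn hm0 2
          gcongr
  have hfin : ENNReal.ofReal (∫ v in Metric.ball (0 : V) ρ, F v) =
      ∫⁻ v in Metric.ball (0 : V) ρ, ENNReal.ofReal (F v) :=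
    ofReal_integral_eq_lintegral_ofReal hint (Eventually.of_forall hF0)
  have hI0 : 0 ≤ ∫ v in Metric.ball (0 : V) ρ, F v := integral_nonneg hF0
  have h1 : ENNReal.ofReal ((∫ v in Metric.ball (0 : V) ρ, F v) ^ 2) ≤
      ENNReal.ofReal (K * (DD g).toReal) := by
    rw [ENNReal.ofReal_pow hI0, hfin, ENNReal.ofReal_mul hK0, ENNReal.ofReal_toReal hD, mul_comm]
    calc (∫⁻ v in Metric.ball (0 : V) ρ, ENNReal.ofReal (F v)) ^ 2
        ≤ (∫⁻ p, ENNReal.ofReal (A p) ^ (1 / 2 : ℝ) * ENNReal.ofReal (B p) ^ (1 / 2 : ℝ)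
          ∂((volume : Measure V).prod (volume : Measure V))) ^ 2 := by gcongr
      _ ≤ _ := hCS
      _ ≤ DD g * ENNReal.ofReal K := by
          rw [hDD]
          gcongr
  exact (ENNReal.ofReal_le_ofReal_iff (by positivity)).1 h1

end Pool.Agent.Landau
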