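import Pool.Agent.Landau.Chi
import Pool.Agent.Landau.Cov
import Pool.Agent.Landau.IdentCS

set_option autoImplicit false

/-!
# Landau, module Ident: approximate identification of `∇ log g`

Let `r ≥ 1` with `m / r² ≤ M / 2` (may assume `m ≥ M`), `ψ = chi r` (`1` for `‖w‖ ≤ r`, `0` for `‖w‖ ≥ 2 r`).  By
`Cls.tail` the integral of `g` over the closed ball of radius `r` is at least `M / 2`, so `α = ∫ ψ g ≥ M / 2`; `α ≤ m`.
Let `p_k = ∫ ψ w_k g / α` (`|p_k| ≤ 2 r`), `A k l = ∫ ψ (w_k - p_k) (w_l - p_l) g = ∫ ψ (w_k - p_k) w_l g`.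
`cov_lower` (with `M / 2`, `r`) gives `c > 0` with `c ∑ x² ≤ ∑ A k l x_k x_l`, `mat_inv` gives `S`.
Let `ψ_k w = ψ w * (w_k - p_k)`, `W^k_ab v = ∫ ψ_k g_* XX_ab`.  By `mom_id` (`∫ ψ_k g = 0`)
`W^k_ab = - A k a * γ_b + A k b * γ_a + v_a c^k_b - v_b c^k_a - d^k_ab`, where `γ = gam g v`,
`c^k_b = ∫ g ∂_b ψ_k`, `d^k_ab = ∫ g (w_a ∂_b ψ_k - w_b ∂_a ψ_k)`, all bounded by a constant depending only on
`M`, `m`.  Multiply by `S l k`, sum over `k`, and take `l = a ≠ b`: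
`∑_k S a k W^k_ab = - γ_b + v_a C_ab - v_b C_aa - D_ab`, `C_lb = ∑_k S l k c^k_b`, `D_ab = ∑_k S a k d^k_ab`.
For every `b` take `a = b + 1` (in `Fin 3`), and `L b j = (if j = a then C_ab else 0) - (if j = b then C_aa
else 0)`, `ℓ b = - D_ab`.  Multiply by `g v` and integrate over the ball: `cs_bound` for `ψ_k` gives the first
estimate (with `ρ³`).  For the second, `mom_id` for `ψ` itself:
`g v * pab ... v = g v * ∫ ψ g_* XX_ab - (α v_a - β_a) (∂_b g - g (L v + ℓ)_b) + (α v_b - β_b) (∂_a g - g (L v + ℓ)_a)`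
with `β_a = ∫ ψ w_a g`, `c_b = ∫ g ∂_b ψ`, `d_ab = ∫ g (w_a ∂_b ψ - w_b ∂_a ψ)`; on the ball
`|α v_a - β_a| ≤ C ρ`; `(x + y + z)² ≤ 3 (x² + y² + z²)`.
-/

namespace Pool.Agent.Landau

open MeasureTheory Set Filter Topology

namespace IdentAux

theorem coordC (a : Fin 3) : ContDiff ℝ (⊤ : ℕ∞) (fun w : V => w a) := MomIdAux.coord_contDiff a

/-- the bound of an integral against `g` -/
theorem bd {g : V → ℝ} (hg : Cls g) {m : ℝ} (hm : mass g ≤ m) {F : V → ℝ} {P : ℝ} (hP : 0 ≤ P)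
    (hF : ∀ w, |F w| ≤ P) : |∫ w, g w * F w| ≤ P * m := by
  have h1 : |∫ w, g w * F w| ≤ ∫ w, P * g w := by
    rw [← Real.norm_eq_abs]
    refine norm_integral_le_of_norm_le (hg.int_g.const_mul P) (Eventually.of_forall fun w => ?_)
    rw [Real.norm_eq_abs, abs_mul, abs_of_nonneg (hg.nonneg w), mul_comm]
    exact mul_le_mul_of_nonneg_right (hF w) (hg.nonneg w)
  rw [integral_const_mul] at h1
  exact h1.trans (mul_le_mul_of_nonneg_left hm hP)

/-- bounds of the constants of the moment identity -/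
theorem bd_cd {g : V → ℝ} (hg : Cls g) {m : ℝ} (hm : mass g ≤ m) {φ : V → ℝ} {P r : ℝ}
    (hP : 0 ≤ P) (hr : 0 < r) (hφ : ∀ b w, |pd b φ w| ≤ P)
    (hφ0 : ∀ b w, 2 * r < ‖w‖ → pd b φ w = 0) (a b : Fin 3) :
    |∫ w, g w * pd b φ w| ≤ P * m ∧
      |∫ w, g w * (w a * pd b φ w - w b * pd a φ w)| ≤ 4 * r * P * m := by
  refine ⟨bd hg hm hP (hφ b), bd hg hm (by positivity) fun w => ?_⟩
  by_cases hw : 2 * r < ‖w‖
  · rw [hφ0 b w hw, hφ0 a w hw]
    simp only [mul_zero, sub_zero, abs_zero]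
    positivity
  · have hw' : ‖w‖ ≤ 2 * r := not_lt.1 hw
    have ha := (Cls.abs_coord w a).trans hw'
    have hb := (Cls.abs_coord w b).trans hw'
    have h1 : |w a * pd b φ w| ≤ 2 * r * P := by
      rw [abs_mul]
      exact mul_le_mul ha (hφ b w) (abs_nonneg _) (by linarith)
    have h2 : |w b * pd a φ w| ≤ 2 * r * P := by
      rw [abs_mul]
      exact mul_le_mul hb (hφ a w) (abs_nonneg _) (by linarith)
    calc |w a * pd b φ w - w b * pd a φ w| ≤ |w a * pd b φ w| + |w b * pd a φ w| := abs_sub _ _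
      _ ≤ 4 * r * P := by linarith

/-- the shifted test functions -/
noncomputable def psk (r p : ℝ) (k : Fin 3) (w : V) : ℝ := chi r w * (w k - p)

theorem psk_smooth (r p : ℝ) (k : Fin 3) : ContDiff ℝ (⊤ : ℕ∞) (psk r p k) :=
  (chi_smooth r).mul ((coordC k).sub contDiff_const)

theorem psk_compact {r : ℝ} (hr : 0 < r) (p : ℝ) (k : Fin 3) : HasCompactSupport (psk r p k) :=
  (chi_compact hr).mul_right

theorem psk_zero {r : ℝ} (hr : 0 < r) (p : ℝ) (k : Fin 3) {w : V} (h : 2 * r < ‖w‖) :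
    psk r p k w = 0 := by
  unfold psk
  rw [chi_zero hr h.le, zero_mul]

theorem psk_le {r p : ℝ} (hr : 0 < r) (hp : |p| ≤ 2 * r) (k : Fin 3) (w : V) :
    |psk r p k w| ≤ 4 * r := by
  by_cases hw : 2 * r < ‖w‖
  · rw [psk_zero hr p k hw, abs_zero]; linarith
  · have hw' : ‖w‖ ≤ 2 * r := not_lt.1 hw
    unfold psk
    rw [abs_mul, abs_of_nonneg (chi_nonneg r w)]
    have h1 : |w k - p| ≤ 4 * r := (abs_sub _ _).trans (by
      have := (Cls.abs_coord w k).trans hw'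
      linarith)
    calc chi r w * |w k - p| ≤ 1 * |w k - p| :=
          mul_le_mul_of_nonneg_right (chi_le_one r w) (abs_nonneg _)
      _ ≤ 4 * r := by linarith

theorem psk_pd {r p : ℝ} (k b : Fin 3) (w : V) :
    pd b (psk r p k) w = chi r w * (if k = b then 1 else 0) + pd b (chi r) w * (w k - p) := by
  unfold psk
  rw [pd_mul (differentiable_of_smooth (chi_smooth r) w)
    ((differentiable_of_smooth (coordC k) w).sub_const p)]
  have : pd b (fun x : V => x k - p) w = if k = b then 1 else 0 := by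
    rw [← MomIdAux.pd_coord k b w]
    unfold pd
    rw [fderiv_sub_const]
  rw [this]

theorem psk_pd_zero {r : ℝ} (hr : 0 < r) (p : ℝ) (k b : Fin 3) {w : V} (h : 2 * r < ‖w‖) :
    pd b (psk r p k) w = 0 := by
  rw [psk_pd, chi_zero hr h.le, pd_chi_outer hr h]
  ring

theorem psk_pd_le {r p C0 : ℝ} (hr : 0 < r) (hC0 : 0 ≤ C0) (hC : ∀ b w, |pd b (chi r) w| ≤ C0)
    (hp : |p| ≤ 2 * r) (k b : Fin 3) (w : V) : |pd b (psk r p k) w| ≤ 1 + 4 * r * C0 := by
  by_cases hw : 2 * r < ‖w‖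
  · rw [psk_pd_zero hr p k b hw, abs_zero]; positivity
  · have hw' : ‖w‖ ≤ 2 * r := not_lt.1 hw
    rw [psk_pd]
    have h1 : |w k - p| ≤ 4 * r := (abs_sub _ _).trans (by
      have := (Cls.abs_coord w k).trans hw'
      linarith)
    have h2 : |chi r w * (if k = b then (1 : ℝ) else 0)| ≤ 1 := by
      split_ifs
      · rw [mul_one, abs_of_nonneg (chi_nonneg r w)]
        exact chi_le_one r w
      · simp
    have h3 : |pd b (chi r) w * (w k - p)| ≤ C0 * (4 * r) := by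
      rw [abs_mul]
      exact mul_le_mul (hC b w) h1 (abs_nonneg _) hC0
    calc _ ≤ |chi r w * (if k = b then (1 : ℝ) else 0)| + |pd b (chi r) w * (w k - p)| :=
          abs_add_le _ _
      _ ≤ _ := by linarith

theorem sq_sum3 (f : Fin 3 → ℝ) (B : ℝ) (h : ∀ k, f k ^ 2 ≤ B) : (∑ k, f k) ^ 2 ≤ 9 * B := by
  rw [Fin.sum_univ_three]
  have h0 := h 0
  have h1 := h 1
  have h2 := h 2
  nlinarith [sq_nonneg (f 0 - f 1), sq_nonneg (f 0 - f 2), sq_nonneg (f 1 - f 2)]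



section core

variable {g : V → ℝ} (hg : Cls g) {r : ℝ} (hr : 0 < r)

include hg hr

theorem al_bounds {M m : ℝ} (hMg : M ≤ mass g) (hen : energy g ≤ m) (hmr : m / r ^ 2 ≤ M / 2) :
    M / 2 ≤ ∫ v in Metric.closedBall (0 : V) r, g v := by
  have hmeas : MeasurableSet (Metric.closedBall (0 : V) r) := measurableSet_closedBall
  have hsplit := integral_add_compl hmeas hg.int_g
  have hcompl : ∫ v in (Metric.closedBall (0 : V) r)ᶜ, g v ≤ ∫ v in {v : V | r ≤ ‖v‖}, g v := by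
    refine setIntegral_mono_set hg.int_g.integrableOn
      (Eventually.of_forall hg.nonneg) (LE.le.eventuallyLE ?_)
    intro v hv
    have : ¬ ‖v‖ ≤ r := by simpa using hv
    exact (not_le.1 this).le
  have htail := hg.tail hr
  have h1 : energy g / r ^ 2 ≤ M / 2 := by
    refine le_trans ?_ hmr
    gcongr
  have h2 : (∫ v in Metric.closedBall (0 : V) r, g v) +
      ∫ v in (Metric.closedBall (0 : V) r)ᶜ, g v = mass g := hsplit
  linarith

theorem al_low : ∫ v in Metric.closedBall (0 : V) r, g v ≤ ∫ w, chi r w * g w := by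
  have h1 : ∫ v in Metric.closedBall (0 : V) r, g v =
      ∫ v in Metric.closedBall (0 : V) r, chi r v * g v := by
    refine setIntegral_congr_fun measurableSet_closedBall fun v hv => ?_
    have hv' : ‖v‖ ≤ r := by simpa using hv
    change g v = chi r v * g v
    rw [chi_one hr hv', one_mul]
  rw [h1]
  exact setIntegral_le_integral (MomIdAux.i1 hg (chi_smooth r) (chi_compact hr))
    (Eventually.of_forall fun v => mul_nonneg (chi_nonneg r v) (hg.nonneg v))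

theorem al_up : ∫ w, chi r w * g w ≤ mass g := by
  refine integral_mono (MomIdAux.i1 hg (chi_smooth r) (chi_compact hr)) hg.int_g fun v => ?_
  have h1 := mul_le_mul_of_nonneg_right (chi_le_one r v) (hg.nonneg v)
  rw [one_mul] at h1
  exact h1

theorem be_le (a : Fin 3) : |∫ w, chi r w * w a * g w| ≤ 2 * r * ∫ w, chi r w * g w := by
  rw [← integral_const_mul, ← Real.norm_eq_abs]
  refine norm_integral_le_of_norm_le
    ((MomIdAux.i1 hg (chi_smooth r) (chi_compact hr)).const_mul _) (Eventually.of_forall fun w => ?_)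
  rw [Real.norm_eq_abs, abs_mul, abs_mul, abs_of_nonneg (hg.nonneg w),
    abs_of_nonneg (chi_nonneg r w)]
  by_cases hw : 2 * r < ‖w‖
  · rw [chi_zero hr hw.le]; simp
  · have hw' : |w a| ≤ 2 * r := (Cls.abs_coord w a).trans (not_lt.1 hw)
    have := mul_nonneg (chi_nonneg r w) (hg.nonneg w)
    nlinarith

theorem ph_int {p : Fin 3 → ℝ}
    (hp : ∀ k, p k * (∫ w, chi r w * g w) = ∫ w, chi r w * w k * g w) (k : Fin 3) :
    ∫ w, psk r (p k) k w * g w = 0 := by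
  have h1 : ∀ w, psk r (p k) k w * g w = chi r w * w k * g w - p k * (chi r w * g w) := by
    intro w
    unfold psk
    ring
  simp_rw [h1]
  rw [integral_sub (MomIdAux.i2 hg (chi_smooth r) (chi_compact hr) k)
    ((MomIdAux.i1 hg (chi_smooth r) (chi_compact hr)).const_mul _), integral_const_mul, hp k,
    sub_self]

theorem A_quad {p : Fin 3 → ℝ}
    (hp : ∀ k, p k * (∫ w, chi r w * g w) = ∫ w, chi r w * w k * g w) (x : Fin 3 → ℝ) :
    ∑ i, ∑ j, (∫ w, psk r (p i) i w * w j * g w) * x i * x j =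
      ∫ w, chi r w * g w * ((∑ i, x i * w i) - ∑ i, x i * p i) ^ 2 := by
  have iA : ∀ k l, Integrable fun w => psk r (p k) k w * w l * g w := fun k l =>
    MomIdAux.i2 hg (psk_smooth r (p k) k) (psk_compact hr (p k) k) l
  have iA0 : ∀ k, Integrable fun w => psk r (p k) k w * g w := fun k =>
    MomIdAux.i1 hg (psk_smooth r (p k) k) (psk_compact hr (p k) k)
  have h2 : ∀ i j, (∫ w, psk r (p i) i w * w j * g w) * x i * x j =
      ∫ w, (x i * x j) * (psk r (p i) i w * w j * g w) -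
        (x i * x j * p j) * (psk r (p i) i w * g w) := by
    intro i j
    rw [integral_sub ((iA i j).const_mul _) ((iA0 i).const_mul _), integral_const_mul,
      integral_const_mul, ph_int hg hr hp i]
    ring
  have i2 : ∀ i j, Integrable fun w => (x i * x j) * (psk r (p i) i w * w j * g w) -
      (x i * x j * p j) * (psk r (p i) i w * g w) := fun i j =>
    ((iA i j).const_mul _).sub ((iA0 i).const_mul _)
  have h3 : ∀ i, ∑ j, (∫ w, psk r (p i) i w * w j * g w) * x i * x j =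
      ∫ w, ∑ j, ((x i * x j) * (psk r (p i) i w * w j * g w) -
      (x i * x j * p j) * (psk r (p i) i w * g w)) := fun i => by
    rw [integral_finsetSum _ fun j _ => i2 i j]
    exact Finset.sum_congr rfl fun j _ => h2 i j
  rw [Finset.sum_congr rfl fun i _ => h3 i,
    ← integral_finsetSum _ fun i _ => integrable_finsetSum _ fun j _ => i2 i j]
  refine integral_congr_ae (Eventually.of_forall fun w => ?_)
  simp only [psk, Fin.sum_univ_three]
  ring

theorem A_pos {p : Fin 3 → ℝ} {c0 : ℝ}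
    (hp : ∀ k, p k * (∫ w, chi r w * g w) = ∫ w, chi r w * w k * g w)
    (hcov : ∀ (x : Fin 3 → ℝ) (s : ℝ), c0 * ∑ i, x i ^ 2 ≤
      ∫ v in Metric.closedBall (0 : V) r, g v * ((∑ i, x i * v i) - s) ^ 2) (x : Fin 3 → ℝ) :
    c0 * ∑ i, x i ^ 2 ≤ ∑ i, ∑ j, (∫ w, psk r (p i) i w * w j * g w) * x i * x j := by
  rw [A_quad hg hr hp x]
  refine (hcov x (∑ i, x i * p i)).trans ?_
  have h2 : ∫ v in Metric.closedBall (0 : V) r, g v * ((∑ i, x i * v i) - ∑ i, x i * p i) ^ 2 =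
      ∫ v in Metric.closedBall (0 : V) r,
        chi r v * g v * ((∑ i, x i * v i) - ∑ i, x i * p i) ^ 2 := by
    refine setIntegral_congr_fun measurableSet_closedBall fun v hv => ?_
    have hv' : ‖v‖ ≤ r := by simpa using hv
    change g v * ((∑ i, x i * v i) - ∑ i, x i * p i) ^ 2 =
      chi r v * g v * ((∑ i, x i * v i) - ∑ i, x i * p i) ^ 2
    rw [chi_one hr hv', one_mul]
  rw [h2]
  refine setIntegral_le_integral ?_ (Eventually.of_forall fun v =>
    mul_nonneg (mul_nonneg (chi_nonneg r v) (hg.nonneg v)) (sq_nonneg _))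
  have hq : Continuous fun v : V => ((∑ i, x i * v i) - ∑ i, x i * p i) ^ 2 := by fun_prop
  exact (((chi_smooth r).continuous.mul hg.cont).mul hq).integrable_of_hasCompactSupport
    ((chi_compact hr).mul_right.mul_right)

theorem W_id {p : Fin 3 → ℝ}
    (hp : ∀ k, p k * (∫ w, chi r w * g w) = ∫ w, chi r w * w k * g w) (k a b : Fin 3) (v : V) :
    ∫ w, psk r (p k) k w * g w * XX g a b v w =
      - (∫ w, psk r (p k) k w * w a * g w) * gam b g v +
        (∫ w, psk r (p k) k w * w b * g w) * gam a g v +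
        v a * (∫ w, g w * pd b (psk r (p k) k) w) - v b * (∫ w, g w * pd a (psk r (p k) k) w) -
        ∫ w, g w * (w a * pd b (psk r (p k) k) w - w b * pd a (psk r (p k) k) w) := by
  rw [mom_id g hg _ (psk_smooth r (p k) k) (psk_compact hr (p k) k) a b v, ph_int hg hr hp k]
  ring

end core

/-- linear algebra: solve for the logarithmic derivative -/
theorem solve3 (S A W c1 c2 dd : Fin 3 → ℝ) (A' : Fin 3 → ℝ) (γb γa va vb : ℝ)
    (e1 : ∑ k, S k * A k = 1) (e2 : ∑ k, S k * A' k = 0)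
    (hW : ∀ k, W k = - A k * γb + A' k * γa + va * c1 k - vb * c2 k - dd k) :
    ∑ k, S k * W k = - γb + (va * ∑ k, S k * c1 k) - (vb * ∑ k, S k * c2 k) - ∑ k, S k * dd k := by
  simp only [hW]
  simp only [Fin.sum_univ_three] at e1 e2 ⊢
  linear_combination (-γb) * e1 + γa * e2

theorem sum_le3 {S f : Fin 3 → ℝ} {K Q : ℝ} (hK : 0 ≤ K) (hS : ∀ k, |S k| ≤ K)
    (hf : ∀ k, |f k| ≤ Q) : |∑ k, S k * f k| ≤ 3 * (K * Q) := by
  calc |∑ k, S k * f k| ≤ ∑ k, |S k * f k| := Finset.abs_sum_le_sum_abs _ _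
    _ ≤ ∑ _k : Fin 3, K * Q := by
        refine Finset.sum_le_sum fun k _ => ?_
        rw [abs_mul]
        exact mul_le_mul (hS k) (hf k) (abs_nonneg _) hK
    _ = 3 * (K * Q) := by simp

/-- the affine function which approximates `∇ log g` -/
theorem affine_exists {g : V → ℝ} (hg : Cls g) {r m C0 c0 : ℝ} (hr : 0 < r) (hC0 : 0 ≤ C0)
    (hc0 : 0 < c0) (hm0 : 0 ≤ m)
    (hmass : mass g ≤ m) (hα : 0 < ∫ w, chi r w * g w)
    (hchi : ∀ b w, |pd b (chi r) w| ≤ C0)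
    (hcov : ∀ (x : Fin 3 → ℝ) (s : ℝ), c0 * ∑ i, x i ^ 2 ≤
      ∫ v in Metric.closedBall (0 : V) r, g v * ((∑ i, x i * v i) - s) ^ 2) :
    ∃ (p ℓ : Fin 3 → ℝ) (L S : Fin 3 → Fin 3 → ℝ), (∀ k, |p k| ≤ 2 * r) ∧
      (∀ i j, |S i j| ≤ 1 / c0) ∧
      (∀ b, |ℓ b| ≤ 3 * (1 / c0 * (4 * r * (1 + 4 * r * C0) * m))) ∧
      (∀ a b, |L a b| ≤ 6 * (1 / c0 * ((1 + 4 * r * C0) * m))) ∧
      ∀ b v, pd b g v - g v * ((∑ j, L b j * v j) + ℓ b) =
        - ∑ k, S (b + 1) k * (g v * ∫ w, psk r (p k) k w * g w * XX g (b + 1) b v w) := by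
  obtain ⟨α, hαd⟩ : ∃ α, α = ∫ w, chi r w * g w := ⟨_, rfl⟩
  obtain ⟨β, hβd⟩ : ∃ β : Fin 3 → ℝ, β = fun a => ∫ w, chi r w * w a * g w := ⟨_, rfl⟩
  have hβle : ∀ a, |β a| ≤ 2 * r * α := fun a => by rw [hβd, hαd]; exact be_le hg hr a
  rw [← hαd] at hα
  obtain ⟨p, hpd⟩ : ∃ p : Fin 3 → ℝ, p = fun k => β k / α := ⟨_, rfl⟩
  have hpk : ∀ k, |p k| ≤ 2 * r := by
    intro k
    rw [hpd]
    change |β k / α| ≤ 2 * r
    rw [abs_div, abs_of_pos hα, div_le_iff₀ hα]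
    exact hβle k
  have hp : ∀ k, p k * (∫ w, chi r w * g w) = ∫ w, chi r w * w k * g w := by
    intro k
    rw [← hαd, hpd]
    change β k / α * α = _
    rw [div_mul_cancel₀ _ hα.ne', hβd]
  obtain ⟨A, hA⟩ : ∃ A : Fin 3 → Fin 3 → ℝ, A = fun k l => ∫ w, psk r (p k) k w * w l * g w :=
    ⟨_, rfl⟩
  have hApos : ∀ x : Fin 3 → ℝ, c0 * ∑ i, x i ^ 2 ≤ ∑ i, ∑ j, A i j * x i * x j := by
    intro x
    rw [hA]
    exact A_pos hg hr hp hcov x
  obtain ⟨S, hS1, hS2⟩ := mat_inv A c0 hc0 hApos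
  obtain ⟨ck, hck⟩ : ∃ ck : Fin 3 → Fin 3 → ℝ,
      ck = fun k b => ∫ w, g w * pd b (psk r (p k) k) w := ⟨_, rfl⟩
  obtain ⟨dk, hdk⟩ : ∃ dk : Fin 3 → Fin 3 → Fin 3 → ℝ, dk = fun k a b =>
    ∫ w, g w * (w a * pd b (psk r (p k) k) w - w b * pd a (psk r (p k) k) w) := ⟨_, rfl⟩
  have hP1 : 0 ≤ 1 + 4 * r * C0 := by positivity
  have hckd : ∀ k a b, |ck k b| ≤ (1 + 4 * r * C0) * m ∧
      |dk k a b| ≤ 4 * r * (1 + 4 * r * C0) * m := fun k a b => by
    rw [hck, hdk]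
    exact bd_cd hg hmass hP1 hr (fun b w => psk_pd_le hr hC0 hchi (hpk k) k b w)
      (fun b w h => psk_pd_zero hr (p k) k b h) a b
  have hc0' : 0 ≤ 1 / c0 := by positivity
  obtain ⟨C1, hC1⟩ : ∃ C1 : Fin 3 → ℝ, C1 = fun b => ∑ k, S (b + 1) k * ck k b := ⟨_, rfl⟩
  obtain ⟨C2, hC2⟩ : ∃ C2 : Fin 3 → ℝ, C2 = fun b => ∑ k, S (b + 1) k * ck k (b + 1) := ⟨_, rfl⟩
  obtain ⟨L, hL⟩ : ∃ L : Fin 3 → Fin 3 → ℝ, L = fun b j =>
    (if j = b + 1 then C1 b else 0) - (if j = b then C2 b else 0) := ⟨_, rfl⟩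
  have hC1le : ∀ b, |C1 b| ≤ 3 * (1 / c0 * ((1 + 4 * r * C0) * m)) := fun b => by
    rw [hC1]
    exact sum_le3 hc0' (hS1 (b + 1)) fun k => (hckd k b b).1
  have hC2le : ∀ b, |C2 b| ≤ 3 * (1 / c0 * ((1 + 4 * r * C0) * m)) := fun b => by
    rw [hC2]
    exact sum_le3 hc0' (hS1 (b + 1)) fun k => (hckd k b (b + 1)).1
  refine ⟨p, fun b => - ∑ k, S (b + 1) k * dk k (b + 1) b, L, S, hpk, hS1, ?_, ?_, ?_⟩
  · intro b
    change |-∑ k, S (b + 1) k * dk k (b + 1) b| ≤ _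
    rw [abs_neg]
    exact sum_le3 hc0' (hS1 (b + 1)) fun k => (hckd k (b + 1) b).2
  · intro a b
    rw [hL]
    change |(if b = a + 1 then C1 a else 0) - (if b = a then C2 a else 0)| ≤ _
    have n : 0 ≤ 3 * (1 / c0 * ((1 + 4 * r * C0) * m)) := by positivity
    have e1 : |if b = a + 1 then C1 a else 0| ≤ 3 * (1 / c0 * ((1 + 4 * r * C0) * m)) := by
      split_ifs
      · exact hC1le a
      · rw [abs_zero]; exact n
    have e2 : |if b = a then C2 a else 0| ≤ 3 * (1 / c0 * ((1 + 4 * r * C0) * m)) := by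
      split_ifs
      · exact hC2le a
      · rw [abs_zero]; exact n
    have := abs_sub (if b = a + 1 then C1 a else 0) (if b = a then C2 a else 0)
    linarith
  · intro b v
    change pd b g v - g v * ((∑ j, L b j * v j) + -∑ k, S (b + 1) k * dk k (b + 1) b) = _
    have hne : b + 1 ≠ b := by revert b; decide
    have hLv : (∑ j, L b j * v j) = v (b + 1) * C1 b - v b * C2 b := by
      rw [hL]
      simp only [sub_mul, Finset.sum_sub_distrib, ite_mul, zero_mul, Finset.sum_ite_eq',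
        Finset.mem_univ, if_true]
      ring
    have e1 := hS2 (b + 1) (b + 1)
    have e2 := hS2 (b + 1) b
    rw [if_pos rfl] at e1
    rw [if_neg hne] at e2
    have h1 := solve3 (S (b + 1)) (fun k => A k (b + 1))
      (fun k => ∫ w, psk r (p k) k w * g w * XX g (b + 1) b v w) (fun k => ck k b)
      (fun k => ck k (b + 1)) (fun k => dk k (b + 1) b) (fun k => A k b) (gam b g v)
      (gam (b + 1) g v) (v (b + 1)) (v b) e1 e2 (fun k => by
        rw [hA, hck, hdk]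
        exact W_id hg hr hp k (b + 1) b v)
    have h2 : ∑ k, S (b + 1) k * (g v * ∫ w, psk r (p k) k w * g w * XX g (b + 1) b v w) =
        g v * ∑ k, S (b + 1) k * ∫ w, psk r (p k) k w * g w * XX g (b + 1) b v w := by
      rw [Finset.mul_sum]
      exact Finset.sum_congr rfl fun k _ => by ring
    rw [h2, h1, hLv, ← hg.gam_mul b v, hC1, hC2]
    ring

/-- the first estimate, with `ρ ^ 3` -/
theorem first_est {g : V → ℝ} (hg : Cls g) {r m c0 : ℝ} (hr : 0 < r) (hc0 : 0 < c0)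
    (hmg : mass g + energy g ≤ m) (hD : DD g ≠ ⊤)
    {p ℓ : Fin 3 → ℝ} {L S : Fin 3 → Fin 3 → ℝ} (hpk : ∀ k, |p k| ≤ 2 * r)
    (hS : ∀ i j, |S i j| ≤ 1 / c0)
    (hpt : ∀ b v, pd b g v - g v * ((∑ j, L b j * v j) + ℓ b) =
        - ∑ k, S (b + 1) k * (g v * ∫ w, psk r (p k) k w * g w * XX g (b + 1) b v w))
    {ρ : ℝ} (hρ : 1 ≤ ρ) (b : Fin 3) :
    (∫ v in Metric.ball (0 : V) ρ, |pd b g v - g v * ((∑ j, L b j * v j) + ℓ b)|) ^ 2 ≤
      9 * ((1 / c0) ^ 2 * ((4 * r) ^ 2 * (ρ + 2 * r) ^ 3 * m ^ 2 * (DD g).toReal)) := by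
  have hI : ∀ k, IntegrableOn
      (fun v => g v * |∫ w, psk r (p k) k w * g w * XX g (b + 1) b v w|) (Metric.ball (0 : V) ρ) ∧
      (∫ v in Metric.ball (0 : V) ρ,
        g v * |∫ w, psk r (p k) k w * g w * XX g (b + 1) b v w|) ^ 2 ≤
        (4 * r) ^ 2 * (ρ + 2 * r) ^ 3 * m ^ 2 * (DD g).toReal := fun k =>
    cs_bound g hg m hmg (psk r (p k) k) (psk_smooth r (p k) k) (psk_compact hr (p k) k) (2 * r)
      (4 * r) (by positivity) (fun v hv => psk_zero hr (p k) k hv)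
      (fun v => psk_le hr (hpk k) k v) hD (b + 1) b ρ hρ
  have h1 : ∫ v in Metric.ball (0 : V) ρ, |pd b g v - g v * ((∑ j, L b j * v j) + ℓ b)| ≤
      ∑ k, (1 / c0) * ∫ v in Metric.ball (0 : V) ρ,
        g v * |∫ w, psk r (p k) k w * g w * XX g (b + 1) b v w| := by
    have e1 : ∑ k, (1 / c0) * ∫ v in Metric.ball (0 : V) ρ,
        g v * |∫ w, psk r (p k) k w * g w * XX g (b + 1) b v w| =
        ∫ v in Metric.ball (0 : V) ρ, ∑ k, (1 / c0) *
          (g v * |∫ w, psk r (p k) k w * g w * XX g (b + 1) b v w|) := by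
      rw [integral_finsetSum _ fun k _ => (hI k).1.const_mul _]
      exact Finset.sum_congr rfl fun k _ => (integral_const_mul _ _).symm
    rw [e1]
    refine integral_mono_of_nonneg (Eventually.of_forall fun v => abs_nonneg _)
      (integrable_finsetSum _ fun k _ => (hI k).1.const_mul _)
      (Eventually.of_forall fun v => ?_)
    change |pd b g v - g v * ((∑ j, L b j * v j) + ℓ b)| ≤ _
    rw [hpt, abs_neg]
    refine (Finset.abs_sum_le_sum_abs _ _).trans (Finset.sum_le_sum fun k _ => ?_)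
    rw [abs_mul, abs_mul, abs_of_nonneg (hg.nonneg v)]
    exact mul_le_mul_of_nonneg_right (hS _ _) (mul_nonneg (hg.nonneg v) (abs_nonneg _))
  refine (pow_le_pow_left₀ (integral_nonneg fun v => abs_nonneg _) h1 2).trans ?_
  refine sq_sum3 _ _ fun k => ?_
  rw [mul_pow]
  exact mul_le_mul_of_nonneg_left (hI k).2 (by positivity)

/-- the second estimate in terms of the first -/
theorem second_est {g : V → ℝ} (hg : Cls g) {r m : ℝ} (hr : 0 < r) (hm0 : 0 ≤ m)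
    (hmg : mass g + energy g ≤ m) (hD : DD g ≠ ⊤) {ℓ : Fin 3 → ℝ} {L : Fin 3 → Fin 3 → ℝ}
    {ρ : ℝ} (hρ : 1 ≤ ρ) (a b : Fin 3) :
    (∫ v in Metric.ball (0 : V) ρ, g v * |pab (∫ w, chi r w * g w)
      (fun a => ∫ w, chi r w * w a * g w) (fun b => ∫ w, g w * pd b (chi r) w)
      (fun a b => ∫ w, g w * (w a * pd b (chi r) w - w b * pd a (chi r) w)) L ℓ a b v|) ^ 2 ≤
      3 * ((ρ + 2 * r) ^ 3 * m ^ 2 * (DD g).toReal +
        (m * (1 + 2 * r) * ρ) ^ 2 *
          (∫ v in Metric.ball (0 : V) ρ, |pd b g v - g v * ((∑ j, L b j * v j) + ℓ b)|) ^ 2 +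
        (m * (1 + 2 * r) * ρ) ^ 2 *
          (∫ v in Metric.ball (0 : V) ρ, |pd a g v - g v * ((∑ j, L a j * v j) + ℓ a)|) ^ 2) := by
  have hρ0 : 0 < ρ := by linarith
  have hen := hg.energy_nonneg
  obtain ⟨hI, hI2⟩ := cs_bound g hg m hmg (chi r) (chi_smooth r) (chi_compact hr) (2 * r) 1
    (by positivity) (fun v hv => chi_zero hr hv.le)
    (fun v => by rw [abs_of_nonneg (chi_nonneg r v)]; exact chi_le_one r v) hD a b ρ hρ
  rw [one_pow, one_mul] at hI2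
  have hα2 : ∫ w, chi r w * g w ≤ m := (al_up hg hr).trans (by linarith)
  have hα0 : 0 ≤ ∫ w, chi r w * g w :=
    integral_nonneg fun w => mul_nonneg (chi_nonneg r w) (hg.nonneg w)
  have hβle : ∀ a, |∫ w, chi r w * w a * g w| ≤ 2 * r * m := fun a =>
    (be_le hg hr a).trans (by gcongr)
  have hpab : ∀ v, g v * pab (∫ w, chi r w * g w)
      (fun a => ∫ w, chi r w * w a * g w) (fun b => ∫ w, g w * pd b (chi r) w)
      (fun a b => ∫ w, g w * (w a * pd b (chi r) w - w b * pd a (chi r) w)) L ℓ a b v =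
      g v * (∫ w, chi r w * g w * XX g a b v w) -
      ((∫ w, chi r w * g w) * v a - ∫ w, chi r w * w a * g w) *
        (pd b g v - g v * ((∑ j, L b j * v j) + ℓ b)) +
      ((∫ w, chi r w * g w) * v b - ∫ w, chi r w * w b * g w) *
        (pd a g v - g v * ((∑ j, L a j * v j) + ℓ a)) := by
    intro v
    rw [mom_id g hg (chi r) (chi_smooth r) (chi_compact hr) a b v, ← hg.gam_mul b v,
      ← hg.gam_mul a v]
    unfold pab
    ring
  generalize hF : (fun v => g v * |pab (∫ w, chi r w * g w)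
      (fun a => ∫ w, chi r w * w a * g w) (fun b => ∫ w, g w * pd b (chi r) w)
      (fun a b => ∫ w, g w * (w a * pd b (chi r) w - w b * pd a (chi r) w)) L ℓ a b v|) = F
  have hFn : ∀ v, 0 ≤ F v := fun v => by
    rw [← hF]
    exact mul_nonneg (hg.nonneg v) (abs_nonneg _)
  have hFe : ∀ v, F v = |g v * (∫ w, chi r w * g w * XX g a b v w) -
      ((∫ w, chi r w * g w) * v a - ∫ w, chi r w * w a * g w) *
        (pd b g v - g v * ((∑ j, L b j * v j) + ℓ b)) +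
      ((∫ w, chi r w * g w) * v b - ∫ w, chi r w * w b * g w) *
        (pd a g v - g v * ((∑ j, L a j * v j) + ℓ a))| := by
    intro v
    rw [← hF, ← hpab v, abs_mul, abs_of_nonneg (hg.nonneg v)]
  generalize hα : (∫ w, chi r w * g w) = α at *
  generalize hβ : (fun a : Fin 3 => ∫ w, chi r w * w a * g w) = β at *
  have hβ' : ∀ a, ∫ w, chi r w * w a * g w = β a := fun a => congrFun hβ a
  simp only [hβ'] at hβle hFe
  obtain ⟨Q, hQ⟩ : ∃ Q, Q = m * (1 + 2 * r) * ρ := ⟨_, rfl⟩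
  have hQn : 0 ≤ Q := by rw [hQ]; positivity
  rw [← hQ]
  have hlin : ∀ (a : Fin 3) (v : V), v ∈ Metric.ball (0 : V) ρ → |α * v a - β a| ≤ Q := by
    intro a v hv
    have hv' : ‖v‖ < ρ := by simpa using hv
    have h1 : |v a| ≤ ρ := (Cls.abs_coord v a).trans hv'.le
    have h2 : |α * v a| ≤ m * ρ := by
      rw [abs_mul, abs_of_nonneg hα0]
      exact mul_le_mul hα2 h1 (abs_nonneg _) hm0
    have h4 : 2 * r * m ≤ 2 * r * m * ρ := le_mul_of_one_le_right (by positivity) hρ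
    have h5 := hβle a
    have h6 := abs_sub (α * v a) (β a)
    rw [hQ]
    nlinarith
  have hcontE : ∀ b, Continuous fun v : V => |pd b g v - g v * ((∑ j, L b j * v j) + ℓ b)| := by
    intro b
    have h1 := continuous_pd (contDiff_one_of_smooth hg.smooth) b
    have h2 : Continuous fun v : V => (∑ j, L b j * v j) + ℓ b := by fun_prop
    exact (h1.sub (hg.cont.mul h2)).abs
  have hintE : ∀ b, IntegrableOn (fun v : V => Q * |pd b g v - g v * ((∑ j, L b j * v j) + ℓ b)|)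
      (Metric.ball (0 : V) ρ) := fun b =>
    (((hcontE b).continuousOn.integrableOn_compact (isCompact_closedBall (0 : V) ρ)).mono_set
      Metric.ball_subset_closedBall).const_mul Q
  have hIE : IntegrableOn (fun v => g v * |∫ w, chi r w * g w * XX g a b v w| +
      Q * |pd b g v - g v * ((∑ j, L b j * v j) + ℓ b)|) (Metric.ball (0 : V) ρ) :=
    hI.add (hintE b)
  have hle : ∫ v in Metric.ball (0 : V) ρ, F v ≤
      (∫ v in Metric.ball (0 : V) ρ, g v * |∫ w, chi r w * g w * XX g a b v w|) +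
      Q * (∫ v in Metric.ball (0 : V) ρ, |pd b g v - g v * ((∑ j, L b j * v j) + ℓ b)|) +
      Q * (∫ v in Metric.ball (0 : V) ρ, |pd a g v - g v * ((∑ j, L a j * v j) + ℓ a)|) := by
    rw [← integral_const_mul, ← integral_const_mul, ← integral_add hI (hintE b),
      ← integral_add hIE (hintE a)]
    refine integral_mono_of_nonneg (Eventually.of_forall fun v => hFn v)
      (hIE.add (hintE a)) ?_
    refine (ae_restrict_iff' measurableSet_ball).2 (Eventually.of_forall fun v hv => ?_)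
    change F v ≤ g v * |∫ w, chi r w * g w * XX g a b v w| +
      Q * |pd b g v - g v * ((∑ j, L b j * v j) + ℓ b)| +
      Q * |pd a g v - g v * ((∑ j, L a j * v j) + ℓ a)|
    rw [hFe]
    refine (abs_add_le _ _).trans (add_le_add ((abs_sub _ _).trans (add_le_add ?_ ?_)) ?_)
    · rw [abs_mul, abs_of_nonneg (hg.nonneg v)]
    · rw [abs_mul]
      exact mul_le_mul_of_nonneg_right (hlin a v hv) (abs_nonneg _)
    · rw [abs_mul]
      exact mul_le_mul_of_nonneg_right (hlin b v hv) (abs_nonneg _)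
  have hn : 0 ≤ ∫ v in Metric.ball (0 : V) ρ, F v := integral_nonneg hFn
  generalize (∫ v in Metric.ball (0 : V) ρ, F v) = X0 at hle hn ⊢
  generalize (∫ v in Metric.ball (0 : V) ρ, g v * |∫ w, chi r w * g w * XX g a b v w|) = X1
    at hle hI2
  generalize (∫ v in Metric.ball (0 : V) ρ, |pd b g v - g v * ((∑ j, L b j * v j) + ℓ b)|) = X2
    at hle ⊢
  generalize (∫ v in Metric.ball (0 : V) ρ, |pd a g v - g v * ((∑ j, L a j * v j) + ℓ a)|) = X3
    at hle ⊢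
  calc X0 ^ 2 ≤ (X1 + Q * X2 + Q * X3) ^ 2 := pow_le_pow_left₀ hn hle 2
    _ ≤ 3 * (X1 ^ 2 + (Q * X2) ^ 2 + (Q * X3) ^ 2) := by
        nlinarith [sq_nonneg (X1 - Q * X2), sq_nonneg (X1 - Q * X3),
          sq_nonneg (Q * X2 - Q * X3)]
    _ ≤ _ := by
        rw [mul_pow, mul_pow]
        linarith

end IdentAux

open IdentAux

theorem ident (M m : ℝ) (hM : 0 < M) : ∃ C : ℝ, 0 < C ∧ ∀ g : V → ℝ, Cls g → M ≤ mass g →
    mass g + energy g ≤ m → DD g ≠ ⊤ →
    ∃ (α : ℝ) (β c ℓ : Fin 3 → ℝ) (d L : Fin 3 → Fin 3 → ℝ),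
      M / 2 ≤ α ∧ α ≤ C ∧ (∀ a, |β a| ≤ C) ∧ (∀ a, |c a| ≤ C) ∧ (∀ a, |ℓ a| ≤ C) ∧
      (∀ a b, |d a b| ≤ C) ∧ (∀ a b, |L a b| ≤ C) ∧
      ∀ ρ : ℝ, 1 ≤ ρ →
        (∀ b, (∫ v in Metric.ball (0 : V) ρ,
          |pd b g v - g v * ((∑ j, L b j * v j) + ℓ b)|) ^ 2 ≤ C * ρ ^ 5 * (DD g).toReal) ∧
        (∀ a b, (∫ v in Metric.ball (0 : V) ρ, g v * |pab α β c d L ℓ a b v|) ^ 2 ≤
          C * ρ ^ 5 * (DD g).toReal) := by
  obtain ⟨r, hrdef⟩ : ∃ r : ℝ, r = 1 + 2 * |m| / M := ⟨_, rfl⟩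
  have hr1 : 1 ≤ r := by
    have : 0 ≤ 2 * |m| / M := by positivity
    linarith
  have hr : 0 < r := by linarith
  have hmr : |m| / r ^ 2 ≤ M / 2 := by
    rw [div_le_div_iff₀ (by positivity) (by norm_num)]
    have h1 : 2 * |m| ≤ M * r := by
      rw [hrdef]
      have : M * (1 + 2 * |m| / M) = M + 2 * |m| := by field_simp
      rw [this]; linarith
    have h2 : M * r ≤ M * r ^ 2 := by
      nlinarith [mul_le_mul_of_nonneg_left hr1 (mul_pos hM hr).le]
    linarith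
  obtain ⟨C0, hC0, hchi⟩ := chi_bounds
  have hchi' : ∀ b w, |pd b (chi r) w| ≤ C0 := fun b w =>
    ((hchi r hr1).1 b w).trans (div_le_self hC0.le hr1)
  obtain ⟨c0, hc0, hcov⟩ := cov_lower (M / 2) r (by positivity) hr
  -- the constants
  obtain ⟨m', hm'⟩ : ∃ m' : ℝ, m' = |m| := ⟨_, rfl⟩
  have hm'0 : 0 ≤ m' := by rw [hm']; exact abs_nonneg m
  obtain ⟨K0, hK0⟩ : ∃ K0, K0 = (1 + 2 * r) ^ 3 * m' ^ 2 := ⟨_, rfl⟩
  have hK0n : 0 ≤ K0 := by rw [hK0]; positivity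
  obtain ⟨K2, hK2⟩ : ∃ K2, K2 = 9 * ((1 / c0) ^ 2 * ((4 * r) ^ 2 * K0)) := ⟨_, rfl⟩
  have hK2n : 0 ≤ K2 := by rw [hK2]; positivity
  obtain ⟨K3, hK3⟩ : ∃ K3, K3 = 3 * (K0 + 2 * ((m' * (1 + 2 * r)) ^ 2 * K2)) := ⟨_, rfl⟩
  have hK3n : 0 ≤ K3 := by rw [hK3]; positivity
  obtain ⟨C, hC⟩ : ∃ C, C = 1 + m' + 2 * r * m' + C0 * m' + 4 * r * C0 * m' +
    3 * (1 / c0 * (4 * r * (1 + 4 * r * C0) * m')) + 6 * (1 / c0 * ((1 + 4 * r * C0) * m')) +
    K2 + K3 := ⟨_, rfl⟩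
  have t1 : 0 ≤ 2 * r * m' := by positivity
  have t2 : 0 ≤ C0 * m' := by positivity
  have t3 : 0 ≤ 4 * r * C0 * m' := by positivity
  have t4 : 0 ≤ 3 * (1 / c0 * (4 * r * (1 + 4 * r * C0) * m')) := by positivity
  have t5 : 0 ≤ 6 * (1 / c0 * ((1 + 4 * r * C0) * m')) := by positivity
  have hCpos : 0 < C := by rw [hC]; linarith
  refine ⟨C, hCpos, ?_⟩
  intro g hg hMg hmg hD
  have hen := hg.energy_nonneg
  have hmpos : 0 < m := by linarith
  have hmm : m = m' := by rw [hm', abs_of_pos hmpos]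
  rw [← hm'] at hmr
  subst hmm
  have hball : M / 2 ≤ ∫ v in Metric.closedBall (0 : V) r, g v :=
    al_bounds hg hr hMg (by linarith) hmr
  have hα1 : M / 2 ≤ ∫ w, chi r w * g w := hball.trans (al_low hg hr)
  have hα2 : ∫ w, chi r w * g w ≤ m := (al_up hg hr).trans (by linarith)
  have hαpos : 0 < ∫ w, chi r w * g w := by linarith
  obtain ⟨p, ℓ, L, S, hpk, hS, hℓ, hL, hpt⟩ := affine_exists hg hr hC0.le hc0 hmpos.le
    (by linarith : mass g ≤ m) hαpos hchi'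
    (hcov g hg.cont hg.nonneg hg.le_one hball)
  have hcd : ∀ a b, |∫ w, g w * pd b (chi r) w| ≤ C0 * m ∧
      |∫ w, g w * (w a * pd b (chi r) w - w b * pd a (chi r) w)| ≤ 4 * r * C0 * m := fun a b =>
    bd_cd hg (by linarith : mass g ≤ m) hC0.le hr hchi' (fun b w h => pd_chi_outer hr h b) a b
  refine ⟨∫ w, chi r w * g w, fun a => ∫ w, chi r w * w a * g w,
    fun b => ∫ w, g w * pd b (chi r) w, ℓ,
    fun a b => ∫ w, g w * (w a * pd b (chi r) w - w b * pd a (chi r) w), L, hα1, ?_, ?_, ?_, ?_,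
    ?_, ?_, ?_⟩
  · rw [hC]; linarith
  · intro a
    have h1 := be_le hg hr a
    have h2 : 2 * r * (∫ w, chi r w * g w) ≤ 2 * r * m := by gcongr
    change |∫ w, chi r w * w a * g w| ≤ C
    rw [hC]; linarith
  · intro a
    have := (hcd a a).1
    change |∫ w, g w * pd a (chi r) w| ≤ C
    rw [hC]; linarith
  · intro a
    have := hℓ a
    rw [hC]; linarith
  · intro a b
    have := (hcd a b).2
    change |∫ w, g w * (w a * pd b (chi r) w - w b * pd a (chi r) w)| ≤ C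
    rw [hC]; linarith
  · intro a b
    have := hL a b
    rw [hC]; linarith
  intro ρ hρ
  have hρ0 : 0 < ρ := by linarith
  have hρr : (ρ + 2 * r) ^ 3 ≤ (1 + 2 * r) ^ 3 * ρ ^ 3 := by
    rw [← mul_pow]
    refine pow_le_pow_left₀ (by positivity) ?_ 3
    nlinarith
  have hρ35 : ρ ^ 3 ≤ ρ ^ 5 := pow_le_pow_right₀ hρ (by norm_num)
  have hDn : 0 ≤ (DD g).toReal := ENNReal.toReal_nonneg
  have hE2 : ∀ b, (∫ v in Metric.ball (0 : V) ρ,
      |pd b g v - g v * ((∑ j, L b j * v j) + ℓ b)|) ^ 2 ≤ K2 * ρ ^ 3 * (DD g).toReal := by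
    intro b
    refine (first_est hg hr hc0 hmg hD hpk hS hpt hρ b).trans ?_
    rw [hK2, hK0]
    calc 9 * ((1 / c0) ^ 2 * ((4 * r) ^ 2 * (ρ + 2 * r) ^ 3 * m ^ 2 * (DD g).toReal)) ≤
        9 * ((1 / c0) ^ 2 * ((4 * r) ^ 2 * ((1 + 2 * r) ^ 3 * ρ ^ 3) * m ^ 2 *
          (DD g).toReal)) := by gcongr
      _ = _ := by ring
  refine ⟨fun b => (hE2 b).trans ?_, fun a b => ?_⟩
  · have h1 : K2 ≤ C := by rw [hC]; linarith
    calc K2 * ρ ^ 3 * (DD g).toReal ≤ C * ρ ^ 3 * (DD g).toReal := by gcongr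
      _ ≤ C * ρ ^ 5 * (DD g).toReal := by gcongr
  · refine (second_est hg hr hmpos.le hmg hD hρ a b).trans ?_
    have h1 := hE2 a
    have h2 := hE2 b
    have h3 : (ρ + 2 * r) ^ 3 * m ^ 2 * (DD g).toReal ≤ K0 * ρ ^ 5 * (DD g).toReal := by
      rw [hK0]
      calc (ρ + 2 * r) ^ 3 * m ^ 2 * (DD g).toReal ≤
          ((1 + 2 * r) ^ 3 * ρ ^ 3) * m ^ 2 * (DD g).toReal := by gcongr
        _ ≤ ((1 + 2 * r) ^ 3 * ρ ^ 5) * m ^ 2 * (DD g).toReal := by gcongr
        _ = _ := by ring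
    have h4 : ∀ X : ℝ, X ≤ K2 * ρ ^ 3 * (DD g).toReal → (m * (1 + 2 * r) * ρ) ^ 2 * X ≤
        (m * (1 + 2 * r)) ^ 2 * K2 * ρ ^ 5 * (DD g).toReal := by
      intro X hX
      calc (m * (1 + 2 * r) * ρ) ^ 2 * X ≤ (m * (1 + 2 * r) * ρ) ^ 2 *
          (K2 * ρ ^ 3 * (DD g).toReal) := mul_le_mul_of_nonneg_left hX (sq_nonneg _)
        _ = _ := by ring
    have h5 := h4 _ h1
    have h6 := h4 _ h2
    have h7 : K3 ≤ C := by rw [hC]; linarith
    calc _ ≤ 3 * (K0 * ρ ^ 5 * (DD g).toReal +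
        (m * (1 + 2 * r)) ^ 2 * K2 * ρ ^ 5 * (DD g).toReal +
        (m * (1 + 2 * r)) ^ 2 * K2 * ρ ^ 5 * (DD g).toReal) := by linarith
      _ = K3 * ρ ^ 5 * (DD g).toReal := by rw [hK3]; ring
      _ ≤ C * ρ ^ 5 * (DD g).toReal := by gcongr

end Pool.Agent.Landau
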