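import Pool.Agent.Landau.Defs2

/-!
# Landau, module Joint: joint continuity in time and velocity

Let `F (t, v) = f t v`, of class `C^∞` on the open set `S = Iio 0 ×ˢ univ`.  On `S` the differential
`fderiv ℝ F` is continuous, `pd i (f t) v = fderiv ℝ F (t, v) (0, single i 1)` (chain rule) and
`QL (f t) v = fderiv ℝ F (t, v) (1, 0)` (uniqueness of derivatives and `Sol.pde`).
-/

set_option autoImplicit false

namespace Pool.Agent.Landau

open MeasureTheory Set Filter Topology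

theorem joint_f (f : ℝ → V → ℝ) (hf : Sol f) :
    ContinuousOn (fun p : ℝ × V => f p.1 p.2) (Iio (0 : ℝ) ×ˢ univ) :=
  hf.smooth.continuousOn

theorem joint_open : IsOpen (Iio (0 : ℝ) ×ˢ (univ : Set V)) := isOpen_Iio.prod isOpen_univ

/-- the full differential exists for negative times -/
theorem joint_hasFDerivAt (f : ℝ → V → ℝ) (hf : Sol f) {p : ℝ × V}
    (hp : p ∈ Iio (0 : ℝ) ×ˢ (univ : Set V)) :
    HasFDerivAt (fun p : ℝ × V => f p.1 p.2) (fderiv ℝ (fun p : ℝ × V => f p.1 p.2) p) p := by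
  have h1 := hf.smooth.contDiffAt (joint_open.mem_nhds hp)
  exact (h1.differentiableAt (by simp)).hasFDerivAt

theorem joint_fderiv (f : ℝ → V → ℝ) (hf : Sol f) :
    ContinuousOn (fderiv ℝ (fun p : ℝ × V => f p.1 p.2)) (Iio (0 : ℝ) ×ˢ univ) :=
  hf.smooth.continuousOn_fderiv_of_isOpen joint_open (by exact_mod_cast le_top)

theorem joint_pd (f : ℝ → V → ℝ) (hf : Sol f) (i : Fin 3) :
    ContinuousOn (fun p : ℝ × V => pd i (f p.1) p.2) (Iio (0 : ℝ) ×ˢ univ) := by
  have h := (joint_fderiv f hf).clm_apply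
    (continuousOn_const (c := ((0 : ℝ), (EuclideanSpace.single i (1 : ℝ) : V))))
  refine h.congr fun p hp => ?_
  obtain ⟨t, v⟩ := p
  have h1 := joint_hasFDerivAt f hf hp
  have h2 : HasFDerivAt (f t) ((fderiv ℝ (fun p : ℝ × V => f p.1 p.2) (t, v)).comp
      (ContinuousLinearMap.inr ℝ ℝ V)) v :=
    h1.comp v (hasFDerivAt_prodMk_right t v)
  simp only [pd]
  rw [h2.fderiv]
  simp

theorem joint_QL (f : ℝ → V → ℝ) (hf : Sol f) :
    ContinuousOn (fun p : ℝ × V => QL (f p.1) p.2) (Iio (0 : ℝ) ×ˢ univ) := by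
  have h := (joint_fderiv f hf).clm_apply
    (continuousOn_const (c := ((1 : ℝ), (0 : V))))
  refine h.congr fun p hp => ?_
  obtain ⟨t, v⟩ := p
  have h1 := joint_hasFDerivAt f hf hp
  have h2 : HasDerivAt (fun s : ℝ => (s, v)) ((1 : ℝ), (0 : V)) t :=
    (hasDerivAt_id t).prodMk (hasDerivAt_const t v)
  have h3 : HasDerivAt ((fun p : ℝ × V => f p.1 p.2) ∘ fun s : ℝ => (s, v))
      (fderiv ℝ (fun p : ℝ × V => f p.1 p.2) (t, v) ((1 : ℝ), (0 : V))) t :=
    HasFDerivAt.comp_hasDerivAt (f := fun s : ℝ => (s, v)) t h1 h2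
  have ht : t < 0 := hp.1
  exact (hf.pde t ht v).unique h3

end Pool.Agent.Landau
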