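import Pool.Agent.Landau.Defs3

/-!
# Landau, module Null: quadratic polynomials

`quad_null`: the zero set of a nonzero polynomial of degree at most two on `V` is a null set.  For instance: let
`p v0 ≠ 0`; on every line through `v0` the polynomial is a nonzero polynomial of degree at most two in one
variable, which has at most two zeros, and use polar coordinates around `v0`; or Fubini in
coordinates (the volume of `V` is the product measure, `EuclideanSpace.volume_preserving_symm_measurableEquiv_toLp`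
or its inverse), by induction over the number of variables.

`pab_zero`: `pab` is such a polynomial.  Suppose it is not identically zero, then the sets
`{v : ‖v‖ < ρ, |p v| ≤ δ}` decrease to a null set as `δ → 0`, so one of them has volume `< M / 2`, and
`M ≤ ∫_{‖v‖ < ρ} g_n ≤ volume + (1 / δ) ∫_{‖v‖ < ρ} g_n |p|` gives a contradiction for large `n`.
If all `pab` vanish: the quadratic part `(p(v) + p(-v)) / 2 - p 0 = α (v_a (L v)_b - v_b (L v)_a)` vanishes;
`v = e_a` gives `L b a = 0` for `a ≠ b`, `v = e_a + e_b` gives `L b b = L a a`.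
-/

set_option autoImplicit false

namespace Pool.Agent.Landau

open MeasureTheory Set Filter Topology

/-- a bounded measurable set which meets every line of direction `u` in at most `m` points is null -/
private theorem null_of_lines (S : Set V) (hS : MeasurableSet S) (R : ℝ)
    (hR : S ⊆ Metric.closedBall 0 R) (u : V) (m : ℕ)
    (h : ∀ (v : V) (F : Finset ℝ), (∀ t ∈ F, v + t • u ∈ S) → F.card ≤ m) : volume S = 0 := by
  classical
  by_contra hne
  have hfin : (m : ENNReal) * volume (Metric.closedBall (0 : V) (R + ‖u‖)) ≠ ⊤ :=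
    ENNReal.mul_ne_top (ENNReal.natCast_ne_top m) measure_closedBall_lt_top.ne
  obtain ⟨N, hN⟩ := ENNReal.exists_nat_mul_gt hne hfin
  obtain ⟨τ, hτ⟩ : ∃ τ : ℕ → ℝ, ∀ k, τ k = ((k : ℝ) + 1)⁻¹ := ⟨fun k => ((k : ℝ) + 1)⁻¹, fun _ => rfl⟩
  have hτinj : Function.Injective τ := by
    intro k l hkl
    rw [hτ, hτ, inv_inj] at hkl
    exact_mod_cast add_right_cancel hkl
  have hτ0 : ∀ k, 0 ≤ τ k ∧ τ k ≤ 1 := by
    intro k
    rw [hτ]
    have : (0 : ℝ) ≤ k := Nat.cast_nonneg k
    exact ⟨by positivity, inv_le_one_of_one_le₀ (by linarith)⟩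
  have hmeas : ∀ k, MeasurableSet ((fun v : V => v + τ k • u) ⁻¹' S) := fun k =>
    hS.preimage (measurable_id.add_const _)
  have hvol : ∀ k, volume ((fun v : V => v + τ k • u) ⁻¹' S) = volume S := fun k =>
    measure_preimage_add_right volume _ S
  have h1 : (N : ENNReal) * volume S =
      ∫⁻ v : V, ∑ k ∈ Finset.range N, ((fun v : V => v + τ k • u) ⁻¹' S).indicator 1 v := by
    rw [lintegral_finsetSum]
    · simp only [lintegral_indicator_one (hmeas _), hvol]
      rw [Finset.sum_const, Finset.card_range, nsmul_eq_mul]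
    · intro k _
      exact measurable_one.indicator (hmeas k)
  have h2 : ∀ v : V, ∑ k ∈ Finset.range N, ((fun v : V => v + τ k • u) ⁻¹' S).indicator 1 v ≤
      (Metric.closedBall (0 : V) (R + ‖u‖)).indicator (fun _ => (m : ENNReal)) v := by
    intro v
    by_cases hv : v ∈ Metric.closedBall (0 : V) (R + ‖u‖)
    · rw [Set.indicator_of_mem hv]
      have e : ∀ k ∈ Finset.range N, ((fun v : V => v + τ k • u) ⁻¹' S).indicator (1 : V → ENNReal) v
          = if v + τ k • u ∈ S then 1 else 0 := by
        intro k _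
        rfl
      rw [Finset.sum_congr rfl e, Finset.sum_boole]
      have h3 := h v (((Finset.range N).filter (fun k => v + τ k • u ∈ S)).image τ) (by
        intro t ht
        obtain ⟨k, hk, rfl⟩ := Finset.mem_image.mp ht
        exact (Finset.mem_filter.mp hk).2)
      rw [Finset.card_image_of_injective _ hτinj] at h3
      exact_mod_cast h3
    · rw [Set.indicator_of_notMem hv]
      refine le_of_eq (Finset.sum_eq_zero fun k _ => ?_)
      refine Set.indicator_of_notMem ?_ _
      intro hk
      apply hv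
      have h4 : v + τ k • u ∈ Metric.closedBall (0 : V) R := hR hk
      rw [mem_closedBall_zero_iff] at h4 ⊢
      have h5 : ‖v‖ ≤ ‖v + τ k • u‖ + ‖τ k • u‖ := by
        have := norm_sub_le (v + τ k • u) (τ k • u)
        rwa [add_sub_cancel_right] at this
      rw [norm_smul, Real.norm_eq_abs, abs_of_nonneg (hτ0 k).1] at h5
      have h6 : τ k * ‖u‖ ≤ ‖u‖ := mul_le_of_le_one_left (norm_nonneg _) (hτ0 k).2
      linarith
  have h7 : (N : ENNReal) * volume S ≤
      (m : ENNReal) * volume (Metric.closedBall (0 : V) (R + ‖u‖)) := by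
    rw [h1]
    refine (lintegral_mono h2).trans (le_of_eq ?_)
    rw [lintegral_indicator Metric.isClosed_closedBall.measurableSet, lintegral_const,
      Measure.restrict_apply_univ]
  exact absurd hN (not_lt.mpr h7)

private theorem null_of_lines' (S : Set V) (hS : IsClosed S) (u : V) (m : ℕ)
    (h : ∀ (v : V) (F : Finset ℝ), (∀ t ∈ F, v + t • u ∈ S) → F.card ≤ m) : volume S = 0 := by
  have e : S = ⋃ n : ℕ, S ∩ Metric.closedBall (0 : V) n := by
    rw [← Set.inter_iUnion, Metric.iUnion_closedBall_nat, Set.inter_univ]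
  rw [e, measure_iUnion_null_iff]
  intro n
  refine null_of_lines _ (hS.inter Metric.isClosed_closedBall).measurableSet n
    Set.inter_subset_right u m ?_
  intro v F hF
  exact h v F fun t ht => (hF t ht).1

private theorem card_quad {A B C : ℝ} (hA : A ≠ 0 ∨ B ≠ 0) (F : Finset ℝ)
    (hF : ∀ t ∈ F, A * t ^ 2 + B * t + C = 0) : F.card ≤ 2 := by
  classical
  obtain ⟨P, hP⟩ : ∃ P : Polynomial ℝ, P = Polynomial.C A * Polynomial.X ^ 2 +
    Polynomial.C B * Polynomial.X + Polynomial.C C := ⟨_, rfl⟩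
  have hP0 : P ≠ 0 := by
    intro h0
    rcases hA with h | h
    · apply h
      have := congrArg (fun Q => Polynomial.coeff Q 2) (hP.symm.trans h0)
      simpa [Polynomial.coeff_X, Polynomial.coeff_C] using this
    · apply h
      have := congrArg (fun Q => Polynomial.coeff Q 1) (hP.symm.trans h0)
      simpa [Polynomial.coeff_X_pow, Polynomial.coeff_C] using this
  have hdeg : P.natDegree ≤ 2 := by
    rw [hP]
    exact Polynomial.natDegree_quadratic_le
  have hsub : F ⊆ P.roots.toFinset := by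
    intro t ht
    rw [Multiset.mem_toFinset, Polynomial.mem_roots hP0, Polynomial.IsRoot.def, hP]
    simpa using hF t ht
  calc F.card ≤ P.roots.toFinset.card := Finset.card_le_card hsub
    _ ≤ Multiset.card P.roots := Multiset.toFinset_card_le _
    _ ≤ P.natDegree := Polynomial.card_roots' P
    _ ≤ 2 := hdeg

theorem quad_null (p0 : ℝ) (p1 : Fin 3 → ℝ) (p2 : Fin 3 → Fin 3 → ℝ)
    (h : ∃ v : V, p0 + (∑ i, p1 i * v i) + (∑ i, ∑ j, p2 i j * (v i * v j)) ≠ 0) :
    volume {v : V | p0 + (∑ i, p1 i * v i) + (∑ i, ∑ j, p2 i j * (v i * v j)) = 0} = 0 := by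
  have hclosed : IsClosed {v : V | p0 + (∑ i, p1 i * v i) +
      (∑ i, ∑ j, p2 i j * (v i * v j)) = 0} := by
    refine isClosed_eq ?_ continuous_const
    fun_prop
  have key : ∀ u : V, ((∑ i, ∑ j, p2 i j * (u i * u j)) ≠ 0 ∨
      ((∀ w : V, ∑ i, ∑ j, p2 i j * (w i * w j) = 0) ∧ (∑ i, p1 i * u i) ≠ 0)) →
      volume {v : V | p0 + (∑ i, p1 i * v i) + (∑ i, ∑ j, p2 i j * (v i * v j)) = 0} = 0 := by
    intro u hu
    refine null_of_lines' _ hclosed u 2 ?_
    intro v F hF
    have hexp : ∀ t : ℝ, p0 + (∑ i, p1 i * (v + t • u) i) +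
        (∑ i, ∑ j, p2 i j * ((v + t • u) i * (v + t • u) j)) =
        (∑ i, ∑ j, p2 i j * (u i * u j)) * t ^ 2 +
        ((∑ i, p1 i * u i) + ∑ i, ∑ j, p2 i j * (v i * u j + u i * v j)) * t +
        (p0 + (∑ i, p1 i * v i) + (∑ i, ∑ j, p2 i j * (v i * v j))) := by
      intro t
      simp only [PiLp.add_apply, PiLp.smul_apply, smul_eq_mul, Fin.sum_univ_three]
      ring
    refine card_quad (A := ∑ i, ∑ j, p2 i j * (u i * u j))
      (B := (∑ i, p1 i * u i) + ∑ i, ∑ j, p2 i j * (v i * u j + u i * v j))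
      (C := p0 + (∑ i, p1 i * v i) + (∑ i, ∑ j, p2 i j * (v i * v j))) ?_ F ?_
    · rcases hu with hu | ⟨hu1, hu2⟩
      · exact Or.inl hu
      · right
        have e : (∑ i, ∑ j, p2 i j * (v i * u j + u i * v j)) = 0 := by
          have e1 := hu1 (v + u)
          have e2 := hu1 v
          have e3 := hu1 u
          simp only [PiLp.add_apply, Fin.sum_univ_three] at e1 e2 e3 ⊢
          linear_combination e1 - e2 - e3
        rw [e, add_zero]
        exact hu2
    · intro t ht
      rw [← hexp t]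
      exact hF t ht
  by_cases hq : ∃ u : V, (∑ i, ∑ j, p2 i j * (u i * u j)) ≠ 0
  · obtain ⟨u, hu⟩ := hq
    exact key u (Or.inl hu)
  · push Not at hq
    by_cases hl : ∃ u : V, (∑ i, p1 i * u i) ≠ 0
    · obtain ⟨u, hu⟩ := hl
      exact key u (Or.inr ⟨hq, hu⟩)
    · push Not at hl
      obtain ⟨v, hv⟩ := h
      rw [hq v, hl v] at hv
      have : {v : V | p0 + (∑ i, p1 i * v i) + (∑ i, ∑ j, p2 i j * (v i * v j)) = 0} = ∅ := by
        ext w
        simp only [Set.mem_ofPred_eq, Set.mem_empty_iff_false, iff_false]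
        rw [hq w, hl w]
        exact hv
      rw [this, measure_empty]

private theorem pab_eq (α : ℝ) (β c ℓ : Fin 3 → ℝ) (d L : Fin 3 → Fin 3 → ℝ) (a b : Fin 3) (v : V) :
    pab α β c d L ℓ a b v = (-(β a * ℓ b) + β b * ℓ a - d a b) +
      (∑ i, ((if i = a then α * ℓ b + c b else 0) - (if i = b then α * ℓ a + c a else 0) -
        β a * L b i + β b * L a i) * v i) +
      ∑ i, ∑ j, ((if i = a then α * L b j else 0) - (if i = b then α * L a j else 0)) *
        (v i * v j) := by
  unfold pab
  fin_cases a <;> fin_cases b <;> simp [Fin.sum_univ_three] <;> ring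

theorem pab_zero (α : ℝ) (β c ℓ : Fin 3 → ℝ) (d L : Fin 3 → Fin 3 → ℝ) (a b : Fin 3) (M ρ : ℝ)
    (hM : 0 < M) (g : ℕ → V → ℝ) (hg : ∀ n, Cls (g n))
    (hmass : ∀ n, M ≤ ∫ v in Metric.ball (0 : V) ρ, g n v)
    (h : Tendsto (fun n => ∫ v in Metric.ball (0 : V) ρ, g n v * |pab α β c d L ℓ a b v|)
      atTop (𝓝 0)) (v : V) : pab α β c d L ℓ a b v = 0 := by
  by_contra hv
  have hnull : volume {v : V | pab α β c d L ℓ a b v = 0} = 0 := by
    simp only [pab_eq]
    apply quad_null
    refine ⟨v, ?_⟩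
    rw [← pab_eq]
    exact hv
  have hpc : Continuous fun v : V => pab α β c d L ℓ a b v := by
    unfold pab
    fun_prop
  -- the sublevel sets
  obtain ⟨A, hA⟩ : ∃ A : ℕ → Set V, ∀ n, A n = Metric.ball (0 : V) ρ ∩
      {v | |pab α β c d L ℓ a b v| ≤ ((n : ℝ) + 1)⁻¹} := ⟨_, fun _ => rfl⟩
  have hAm : ∀ n, MeasurableSet (A n) := fun n => by
    rw [hA]
    exact measurableSet_ball.inter (isClosed_le hpc.abs continuous_const).measurableSet
  have hAanti : Antitone A := by
    intro n k hnk
    rw [hA, hA]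
    refine Set.inter_subset_inter_right _ ?_
    intro w hw
    have hw' : |pab α β c d L ℓ a b w| ≤ ((k : ℝ) + 1)⁻¹ := hw
    refine hw'.trans ?_
    have : (n : ℝ) ≤ k := by exact_mod_cast hnk
    gcongr
  have hAlim : Tendsto (fun n => volume (A n)) atTop (𝓝 0) := by
    have h1 := tendsto_measure_iInter_atTop (μ := (volume : Measure V))
      (fun n => (hAm n).nullMeasurableSet) hAanti ⟨0, by
        refine ne_top_of_le_ne_top (measure_ball_lt_top (μ := (volume : Measure V)) (x := (0 : V)) (r := ρ)).ne ?_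
        exact measure_mono (by rw [hA]; exact Set.inter_subset_left)⟩
    have h2 : volume (⋂ n, A n) = 0 := by
      refine measure_mono_null ?_ hnull
      intro w hw
      rw [Set.mem_iInter] at hw
      have h3 : ∀ n : ℕ, |pab α β c d L ℓ a b w| ≤ ((n : ℝ) + 1)⁻¹ := by
        intro n
        have := hw n
        rw [hA] at this
        exact this.2
      have h4 : Tendsto (fun n : ℕ => ((n : ℝ) + 1)⁻¹) atTop (𝓝 0) := by
        have := tendsto_one_div_add_atTop_nhds_zero_nat (𝕜 := ℝ)
        simpa [one_div] using this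
      have h5 := ge_of_tendsto' h4 h3
      show pab α β c d L ℓ a b w = 0
      exact abs_eq_zero.mp (le_antisymm h5 (abs_nonneg _))
    rwa [h2] at h1
  have hM2 : (0 : ENNReal) < ENNReal.ofReal (M / 2) := ENNReal.ofReal_pos.mpr (by linarith)
  obtain ⟨k, hk⟩ := (hAlim.eventually (gt_mem_nhds hM2)).exists
  have hAfin : volume (A k) ≠ ⊤ := (hk.trans ENNReal.ofReal_lt_top).ne
  have hAreal : (volume (A k)).toReal < M / 2 := by
    rw [← ENNReal.toReal_ofReal (by linarith : (0 : ℝ) ≤ M / 2)]
    exact (ENNReal.toReal_lt_toReal hAfin ENNReal.ofReal_ne_top).mpr hk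
  obtain ⟨δ, hδ⟩ : ∃ δ : ℝ, δ = ((k : ℝ) + 1)⁻¹ := ⟨_, rfl⟩
  have hδ0 : 0 < δ := by rw [hδ]; positivity
  have hev : ∀ᶠ n in atTop, ∫ v in Metric.ball (0 : V) ρ, g n v * |pab α β c d L ℓ a b v| <
      δ * (M / 2) := h.eventually (gt_mem_nhds (by positivity))
  obtain ⟨n, hn⟩ := hev.exists
  have hint : ∀ F : V → ℝ, Continuous F → IntegrableOn F (Metric.ball (0 : V) ρ) := fun F hF =>
    (hF.continuousOn.integrableOn_compact (isCompact_closedBall 0 ρ)).mono_set
      Metric.ball_subset_closedBall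
  have hi1 : IntegrableOn (fun v => g n v) (Metric.ball (0 : V) ρ) := hint _ (hg n).cont
  have hi2 : IntegrableOn (fun v => g n v * |pab α β c d L ℓ a b v|) (Metric.ball (0 : V) ρ) :=
    hint _ ((hg n).cont.mul hpc.abs)
  have hi3 : IntegrableOn (fun v => (A k).indicator (fun _ => (1 : ℝ)) v)
      (Metric.ball (0 : V) ρ) := by
    have : Integrable (fun v => (A k).indicator (fun _ => (1 : ℝ)) v) :=
      (integrable_indicator_iff (hAm k)).mpr (integrableOn_const hAfin)
    exact this.integrableOn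
  have hle : ∫ v in Metric.ball (0 : V) ρ, g n v ≤
      ∫ v in Metric.ball (0 : V) ρ, ((A k).indicator (fun _ => (1 : ℝ)) v +
        δ⁻¹ * (g n v * |pab α β c d L ℓ a b v|)) := by
    refine setIntegral_mono_on hi1 (hi3.add (hi2.const_mul _)) measurableSet_ball ?_
    intro w hw
    by_cases hwA : w ∈ A k
    · rw [Set.indicator_of_mem hwA]
      have h1 := (hg n).le_one w
      have h2 : 0 ≤ δ⁻¹ * (g n w * |pab α β c d L ℓ a b w|) :=
        mul_nonneg (inv_nonneg.mpr hδ0.le) (mul_nonneg ((hg n).nonneg w) (abs_nonneg _))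
      linarith
    · rw [Set.indicator_of_notMem hwA, zero_add]
      have h1 : δ < |pab α β c d L ℓ a b w| := by
        rw [hA] at hwA
        by_contra hcon
        push Not at hcon
        exact hwA ⟨hw, by rw [← hδ]; exact hcon⟩
      have h2 : g n w = δ⁻¹ * (g n w * δ) := by
        field_simp
      conv_lhs => rw [h2]
      exact mul_le_mul_of_nonneg_left (mul_le_mul_of_nonneg_left h1.le ((hg n).nonneg w))
        (inv_nonneg.mpr hδ0.le)
  rw [integral_add hi3 (hi2.const_mul _), integral_const_mul] at hle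
  have hind : ∫ v in Metric.ball (0 : V) ρ, (A k).indicator (fun _ => (1 : ℝ)) v =
      (volume (A k)).toReal := by
    rw [setIntegral_indicator (hAm k)]
    have : Metric.ball (0 : V) ρ ∩ A k = A k := by
      rw [Set.inter_eq_right, hA]
      exact Set.inter_subset_left
    rw [this, setIntegral_const, smul_eq_mul, mul_one]
    rfl
  rw [hind] at hle
  have h3 : δ⁻¹ * ∫ v in Metric.ball (0 : V) ρ, g n v * |pab α β c d L ℓ a b v| < M / 2 := by
    rw [inv_mul_lt_iff₀ hδ0]
    exact hn
  have h4 := hmass n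
  linarith

theorem scalar_of_pab (α : ℝ) (β c ℓ : Fin 3 → ℝ) (d L : Fin 3 → Fin 3 → ℝ) (hα : 0 < α)
    (h : ∀ a b v, pab α β c d L ℓ a b v = 0) :
    ∃ μ : ℝ, ∀ a b, L a b = if a = b then μ else 0 := by
  have hq : ∀ (a b : Fin 3) (v : V), v a * (∑ j, L b j * v j) - v b * (∑ j, L a j * v j) = 0 := by
    intro a b v
    have h1 := h a b v
    have h2 := h a b (-v)
    have h3 := h a b 0
    unfold pab at h1 h2 h3
    simp only [PiLp.neg_apply, PiLp.zero_apply, Fin.sum_univ_three] at h1 h2 h3 ⊢
    have h4 : α * (v a * (L b 0 * v 0 + L b 1 * v 1 + L b 2 * v 2) -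
        v b * (L a 0 * v 0 + L a 1 * v 1 + L a 2 * v 2)) = 0 := by
      linear_combination (1 / 2) * h1 + (1 / 2) * h2 - h3
    rcases mul_eq_zero.mp h4 with h5 | h5
    · exact absurd h5 hα.ne'
    · exact h5
  have hoff : ∀ a b : Fin 3, a ≠ b → L b a = 0 := by
    intro a b hab
    have h1 := hq a b (EuclideanSpace.single a 1)
    simpa [hab.symm, hab] using h1
  have hdiag : ∀ a b : Fin 3, a ≠ b → L b b = L a a := by
    intro a b hab
    have h1 := hq a b (EuclideanSpace.single a 1 + EuclideanSpace.single b 1)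
    have h2 := hoff a b hab
    have h3 := hoff b a hab.symm
    simp [hab.symm, hab, mul_add, Finset.sum_add_distrib, h2, h3] at h1
    linarith
  refine ⟨L 0 0, fun a b => ?_⟩
  by_cases hab : a = b
  · subst hab
    rw [if_pos rfl]
    by_cases h0 : (0 : Fin 3) = a
    · rw [← h0]
    · exact hdiag 0 a h0
  · rw [if_neg hab]
    exact hoff b a (fun h => hab h.symm)

end Pool.Agent.Landau
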