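import Pool.Agent.Landau.Base

/-!
# Landau, module Poin: a Poincare inequality on balls

`|F x - F y| ≤ ∫_0^1 |∇F (x + s (y - x))| ‖y - x‖ ds ≤ 2 ρ ∫_0^1 N ((1 - s) x + s y) ds`, where
`N = ∑_b |∂_b F|` (the norm of the differential is at most `N`; `‖y - x‖ ≤ 2 ρ`).  Integrate over `x, y` in the
ball `B` (convex) and use Tonelli (lintegral).  For `s ≤ 1/2` substitute `x' = (1 - s) x + s y` for fixed `y`, the
Jacobian is `(1 - s)³ ≥ 1/8` (`MeasureTheory.Measure.addHaar_preimage_smul` or
`MeasureTheory.Measure.setIntegral_comp_smul`, `integral_comp_smul`), so the integral over `x` is at most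
`8 ∫_B N`; for `s ≥ 1/2` interchange the roles of `x` and `y`.  Total: `C = 16 ρ volume(B)`.
-/

set_option autoImplicit false

namespace Pool.Agent.Landau

open MeasureTheory Set Filter Topology

namespace PoinAux

/-- sum of the absolute values of the partial derivatives -/
noncomputable def NN (F : V → ℝ) (z : V) : ℝ := ∑ b : Fin 3, |pd b F z|

theorem NN_nonneg (F : V → ℝ) (z : V) : 0 ≤ NN F z := Finset.sum_nonneg fun _ _ => abs_nonneg _

theorem NN_cont {F : V → ℝ} (hF : ContDiff ℝ 1 F) : Continuous (NN F) := by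
  unfold NN
  exact continuous_finsetSum _ fun b _ => (continuous_pd hF b).abs

theorem fderiv_le (F : V → ℝ) (z v : V) : |fderiv ℝ F z v| ≤ ‖v‖ * NN F z := by
  have hv : v = ∑ i : Fin 3, v i • EuclideanSpace.single i (1 : ℝ) := by
    ext j
    simp [Pi.single_apply]
  have h1 : fderiv ℝ F z v = ∑ i : Fin 3, v i * pd i F z := by
    conv_lhs => rw [hv]
    rw [map_sum]
    refine Finset.sum_congr rfl fun i _ => ?_
    rw [map_smul]
    rfl
  rw [h1]
  calc |∑ i : Fin 3, v i * pd i F z| ≤ ∑ i : Fin 3, |v i * pd i F z| :=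
        Finset.abs_sum_le_sum_abs _ _
    _ ≤ ∑ i : Fin 3, ‖v‖ * |pd i F z| := by
        refine Finset.sum_le_sum fun i _ => ?_
        rw [abs_mul]
        exact mul_le_mul_of_nonneg_right (Cls.abs_coord v i) (abs_nonneg _)
    _ = ‖v‖ * NN F z := by rw [NN, Finset.mul_sum]

theorem seg_cont {F : V → ℝ} (hF : ContDiff ℝ 1 F) (x y : V) :
    Continuous fun s : ℝ => NN F (x + s • (y - x)) :=
  (NN_cont hF).comp (by fun_prop)

theorem diff_le {F : V → ℝ} (hF : ContDiff ℝ 1 F) (x y : V) :
    |F x - F y| ≤ ∫ s in (0 : ℝ)..1, ‖y - x‖ * NN F (x + s • (y - x)) := by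
  have hd : ∀ s ∈ uIcc (0 : ℝ) 1, HasDerivAt (fun s : ℝ => F (x + s • (y - x)))
      (fderiv ℝ F (x + s • (y - x)) (y - x)) s := by
    intro s _
    have h1 : HasDerivAt (fun s : ℝ => x + s • (y - x)) (y - x) s := by
      simpa using ((hasDerivAt_id s).smul_const (y - x)).const_add x
    exact ((hF.differentiable (by norm_num)) _).hasFDerivAt.comp_hasDerivAt s h1
  have hc : Continuous fun s : ℝ => fderiv ℝ F (x + s • (y - x)) (y - x) := by
    have h2 : Continuous fun s : ℝ => fderiv ℝ F (x + s • (y - x)) :=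
      (hF.continuous_fderiv (by norm_num)).comp (by fun_prop)
    exact h2.clm_apply continuous_const
  have h3 := intervalIntegral.integral_eq_sub_of_hasDerivAt hd (hc.intervalIntegrable 0 1)
  simp only [one_smul, zero_smul, add_zero, add_sub_cancel] at h3
  rw [abs_sub_comm, ← h3, ← Real.norm_eq_abs]
  refine (intervalIntegral.norm_integral_le_integral_norm zero_le_one).trans ?_
  refine intervalIntegral.integral_mono_on zero_le_one (hc.norm.intervalIntegrable 0 1)
    ((continuous_const.mul (seg_cont hF x y)).intervalIntegrable 0 1) ?_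
  intro s _
  rw [Real.norm_eq_abs]
  exact fderiv_le F _ _

theorem diff_lint {F : V → ℝ} (hF : ContDiff ℝ 1 F) {ρ : ℝ} {x y : V}
    (hx : x ∈ Metric.ball (0 : V) ρ) (hy : y ∈ Metric.ball (0 : V) ρ) :
    ENNReal.ofReal |F x - F y| ≤ ENNReal.ofReal (2 * ρ) *
      ∫⁻ s in Ioc (0 : ℝ) 1, ENNReal.ofReal (NN F (x + s • (y - x))) := by
  have hx' : ‖x‖ < ρ := by simpa using hx
  have hy' : ‖y‖ < ρ := by simpa using hy
  have hρ : 0 < ρ := lt_of_le_of_lt (norm_nonneg x) hx'
  have h1 : ‖y - x‖ ≤ 2 * ρ := (norm_sub_le y x).trans (by linarith)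
  have h2 := diff_le hF x y
  rw [intervalIntegral.integral_const_mul, intervalIntegral.integral_of_le zero_le_one] at h2
  have h3 : 0 ≤ ∫ s in Ioc (0 : ℝ) 1, NN F (x + s • (y - x)) :=
    integral_nonneg fun s => NN_nonneg F _
  have h4 : |F x - F y| ≤ (2 * ρ) * ∫ s in Ioc (0 : ℝ) 1, NN F (x + s • (y - x)) :=
    h2.trans (mul_le_mul_of_nonneg_right h1 h3)
  refine (ENNReal.ofReal_le_ofReal h4).trans ?_
  rw [ENNReal.ofReal_mul (by positivity), ofReal_integral_eq_lintegral_ofReal]
  · exact ((seg_cont hF x y).continuousOn.integrableOn_compact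
      (isCompact_Icc (a := (0 : ℝ)) (b := 1))).mono_set Ioc_subset_Icc_self
  · exact Eventually.of_forall fun s => NN_nonneg F _

theorem scale_le (n : V → ENNReal) (hn : Measurable n) {B : Set V} (hB : MeasurableSet B) (c : ℝ)
    (hc : 1 / 2 ≤ c) (w : V) (h : ∀ x ∈ B, c • x + w ∈ B) :
    ∫⁻ x in B, n (c • x + w) ≤ 8 * ∫⁻ x in B, n x := by
  have hc0 : c ≠ 0 := by linarith
  have hc1 : 0 < c := by linarith
  have hg : Measurable (B.indicator n) := hn.indicator hB
  calc ∫⁻ x in B, n (c • x + w) ≤ ∫⁻ x in B, B.indicator n (c • x + w) := by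
        refine setLIntegral_mono' hB ?_
        intro x hx
        rw [indicator_of_mem (h x hx)]
    _ ≤ ∫⁻ x, B.indicator n (c • x + w) := setLIntegral_le_lintegral _ _
    _ = ∫⁻ x, B.indicator n (x + w) ∂(Measure.map (fun x : V => c • x) volume) := by
        have hg2 : Measurable fun x : V => B.indicator n (x + w) :=
          hg.comp (measurable_id.add_const w)
        exact (lintegral_map hg2 (measurable_const_smul c)).symm
    _ = ENNReal.ofReal |(c ^ Module.finrank ℝ V)⁻¹| * ∫⁻ x, B.indicator n (x + w) := by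
        rw [Measure.map_addHaar_smul volume hc0, lintegral_smul_measure, smul_eq_mul]
    _ = ENNReal.ofReal |(c ^ Module.finrank ℝ V)⁻¹| * ∫⁻ x in B, n x := by
        rw [lintegral_add_right_eq_self (μ := (volume : Measure V)) (B.indicator n) w,
          lintegral_indicator hB]
    _ ≤ 8 * ∫⁻ x in B, n x := by
        refine mul_le_mul_left ?_ _
        have h3 : Module.finrank ℝ V = 3 := finrank_euclideanSpace_fin
        rw [h3, abs_of_pos (by positivity)]
        have h4 : (c ^ 3)⁻¹ ≤ 8 := by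
          rw [inv_le_comm₀ (by positivity) (by norm_num)]
          have h5 : ((1 : ℝ) / 2) ^ 3 ≤ c ^ 3 := pow_le_pow_left₀ (by norm_num) hc 3
          norm_num at h5 ⊢
          exact h5
        calc ENNReal.ofReal (c ^ 3)⁻¹ ≤ ENNReal.ofReal 8 := ENNReal.ofReal_le_ofReal h4
          _ = 8 := by norm_num

theorem conv_mem {ρ : ℝ} {x y : V} (hx : x ∈ Metric.ball (0 : V) ρ)
    (hy : y ∈ Metric.ball (0 : V) ρ) {s : ℝ} (h0 : 0 ≤ s) (h1 : s ≤ 1) :
    x + s • (y - x) ∈ Metric.ball (0 : V) ρ := by
  have h := (convex_ball (0 : V) ρ) hx hy (a := 1 - s) (b := s) (by linarith) h0 (by ring)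
  have h2 : x + s • (y - x) = (1 - s) • x + s • y := by
    rw [smul_sub, sub_smul, one_smul]
    abel
  rw [h2]
  exact h

theorem slice_le (n : V → ENNReal) (hn : Measurable n) (ρ s : ℝ) (h0 : 0 ≤ s) (h1 : s ≤ 1) :
    ∫⁻ x in Metric.ball (0 : V) ρ, ∫⁻ y in Metric.ball (0 : V) ρ, n (x + s • (y - x)) ≤
      8 * (∫⁻ x in Metric.ball (0 : V) ρ, n x) * volume (Metric.ball (0 : V) ρ) := by
  have hB : MeasurableSet (Metric.ball (0 : V) ρ) := measurableSet_ball
  rcases le_total s (1 / 2) with hs | hs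
  · rw [lintegral_lintegral_swap]
    · calc ∫⁻ y in Metric.ball (0 : V) ρ, ∫⁻ x in Metric.ball (0 : V) ρ, n (x + s • (y - x)) ≤
            ∫⁻ y in Metric.ball (0 : V) ρ, 8 * ∫⁻ x in Metric.ball (0 : V) ρ, n x := by
            refine setLIntegral_mono' hB ?_
            intro y hy
            have h := scale_le n hn hB (1 - s) (by linarith) (s • y) ?_
            · refine le_trans (le_of_eq ?_) h
              refine lintegral_congr fun x => ?_
              congr 1
              rw [smul_sub, sub_smul, one_smul]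
              abel
            · intro x hx
              have h2 := conv_mem hx hy h0 h1
              have h3 : (1 - s) • x + s • y = x + s • (y - x) := by
                rw [smul_sub, sub_smul, one_smul]
                abel
              rw [h3]
              exact h2
        _ = 8 * (∫⁻ x in Metric.ball (0 : V) ρ, n x) * volume (Metric.ball (0 : V) ρ) := by
            rw [setLIntegral_const]
    · have hm : Measurable fun p : V × V => n (p.1 + s • (p.2 - p.1)) :=
        hn.comp (by fun_prop)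
      exact hm.aemeasurable
  · calc ∫⁻ x in Metric.ball (0 : V) ρ, ∫⁻ y in Metric.ball (0 : V) ρ, n (x + s • (y - x)) ≤
          ∫⁻ x in Metric.ball (0 : V) ρ, 8 * ∫⁻ y in Metric.ball (0 : V) ρ, n y := by
          refine setLIntegral_mono' hB ?_
          intro x hx
          have h := scale_le n hn hB s hs ((1 - s) • x) ?_
          · refine le_trans (le_of_eq ?_) h
            refine lintegral_congr fun y => ?_
            congr 1
            rw [smul_sub, sub_smul, one_smul]
            abel
          · intro y hy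
            have h2 := conv_mem hx hy h0 h1
            have h3 : s • y + (1 - s) • x = x + s • (y - x) := by
              rw [smul_sub, sub_smul, one_smul]
              abel
            rw [h3]
            exact h2
      _ = 8 * (∫⁻ x in Metric.ball (0 : V) ρ, n x) * volume (Metric.ball (0 : V) ρ) := by
          rw [setLIntegral_const]

theorem main_lint {F : V → ℝ} (hF : ContDiff ℝ 1 F) (ρ : ℝ) :
    ∫⁻ x in Metric.ball (0 : V) ρ, ∫⁻ y in Metric.ball (0 : V) ρ, ENNReal.ofReal |F x - F y| ≤
      ENNReal.ofReal (2 * ρ) * (8 * (∫⁻ x in Metric.ball (0 : V) ρ, ENNReal.ofReal (NN F x)) *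
        volume (Metric.ball (0 : V) ρ)) := by
  have hB : MeasurableSet (Metric.ball (0 : V) ρ) := measurableSet_ball
  have hn : Measurable fun z => ENNReal.ofReal (NN F z) := (NN_cont hF).measurable.ennreal_ofReal
  have hm3 : Measurable fun p : (V × V) × ℝ =>
      ENNReal.ofReal (NN F (p.1.1 + p.2 • (p.1.2 - p.1.1))) := hn.comp (by fun_prop)
  calc ∫⁻ x in Metric.ball (0 : V) ρ, ∫⁻ y in Metric.ball (0 : V) ρ, ENNReal.ofReal |F x - F y| ≤
        ∫⁻ x in Metric.ball (0 : V) ρ, ∫⁻ y in Metric.ball (0 : V) ρ, ENNReal.ofReal (2 * ρ) *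
          ∫⁻ s in Ioc (0 : ℝ) 1, ENNReal.ofReal (NN F (x + s • (y - x))) := by
        refine setLIntegral_mono' hB fun x hx => setLIntegral_mono' hB fun y hy => ?_
        exact diff_lint hF hx hy
    _ = ENNReal.ofReal (2 * ρ) * ∫⁻ x in Metric.ball (0 : V) ρ, ∫⁻ y in Metric.ball (0 : V) ρ,
          ∫⁻ s in Ioc (0 : ℝ) 1, ENNReal.ofReal (NN F (x + s • (y - x))) := by
        rw [← lintegral_const_mul' _ _ ENNReal.ofReal_ne_top]
        refine lintegral_congr fun x => ?_
        rw [← lintegral_const_mul' _ _ ENNReal.ofReal_ne_top]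
    _ = ENNReal.ofReal (2 * ρ) * ∫⁻ s in Ioc (0 : ℝ) 1, ∫⁻ x in Metric.ball (0 : V) ρ,
          ∫⁻ y in Metric.ball (0 : V) ρ, ENNReal.ofReal (NN F (x + s • (y - x))) := by
        congr 1
        have h1 : ∀ x : V, ∫⁻ y in Metric.ball (0 : V) ρ,
            ∫⁻ s in Ioc (0 : ℝ) 1, ENNReal.ofReal (NN F (x + s • (y - x))) =
            ∫⁻ s in Ioc (0 : ℝ) 1, ∫⁻ y in Metric.ball (0 : V) ρ,
            ENNReal.ofReal (NN F (x + s • (y - x))) := by
          intro x
          refine lintegral_lintegral_swap ?_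
          have hm : Measurable fun p : V × ℝ =>
              ENNReal.ofReal (NN F (x + p.2 • (p.1 - x))) := hn.comp (by fun_prop)
          exact hm.aemeasurable
        rw [lintegral_congr h1]
        refine lintegral_lintegral_swap ?_
        have hm : Measurable fun p : V × ℝ => ∫⁻ y in Metric.ball (0 : V) ρ,
            ENNReal.ofReal (NN F (p.1 + p.2 • (y - p.1))) := by
          refine Measurable.lintegral_prod_right' (f := fun q : (V × ℝ) × V =>
            ENNReal.ofReal (NN F (q.1.1 + q.1.2 • (q.2 - q.1.1)))) ?_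
          exact hn.comp (by fun_prop)
        exact hm.aemeasurable
    _ ≤ ENNReal.ofReal (2 * ρ) * ∫⁻ s in Ioc (0 : ℝ) 1, (8 * (∫⁻ x in Metric.ball (0 : V) ρ,
          ENNReal.ofReal (NN F x)) * volume (Metric.ball (0 : V) ρ)) := by
        refine mul_le_mul_right ?_ _
        refine setLIntegral_mono' measurableSet_Ioc fun s hs => ?_
        exact slice_le _ hn ρ s hs.1.le hs.2
    _ = _ := by
        rw [setLIntegral_const, Real.volume_Ioc]
        simp

end PoinAux

theorem poincare (ρ : ℝ) (hρ : 0 < ρ) : ∃ C : ℝ, 0 < C ∧ ∀ F : V → ℝ, ContDiff ℝ 1 F →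
    ∫ x in Metric.ball (0 : V) ρ, ∫ y in Metric.ball (0 : V) ρ, |F x - F y| ≤
      C * ∑ b : Fin 3, ∫ x in Metric.ball (0 : V) ρ, |pd b F x| := by
  have hv0 : 0 < (volume (Metric.ball (0 : V) ρ)).toReal :=
    ENNReal.toReal_pos (Metric.measure_ball_pos volume 0 hρ).ne' measure_ball_lt_top.ne
  refine ⟨16 * ρ * (volume (Metric.ball (0 : V) ρ)).toReal, by positivity, ?_⟩
  intro F hF
  have hcomp : IsCompact (Metric.closedBall (0 : V) ρ) := isCompact_closedBall 0 ρ
  have hint : ∀ G : V → ℝ, Continuous G → IntegrableOn G (Metric.ball (0 : V) ρ) := fun G hG =>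
    (hG.continuousOn.integrableOn_compact hcomp).mono_set Metric.ball_subset_closedBall
  have hN : ∑ b : Fin 3, ∫ x in Metric.ball (0 : V) ρ, |pd b F x| =
      ∫ x in Metric.ball (0 : V) ρ, PoinAux.NN F x := by
    unfold PoinAux.NN
    rw [integral_finsetSum]
    intro b _
    exact hint _ (continuous_pd hF b).abs
  have hFc : Continuous F := hF.continuous
  have hin : ∀ x : V, ENNReal.ofReal (∫ y in Metric.ball (0 : V) ρ, |F x - F y|) =
      ∫⁻ y in Metric.ball (0 : V) ρ, ENNReal.ofReal |F x - F y| := by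
    intro x
    refine ofReal_integral_eq_lintegral_ofReal (hint _ (by fun_prop)) ?_
    exact Eventually.of_forall fun y => abs_nonneg _
  have hmeas : Measurable fun x : V => ∫ y in Metric.ball (0 : V) ρ, |F x - F y| := by
    have h1 : Continuous fun p : V × V => |F p.1 - F p.2| := by fun_prop
    exact (h1.measurable.stronglyMeasurable.integral_prod_right').measurable
  have hL : ∫ x in Metric.ball (0 : V) ρ, ∫ y in Metric.ball (0 : V) ρ, |F x - F y| =
      (∫⁻ x in Metric.ball (0 : V) ρ, ∫⁻ y in Metric.ball (0 : V) ρ,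
        ENNReal.ofReal |F x - F y|).toReal := by
    rw [integral_eq_lintegral_of_nonneg_ae]
    · congr 1
      exact lintegral_congr hin
    · exact Eventually.of_forall fun x => integral_nonneg fun y => abs_nonneg _
    · exact hmeas.aestronglyMeasurable
  have hR : ∫ x in Metric.ball (0 : V) ρ, PoinAux.NN F x =
      (∫⁻ x in Metric.ball (0 : V) ρ, ENNReal.ofReal (PoinAux.NN F x)).toReal := by
    rw [integral_eq_lintegral_of_nonneg_ae]
    · exact Eventually.of_forall fun x => PoinAux.NN_nonneg F x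
    · exact (PoinAux.NN_cont hF).aestronglyMeasurable
  have hfin : ∫⁻ x in Metric.ball (0 : V) ρ, ENNReal.ofReal (PoinAux.NN F x) ≠ ⊤ := by
    rw [← ofReal_integral_eq_lintegral_ofReal (hint _ (PoinAux.NN_cont hF))
      (Eventually.of_forall fun x => PoinAux.NN_nonneg F x)]
    exact ENNReal.ofReal_ne_top
  have hvt : volume (Metric.ball (0 : V) ρ) ≠ ⊤ := measure_ball_lt_top.ne
  rw [hL, hN, hR]
  have hmain := ENNReal.toReal_mono (ENNReal.mul_ne_top ENNReal.ofReal_ne_top
    (ENNReal.mul_ne_top (ENNReal.mul_ne_top (by norm_num) hfin) hvt)) (PoinAux.main_lint hF ρ)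
  refine hmain.trans (le_of_eq ?_)
  rw [ENNReal.toReal_mul, ENNReal.toReal_mul, ENNReal.toReal_mul, ENNReal.toReal_ofReal (by positivity)]
  have h8 : (8 : ENNReal).toReal = 8 := by norm_num
  rw [h8]
  ring

end Pool.Agent.Landau
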