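import Pool.Agent.Landau.Ident
import Pool.Agent.Landau.Null

/-!
# Landau, module Scalar: the limit of `∇ log g` along a sequence with vanishing entropy production

For large `n` (drop the others) `DD (g n) ≠ ⊤`, take the coefficients from `ident` and a subsequence along which
all of them converge (they are in a compact box; `IsCompact.tendsto_subseq` in a finite product of intervals):
`α_n → α ≥ M / 2`, `L_n → L`, and so on.  On the ball of radius `ρ` the polynomials `pab` (and `(L_n v + ℓ_n)_b`)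
converge uniformly, and `∫ g n ≤ m`, so with `(DD (g n)).toReal → 0`:
`∫_{‖v‖ < ρ} |∂_b g_n - g_n (L v + ℓ)_b| → 0` and `∫_{‖v‖ < ρ} g_n |pab α β ... | → 0` for every `ρ ≥ 1`.
For large `ρ` (`m / ρ² ≤ M / 2`, `Cls.tail`) `∫_{‖v‖ < ρ} g_n ≥ M / 2`, so `pab_zero` and `scalar_of_pab` apply:
`(L v + ℓ)_b = μ v_b + ℓ_b`.  For `ρ < 1` the statement follows from that for `ρ = 1` (monotonicity).
-/

set_option autoImplicit false

namespace Pool.Agent.Landau

open MeasureTheory Set Filter Topology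

namespace ScalarAux

/-- replacing convergent parameters by their limit -/
theorem conv_aux {T : Type*} [TopologicalSpace T] (F : T → V → ℝ)
    (hF : Continuous (Function.uncurry F)) (x : ℕ → T) (t : T) (hx : Tendsto x atTop (𝓝 t))
    (g : ℕ → V → ℝ) (hg : ∀ n, Cls (g n)) (m : ℝ) (hm : ∀ n, mass (g n) ≤ m)
    (G : ℕ → V → ℝ) (hG : ∀ n, Continuous (G n)) (ρ : ℝ)
    (h : Tendsto (fun n => ∫ v in Metric.ball (0 : V) ρ, |G n v - g n v * F (x n) v|)
      atTop (𝓝 0)) :
    Tendsto (fun n => ∫ v in Metric.ball (0 : V) ρ, |G n v - g n v * F t v|) atTop (𝓝 0) := by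
  have hint : ∀ f : V → ℝ, Continuous f → IntegrableOn f (Metric.ball (0 : V) ρ) := fun f hf =>
    (hf.continuousOn.integrableOn_compact (isCompact_closedBall 0 ρ)).mono_set
      Metric.ball_subset_closedBall
  have hFc : ∀ p : T, Continuous (F p) := fun p => by
    have : F p = fun v => Function.uncurry F (p, v) := rfl
    rw [this]
    exact hF.comp (by fun_prop)
  have h2 : Tendsto (fun n => ∫ v in Metric.ball (0 : V) ρ, g n v * |F (x n) v - F t v|)
      atTop (𝓝 0) := by
    rw [Metric.tendsto_atTop]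
    intro ε hε
    have hδ : 0 < ε / (|m| + 1) := by positivity
    obtain ⟨U, hU, hU2⟩ := (isCompact_closedBall (0 : V) ρ).mem_uniformity_of_prod
      (f := F) (s := univ) (q := t) hF.continuousOn (mem_univ t) (Metric.dist_mem_uniformity hδ)
    rw [nhdsWithin_univ] at hU
    obtain ⟨N, hN⟩ := eventually_atTop.mp (hx.eventually hU)
    refine ⟨N, fun n hn => ?_⟩
    have h3 := hU2 (x n) (hN n hn)
    have h4 : ∫ v in Metric.ball (0 : V) ρ, g n v * |F (x n) v - F t v| ≤
        ∫ v in Metric.ball (0 : V) ρ, g n v * (ε / (|m| + 1)) := by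
      refine setIntegral_mono_on (hint _ ((hg n).cont.mul (((hFc _).sub (hFc _)).abs)))
        (hint _ ((hg n).cont.mul continuous_const)) measurableSet_ball (fun v hv => ?_)
      refine mul_le_mul_of_nonneg_left ?_ ((hg n).nonneg v)
      have h5 : dist (F (x n) v) (F t v) < ε / (|m| + 1) :=
        h3 v (Metric.ball_subset_closedBall hv)
      rw [Real.dist_eq] at h5
      exact h5.le
    have h6 : ∫ v in Metric.ball (0 : V) ρ, g n v ≤ m := by
      refine le_trans (setIntegral_le_integral (hg n).int_g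
        (Eventually.of_forall fun v => (hg n).nonneg v)) (hm n)
    have h7 : 0 ≤ ∫ v in Metric.ball (0 : V) ρ, g n v * |F (x n) v - F t v| :=
      integral_nonneg fun v => mul_nonneg ((hg n).nonneg v) (abs_nonneg _)
    rw [integral_mul_const] at h4
    rw [Real.dist_eq, sub_zero, abs_of_nonneg h7]
    calc ∫ v in Metric.ball (0 : V) ρ, g n v * |F (x n) v - F t v|
        ≤ (∫ v in Metric.ball (0 : V) ρ, g n v) * (ε / (|m| + 1)) := h4
      _ ≤ |m| * (ε / (|m| + 1)) :=
          mul_le_mul_of_nonneg_right (h6.trans (le_abs_self m)) hδ.le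
      _ < (|m| + 1) * (ε / (|m| + 1)) := by
          refine mul_lt_mul_of_pos_right (by linarith) hδ
      _ = ε := by field_simp
  refine squeeze_zero (fun n => integral_nonneg fun v => abs_nonneg _) (fun n => ?_)
    (by simpa using h.add h2)
  have i1 : IntegrableOn (fun v => |G n v - g n v * F (x n) v|) (Metric.ball (0 : V) ρ) :=
    hint _ (((hG n).sub ((hg n).cont.mul (hFc _))).abs)
  have i2 : IntegrableOn (fun v => g n v * |F (x n) v - F t v|) (Metric.ball (0 : V) ρ) :=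
    hint _ ((hg n).cont.mul (((hFc _).sub (hFc _)).abs))
  rw [← integral_add i1 i2]
  refine setIntegral_mono_on (hint _ (((hG n).sub ((hg n).cont.mul (hFc _))).abs)) (i1.add i2)
    measurableSet_ball (fun v _ => ?_)
  have e : G n v - g n v * F t v = (G n v - g n v * F (x n) v) + g n v * (F (x n) v - F t v) := by
    ring
  rw [e]
  refine (abs_add_le _ _).trans (le_of_eq ?_)
  rw [abs_mul, abs_of_nonneg ((hg n).nonneg v)]

theorem tendsto_of_sq {I D : ℕ → ℝ} {K : ℝ} (hD : Tendsto D atTop (𝓝 0))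
    (h : ∀ n, I n ^ 2 ≤ K * D n) : Tendsto I atTop (𝓝 0) := by
  have h1 : Tendsto (fun n => I n ^ 2) atTop (𝓝 0) :=
    squeeze_zero (fun n => sq_nonneg _) h (by simpa using hD.const_mul K)
  have h2 := (Real.continuous_sqrt.tendsto 0).comp h1
  rw [Real.sqrt_zero] at h2
  rw [tendsto_zero_iff_abs_tendsto_zero]
  refine h2.congr fun n => ?_
  simp only [Function.comp_apply, Real.sqrt_sq_eq_abs]

end ScalarAux

open ScalarAux

theorem scalar_limit (M m : ℝ) (hM : 0 < M) (g : ℕ → V → ℝ) (hg : ∀ n, Cls (g n))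
    (hmass : ∀ n, M ≤ mass (g n)) (hm : ∀ n, mass (g n) + energy (g n) ≤ m)
    (hD : Tendsto (fun n => DD (g n)) atTop (𝓝 0)) :
    ∃ (s : ℕ → ℕ) (μ : ℝ) (ℓ : Fin 3 → ℝ), StrictMono s ∧ ∀ (ρ : ℝ) (b : Fin 3),
      Tendsto (fun n => ∫ v in Metric.ball (0 : V) ρ,
        |pd b (g (s n)) v - g (s n) v * (μ * v b + ℓ b)|) atTop (𝓝 0) := by
  classical
  obtain ⟨C, hC, hid⟩ := ident M m hM
  have henergy : ∀ n, 0 ≤ energy (g n) := fun n =>
    integral_nonneg fun v => mul_nonneg (sq_nonneg _) ((hg n).nonneg v)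
  have hmassm : ∀ n, mass (g n) ≤ m := fun n => by linarith [hm n, henergy n]
  have hmpos : 0 < m := by linarith [hmass 0, hmassm 0]
  obtain ⟨N, hN⟩ : ∃ N, ∀ n, N ≤ n → DD (g n) ≠ ⊤ := by
    have := hD.eventually (gt_mem_nhds (show (0 : ENNReal) < 1 by norm_num))
    obtain ⟨N, hN⟩ := eventually_atTop.mp this
    exact ⟨N, fun n hn => ((hN n hn).trans ENNReal.one_lt_top).ne⟩
  choose α β c ℓ d L hα1 hα2 hβ hc hℓ hd hL hest using fun n : ℕ =>
    hid (g (n + N)) (hg _) (hmass _) (hm _) (hN _ (Nat.le_add_left N n))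
  -- the tuple of all parameters
  obtain ⟨X, hX⟩ : ∃ X : ℕ → (ℝ × (Fin 3 → ℝ) × (Fin 3 → ℝ) × (Fin 3 → ℝ) ×
      (Fin 3 → Fin 3 → ℝ) × (Fin 3 → Fin 3 → ℝ)), ∀ n, X n = (α n, β n, c n, ℓ n, d n, L n) :=
    ⟨_, fun _ => rfl⟩
  have hXb : ∀ n, X n ∈ Metric.closedBall (0 : ℝ × (Fin 3 → ℝ) × (Fin 3 → ℝ) × (Fin 3 → ℝ) ×
      (Fin 3 → Fin 3 → ℝ) × (Fin 3 → Fin 3 → ℝ)) C := by
    intro n
    rw [mem_closedBall_zero_iff, hX, Prod.norm_mk, Prod.norm_mk, Prod.norm_mk, Prod.norm_mk,
      Prod.norm_mk]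
    refine max_le ?_ (max_le ?_ (max_le ?_ (max_le ?_ (max_le ?_ ?_))))
    · rw [Real.norm_eq_abs, abs_of_nonneg (by linarith [hα1 n])]
      exact hα2 n
    · exact (pi_norm_le_iff_of_nonneg hC.le).mpr fun a => hβ n a
    · exact (pi_norm_le_iff_of_nonneg hC.le).mpr fun a => hc n a
    · exact (pi_norm_le_iff_of_nonneg hC.le).mpr fun a => hℓ n a
    · exact (pi_norm_le_iff_of_nonneg hC.le).mpr fun a =>
        (pi_norm_le_iff_of_nonneg hC.le).mpr fun b => hd n a b
    · exact (pi_norm_le_iff_of_nonneg hC.le).mpr fun a =>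
        (pi_norm_le_iff_of_nonneg hC.le).mpr fun b => hL n a b
  obtain ⟨t, -, φ, hφ, hlim⟩ := (isCompact_closedBall _ C).tendsto_subseq hXb
  obtain ⟨α0, β0, c0, ℓ0, d0, L0⟩ := t
  have hs : StrictMono fun n => φ n + N := fun a b hab => by
    have := hφ hab
    show φ a + N < φ b + N
    omega
  -- the entropy production along the subsequence
  have hDr : Tendsto (fun n => (DD (g (φ n + N))).toReal) atTop (𝓝 0) := by
    have h1 := (ENNReal.tendsto_toReal ENNReal.zero_ne_top).comp (hD.comp hs.tendsto_atTop)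
    rw [ENNReal.toReal_zero] at h1
    exact h1
  -- the limits for large radii
  have hA : ∀ ρ : ℝ, 1 ≤ ρ → ∀ b : Fin 3,
      Tendsto (fun n => ∫ v in Metric.ball (0 : V) ρ,
        |pd b (g (φ n + N)) v - g (φ n + N) v * ((∑ j, L0 b j * v j) + ℓ0 b)|) atTop (𝓝 0) := by
    intro ρ hρ b
    refine conv_aux (T := ℝ × (Fin 3 → ℝ) × (Fin 3 → ℝ) × (Fin 3 → ℝ) ×
      (Fin 3 → Fin 3 → ℝ) × (Fin 3 → Fin 3 → ℝ))
      (fun p v => (∑ j, p.2.2.2.2.2 b j * v j) + p.2.2.2.1 b) ?_ (X ∘ φ) (α0, β0, c0, ℓ0, d0, L0)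
      hlim (fun n => g (φ n + N)) (fun n => hg _) m (fun n => hmassm _)
      (fun n => pd b (g (φ n + N)))
      (fun n => continuous_pd (contDiff_one_of_smooth (hg _).smooth) b) ρ ?_
    · unfold Function.uncurry
      fun_prop
    · refine tendsto_of_sq (K := C * ρ ^ 5) hDr fun n => ?_
      have h1 := (hest (φ n) ρ hρ).1 b
      simp only [Function.comp_apply, hX]
      exact h1
  have hB : ∀ ρ : ℝ, 1 ≤ ρ → ∀ a b : Fin 3,
      Tendsto (fun n => ∫ v in Metric.ball (0 : V) ρ,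
        g (φ n + N) v * |pab α0 β0 c0 d0 L0 ℓ0 a b v|) atTop (𝓝 0) := by
    intro ρ hρ a b
    have h1 := conv_aux (T := ℝ × (Fin 3 → ℝ) × (Fin 3 → ℝ) × (Fin 3 → ℝ) ×
      (Fin 3 → Fin 3 → ℝ) × (Fin 3 → Fin 3 → ℝ))
      (fun p v => pab p.1 p.2.1 p.2.2.1 p.2.2.2.2.1 p.2.2.2.2.2 p.2.2.2.1 a b v) ?_ (X ∘ φ)
      (α0, β0, c0, ℓ0, d0, L0)
      hlim (fun n => g (φ n + N)) (fun n => hg _) m (fun n => hmassm _)
      (fun n => fun _ => 0) (fun n => continuous_const) ρ ?_
    · refine h1.congr fun n => ?_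
      refine integral_congr_ae (Eventually.of_forall fun v => ?_)
      simp only [zero_sub, abs_neg, abs_mul, abs_of_nonneg ((hg (φ n + N)).nonneg v)]
    · unfold Function.uncurry pab
      fun_prop
    · refine tendsto_of_sq (K := C * ρ ^ 5) hDr fun n => ?_
      have h1 := (hest (φ n) ρ hρ).2 a b
      refine le_trans (le_of_eq ?_) h1
      congr 1
      refine integral_congr_ae (Eventually.of_forall fun v => ?_)
      simp only [Function.comp_apply, hX, zero_sub, abs_neg, abs_mul,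
        abs_of_nonneg ((hg (φ n + N)).nonneg v)]
  -- a radius with half of the mass
  obtain ⟨ρ0, hρ0, hρm⟩ : ∃ ρ0 : ℝ, 1 ≤ ρ0 ∧ m / ρ0 ^ 2 ≤ M / 2 := by
    refine ⟨1 + 2 * m / M, by have : 0 < 2 * m / M := by positivity
                              linarith, ?_⟩
    have h1 : 0 < 2 * m / M := by positivity
    have h2 : 2 * m / M ≤ (1 + 2 * m / M) ^ 2 := by nlinarith
    calc m / (1 + 2 * m / M) ^ 2 ≤ m / (2 * m / M) := by gcongr
      _ = M / 2 := by field_simp
  have hball : ∀ n, M / 2 ≤ ∫ v in Metric.ball (0 : V) ρ0, g n v := by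
    intro n
    have hcompl : (Metric.ball (0 : V) ρ0)ᶜ = {v : V | ρ0 ≤ ‖v‖} := by
      ext v
      simp
    have h1 := integral_add_compl (measurableSet_ball (x := (0 : V)) (ε := ρ0)) (hg n).int_g
    rw [hcompl] at h1
    have h2 := (hg n).tail (R := ρ0) (by linarith)
    have h3 : energy (g n) / ρ0 ^ 2 ≤ m / ρ0 ^ 2 := by
      have : energy (g n) ≤ m := by
        have h4 := hmass n
        linarith [hm n]
      gcongr
    have h5 := hmass n
    unfold mass at h5
    linarith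
  have hαpos : 0 < α0 := by
    have h1 : Tendsto (fun n => (X (φ n)).1) atTop (𝓝 α0) :=
      (continuous_fst.tendsto _).comp hlim
    have h2 : M / 2 ≤ α0 := ge_of_tendsto' h1 fun n => by
      rw [hX]
      exact hα1 _
    linarith
  obtain ⟨μ, hμ⟩ := scalar_of_pab α0 β0 c0 ℓ0 d0 L0 hαpos fun a b v =>
    pab_zero α0 β0 c0 ℓ0 d0 L0 a b (M / 2) ρ0 (by linarith) (fun n => g (φ n + N))
      (fun n => hg _) (fun n => hball _) (hB ρ0 hρ0 a b) v
  have hlin : ∀ (b : Fin 3) (v : V), (∑ j, L0 b j * v j) + ℓ0 b = μ * v b + ℓ0 b := by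
    intro b v
    simp only [hμ, ite_mul, zero_mul, Finset.sum_ite_eq, Finset.mem_univ, if_true]
  have hA' : ∀ ρ : ℝ, 1 ≤ ρ → ∀ b : Fin 3,
      Tendsto (fun n => ∫ v in Metric.ball (0 : V) ρ,
        |pd b (g (φ n + N)) v - g (φ n + N) v * (μ * v b + ℓ0 b)|) atTop (𝓝 0) := by
    intro ρ hρ b
    refine (hA ρ hρ b).congr fun n => ?_
    refine integral_congr_ae (Eventually.of_forall fun v => ?_)
    simp only [hlin]
  refine ⟨fun n => φ n + N, μ, ℓ0, hs, fun ρ b => ?_⟩
  rcases le_total 1 ρ with hρ | hρ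
  · exact hA' ρ hρ b
  · refine squeeze_zero (fun n => integral_nonneg fun v => abs_nonneg _) (fun n => ?_)
      (hA' 1 le_rfl b)
    have hcont : Continuous fun v : V =>
        |pd b (g (φ n + N)) v - g (φ n + N) v * (μ * v b + ℓ0 b)| := by
      have h1 := continuous_pd (contDiff_one_of_smooth (hg (φ n + N)).smooth) b
      have h2 := (hg (φ n + N)).cont
      fun_prop
    refine setIntegral_mono_set ?_ (Eventually.of_forall fun v => abs_nonneg _) ?_
    · exact (hcont.continuousOn.integrableOn_compact (isCompact_closedBall 0 1)).mono_set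
        Metric.ball_subset_closedBall
    · exact (Metric.ball_subset_ball hρ).eventuallyLE

end Pool.Agent.Landau
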