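import Pool.Agent.Landau.Final

/-!
# Landau, module ToSol: from the frozen form of the hypotheses to `Sol`, and the form of the answer
-/

set_option autoImplicit false

namespace Pool.Agent.Landau

open MeasureTheory Set Filter Topology

/-- the hypotheses in the form of the problem give a solution in the sense of `Sol` -/
theorem to_sol (f : ℝ → V → ℝ)
    (hs : ContDiffOn ℝ (⊤ : ℕ∞) (fun p : ℝ × V => f p.1 p.2) (Set.Iic (0 : ℝ) ×ˢ Set.univ))
    (h01 : ∀ t ≤ (0 : ℝ), ∀ v, 0 ≤ f t v ∧ f t v ≤ 1)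
    (hi : ∀ t < (0 : ℝ), Integrable (fun v => (1 + ‖v‖ ^ 2) * f t v))
    (hpde : ∀ t < (0 : ℝ), ∀ v, deriv (fun s => f s v) t = QL (f t) v) : Sol f := by
  have hsub : (Iio (0 : ℝ) ×ˢ (univ : Set V)) ⊆ Iic (0 : ℝ) ×ˢ univ :=
    prod_mono Iio_subset_Iic_self (subset_refl _)
  have hs' := hs.mono hsub
  have hopen : IsOpen (Iio (0 : ℝ) ×ˢ (univ : Set V)) := isOpen_Iio.prod isOpen_univ
  refine ⟨hs', fun t ht => ⟨?_, fun v => (h01 t ht.le v).1, fun v => (h01 t ht.le v).2, hi t ht⟩,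
    fun t ht v => ?_⟩
  · have h1 : ContDiff ℝ (⊤ : ℕ∞) (fun v : V => (t, v)) := by fun_prop
    have h2 : ContDiffOn ℝ (⊤ : ℕ∞) (fun v : V => f t v) univ :=
      hs'.comp (s := univ) h1.contDiffOn (fun v _ => ⟨ht, mem_univ _⟩)
    exact contDiffOn_univ.1 h2
  · have hat : ContDiffAt ℝ (⊤ : ℕ∞) (fun p : ℝ × V => f p.1 p.2) (t, v) :=
      hs'.contDiffAt (hopen.mem_nhds ⟨ht, mem_univ _⟩)
    have hd : DifferentiableAt ℝ (fun p : ℝ × V => f p.1 p.2) (t, v) :=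
      hat.differentiableAt (by simp)
    have hd1 : DifferentiableAt ℝ (fun s : ℝ => (s, v)) t := by fun_prop
    have hd2 : DifferentiableAt ℝ (fun s => f s v) t :=
      DifferentiableAt.comp (g := fun p : ℝ × V => f p.1 p.2) (f := fun s : ℝ => (s, v)) t hd hd1
    rw [← hpde t ht v]
    exact hd2.hasDerivAt

/-- the value at time zero -/
theorem at_zero (f : ℝ → V → ℝ)
    (hs : ContDiffOn ℝ (⊤ : ℕ∞) (fun p : ℝ × V => f p.1 p.2) (Set.Iic (0 : ℝ) ×ˢ Set.univ))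
    (G : V → ℝ) (h : ∀ t < 0, ∀ v, f t v = G v) : ∀ t ≤ 0, ∀ v, f t v = G v := by
  intro t ht v
  rcases ht.lt_or_eq with h0 | h0
  · exact h t h0 v
  subst h0
  have hc := hs.continuousOn (0, v) ⟨mem_Iic.2 le_rfl, mem_univ _⟩
  have h1 : Tendsto (fun s : ℝ => (s, v)) (𝓝[<] 0) (𝓝[Iic (0 : ℝ) ×ˢ univ] (0, v)) := by
    refine tendsto_nhdsWithin_iff.2 ⟨?_, ?_⟩
    · have : Continuous fun s : ℝ => (s, v) := by fun_prop
      exact this.continuousAt.tendsto.mono_left nhdsWithin_le_nhds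
    · filter_upwards [self_mem_nhdsWithin] with s hs
      exact ⟨mem_Iic.2 (le_of_lt (mem_Iio.1 hs)), mem_univ _⟩
  have h2 : Tendsto (fun s : ℝ => f s v) (𝓝[<] 0) (𝓝 (f 0 v)) := hc.tendsto.comp h1
  have h3 : Tendsto (fun s : ℝ => f s v) (𝓝[<] 0) (𝓝 (G v)) := by
    refine tendsto_const_nhds.congr' ?_
    filter_upwards [self_mem_nhdsWithin] with s hs
    exact (h s hs v).symm
  exact tendsto_nhds_unique h2 h3

theorem zero_of_mass (g : V → ℝ) (hg : Cls g) (h : mass g = 0) (v : V) : g v = 0 := by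
  have h1 : g =ᵐ[volume] 0 :=
    (integral_eq_zero_iff_of_nonneg hg.nonneg hg.int_g).1 h
  have h2 : g = fun _ => 0 := (hg.cont.ae_eq_iff_eq volume continuous_const).1 h1
  rw [h2]

/-- completing the square -/
theorem gauss_form (c μ : ℝ) (ℓ : Fin 3 → ℝ) (hc : 0 < c) (hμ : μ < 0) :
    ∃ ρ : ℝ, ∃ T : ℝ, ∃ u : V, 0 ≤ ρ ∧ 0 < T ∧
      ∀ v : V, c * Real.exp (quad μ ℓ v) = ρ * Real.exp (-(‖v - u‖ ^ 2) / (2 * T)) := by
  have hT : 0 < -(1 / μ) := by
    have := one_div_neg.2 hμ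
    linarith
  refine ⟨c * Real.exp (‖(WithLp.toLp 2 (fun i => -(1 / μ) * ℓ i) : V)‖ ^ 2 / (2 * (-(1 / μ)))),
    -(1 / μ), WithLp.toLp 2 (fun i => -(1 / μ) * ℓ i), by positivity, hT, fun v => ?_⟩
  rw [mul_assoc, ← Real.exp_add]
  congr 2
  unfold quad
  rw [EuclideanSpace.norm_sq_eq, EuclideanSpace.norm_sq_eq, EuclideanSpace.norm_sq_eq]
  simp only [Fin.sum_univ_three, PiLp.sub_apply, Real.norm_eq_abs, sq_abs]
  have : μ ≠ 0 := hμ.ne
  field_simp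
  ring

end Pool.Agent.Landau
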