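import Pool.Agent.Landau.Bars
import Pool.Agent.Landau.Defs2

/-!
# Landau, module Weak0: first weak form of the collision operator

`QL_loc`: `abar g i j` is bounded and (a.e. strongly) measurable, `pd i (pd j g)` and `g` are
continuous, `ζ` is continuous with compact support.

`QL_weak`: for every `i` use `bar_ibp_a` with `G = ζ * pd i g`, which gives
`∑_j ∫ abar_ij (∂_j ζ ∂_i g + ζ ∂_j ∂_i g) = - ∫ bbar_i ζ ∂_i g`, and `bar_ibp_b` with `G = ζ * g`,
which gives `∑_j ∫ bbar_j (∂_j ζ g + ζ ∂_j g) = ∫ ζ g²`.  Sum over `i`, use `abar_symm` (and rename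
`i`, `j`), and insert in the definition of `QL`.
-/

set_option autoImplicit false

namespace Pool.Agent.Landau

open MeasureTheory Set Filter Topology

theorem w0_int_a (g : V → ℝ) (hg : Cls g) (i j : Fin 3) (h : V → ℝ) (hh : Continuous h)
    (hc : HasCompactSupport h) : Integrable (fun v => abar g i j v * h v) := by
  refine Integrable.bdd_mul (c := 1 * (7 + ∫ w, g w)) (hh.integrable_of_hasCompactSupport hc)
    (abar_meas g hg.int_g i j) (Eventually.of_forall fun v => ?_)
  rw [Real.norm_eq_abs]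
  refine abar_bound g g hg.int_g hg.int_g hg.nonneg hg.le_one 1 zero_le_one (fun w => ?_) i j v
  rw [one_mul, abs_of_nonneg (hg.nonneg w)]

theorem w0_int_b (g : V → ℝ) (hg : Cls g) (i : Fin 3) (h : V → ℝ) (hh : Continuous h)
    (hc : HasCompactSupport h) : Integrable (fun v => bbar g i v * h v) := by
  refine Integrable.bdd_mul (c := 1 * (13 + ∫ w, g w)) (hh.integrable_of_hasCompactSupport hc)
    (bbar_meas g hg.int_g i) (Eventually.of_forall fun v => ?_)
  rw [Real.norm_eq_abs]
  refine bbar_bound g g hg.int_g hg.int_g hg.nonneg hg.le_one 1 zero_le_one (fun w => ?_) i v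
  rw [one_mul, abs_of_nonneg (hg.nonneg w)]

theorem w0_c1 {g : V → ℝ} (hg : Cls g) (i : Fin 3) : ContDiff ℝ 1 (pd i g) :=
  contDiff_one_of_smooth (smooth_pd hg.smooth i)

theorem w0_cpp {g : V → ℝ} (hg : Cls g) (i j : Fin 3) : Continuous (pd i (pd j g)) :=
  continuous_pd (w0_c1 hg j) i

theorem QL_meas (g : V → ℝ) (hg : Cls g) : AEStronglyMeasurable (QL g) volume := by
  have h1 : AEStronglyMeasurable (fun v => ∑ i : Fin 3, ∑ j : Fin 3,
      abar g i j v * pd i (pd j g) v) volume := by
    refine Finset.aestronglyMeasurable_fun_sum _ fun i _ => ?_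
    refine Finset.aestronglyMeasurable_fun_sum _ fun j _ => ?_
    exact (abar_meas g hg.int_g i j).mul (w0_cpp hg i j).aestronglyMeasurable
  exact h1.add (hg.cont.pow 2).aestronglyMeasurable

theorem w0_expand (g ζ : V → ℝ) : (fun v => ζ v * QL g v) = fun v =>
    (∑ i : Fin 3, ∑ j : Fin 3, abar g i j v * (ζ v * pd i (pd j g) v)) + ζ v * g v ^ 2 := by
  funext v
  unfold QL
  rw [mul_add, Finset.mul_sum]
  congr 1
  refine Finset.sum_congr rfl fun i _ => ?_
  rw [Finset.mul_sum]
  refine Finset.sum_congr rfl fun j _ => ?_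
  ring

theorem QL_loc (g : V → ℝ) (hg : Cls g) (ζ : V → ℝ) (hζ : Continuous ζ) (hc : HasCompactSupport ζ) :
    Integrable (fun v => ζ v * QL g v) := by
  rw [w0_expand]
  refine Integrable.add ?_ ?_
  · refine integrable_finsetSum _ fun i _ => ?_
    refine integrable_finsetSum _ fun j _ => ?_
    exact w0_int_a g hg i j _ (hζ.mul (w0_cpp hg i j)) hc.mul_right
  · exact (hζ.mul (hg.cont.pow 2)).integrable_of_hasCompactSupport hc.mul_right

theorem QL_weak (g : V → ℝ) (hg : Cls g) (ζ : V → ℝ) (hζ : ContDiff ℝ 1 ζ)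
    (hc : HasCompactSupport ζ) :
    ∫ v, ζ v * QL g v =
      -(∑ i : Fin 3, ∑ j : Fin 3, ∫ v, abar g i j v * (pd i ζ v * pd j g v)) +
        ∑ i : Fin 3, ∫ v, bbar g i v * (g v * pd i ζ v) := by
  have hbd : ∀ v, |g v| ≤ 1 := fun v => by
    rw [abs_of_nonneg (hg.nonneg v)]
    exact hg.le_one v
  have hg1 : ContDiff ℝ 1 g := contDiff_one_of_smooth hg.smooth
  have hζd : ∀ v, DifferentiableAt ℝ ζ v := fun v => hζ.differentiable (by norm_num) v
  have hgd : ∀ v, DifferentiableAt ℝ g v := fun v => hg1.differentiable (by norm_num) v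
  have hcz : ∀ i, Continuous (pd i ζ) := fun i => continuous_pd hζ i
  have hcg : ∀ i, Continuous (pd i g) := fun i => continuous_pd hg1 i
  -- the three families of integrable functions
  have I1 : ∀ i j, Integrable (fun v => abar g i j v * (ζ v * pd i (pd j g) v)) := fun i j =>
    w0_int_a g hg i j _ (hζ.continuous.mul (w0_cpp hg i j)) hc.mul_right
  have I1' : ∀ i j, Integrable (fun v => abar g i j v * (ζ v * pd j (pd i g) v)) := fun i j =>
    w0_int_a g hg i j _ (hζ.continuous.mul (w0_cpp hg j i)) hc.mul_right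
  have I2 : ∀ i j, Integrable (fun v => abar g i j v * (pd j ζ v * pd i g v)) := fun i j =>
    w0_int_a g hg i j _ ((hcz j).mul (hcg i)) (compact_pd hc j).mul_right
  have I3 : ∀ i, Integrable (fun v => bbar g i v * (ζ v * pd i g v)) := fun i =>
    w0_int_b g hg i _ (hζ.continuous.mul (hcg i)) hc.mul_right
  have I4 : ∀ i, Integrable (fun v => bbar g i v * (g v * pd i ζ v)) := fun i =>
    w0_int_b g hg i _ (hg.cont.mul (hcz i)) (compact_pd hc i).mul_left
  have E0 : ∫ v, ζ v * QL g v = (∑ i : Fin 3, ∑ j : Fin 3,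
      ∫ v, abar g i j v * (ζ v * pd i (pd j g) v)) + ∫ v, ζ v * g v ^ 2 := by
    rw [w0_expand, integral_add, integral_finsetSum]
    · congr 1
      refine Finset.sum_congr rfl fun i _ => ?_
      rw [integral_finsetSum]
      exact fun j _ => I1 i j
    · exact fun i _ => integrable_finsetSum _ fun j _ => I1 i j
    · exact integrable_finsetSum _ fun i _ => integrable_finsetSum _ fun j _ => I1 i j
    · exact (hζ.continuous.mul (hg.cont.pow 2)).integrable_of_hasCompactSupport hc.mul_right
  have E1 : (∑ i : Fin 3, ∑ j : Fin 3, ∫ v, abar g i j v * (ζ v * pd i (pd j g) v)) =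
      ∑ i : Fin 3, ∑ j : Fin 3, ∫ v, abar g i j v * (ζ v * pd j (pd i g) v) := by
    rw [Finset.sum_comm]
    refine Finset.sum_congr rfl fun i _ => Finset.sum_congr rfl fun j _ => ?_
    refine integral_congr_ae (Eventually.of_forall fun v => ?_)
    simp only []
    rw [abar_symm g j i]
  have E2 : ∀ i : Fin 3, (∑ j : Fin 3, ∫ v, abar g i j v * (ζ v * pd j (pd i g) v)) =
      -(∑ j : Fin 3, ∫ v, abar g i j v * (pd j ζ v * pd i g v)) -
        ∫ v, bbar g i v * (ζ v * pd i g v) := by
    intro i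
    have h := bar_ibp_a g hg.int_g 1 hbd (fun v => ζ v * pd i g v) (hζ.mul (w0_c1 hg i))
      hc.mul_right i
    have h2 : ∀ j : Fin 3, ∫ v, abar g i j v * pd j (fun v => ζ v * pd i g v) v =
        (∫ v, abar g i j v * (ζ v * pd j (pd i g) v)) +
          ∫ v, abar g i j v * (pd j ζ v * pd i g v) := by
      intro j
      rw [← integral_add (I1' i j) (I2 i j)]
      refine integral_congr_ae (Eventually.of_forall fun v => ?_)
      simp only []
      rw [pd_mul (hζd v) ((w0_c1 hg i).differentiable (by norm_num) v) j]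
      ring
    rw [Finset.sum_congr rfl fun j _ => h2 j, Finset.sum_add_distrib] at h
    linarith
  have E3 : (∑ i : Fin 3, ∫ v, bbar g i v * (ζ v * pd i g v)) =
      (∫ v, ζ v * g v ^ 2) - ∑ i : Fin 3, ∫ v, bbar g i v * (g v * pd i ζ v) := by
    have h := bar_ibp_b g hg.int_g 1 hbd (fun v => ζ v * g v) (hζ.mul hg1) hc.mul_right
    have h2 : ∀ j : Fin 3, ∫ v, bbar g j v * pd j (fun v => ζ v * g v) v =
        (∫ v, bbar g j v * (ζ v * pd j g v)) + ∫ v, bbar g j v * (g v * pd j ζ v) := by
      intro j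
      rw [← integral_add (I3 j) (I4 j)]
      refine integral_congr_ae (Eventually.of_forall fun v => ?_)
      simp only []
      rw [pd_mul (hζd v) (hgd v) j]
      ring
    rw [Finset.sum_congr rfl fun j _ => h2 j, Finset.sum_add_distrib] at h
    have h3 : ∫ v, g v * (ζ v * g v) = ∫ v, ζ v * g v ^ 2 := by
      refine integral_congr_ae (Eventually.of_forall fun v => ?_)
      simp only []
      ring
    linarith
  have E4 : (∑ i : Fin 3, ∑ j : Fin 3, ∫ v, abar g i j v * (pd i ζ v * pd j g v)) =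
      ∑ i : Fin 3, ∑ j : Fin 3, ∫ v, abar g i j v * (pd j ζ v * pd i g v) := by
    rw [Finset.sum_comm]
    refine Finset.sum_congr rfl fun i _ => Finset.sum_congr rfl fun j _ => ?_
    refine integral_congr_ae (Eventually.of_forall fun v => ?_)
    simp only []
    rw [abar_symm g j i]
  rw [E0, E1, Finset.sum_congr rfl fun i _ => E2 i, Finset.sum_sub_distrib,
    Finset.sum_neg_distrib, E3, E4]
  ring

end Pool.Agent.Landau
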