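import Pool.Agent.Landau.Weak0

/-!
# Landau, module Weak1: symmetric weak form

Start from `QL_weak` with `ζ = φ`.  By `bar_ibp_a` with `G = g * pd i φ`
(`∂_j G = ∂_j g ∂_i φ + g ∂_j ∂_i φ`): `- ∑_j ∫ abar_ij ∂_i φ ∂_j g = ∫ bbar_i g ∂_i φ + ∑_j ∫ abar_ij g ∂_j ∂_i φ`.
So `∫ φ QL g = ∫∫ g g_* [2 ∑ b_i(v - w) ∂_i φ(v) + ∑ a_ij(v - w) ∂_i ∂_j φ(v)]` (Fubini,
`integrable_prod_inv` with `F = g * ∂φ`, `g * ∂∂φ`, `u = g`; rename `i, j` and use `aK_symm`).
Symmetrise in `(v, w)` (swap: `bK_neg`, `aK_neg`; `integral_prod_swap`), which gives `Kf φ v w`.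
-/

set_option autoImplicit false

namespace Pool.Agent.Landau

open MeasureTheory Set Filter Topology

namespace Weak1Aux

theorem int_b {g F : V → ℝ} (hg : Cls g) (hF : Continuous F) (hc : HasCompactSupport F)
    (i : Fin 3) : ∫ v, bbar g i v * F v =
      ∫ p : V × V, bK i (p.1 - p.2) * g p.2 * F p.1 ∂(volume.prod volume) := by
  rw [integral_prod _ (bars_int_b g hg.int_g F hF hc i)]
  refine integral_congr_ae (Eventually.of_forall fun v => ?_)
  unfold bbar
  simp only []
  rw [integral_mul_const]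

theorem int_a {g F : V → ℝ} (hg : Cls g) (hF : Continuous F) (hc : HasCompactSupport F)
    (i j : Fin 3) : ∫ v, abar g i j v * F v =
      ∫ p : V × V, aK i j (p.1 - p.2) * g p.2 * F p.1 ∂(volume.prod volume) := by
  rw [integral_prod _ (bars_int_a g hg.int_g F hF hc i j)]
  refine integral_congr_ae (Eventually.of_forall fun v => ?_)
  unfold abar
  simp only []
  rw [integral_mul_const]

theorem abs_le_one {g : V → ℝ} (hg : Cls g) (v : V) : |g v| ≤ 1 := by
  rw [abs_of_nonneg (hg.nonneg v)]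
  exact hg.le_one v

/-- integrability of a bounded measurable function against a continuous compactly supported one -/
theorem int_abar {g F : V → ℝ} (hg : Cls g) (hF : Continuous F) (hc : HasCompactSupport F)
    (i j : Fin 3) : Integrable (fun v => abar g i j v * F v) := by
  have h := (bars_int_a g hg.int_g F hF hc i j).integral_prod_left
  refine h.congr (Eventually.of_forall fun v => ?_)
  unfold abar
  simp only []
  rw [integral_mul_const]

end Weak1Aux

open Weak1Aux

theorem weak_sym (g : V → ℝ) (hg : Cls g) (φ : V → ℝ) (hφ : ContDiff ℝ (⊤ : ℕ∞) φ)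
    (hc : HasCompactSupport φ) :
    Integrable (fun p : V × V => g p.1 * g p.2 * Kf φ p.1 p.2) (volume.prod volume) ∧
      ∫ v, φ v * QL g v = ∫ p : V × V, g p.1 * g p.2 * Kf φ p.1 p.2 ∂(volume.prod volume) := by
  -- the test functions
  have hgc : Continuous g := hg.cont
  have hp1 : ∀ i, ContDiff ℝ (⊤ : ℕ∞) (pd i φ) := fun i => smooth_pd hφ i
  have hp2 : ∀ i j, ContDiff ℝ (⊤ : ℕ∞) (pd j (pd i φ)) := fun i j => smooth_pd (hp1 i) j
  have hF1 : ∀ i, Continuous (fun v => g v * pd i φ v) := fun i => hgc.mul (hp1 i).continuous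
  have hF2 : ∀ i j, Continuous (fun v => g v * pd j (pd i φ) v) := fun i j =>
    hgc.mul (hp2 i j).continuous
  have hF3 : ∀ i j, Continuous (fun v => pd i φ v * pd j g v) := fun i j =>
    (hp1 i).continuous.mul (smooth_pd hg.smooth j).continuous
  have hc1 : ∀ i, HasCompactSupport (fun v => g v * pd i φ v) := fun i =>
    (compact_pd hc i).mul_left
  have hc2 : ∀ i j, HasCompactSupport (fun v => g v * pd j (pd i φ) v) := fun i j =>
    (compact_pd (compact_pd hc i) j).mul_left
  have hc3 : ∀ i j, HasCompactSupport (fun v => pd i φ v * pd j g v) := fun i j =>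
    (compact_pd hc i).mul_right
  -- integration by parts
  have hibp : ∀ i, -(∑ j : Fin 3, ∫ v, abar g i j v * (pd i φ v * pd j g v)) =
      (∫ v, bbar g i v * (g v * pd i φ v)) +
        ∑ j : Fin 3, ∫ v, abar g i j v * (g v * pd j (pd i φ) v) := by
    intro i
    have h1 := bar_ibp_a g hg.int_g 1 (abs_le_one hg) (fun v => g v * pd i φ v)
      (contDiff_one_of_smooth (hg.smooth.mul (hp1 i))) (hc1 i) i
    have h2 : ∀ j : Fin 3, ∫ v, abar g i j v * pd j (fun v => g v * pd i φ v) v =
        (∫ v, abar g i j v * (g v * pd j (pd i φ) v)) +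
          ∫ v, abar g i j v * (pd i φ v * pd j g v) := by
      intro j
      rw [← integral_add (int_abar hg (hF2 i j) (hc2 i j) i j)
        (int_abar hg (hF3 i j) (hc3 i j) i j)]
      refine integral_congr_ae (Eventually.of_forall fun v => ?_)
      simp only []
      rw [pd_mul (differentiable_of_smooth hg.smooth v)
        (differentiable_of_smooth (hp1 i) v) j]
      ring
    rw [Finset.sum_congr rfl fun j _ => h2 j, Finset.sum_add_distrib] at h1
    linarith
  -- the nonsymmetric kernel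
  obtain ⟨Ψ, hΨ⟩ : ∃ Ψ : V × V → ℝ, Ψ = fun p => 2 * ∑ i : Fin 3,
      (bK i (p.1 - p.2) * g p.2 * (g p.1 * pd i φ p.1)) +
      ∑ i : Fin 3, ∑ j : Fin 3, (aK i j (p.1 - p.2) * g p.2 * (g p.1 * pd j (pd i φ) p.1)) :=
    ⟨_, rfl⟩
  have hIb : ∀ i, Integrable (fun p : V × V => bK i (p.1 - p.2) * g p.2 *
      (g p.1 * pd i φ p.1)) (volume.prod volume) := fun i =>
    bars_int_b g hg.int_g (fun v => g v * pd i φ v) (hF1 i) (hc1 i) i
  have hIa : ∀ i j, Integrable (fun p : V × V => aK i j (p.1 - p.2) * g p.2 *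
      (g p.1 * pd j (pd i φ) p.1)) (volume.prod volume) := fun i j =>
    bars_int_a g hg.int_g (fun v => g v * pd j (pd i φ) v) (hF2 i j) (hc2 i j) i j
  have hIb' : Integrable (fun p : V × V => ∑ i : Fin 3, (bK i (p.1 - p.2) * g p.2 *
      (g p.1 * pd i φ p.1))) (volume.prod volume) := integrable_finsetSum _ fun i _ => hIb i
  have hIa' : Integrable (fun p : V × V => ∑ i : Fin 3, ∑ j : Fin 3,
      (aK i j (p.1 - p.2) * g p.2 * (g p.1 * pd j (pd i φ) p.1))) (volume.prod volume) :=
    integrable_finsetSum _ fun i _ => integrable_finsetSum _ fun j _ => hIa i j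
  have hIΨ : Integrable Ψ (volume.prod volume) := by
    rw [hΨ]
    exact (hIb'.const_mul 2).add hIa'
  have hmain : ∫ v, φ v * QL g v = ∫ p, Ψ p ∂(volume.prod volume) := by
    rw [QL_weak g hg φ (contDiff_one_of_smooth hφ) hc, ← Finset.sum_neg_distrib,
      Finset.sum_congr rfl fun i _ => hibp i, Finset.sum_add_distrib, hΨ,
      integral_add (hIb'.const_mul 2) hIa', integral_const_mul,
      integral_finsetSum _ (fun i _ => hIb i),
      integral_finsetSum _ (fun i _ => integrable_finsetSum _ fun j _ => hIa i j)]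
    have h1 : ∀ i : Fin 3, ∫ p : V × V, bK i (p.1 - p.2) * g p.2 * (g p.1 * pd i φ p.1)
        ∂(volume.prod volume) = ∫ v, bbar g i v * (g v * pd i φ v) := fun i =>
      (int_b hg (hF1 i) (hc1 i) i).symm
    have h2 : ∀ i : Fin 3, ∫ p : V × V, ∑ j : Fin 3, (aK i j (p.1 - p.2) * g p.2 *
        (g p.1 * pd j (pd i φ) p.1)) ∂(volume.prod volume) =
        ∑ j : Fin 3, ∫ v, abar g i j v * (g v * pd j (pd i φ) v) := by
      intro i
      rw [integral_finsetSum _ (fun j _ => hIa i j)]
      exact Finset.sum_congr rfl fun j _ => (int_a hg (hF2 i j) (hc2 i j) i j).symm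
    rw [Finset.sum_congr rfl fun i _ => h1 i, Finset.sum_congr rfl fun i _ => h2 i]
    ring
  -- symmetrisation
  have hpt : ∀ p : V × V, g p.1 * g p.2 * Kf φ p.1 p.2 = (1 / 2) * (Ψ p + Ψ p.swap) := by
    rintro ⟨v, w⟩
    rw [hΨ]
    unfold Kf
    simp only [Prod.swap_prod_mk]
    rw [← neg_sub v w]
    simp only [bK_neg, aK_neg, Fin.sum_univ_three, aK_symm 1 0, aK_symm 2 0, aK_symm 2 1]
    ring
  have hIs : Integrable (fun p : V × V => Ψ p.swap) (volume.prod volume) := hIΨ.swap
  have hints : ∫ p : V × V, Ψ p.swap ∂(volume.prod volume) = ∫ p, Ψ p ∂(volume.prod volume) :=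
    integral_prod_swap Ψ
  constructor
  · simp only [hpt]
    exact (hIΨ.add hIs).const_mul _
  · simp only [hpt]
    rw [integral_const_mul, integral_add hIΨ hIs, hints, hmain]
    ring

end Pool.Agent.Landau
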